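import Mathlib
set_option autoImplicit false

namespace Pool.Agent.TwoSep

/-- there is an equivalent norm whose unit sphere contains no 2-separated sequence -/
def NoSep (X : Type*) [NormedAddCommGroup X] [NormedSpace ℝ X] : Prop :=
  ∃ p : Seminorm ℝ X, ∃ c C : ℝ, 0 < c ∧ (∀ x, c * ‖x‖ ≤ p x) ∧ (∀ x, p x ≤ C * ‖x‖) ∧
    ¬ ∃ f : ℕ → X, (∀ n, p (f n) = 1) ∧ ∀ n m, n ≠ m → 2 ≤ p (f n - f m)

end Pool.Agent.TwoSep
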