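import Pool.Agent.Helper76.TwoSepDefs
import Pool.Agent.Helper76.TwoSepNoSep
set_option autoImplicit false
open scoped ENNReal Topology

namespace Pool.Agent.TwoSep

section

theorem mink (a b c d : ℝ) :
    √((a + c) ^ 2 + (b + d) ^ 2) ≤ √(a ^ 2 + b ^ 2) + √(c ^ 2 + d ^ 2) := by
  have hs : 0 ≤ √(a ^ 2 + b ^ 2) := Real.sqrt_nonneg _
  have ht : 0 ≤ √(c ^ 2 + d ^ 2) := Real.sqrt_nonneg _
  have hs2 : √(a ^ 2 + b ^ 2) ^ 2 = a ^ 2 + b ^ 2 := Real.sq_sqrt (by positivity)
  have ht2 : √(c ^ 2 + d ^ 2) ^ 2 = c ^ 2 + d ^ 2 := Real.sq_sqrt (by positivity)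
  apply Real.sqrt_le_iff.2
  refine ⟨by positivity, ?_⟩
  have h1 : a * c + b * d ≤ √(a ^ 2 + b ^ 2) * √(c ^ 2 + d ^ 2) := by
    apply le_of_sq_le_sq _ (by positivity)
    rw [mul_pow, hs2, ht2]
    nlinarith [sq_nonneg (a * d - b * c)]
  nlinarith [h1, hs2, ht2]

theorem eq_case {a b c d A B : ℝ} (ha : 0 ≤ a) (hb : 0 ≤ b) (hc : 0 ≤ c) (hd : 0 ≤ d)
    (hA : 0 ≤ A) (hB : 0 ≤ B) (h1 : a ^ 2 + b ^ 2 = 1) (h2 : c ^ 2 + d ^ 2 = 1)
    (hA' : A ≤ a + c) (hB' : B ≤ b + d) (h : 4 ≤ A ^ 2 + B ^ 2) :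
    a = c ∧ b = d ∧ A = 2 * a ∧ B = 2 * b := by
  have e1 : A ^ 2 ≤ (a + c) ^ 2 := by nlinarith
  have e2 : B ^ 2 ≤ (b + d) ^ 2 := by nlinarith
  have e3 : (a - c) ^ 2 + (b - d) ^ 2 ≤ 0 := by nlinarith
  have e4 : a = c := by
    have : (a - c) ^ 2 = 0 := le_antisymm (by nlinarith [sq_nonneg (b - d)]) (sq_nonneg _)
    have := pow_eq_zero_iff (two_ne_zero) |>.1 this
    linarith
  have e5 : b = d := by
    have : (b - d) ^ 2 = 0 := le_antisymm (by nlinarith [sq_nonneg (a - c)]) (sq_nonneg _)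
    have := pow_eq_zero_iff (two_ne_zero) |>.1 this
    linarith
  subst e4 e5
  refine ⟨rfl, rfl, ?_, ?_⟩
  · have : (2 * a) ^ 2 ≤ A ^ 2 := by nlinarith
    have := abs_le_of_sq_le_sq' this hA
    exact le_antisymm (by linarith) (by linarith [this.2])
  · have : (2 * b) ^ 2 ≤ B ^ 2 := by nlinarith
    have := abs_le_of_sq_le_sq' this hB
    exact le_antisymm (by linarith) (by linarith [this.2])

variable {X : Type*} [NormedAddCommGroup X] [NormedSpace ℝ X]

/-- Extension of a seminorm from a subspace. -/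
theorem exists_ext (Z : Submodule ℝ X) (p : Seminorm ℝ Z) (c C : ℝ) (hc : 0 < c) (hC : 0 < C)
    (h1 : ∀ x, c * ‖x‖ ≤ p x) (h2 : ∀ x, p x ≤ C * ‖x‖) :
    ∃ N : Seminorm ℝ X, (∀ x, min c C * ‖x‖ ≤ N x) ∧ (∀ x, N x ≤ C * ‖x‖) ∧
      ∀ z : Z, N (z : X) = p z := by
  set f : X → ℝ := fun x => ⨅ z : Z, (p z + C * ‖x - (z : X)‖) with hf
  have hbdd : ∀ x : X, BddBelow (Set.range fun z : Z => p z + C * ‖x - (z : X)‖) := by
    intro x
    refine ⟨0, ?_⟩
    rintro _ ⟨z, rfl⟩
    have := apply_nonneg p z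
    positivity
  have hle : ∀ (x : X) (z : Z), f x ≤ p z + C * ‖x - (z : X)‖ := fun x z =>
    ciInf_le (hbdd x) z
  have hupper : ∀ x, f x ≤ C * ‖x‖ := by
    intro x
    have := hle x 0
    simpa using this
  have hnn : ∀ x, 0 ≤ f x := by
    intro x
    apply le_ciInf
    intro z
    have := apply_nonneg p z
    positivity
  have hadd : ∀ x y, f (x + y) ≤ f x + f y := by
    intro x y
    apply le_ciInf_add_ciInf
    intro z z'
    refine (hle (x + y) (z + z')).trans ?_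
    have e1 : p (z + z') ≤ p z + p z' := map_add_le_add p z z'
    have e2 : ‖x + y - ((z + z' : Z) : X)‖ ≤ ‖x - (z : X)‖ + ‖y - (z' : X)‖ := by
      have : x + y - ((z + z' : Z) : X) = (x - (z : X)) + (y - (z' : X)) := by
        rw [Submodule.coe_add]; abel
      rw [this]
      exact norm_add_le _ _
    nlinarith [mul_le_mul_of_nonneg_left e2 hC.le]
  have hsmul : ∀ (r : ℝ) (x : X), f (r • x) ≤ ‖r‖ * f x := by
    intro r x
    rw [hf]
    simp only []
    rw [Real.mul_iInf_of_nonneg (norm_nonneg r)]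
    apply le_ciInf
    intro z
    refine (hle (r • x) (r • z)).trans (le_of_eq ?_)
    rw [map_smul_eq_mul, Submodule.coe_smul, ← smul_sub, norm_smul]
    ring
  let N : Seminorm ℝ X := Seminorm.ofSMulLE f
    (le_antisymm (by simpa using hupper 0) (hnn 0)) hadd hsmul
  have hN : ∀ x, N x = f x := fun _ => rfl
  refine ⟨N, ?_, ?_, ?_⟩
  · intro x
    rw [hN]
    apply le_ciInf
    intro z
    have e1 := h1 z
    have e2 : ‖x‖ ≤ ‖(z : X)‖ + ‖x - (z : X)‖ := by
      have : x = (z : X) + (x - (z : X)) := by abel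
      calc ‖x‖ = ‖(z : X) + (x - (z : X))‖ := by rw [← this]
        _ ≤ _ := norm_add_le _ _
    have e3 : min c C * ‖(z : X)‖ ≤ c * ‖(z : X)‖ :=
      mul_le_mul_of_nonneg_right (min_le_left _ _) (norm_nonneg _)
    have e4 : min c C * ‖x - (z : X)‖ ≤ C * ‖x - (z : X)‖ :=
      mul_le_mul_of_nonneg_right (min_le_right _ _) (norm_nonneg _)
    have e5 : 0 ≤ min c C := le_min hc.le hC.le
    have e6 : ‖z‖ = ‖(z : X)‖ := rfl
    rw [e6] at e1
    nlinarith [mul_le_mul_of_nonneg_left e2 e5]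
  · intro x
    rw [hN]
    exact hupper x
  · intro z
    rw [hN]
    apply le_antisymm
    · have := hle z z
      simpa using this
    · apply le_ciInf
      intro z'
      have e1 : p z ≤ p z' + p (z - z') := by
        have := map_add_le_add p z' (z - z')
        rwa [add_sub_cancel] at this
      have e2 := h2 (z - z')
      have e3 : ‖z - z'‖ = ‖(z : X) - (z' : X)‖ := rfl
      rw [e3] at e2
      linarith

end

/-- MODULE H -/
theorem threeSpace {X W : Type*} [NormedAddCommGroup X] [NormedSpace ℝ X] [NormedAddCommGroup W]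
    [NormedSpace ℝ W] (S : X →L[ℝ] W) (hW : NoSep W)
    (hk : NoSep (LinearMap.ker (S : X →ₗ[ℝ] W))) : NoSep X := by
  obtain ⟨pW, cW, CW, hcW, hW1, hW2, hW3⟩ := hW
  obtain ⟨p0, c0, C0, hc0, hk1, hk2, hk3⟩ := hk
  set C : ℝ := max C0 1 with hC
  have hCpos : 0 < C := lt_of_lt_of_le one_pos (le_max_right _ _)
  have hk2' : ∀ x, p0 x ≤ C * ‖x‖ := fun x =>
    (hk2 x).trans (mul_le_mul_of_nonneg_right (le_max_left _ _) (norm_nonneg _))
  obtain ⟨N, hN1, hN2, hN3⟩ := exists_ext _ p0 c0 C hc0 hCpos hk1 hk2'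
  have hNn : ∀ x, 0 ≤ N x := fun x => apply_nonneg N x
  have hWn : ∀ x, 0 ≤ pW x := fun x => apply_nonneg pW x
  let p : Seminorm ℝ X := Seminorm.ofSMulLE (fun x => √(N x ^ 2 + pW (S x) ^ 2))
    (by simp) (by
      intro x y
      refine le_trans (Real.sqrt_le_sqrt ?_) (mink (N x) (pW (S x)) (N y) (pW (S y)))
      have e1 : N (x + y) ≤ N x + N y := map_add_le_add N x y
      have e2 : pW (S (x + y)) ≤ pW (S x) + pW (S y) := by
        rw [map_add]
        exact map_add_le_add pW _ _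
      have e3 := hNn (x + y)
      have e4 := hWn (S (x + y))
      nlinarith) (by
      intro r x
      have e1 : N (r • x) ^ 2 + pW (S (r • x)) ^ 2 = ‖r‖ ^ 2 * (N x ^ 2 + pW (S x) ^ 2) := by
        rw [map_smul_eq_mul N, S.map_smul, map_smul_eq_mul pW]
        ring
      rw [e1, Real.sqrt_mul (by positivity), Real.sqrt_sq (norm_nonneg _)])
  have hp : ∀ x, p x = √(N x ^ 2 + pW (S x) ^ 2) := fun _ => rfl
  have hp2 : ∀ x, p x ^ 2 = N x ^ 2 + pW (S x) ^ 2 := fun x => by
    rw [hp, Real.sq_sqrt (by positivity)]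
  refine ⟨p, min c0 C, C + |CW| * ‖S‖, lt_min hc0 hCpos, ?_, ?_, ?_⟩
  · intro x
    refine (hN1 x).trans ?_
    rw [hp]
    apply Real.le_sqrt_of_sq_le
    nlinarith [sq_nonneg (pW (S x))]
  · intro x
    have e1 : p x ≤ N x + pW (S x) := by
      rw [hp]
      apply Real.sqrt_le_iff.2
      refine ⟨add_nonneg (hNn x) (hWn _), ?_⟩
      nlinarith [mul_nonneg (hNn x) (hWn (S x))]
    have e2 : pW (S x) ≤ |CW| * ‖S‖ * ‖x‖ := by
      calc pW (S x) ≤ CW * ‖S x‖ := hW2 _
        _ ≤ |CW| * ‖S x‖ := mul_le_mul_of_nonneg_right (le_abs_self _) (norm_nonneg _)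
        _ ≤ |CW| * (‖S‖ * ‖x‖) := mul_le_mul_of_nonneg_left (S.le_opNorm x) (abs_nonneg _)
        _ = |CW| * ‖S‖ * ‖x‖ := by ring
    have e3 := hN2 x
    nlinarith
  · rintro ⟨f, hf1, hf2⟩
    have hunit : ∀ n, N (f n) ^ 2 + pW (S (f n)) ^ 2 = 1 := by
      intro n
      rw [← hp2, hf1, one_pow]
    have key : ∀ n m, n ≠ m → N (f n) = N (f m) ∧ pW (S (f n)) = pW (S (f m)) ∧
        N (f n - f m) = 2 * N (f n) ∧ pW (S (f n - f m)) = 2 * pW (S (f n)) := by
      intro n m hnm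
      refine eq_case (hNn _) (hWn _) (hNn _) (hWn _) (hNn _) (hWn _) (hunit n) (hunit m)
        (map_sub_le_add N _ _) ?_ ?_
      · rw [map_sub]
        exact map_sub_le_add pW _ _
      · rw [← hp2]
        have := hf2 n m hnm
        nlinarith
    have hb : ∀ n, pW (S (f n)) = pW (S (f 0)) := by
      intro n
      by_cases h : n = 0
      · rw [h]
      · exact (key n 0 h).2.1
    rcases (hWn (S (f 0))).eq_or_lt with h0 | h0
    · -- all `f n` are in the kernel
      have hker : ∀ n, f n ∈ LinearMap.ker (S : X →ₗ[ℝ] W) := by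
        intro n
        have e1 := hW1 (S (f n))
        rw [hb n, ← h0] at e1
        have e2 := nonpos_of_mul_nonpos_right e1 hcW
        exact norm_le_zero_iff.1 e2
      apply hk3
      refine ⟨fun n => ⟨f n, hker n⟩, ?_, ?_⟩
      · intro n
        rw [← hN3]
        have e1 := hunit n
        rw [hb n, ← h0] at e1
        have e2 : N (f n) ^ 2 = 1 := by linarith
        have e3 := hNn (f n)
        change N (f n) = 1
        nlinarith
      · intro n m hnm
        rw [← hN3]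
        have e1 := (key n m hnm).2.2.1
        have e4 := hunit n
        rw [hb n, ← h0] at e4
        have e2 : N (f n) ^ 2 = 1 := by linarith
        have e3 := hNn (f n)
        have e5 : N (f n) = 1 := by nlinarith
        change 2 ≤ N (f n - f m)
        rw [e1, e5]
        norm_num
    · apply hW3
      set r := pW (S (f 0)) with hr
      refine ⟨fun n => r⁻¹ • S (f n), ?_, ?_⟩
      · intro n
        rw [map_smul_eq_mul, hb n, norm_inv, Real.norm_of_nonneg h0.le, inv_mul_cancel₀ h0.ne']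
      · intro n m hnm
        rw [← smul_sub, ← map_sub, map_smul_eq_mul, (key n m hnm).2.2.2, hb n, norm_inv,
          Real.norm_of_nonneg h0.le]
        have : r⁻¹ * (2 * r) = 2 := by
          field_simp
        rw [this]

end Pool.Agent.TwoSep
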