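import Mathlib

set_option autoImplicit false
open MeasureTheory

/-! Definitions shared by all modules for MP_a59212_an. -/

namespace Pool.Agent.Ball

variable {n : ℕ}

/-- squared Euclidean norm on `ℂⁿ` -/
noncomputable def nsq (z : Fin n → ℂ) : ℝ := ∑ i, ‖z i‖ ^ 2

/-- Hermitian product, linear in the first variable -/
noncomputable def ip (z a : Fin n → ℂ) : ℂ := ∑ i, z i * starRingEnd ℂ (a i)

/-- `√(1-|a|²)` -/
noncomputable def sq (a : Fin n → ℂ) : ℝ := Real.sqrt (1 - nsq a)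

/-- `Ω_a z = s_a z + ⟨z,a⟩ a / (1+s_a)` -/
noncomputable def Om (a z : Fin n → ℂ) : Fin n → ℂ :=
  fun i => (sq a : ℂ) * z i + ip z a / (1 + (sq a : ℂ)) * a i

/-- `Λ_a z = z - ⟨z,a⟩ a / (1+s_a)`, so that `Ω_a Λ_a = s_a` -/
noncomputable def Lam (a z : Fin n → ℂ) : Fin n → ℂ :=
  fun i => z i - ip z a / (1 + (sq a : ℂ)) * a i

/-- the Moebius involution `φ_a(z) = (a - Ω_a z)/(1-⟨z,a⟩)` -/
noncomputable def mob (a z : Fin n → ℂ) : Fin n → ℂ :=
  fun i => (a i - Om a z i) / (1 - ip z a)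

/-- the closed unit ball, in the form used by the frozen statement -/
abbrev CB (n : ℕ) := {z : Fin n → ℂ // ∑ i, ‖z i‖ ^ 2 ≤ 1}

/-- the unitary group -/
abbrev UG (n : ℕ) := Matrix.unitaryGroup (Fin n) ℂ

/-- action of a matrix on a vector -/
noncomputable abbrev mv (U : Matrix (Fin n) (Fin n) ℂ) (z : Fin n → ℂ) : Fin n → ℂ := U.mulVec z

end Pool.Agent.Ball
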