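import Pool.Agent.Helper76.Ball0

set_option autoImplicit false
open MeasureTheory

/-! Moebius algebra on the ball. -/

namespace Pool.Agent.Ball

variable {n : ℕ}

open ComplexConjugate

lemma nsq_nonneg (z : Fin n → ℂ) : 0 ≤ nsq z := Finset.sum_nonneg fun _ _ => sq_nonneg _

lemma ip_self (z : Fin n → ℂ) : ip z z = (nsq z : ℂ) := by
  simp only [ip, nsq, Complex.ofReal_sum]
  refine Finset.sum_congr rfl fun i _ => ?_
  rw [Complex.mul_conj, Complex.normSq_eq_norm_sq]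

lemma conj_ip (z a : Fin n → ℂ) : conj (ip z a) = ip a z := by
  simp only [ip, map_sum, map_mul, Complex.conj_conj]
  exact Finset.sum_congr rfl fun i _ => mul_comm _ _

lemma ip_zero_left (a : Fin n → ℂ) : ip 0 a = 0 := by simp [ip]

lemma ip_zero_right (a : Fin n → ℂ) : ip a 0 = 0 := by simp [ip]

lemma nsq_zero : nsq (0 : Fin n → ℂ) = 0 := by simp [nsq]

lemma nsq_eq_zero {z : Fin n → ℂ} (h : nsq z = 0) : z = 0 := by
  have := (Finset.sum_eq_zero_iff_of_nonneg (fun i _ => sq_nonneg (‖z i‖))).1 h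
  funext i
  have h2 := this i (Finset.mem_univ _)
  simpa using h2

lemma ip_lin_left (c d : ℂ) (z w a : Fin n → ℂ) :
    ip (fun i => c * z i + d * w i) a = c * ip z a + d * ip w a := by
  simp only [ip, Finset.mul_sum, ← Finset.sum_add_distrib]
  exact Finset.sum_congr rfl fun i _ => by ring

lemma ip_lin_right (c d : ℂ) (z w a : Fin n → ℂ) :
    ip a (fun i => c * z i + d * w i) = conj c * ip a z + conj d * ip a w := by
  simp only [ip, Finset.mul_sum, ← Finset.sum_add_distrib]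
  exact Finset.sum_congr rfl fun i _ => by simp only [map_add, map_mul]; ring

lemma norm_ip_sq_le (z a : Fin n → ℂ) : ‖ip z a‖ ^ 2 ≤ nsq z * nsq a := by
  have h1 : ‖ip z a‖ ≤ ∑ i, ‖z i‖ * ‖a i‖ := by
    refine (norm_sum_le _ _).trans (le_of_eq ?_)
    exact Finset.sum_congr rfl fun i _ => by rw [norm_mul, RCLike.norm_conj]
  have h2 : (∑ i, ‖z i‖ * ‖a i‖) ^ 2 ≤ nsq z * nsq a := Finset.sum_mul_sq_le_sq_mul_sq _ _ _
  exact (pow_le_pow_left₀ (norm_nonneg _) h1 2).trans h2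

lemma norm_ip_lt_one {z a : Fin n → ℂ} (hz : nsq z ≤ 1) (ha : nsq a < 1) : ‖ip z a‖ < 1 := by
  have h := norm_ip_sq_le z a
  have h2 : ‖ip z a‖ ^ 2 < 1 := by
    refine h.trans_lt ?_
    nlinarith [nsq_nonneg z, nsq_nonneg a]
  nlinarith [norm_nonneg (ip z a)]

lemma norm_ip_le_one {z a : Fin n → ℂ} (hz : nsq z ≤ 1) (ha : nsq a ≤ 1) : ‖ip z a‖ ≤ 1 := by
  have h := norm_ip_sq_le z a
  have h2 : ‖ip z a‖ ^ 2 ≤ 1 := by
    refine h.trans ?_
    nlinarith [nsq_nonneg z, nsq_nonneg a]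
  nlinarith [norm_nonneg (ip z a)]

lemma norm_ip_comm (z a : Fin n → ℂ) : ‖ip z a‖ = ‖ip a z‖ := by
  rw [← conj_ip a z, RCLike.norm_conj]

lemma ip_ne_one {z a : Fin n → ℂ} (hz : nsq z ≤ 1) (ha : nsq a < 1) : ip z a ≠ 1 := by
  intro h
  have := norm_ip_lt_one hz ha
  rw [h] at this
  simp at this

lemma ip_ne_one' {z a : Fin n → ℂ} (hz : nsq z < 1) (ha : nsq a ≤ 1) : ip z a ≠ 1 := by
  intro h
  have := norm_ip_lt_one ha hz
  rw [norm_ip_comm, h] at this
  simp at this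

lemma one_sub_ip_ne {z a : Fin n → ℂ} (hz : nsq z ≤ 1) (ha : nsq a < 1) : 1 - ip z a ≠ 0 :=
  sub_ne_zero.2 (ip_ne_one hz ha).symm

lemma one_sub_ip_ne' {z a : Fin n → ℂ} (hz : nsq z < 1) (ha : nsq a ≤ 1) : 1 - ip z a ≠ 0 :=
  sub_ne_zero.2 (ip_ne_one' hz ha).symm

/-- if `⟨z,a⟩ = 1` in the closed ball then `z = a` -/
lemma eq_of_ip_eq_one {z a : Fin n → ℂ} (hz : nsq z ≤ 1) (ha : nsq a ≤ 1) (h : ip z a = 1) :
    z = a := by
  have h' : ip a z = 1 := by rw [← conj_ip, h]; simp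
  have e : ip (fun i => 1 * z i + (-1) * a i) (fun i => 1 * z i + (-1) * a i)
      = (nsq z : ℂ) + nsq a - 2 := by
    rw [ip_lin_left, ip_lin_right, ip_lin_right, ip_self, ip_self, h, h']
    simp only [map_one, map_neg]
    ring
  rw [ip_self] at e
  have e2 : nsq (fun i => 1 * z i + (-1) * a i) = nsq z + nsq a - 2 := by exact_mod_cast e
  have e3 : nsq (fun i => 1 * z i + (-1) * a i) = 0 := by
    have := nsq_nonneg (fun i => 1 * z i + (-1) * a i)
    linarith
  have := nsq_eq_zero e3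
  funext i
  have hi := congrFun this i
  simp only [one_mul, neg_mul, Pi.zero_apply] at hi
  linear_combination hi

lemma sq_nn (a : Fin n → ℂ) : 0 ≤ sq a := Real.sqrt_nonneg _

lemma sq_sq {a : Fin n → ℂ} (ha : nsq a ≤ 1) : sq a ^ 2 = 1 - nsq a :=
  Real.sq_sqrt (by linarith)

lemma sq_pos {a : Fin n → ℂ} (ha : nsq a < 1) : 0 < sq a := Real.sqrt_pos.2 (by linarith)

lemma sq_le_one (a : Fin n → ℂ) : sq a ≤ 1 := by
  have := nsq_nonneg a
  exact Real.sqrt_le_one.2 (by linarith)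

lemma one_add_sq_ne (a : Fin n → ℂ) : (1 + (sq a : ℂ)) ≠ 0 := by
  have := sq_nn a
  have h : (0 : ℝ) < 1 + sq a := by linarith
  exact_mod_cast h.ne'

lemma sq_sqC {a : Fin n → ℂ} (ha : nsq a ≤ 1) : (sq a : ℂ) ^ 2 = 1 - (nsq a : ℂ) := by
  exact_mod_cast sq_sq ha

/-- the numerator of `mob` -/
lemma mob_num (a z : Fin n → ℂ) : (fun i => a i - Om a z i) =
    fun i => (1 - ip z a / (1 + (sq a : ℂ))) * a i + (-(sq a : ℂ)) * z i := by
  funext i
  simp only [Om]
  ring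

lemma mob_eq (a z : Fin n → ℂ) : mob a z =
    fun i => ((1 - ip z a / (1 + (sq a : ℂ))) / (1 - ip z a)) * a i
      + (-(sq a : ℂ) / (1 - ip z a)) * z i := by
  funext i
  simp only [mob, Om]
  ring

lemma ip_mob {a z : Fin n → ℂ} (ha : nsq a ≤ 1) :
    ip (mob a z) a = ((nsq a : ℂ) - ip z a) / (1 - ip z a) := by
  have hs := sq_sqC ha
  have h1 := one_add_sq_ne a
  rw [mob_eq, ip_lin_left, ip_self]
  have hA : (nsq a : ℂ) = 1 - (sq a : ℂ) ^ 2 := by rw [hs]; ring
  rw [hA]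
  by_cases h : 1 - ip z a = 0
  · rw [h]; simp
  · field_simp
    ring

/-- `1 - ⟨φ_a(z),a⟩ = (1-|a|²)/(1-⟨z,a⟩)` -/
lemma one_sub_ip_mob {a z : Fin n → ℂ} (ha : nsq a ≤ 1) (h : ip z a ≠ 1) :
    1 - ip (mob a z) a = (1 - (nsq a : ℂ)) / (1 - ip z a) := by
  have h' : 1 - ip z a ≠ 0 := sub_ne_zero.2 h.symm
  rw [ip_mob ha]
  field_simp
  ring

lemma mob_nsqC {a z : Fin n → ℂ} (ha : nsq a ≤ 1) (h : ip z a ≠ 1) :
    1 - (nsq (mob a z) : ℂ) = (1 - (nsq a : ℂ)) * (1 - (nsq z : ℂ)) /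
      ((1 - ip z a) * (1 - ip a z)) := by
  have hs := sq_sqC ha
  have h1 := one_add_sq_ne a
  have h' : 1 - ip z a ≠ 0 := sub_ne_zero.2 h.symm
  have h'' : 1 - ip a z ≠ 0 := by
    rw [← conj_ip z a]
    intro h0
    apply h'
    have := congrArg conj h0
    simpa using this
  have hA : (nsq a : ℂ) = 1 - (sq a : ℂ) ^ 2 := by rw [hs]; ring
  rw [← ip_self (mob a z), mob_eq, ip_lin_left, ip_lin_right, ip_lin_right, ip_self, ip_self]
  simp only [map_div₀, map_sub, map_neg, map_add, map_one, Complex.conj_ofReal, conj_ip]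
  rw [hA]
  field_simp
  ring

/-- `1 - |φ_a(z)|² = (1-|a|²)(1-|z|²)/|1-⟨z,a⟩|²` -/
lemma mob_nsq {a z : Fin n → ℂ} (ha : nsq a ≤ 1) (h : ip z a ≠ 1) :
    1 - nsq (mob a z) = (1 - nsq a) * (1 - nsq z) / ‖1 - ip z a‖ ^ 2 := by
  have h1 := mob_nsqC ha h
  have h2 : (1 - ip z a) * (1 - ip a z) = ((‖1 - ip z a‖ ^ 2 : ℝ) : ℂ) := by
    rw [← conj_ip z a]
    have : (1 - conj (ip z a)) = conj (1 - ip z a) := by simp
    rw [this, Complex.mul_conj, Complex.normSq_eq_norm_sq]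
  rw [h2] at h1
  exact_mod_cast h1

lemma mob_of_ip_eq_one {a z : Fin n → ℂ} (h : ip z a = 1) : mob a z = 0 := by
  funext i
  simp [mob, h]

lemma mob_mem {a z : Fin n → ℂ} (ha : nsq a ≤ 1) (hz : nsq z ≤ 1) : nsq (mob a z) ≤ 1 := by
  by_cases h : ip z a = 1
  · rw [mob_of_ip_eq_one h, nsq_zero]; norm_num
  · have h1 := mob_nsq ha h
    have : 0 ≤ (1 - nsq a) * (1 - nsq z) / ‖1 - ip z a‖ ^ 2 :=
      div_nonneg (mul_nonneg (by linarith) (by linarith)) (by positivity)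
    linarith

lemma mob_mem_open {a z : Fin n → ℂ} (ha : nsq a < 1) (hz : nsq z < 1) : nsq (mob a z) < 1 := by
  have h := ip_ne_one hz.le ha
  have h1 := mob_nsq ha.le h
  have : 0 < (1 - nsq a) * (1 - nsq z) / ‖1 - ip z a‖ ^ 2 :=
    div_pos (mul_pos (by linarith) (by linarith))
      (pow_pos (norm_pos_iff.2 (sub_ne_zero.2 h.symm)) 2)
  linarith

lemma mob_sphere {a z : Fin n → ℂ} (ha : nsq a < 1) (hz : nsq z = 1) : nsq (mob a z) = 1 := by
  have h := ip_ne_one hz.le ha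
  have h1 := mob_nsq ha.le h
  rw [hz] at h1
  simp at h1
  linarith

lemma Om_mob {a z : Fin n → ℂ} (ha : nsq a ≤ 1) (h : ip z a ≠ 1) :
    Om a (mob a z) = fun i => a i - (1 - (nsq a : ℂ)) / (1 - ip z a) * z i := by
  have hs := sq_sqC ha
  have h1 := one_add_sq_ne a
  have h' : 1 - ip z a ≠ 0 := sub_ne_zero.2 h.symm
  have hA : (nsq a : ℂ) = 1 - (sq a : ℂ) ^ 2 := by rw [hs]; ring
  funext i
  rw [Om, ip_mob ha]
  simp only [mob, Om]
  rw [hA]
  field_simp
  ring

lemma Lam_mob {a z : Fin n → ℂ} (ha : nsq a ≤ 1) (h : ip z a ≠ 1) :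
    Lam a (mob a z) = fun i => (sq a : ℂ) / (1 - ip z a) * (a i - z i) := by
  have hs := sq_sqC ha
  have h1 := one_add_sq_ne a
  have h' : 1 - ip z a ≠ 0 := sub_ne_zero.2 h.symm
  have hA : (nsq a : ℂ) = 1 - (sq a : ℂ) ^ 2 := by rw [hs]; ring
  funext i
  rw [Lam, ip_mob ha]
  simp only [mob, Om]
  rw [hA]
  field_simp
  ring

/-- `φ_a` is an involution -/
lemma mob_mob {a z : Fin n → ℂ} (ha : nsq a < 1) (h : ip z a ≠ 1) : mob a (mob a z) = z := by
  have h' : 1 - ip z a ≠ 0 := sub_ne_zero.2 h.symm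
  have hA : (1 : ℂ) - (nsq a : ℂ) ≠ 0 := by
    have : (0 : ℝ) < 1 - nsq a := by linarith
    exact_mod_cast this.ne'
  funext i
  have e1 := one_sub_ip_mob ha.le h
  have e2 := congrFun (Om_mob ha.le h) i
  rw [mob, e1, e2]
  field_simp
  ring

lemma mob_zero_right (a : Fin n → ℂ) : mob a 0 = a := by
  funext i
  simp [mob, Om, ip_zero_left]

lemma mob_zero_left (z : Fin n → ℂ) : mob 0 z = -z := by
  funext i
  simp [mob, Om, ip_zero_right, sq, nsq_zero]

lemma mob_self {a : Fin n → ℂ} (ha : nsq a < 1) : mob a a = 0 := by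
  have h : ip (0 : Fin n → ℂ) a ≠ 1 := by simp [ip_zero_left]
  have := mob_mob ha h
  rwa [mob_zero_right] at this

/-- on the sphere: `φ_ζ ≡ ζ` (away from the bad point) -/
lemma mob_of_sphere_left {a z : Fin n → ℂ} (ha : nsq a = 1) (h : ip z a ≠ 1) : mob a z = a := by
  have h' : 1 - ip z a ≠ 0 := sub_ne_zero.2 h.symm
  funext i
  have hs : sq a = 0 := by simp [sq, ha]
  simp only [mob, Om, hs]
  simp only [Complex.ofReal_zero, zero_mul, add_zero, zero_add]
  field_simp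

lemma nsq_mob_comm {a z : Fin n → ℂ} (ha : nsq a ≤ 1) (hz : nsq z ≤ 1) (h : ip z a ≠ 1) :
    nsq (mob a z) = nsq (mob z a) := by
  have h' : ip a z ≠ 1 := by
    intro h0
    apply h
    rw [← conj_ip, h0]; simp
  have e1 := mob_nsq ha h
  have e2 := mob_nsq hz h'
  have : ‖1 - ip z a‖ = ‖1 - ip a z‖ := by
    rw [← conj_ip a z]
    have : (1 - conj (ip a z)) = conj (1 - ip a z) := by simp
    rw [this, RCLike.norm_conj]
  rw [this] at e1
  rw [mul_comm (1 - nsq a)] at e1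
  linarith

/-- with `a = φ_z(ξ)`: `|φ_a(z)| = |ξ|` -/
lemma nsq_mob_mob {z x : Fin n → ℂ} (hz : nsq z < 1) (hx : nsq x < 1) :
    nsq (mob (mob z x) z) = nsq x := by
  have ha := mob_mem_open hz hx
  have h := ip_ne_one hz.le ha
  rw [nsq_mob_comm ha.le hz.le h, mob_mob hz (ip_ne_one hx.le hz)]

lemma kern_Om {z x : Fin n → ℂ} (hz : nsq z < 1) (hx : nsq x < 1) :
    ip (Om (mob z x) (mob (mob z x) z)) z =
      ((nsq x : ℂ) * nsq z - ip x z) / (1 - ip x z) := by
  have ha := mob_mem_open hz hx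
  have h := ip_ne_one hz.le ha
  have hxz := ip_ne_one hx.le hz
  have hxz' : 1 - ip x z ≠ 0 := sub_ne_zero.2 hxz.symm
  have hzx' : 1 - ip z x ≠ 0 := one_sub_ip_ne' hz hx.le
  have hZ : (1 : ℂ) - (nsq z : ℂ) ≠ 0 := by
    have : (0 : ℝ) < 1 - nsq z := by linarith
    exact_mod_cast this.ne'
  rw [Om_mob ha.le h]
  have e0 : (fun i => mob z x i - (1 - (nsq (mob z x) : ℂ)) / (1 - ip z (mob z x)) * z i) =
      fun i => 1 * mob z x i + (-((1 - (nsq (mob z x) : ℂ)) / (1 - ip z (mob z x)))) * z i := by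
    funext i; ring
  rw [e0, ip_lin_left, ip_self, ip_mob hz.le, mob_nsqC hz.le hxz]
  have e1 : 1 - ip z (mob z x) = (1 - (nsq z : ℂ)) / (1 - ip z x) := by
    have := congrArg conj (one_sub_ip_mob hz.le hxz)
    simpa [conj_ip] using this
  rw [e1]
  field_simp
  ring

lemma kern_Lam {z x : Fin n → ℂ} (hz : nsq z < 1) (hx : nsq x < 1) :
    ip z (Lam (mob z x) (mob (mob z x) z)) =
      -(sq (mob z x) : ℂ) * ip z x * (1 - ip x z) / (1 - ip z x) := by
  have ha := mob_mem_open hz hx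
  have h := ip_ne_one hz.le ha
  have hxz := ip_ne_one hx.le hz
  have hxz' : 1 - ip x z ≠ 0 := sub_ne_zero.2 hxz.symm
  have hzx' : 1 - ip z x ≠ 0 := one_sub_ip_ne' hz hx.le
  have hZ : (1 : ℂ) - (nsq z : ℂ) ≠ 0 := by
    have : (0 : ℝ) < 1 - nsq z := by linarith
    exact_mod_cast this.ne'
  rw [Lam_mob ha.le h]
  have e0 : (fun i => (sq (mob z x) : ℂ) / (1 - ip z (mob z x)) * (mob z x i - z i)) =
      fun i => (sq (mob z x) : ℂ) / (1 - ip z (mob z x)) * mob z x i +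
        (-((sq (mob z x) : ℂ) / (1 - ip z (mob z x)))) * z i := by
    funext i; ring
  have e1 : 1 - ip z (mob z x) = (1 - (nsq z : ℂ)) / (1 - ip z x) := by
    have := congrArg conj (one_sub_ip_mob hz.le hxz)
    simpa [conj_ip] using this
  have e2 : ip z (mob z x) = 1 - (1 - (nsq z : ℂ)) / (1 - ip z x) := by rw [← e1]; ring
  rw [e0, ip_lin_right, ip_self, e1, e2]
  simp only [map_div₀, map_sub, map_neg, map_one, Complex.conj_ofReal, conj_ip]
  field_simp
  ring

/-! ### unitary equivariance -/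

lemma ip_mv (U : UG n) (z a : Fin n → ℂ) : ip (mv U.1 z) (mv U.1 a) = ip z a := by
  have h : ip (mv U.1 z) (mv U.1 a) = dotProduct (mv U.1 z) (star (mv U.1 a)) := rfl
  have h2 : ip z a = dotProduct z (star a) := rfl
  rw [h, h2, mv, mv, Matrix.star_mulVec, dotProduct_comm, Matrix.dotProduct_mulVec,
    Matrix.vecMul_vecMul]
  have : Matrix.conjTranspose U.1 * U.1 = 1 := by
    have := (Matrix.mem_unitaryGroup_iff'.1 U.2)
    rwa [Matrix.star_eq_conjTranspose] at this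
  rw [this, Matrix.vecMul_one, dotProduct_comm]

lemma nsq_mv (U : UG n) (z : Fin n → ℂ) : nsq (mv U.1 z) = nsq z := by
  have := ip_mv U z z
  rw [ip_self, ip_self] at this
  exact_mod_cast this

lemma sq_mv (U : UG n) (z : Fin n → ℂ) : sq (mv U.1 z) = sq z := by
  simp [sq, nsq_mv]

lemma mv_lin (U : Matrix (Fin n) (Fin n) ℂ) (c d : ℂ) (z w : Fin n → ℂ) :
    mv U (fun i => c * z i + d * w i) = fun i => c * mv U z i + d * mv U w i := by
  have : (fun i => c * z i + d * w i) = c • z + d • w := rfl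
  rw [this, mv, Matrix.mulVec_add, Matrix.mulVec_smul, Matrix.mulVec_smul]
  rfl

lemma Om_mv (U : UG n) (a z : Fin n → ℂ) : Om (mv U.1 a) (mv U.1 z) = mv U.1 (Om a z) := by
  have : Om a z = fun i => (sq a : ℂ) * z i + ip z a / (1 + (sq a : ℂ)) * a i := rfl
  rw [this, mv_lin]
  funext i
  simp only [Om, ip_mv, sq_mv]

lemma Lam_mv (U : UG n) (a z : Fin n → ℂ) : Lam (mv U.1 a) (mv U.1 z) = mv U.1 (Lam a z) := by
  have : Lam a z = fun i => 1 * z i + (-(ip z a / (1 + (sq a : ℂ)))) * a i := by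
    funext i; simp only [Lam]; ring
  rw [this, mv_lin]
  funext i
  simp only [Lam, ip_mv, sq_mv]
  ring

lemma mob_mv (U : UG n) (a z : Fin n → ℂ) : mob (mv U.1 a) (mv U.1 z) = mv U.1 (mob a z) := by
  rw [mob_eq a z, mv_lin, mob_eq, ip_mv, sq_mv]

/-! ### continuity -/

@[fun_prop]
lemma continuous_nsq : Continuous (nsq : (Fin n → ℂ) → ℝ) := by
  unfold nsq
  fun_prop

@[fun_prop]
lemma continuous_sq : Continuous (sq : (Fin n → ℂ) → ℝ) := by
  unfold sq
  fun_prop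

lemma continuous_ip : Continuous (fun p : (Fin n → ℂ) × (Fin n → ℂ) => ip p.1 p.2) := by
  unfold ip
  refine continuous_finsetSum _ fun i _ => ?_
  exact ((continuous_apply i).comp continuous_fst).mul
    (Complex.continuous_conj.comp ((continuous_apply i).comp continuous_snd))

lemma continuous_ip_comp {X : Type*} [TopologicalSpace X] {f g : X → Fin n → ℂ}
    (hf : Continuous f) (hg : Continuous g) : Continuous (fun x => ip (f x) (g x)) :=
  continuous_ip.comp (hf.prodMk hg)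

lemma continuous_Om : Continuous (fun p : (Fin n → ℂ) × (Fin n → ℂ) => Om p.1 p.2) := by
  refine continuous_pi fun i => ?_
  simp only [Om]
  have h1 : Continuous fun p : (Fin n → ℂ) × (Fin n → ℂ) => (sq p.1 : ℂ) :=
    Complex.continuous_ofReal.comp (continuous_sq.comp continuous_fst)
  have h2 : Continuous fun p : (Fin n → ℂ) × (Fin n → ℂ) => ip p.2 p.1 :=
    continuous_ip_comp continuous_snd continuous_fst
  have h3 : Continuous fun p : (Fin n → ℂ) × (Fin n → ℂ) => ip p.2 p.1 / (1 + (sq p.1 : ℂ)) :=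
    h2.div (continuous_const.add h1) fun p => one_add_sq_ne _
  exact (h1.mul ((continuous_apply i).comp continuous_snd)).add
    (h3.mul ((continuous_apply i).comp continuous_fst))

lemma continuous_Lam : Continuous (fun p : (Fin n → ℂ) × (Fin n → ℂ) => Lam p.1 p.2) := by
  refine continuous_pi fun i => ?_
  simp only [Lam]
  have h1 : Continuous fun p : (Fin n → ℂ) × (Fin n → ℂ) => (sq p.1 : ℂ) :=
    Complex.continuous_ofReal.comp (continuous_sq.comp continuous_fst)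
  have h2 : Continuous fun p : (Fin n → ℂ) × (Fin n → ℂ) => ip p.2 p.1 :=
    continuous_ip_comp continuous_snd continuous_fst
  have h3 : Continuous fun p : (Fin n → ℂ) × (Fin n → ℂ) => ip p.2 p.1 / (1 + (sq p.1 : ℂ)) :=
    h2.div (continuous_const.add h1) fun p => one_add_sq_ne _
  exact ((continuous_apply i).comp continuous_snd).sub
    (h3.mul ((continuous_apply i).comp continuous_fst))

lemma continuousAt_mob {p : (Fin n → ℂ) × (Fin n → ℂ)} (h : ip p.2 p.1 ≠ 1) :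
    ContinuousAt (fun p : (Fin n → ℂ) × (Fin n → ℂ) => mob p.1 p.2) p := by
  refine continuousAt_pi.2 fun i => ?_
  simp only [mob]
  have h1 : Continuous fun p : (Fin n → ℂ) × (Fin n → ℂ) => Om p.1 p.2 i :=
    (continuous_apply i).comp continuous_Om
  have h2 : Continuous fun p : (Fin n → ℂ) × (Fin n → ℂ) => 1 - ip p.2 p.1 :=
    continuous_const.sub (continuous_ip_comp continuous_snd continuous_fst)
  exact ((((continuous_apply i).comp continuous_fst).sub h1).continuousAt).div h2.continuousAt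
    (sub_ne_zero.2 h.symm)

/-! ### the map on the closed ball -/

/-- `φ_a(z)` as a map of the closed ball (junk value `0` if `a = z` is on the sphere) -/
noncomputable def T (a z : CB n) : CB n := ⟨mob a.1 z.1, mob_mem a.2 z.2⟩

lemma CB.nsq_le (z : CB n) : nsq z.1 ≤ 1 := z.2

lemma continuousAt_T {p : CB n × CB n} (h : ip p.2.1 p.1.1 ≠ 1) :
    ContinuousAt (fun p : CB n × CB n => T p.1 p.2) p := by
  refine tendsto_subtype_rng.2 ?_
  exact ContinuousAt.comp (f := fun p : CB n × CB n => (p.1.1, p.2.1))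
    (g := fun p : (Fin n → ℂ) × (Fin n → ℂ) => mob p.1 p.2) (continuousAt_mob h)
    (by fun_prop)

end Pool.Agent.Ball
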