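import Pool.Agent.Helper76.Ball2

set_option autoImplicit false
set_option linter.unusedSectionVars false
open MeasureTheory

/-! Module D for MP_a59212_an: totally real uniqueness for the functions `Γ(λ, μ)`. -/

namespace Pool.Agent.Ball

open Filter Topology Metric

/-! ### one-variable and two-variable identity theorems -/

theorem id_ball (g : ℂ → ℂ) (R : ℝ) (hR : 0 < R) (hg : DifferentiableOn ℂ g (ball 0 R)) (r : ℝ)
    (hr : 0 < r) (h0 : ∀ t : ℝ, |t| < r → g t = 0) : ∀ z ∈ ball (0 : ℂ) R, g z = 0 := by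
  have h1 : AnalyticOnNhd ℂ g (ball 0 R) := hg.analyticOnNhd isOpen_ball
  have h2 : IsPreconnected (ball (0 : ℂ) R) := (convex_ball 0 R).isPreconnected
  have h3 : ∃ᶠ z in 𝓝[≠] (0 : ℂ), g z = 0 := by
    have ht : Tendsto (fun t : ℝ => (t : ℂ)) (𝓝[≠] 0) (𝓝[≠] 0) := by
      apply tendsto_nhdsWithin_of_tendsto_nhds_of_eventually_within
      · exact (Complex.continuous_ofReal.tendsto' 0 0 Complex.ofReal_zero).mono_left
          nhdsWithin_le_nhds
      · filter_upwards [self_mem_nhdsWithin] with t ht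
        simpa using ht
    apply ht.frequently
    apply Eventually.frequently
    filter_upwards [nhdsWithin_le_nhds (Metric.ball_mem_nhds (0 : ℝ) hr)] with t ht
    apply h0
    simpa using ht
  exact fun z hz => h1.eqOn_zero_of_preconnected_of_frequently_eq_zero h2 (mem_ball_self hR) h3 hz

theorem totally_real (P : ℂ × ℂ → ℂ) (h : DifferentiableOn ℂ P (ball 0 1 ×ˢ ball 0 1))
    (h0 : ∀ l : ℂ, ‖l‖ < 1 → P (l, starRingEnd ℂ l) = 0) (l m : ℂ) (hl : ‖l‖ < 1) (hm : ‖m‖ < 1) :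
    P (l, m) = 0 := by
  have hlin : ∀ (p q : ℂ), p ∈ ball (0 : ℂ) (1 / 2) → q ∈ ball (0 : ℂ) (1 / 2) →
      (p + Complex.I * q, p - Complex.I * q) ∈ (ball (0 : ℂ) 1 ×ˢ ball (0 : ℂ) 1) := by
    intro p q hp hq
    rw [mem_ball_zero_iff] at hp hq
    have h1 : ‖Complex.I * q‖ < 1 / 2 := by rw [norm_mul, Complex.norm_I, one_mul]; exact hq
    constructor
    · rw [mem_ball_zero_iff]
      calc ‖p + Complex.I * q‖ ≤ ‖p‖ + ‖Complex.I * q‖ := norm_add_le _ _
        _ < 1 := by linarith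
    · rw [mem_ball_zero_iff]
      calc ‖p - Complex.I * q‖ ≤ ‖p‖ + ‖Complex.I * q‖ := norm_sub_le _ _
        _ < 1 := by linarith
  have hA : ∀ q : ℝ, |q| < 1 / 2 → ∀ p ∈ ball (0 : ℂ) (1 / 2),
      P (p + Complex.I * q, p - Complex.I * q) = 0 := by
    intro q hq
    have hq' : (q : ℂ) ∈ ball (0 : ℂ) (1 / 2) := by simpa using hq
    apply id_ball (fun p => P (p + Complex.I * q, p - Complex.I * q)) (1 / 2) (by norm_num)
      _ (1 / 2) (by norm_num)
    · intro t ht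
      have ht' : (t : ℂ) ∈ ball (0 : ℂ) (1 / 2) := by simpa using ht
      have h1 := (hlin t q ht' hq').1
      rw [mem_ball_zero_iff] at h1
      have h2 := h0 _ h1
      rw [map_add, map_mul, Complex.conj_I, Complex.conj_ofReal, Complex.conj_ofReal] at h2
      rw [sub_eq_add_neg, ← neg_mul]
      exact h2
    · apply h.comp (t := ball (0 : ℂ) 1 ×ˢ ball (0 : ℂ) 1)
      · exact ((differentiable_id.add_const _).prodMk (differentiable_id.sub_const _)).differentiableOn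
      · intro p hp
        exact hlin p q hp hq'
  have hB : ∀ p ∈ ball (0 : ℂ) (1 / 2), ∀ q ∈ ball (0 : ℂ) (1 / 2),
      P (p + Complex.I * q, p - Complex.I * q) = 0 := by
    intro p hp
    apply id_ball (fun q => P (p + Complex.I * q, p - Complex.I * q)) (1 / 2) (by norm_num)
      _ (1 / 2) (by norm_num)
    · intro t ht
      exact hA t ht p hp
    · apply h.comp (t := ball (0 : ℂ) 1 ×ˢ ball (0 : ℂ) 1)
      · exact (((differentiable_id.const_mul _).const_add _).prodMk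
          ((differentiable_id.const_mul _).const_sub _)).differentiableOn
      · intro q hq
        exact hlin p q hp hq
  have hC : ∀ l ∈ ball (0 : ℂ) (1 / 2), ∀ m ∈ ball (0 : ℂ) (1 / 2), P (l, m) = 0 := by
    intro l hl m hm
    rw [mem_ball_zero_iff] at hl hm
    have h1 := hB ((l + m) / 2) (by
      rw [mem_ball_zero_iff, norm_div]
      have := norm_add_le l m
      norm_num
      linarith) ((l - m) / 2 * (-Complex.I)) (by
      rw [mem_ball_zero_iff, norm_mul, norm_neg, Complex.norm_I, mul_one, norm_div]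
      have := norm_sub_le l m
      norm_num
      linarith)
    have h2 : Complex.I * ((l - m) / 2 * (-Complex.I)) = (l - m) / 2 := by
      calc Complex.I * ((l - m) / 2 * (-Complex.I)) = (l - m) / 2 * (-(Complex.I * Complex.I)) := by ring
        _ = (l - m) / 2 := by rw [Complex.I_mul_I]; ring
    rw [h2] at h1
    have h3 : (l + m) / 2 + (l - m) / 2 = l := by ring
    have h4 : (l + m) / 2 - (l - m) / 2 = m := by ring
    rwa [h3, h4] at h1
  have hD : ∀ m ∈ ball (0 : ℂ) (1 / 2), ∀ l ∈ ball (0 : ℂ) 1, P (l, m) = 0 := by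
    intro m hm
    apply id_ball (fun l => P (l, m)) 1 one_pos _ (1 / 2) (by norm_num)
    · intro t ht
      exact hC t (by simpa using ht) m hm
    · apply h.comp (t := ball (0 : ℂ) 1 ×ˢ ball (0 : ℂ) 1)
      · exact (differentiable_id.prodMk (differentiable_const m)).differentiableOn
      · intro l hl
        exact ⟨hl, ball_subset_ball (by norm_num) hm⟩
  have hE : ∀ m ∈ ball (0 : ℂ) 1, P (l, m) = 0 := by
    apply id_ball (fun m => P (l, m)) 1 one_pos _ (1 / 2) (by norm_num)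
    · intro t ht
      exact hD t (by simpa using ht) l (by simpa using hl)
    · apply h.comp (t := ball (0 : ℂ) 1 ×ˢ ball (0 : ℂ) 1)
      · exact ((differentiable_const l).prodMk differentiable_id).differentiableOn
      · intro m hm
        exact ⟨by simpa using hl, hm⟩
  exact hE m (by simpa using hm)

theorem const_of_deriv (g : ℂ → ℂ) (g' : ℂ → ℂ) (h : ∀ z, ‖z‖ < 1 → HasDerivAt g (g' z) z)
    (h0 : ∀ z, ‖z‖ < 1 → g' z = 0) (z : ℂ) (hz : ‖z‖ < 1) : g z = g 0 := by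
  apply isOpen_ball.is_const_of_deriv_eq_zero (s := ball (0 : ℂ) 1) (convex_ball 0 1).isPreconnected
  · intro w hw
    exact (h w (by simpa using hw)).differentiableAt.differentiableWithinAt
  · intro w hw
    have hw' : ‖w‖ < 1 := by simpa using hw
    rw [(h w hw').deriv, h0 w hw']
    rfl
  · simpa using hz
  · simp

/-! ### the resolvent in a commutative Banach algebra -/

section banach

variable {A : Type*} [NormedCommRing A] [NormedAlgebra ℂ A] [CompleteSpace A]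

/-- the resolvent `(1 - a)⁻¹` -/
noncomputable def RR (a : A) : A := Ring.inverse (1 - a)

theorem RR_mul {a : A} (ha : ‖a‖ < 1) : (1 - a) * RR a = 1 :=
  Ring.mul_inverse_cancel _ (isUnit_one_sub_of_norm_lt_one ha)

theorem RR_zero : RR (0 : A) = 1 := by
  rw [RR, sub_zero, Ring.inverse_one]

theorem hasFDerivAt_RR {a : A} (ha : ‖a‖ < 1) :
    HasFDerivAt (RR : A → A) (ContinuousLinearMap.mul ℂ A (RR a ^ 2)) a := by
  obtain ⟨u, hu⟩ := isUnit_one_sub_of_norm_lt_one ha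
  have h1 := hasFDerivAt_ringInverse (𝕜 := ℂ) u
  have h2 : HasFDerivAt (fun a : A => 1 - a) (-ContinuousLinearMap.id ℂ A) a :=
    (hasFDerivAt_id a).const_sub 1
  rw [hu] at h1
  have h3 := h1.comp a h2
  have h4 : RR a = (u⁻¹ : Aˣ) := by
    rw [RR, ← hu, Ring.inverse_unit]
  have h5 : (-ContinuousLinearMap.mulLeftRight ℂ A (u⁻¹ : Aˣ) (u⁻¹ : Aˣ)).comp
      (-ContinuousLinearMap.id ℂ A) = ContinuousLinearMap.mul ℂ A (RR a ^ 2) := by
    ext b
    simp only [ContinuousLinearMap.comp_apply, _root_.neg_apply,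
      ContinuousLinearMap.id_apply, ContinuousLinearMap.mulLeftRight_apply,
      ContinuousLinearMap.mul_apply', h4]
    ring
  rw [h5] at h3
  exact h3

theorem hasDerivAt_RR {x : A} (hx : ‖x‖ ≤ 1) {l : ℂ} (hl : ‖l‖ < 1) :
    HasDerivAt (fun l : ℂ => RR (l • x)) (x * RR (l • x) ^ 2) l := by
  have h1 : ‖l • x‖ < 1 := by
    rw [norm_smul]
    calc ‖l‖ * ‖x‖ ≤ ‖l‖ * 1 := mul_le_mul_of_nonneg_left hx (norm_nonneg _)
      _ < 1 := by rw [mul_one]; exact hl
  have h2 : HasDerivAt (fun l : ℂ => l • x) x l := by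
    have := (hasDerivAt_id l).smul_const x
    simpa using this
  have h3 := (hasFDerivAt_RR h1).comp_hasDerivAt l h2
  have h4 : (ContinuousLinearMap.mul ℂ A (RR (l • x) ^ 2)) x = x * RR (l • x) ^ 2 := by
    rw [ContinuousLinearMap.mul_apply', mul_comm]
  rw [h4] at h3
  exact h3

theorem norm_smul_lt {x : A} (hx : ‖x‖ ≤ 1) {l : ℂ} (hl : ‖l‖ < 1) : ‖l • x‖ < 1 := by
  rw [norm_smul]
  calc ‖l‖ * ‖x‖ ≤ ‖l‖ * 1 := mul_le_mul_of_nonneg_left hx (norm_nonneg _)
    _ < 1 := by rw [mul_one]; exact hl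

/-- the derivative of the power of the resolvent -/
theorem hasDerivAt_RR_pow {x : A} (hx : ‖x‖ ≤ 1) {l : ℂ} (hl : ‖l‖ < 1) (s : ℕ) :
    HasDerivAt (fun l : ℂ => RR (l • x) ^ s) ((s : ℂ) • (x * RR (l • x) ^ (s + 1))) l := by
  have h1 := (hasDerivAt_RR hx hl).pow s
  have h2 : (s : A) * RR (l • x) ^ (s - 1) * (x * RR (l • x) ^ 2) =
      (s : ℂ) • (x * RR (l • x) ^ (s + 1)) := by
    rw [Nat.cast_smul_eq_nsmul, nsmul_eq_mul]
    cases s with
    | zero => simp
    | succ m =>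
      rw [Nat.add_sub_cancel]
      ring
  rw [h2] at h1
  exact h1

/-! #### abstract `Γ`, `∂_λ Γ`, `∂_μ ∂_λ Γ` -/

/-- the function `Γ` -/
noncomputable def Gam (L : A →L[ℂ] ℂ) (x y : A) (s : ℕ) (l m : ℂ) : ℂ :=
  (1 - l * m) ^ s * L (RR (l • x) ^ s * RR (m • y) ^ s)

noncomputable def GA (L : A →L[ℂ] ℂ) (x y : A) (s : ℕ) (l m : ℂ) : ℂ :=
  L ((x - m • 1) * RR (l • x) ^ (s + 1) * RR (m • y) ^ s)

noncomputable def GB (L : A →L[ℂ] ℂ) (x y : A) (s : ℕ) (l m : ℂ) : ℂ :=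
  L (((s : ℂ) • ((x - m • 1) * (y - l • 1)) - (1 - l • x) * (1 - m • y)) *
    RR (l • x) ^ (s + 1) * RR (m • y) ^ (s + 1))

variable (L : A →L[ℂ] ℂ) {x y : A} (hx : ‖x‖ ≤ 1) (hy : ‖y‖ ≤ 1) (s : ℕ)

include hx in
theorem Gam_deriv {l m : ℂ} (hl : ‖l‖ < 1) :
    HasDerivAt (fun l => Gam L x y s l m) ((s : ℂ) * (1 - l * m) ^ (s - 1) * GA L x y s l m) l := by
  have h1 : HasDerivAt (fun l : ℂ => (1 - l * m) ^ s) ((s : ℂ) * (1 - l * m) ^ (s - 1) * (-m)) l := by
    have h2 : HasDerivAt (fun l : ℂ => 1 - l * m) (-m) l := by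
      have := ((hasDerivAt_id l).mul_const m).const_sub 1
      simpa using this
    exact h2.pow s
  have h3 : HasDerivAt (fun l : ℂ => L (RR (l • x) ^ s * RR (m • y) ^ s))
      (L ((s : ℂ) • (x * RR (l • x) ^ (s + 1)) * RR (m • y) ^ s)) l :=
    L.hasFDerivAt.comp_hasDerivAt l ((hasDerivAt_RR_pow hx hl s).mul_const _)
  have h4 := h1.mul h3
  have h5 := RR_mul (norm_smul_lt hx hl)
  have h6 : (s : ℂ) * (1 - l * m) ^ (s - 1) * (-m) * L (RR (l • x) ^ s * RR (m • y) ^ s) +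
      (1 - l * m) ^ s * L ((s : ℂ) • (x * RR (l • x) ^ (s + 1)) * RR (m • y) ^ s) =
      (s : ℂ) * (1 - l * m) ^ (s - 1) * GA L x y s l m := by
    cases s with
    | zero => simp
    | succ k =>
      rw [Nat.add_sub_cancel, smul_mul_assoc, map_smul, smul_eq_mul, pow_succ (1 - l * m) k, GA]
      have h7 : (x - m • 1) * RR (l • x) ^ (k + 1 + 1) * RR (m • y) ^ (k + 1) =
          (-m) • (RR (l • x) ^ (k + 1) * RR (m • y) ^ (k + 1)) +
            (1 - l * m) • (x * RR (l • x) ^ (k + 1 + 1) * RR (m • y) ^ (k + 1)) := by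
        have h8 : RR (l • x) ^ (k + 1) * RR (m • y) ^ (k + 1) =
            ((1 - l • x) * RR (l • x)) * (RR (l • x) ^ (k + 1) * RR (m • y) ^ (k + 1)) := by
          rw [h5, one_mul]
        rw [h8]
        simp only [Algebra.smul_def, map_sub, map_mul, map_neg, map_one]
        ring
      rw [h7, map_add, map_smul, map_smul, smul_eq_mul, smul_eq_mul]
      ring
  rw [h6] at h4
  exact h4

include hy in
theorem GA_deriv {l m : ℂ} (hl : ‖l‖ < 1) (hm : ‖m‖ < 1) (k : ℕ) (hs : s = k + 1) (hx : ‖x‖ ≤ 1) :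
    HasDerivAt (fun m => (1 - l * m) ^ k * GA L x y s l m)
      ((1 - l * m) ^ k * GB L x y s l m / (1 - l * m)) m := by
  have hne : (1 - l * m) ≠ 0 := by
    intro h
    have h1 : l * m = 1 := (sub_eq_zero.1 h).symm
    have h2 : ‖l * m‖ < 1 := by
      rw [norm_mul]
      nlinarith [norm_nonneg l, norm_nonneg m]
    rw [h1, norm_one] at h2
    exact lt_irrefl _ h2
  have h1 : HasDerivAt (fun m : ℂ => (1 - l * m) ^ k) ((k : ℂ) * (1 - l * m) ^ (k - 1) * (-l)) m := by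
    have h2 : HasDerivAt (fun m : ℂ => 1 - l * m) (-l) m := by
      have := ((hasDerivAt_id m).const_mul l).const_sub 1
      simpa using this
    exact h2.pow k
  have h2 : HasDerivAt (fun m : ℂ => (x - m • (1 : A)) * RR (l • x) ^ (s + 1))
      (-1 * RR (l • x) ^ (s + 1)) m := by
    have := (((hasDerivAt_id m).smul_const (1 : A)).const_sub x).mul_const (RR (l • x) ^ (s + 1))
    simpa using this
  have h3 : HasDerivAt (fun m : ℂ => GA L x y s l m)
      (L (-1 * RR (l • x) ^ (s + 1) * RR (m • y) ^ s +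
        (x - m • (1 : A)) * RR (l • x) ^ (s + 1) * ((s : ℂ) • (y * RR (m • y) ^ (s + 1))))) m :=
    L.hasFDerivAt.comp_hasDerivAt m (h2.mul (hasDerivAt_RR_pow hy hm s))
  have h4 := h1.mul h3
  have h5 := RR_mul (norm_smul_lt hx hl)
  have h5' := RR_mul (norm_smul_lt hy hm)
  have h6 : (k : ℂ) * (1 - l * m) ^ (k - 1) * (-l) * GA L x y s l m +
      (1 - l * m) ^ k * (L (-1 * RR (l • x) ^ (s + 1) * RR (m • y) ^ s +
        (x - m • (1 : A)) * RR (l • x) ^ (s + 1) * ((s : ℂ) • (y * RR (m • y) ^ (s + 1))))) =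
      (1 - l * m) ^ k * GB L x y s l m / (1 - l * m) := by
    rw [eq_div_iff hne]
    have h7 : (k : ℂ) * (1 - l * m) ^ (k - 1) * (1 - l * m) = (k : ℂ) * (1 - l * m) ^ k := by
      cases k with
      | zero => simp
      | succ j => rw [Nat.add_sub_cancel, pow_succ]; ring
    have h8 : GB L x y s l m = (-(k : ℂ) * l) * GA L x y s l m +
        (1 - l * m) * (L (-1 * RR (l • x) ^ (s + 1) * RR (m • y) ^ s +
        (x - m • (1 : A)) * RR (l • x) ^ (s + 1) * ((s : ℂ) • (y * RR (m • y) ^ (s + 1))))) := by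
      rw [GB, GA]
      rw [← smul_eq_mul (-(k : ℂ) * l), ← smul_eq_mul (1 - l * m), ← map_smul, ← map_smul, ← map_add]
      congr 1
      have h9 : RR (m • y) ^ s = ((1 - m • y) * RR (m • y)) * RR (m • y) ^ s := by
        rw [h5', one_mul]
      rw [h9, hs]
      simp only [Algebra.smul_def, map_sub, map_mul, map_neg, map_one, map_natCast]
      push_cast
      ring
    rw [h8, add_mul]
    have h10 : (k : ℂ) * (1 - l * m) ^ (k - 1) * (-l) * GA L x y s l m * (1 - l * m) =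
        ((k : ℂ) * (1 - l * m) ^ (k - 1) * (1 - l * m)) * (-l) * GA L x y s l m := by ring
    rw [h10, h7]
    ring
  rw [h6] at h4
  exact h4

theorem mem_bidisc {p : ℂ × ℂ} (hp : p ∈ ball (0 : ℂ) 1 ×ˢ ball (0 : ℂ) 1) : ‖p.1‖ < 1 ∧ ‖p.2‖ < 1 :=
  ⟨by simpa using hp.1, by simpa using hp.2⟩

include hx in
theorem RR1_diff (s : ℕ) :
    DifferentiableOn ℂ (fun p : ℂ × ℂ => RR (p.1 • x) ^ s) (ball 0 1 ×ˢ ball 0 1) := by
  apply DifferentiableOn.pow
  intro p hp
  have h1 := (hasFDerivAt_RR (norm_smul_lt hx (mem_bidisc hp).1)).differentiableAt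
  apply DifferentiableAt.differentiableWithinAt
  exact DifferentiableAt.comp (g := (RR : A → A)) (f := fun p : ℂ × ℂ => p.1 • x) p h1
    (differentiableAt_fst.smul_const x)

include hy in
theorem RR2_diff (s : ℕ) :
    DifferentiableOn ℂ (fun p : ℂ × ℂ => RR (p.2 • y) ^ s) (ball 0 1 ×ˢ ball 0 1) := by
  apply DifferentiableOn.pow
  intro p hp
  have h1 := (hasFDerivAt_RR (norm_smul_lt hy (mem_bidisc hp).2)).differentiableAt
  apply DifferentiableAt.differentiableWithinAt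
  exact DifferentiableAt.comp (g := (RR : A → A)) (f := fun p : ℂ × ℂ => p.2 • y) p h1
    (differentiableAt_snd.smul_const y)

include hx hy in
theorem Gam_diff : DifferentiableOn ℂ (fun p : ℂ × ℂ => Gam L x y s p.1 p.2) (ball 0 1 ×ˢ ball 0 1) := by
  apply DifferentiableOn.mul
  · apply Differentiable.differentiableOn
    fun_prop
  · apply L.differentiable.comp_differentiableOn
    exact (RR1_diff hx s).mul (RR2_diff hy s)

include hx hy in
theorem GA_diff : DifferentiableOn ℂ (fun p : ℂ × ℂ => GA L x y s p.1 p.2) (ball 0 1 ×ˢ ball 0 1) := by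
  apply L.differentiable.comp_differentiableOn
  apply DifferentiableOn.mul _ (RR2_diff hy s)
  apply DifferentiableOn.mul _ (RR1_diff hx (s + 1))
  apply Differentiable.differentiableOn
  fun_prop

include hx hy in
theorem GB_diff : DifferentiableOn ℂ (fun p : ℂ × ℂ => GB L x y s p.1 p.2) (ball 0 1 ×ˢ ball 0 1) := by
  apply L.differentiable.comp_differentiableOn
  apply DifferentiableOn.mul _ (RR2_diff hy (s + 1))
  apply DifferentiableOn.mul _ (RR1_diff hx (s + 1))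
  apply Differentiable.differentiableOn
  fun_prop

theorem Gam_zero_left (m : ℂ) : Gam L x y s 0 m = L (RR (m • y) ^ s) := by
  rw [Gam, zero_mul, sub_zero, one_pow, one_mul, zero_smul, RR_zero, one_pow, one_mul]

theorem Gam_zero_right (l : ℂ) : Gam L x y s l 0 = L (RR (l • x) ^ s) := by
  rw [Gam, mul_zero, sub_zero, one_pow, one_mul, zero_smul, RR_zero, one_pow, mul_one]

theorem Gam_zero_zero : Gam L x y s 0 0 = L 1 := by
  rw [Gam_zero_left, zero_smul, RR_zero, one_pow]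

include hx hy in
theorem Gam_alpha (h : ∀ l : ℂ, ‖l‖ < 1 → GA L x y s l (starRingEnd ℂ l) = 0) {l m : ℂ}
    (hl : ‖l‖ < 1) (hm : ‖m‖ < 1) : Gam L x y s l m = L (RR (m • y) ^ s) := by
  have h1 := totally_real (fun p => GA L x y s p.1 p.2) (GA_diff L hx hy s) h
  have h2 := const_of_deriv _ _ (fun z hz => Gam_deriv L hx (y := y) s (l := z) (m := m) hz)
    (fun z hz => by rw [h1 z m hz hm, mul_zero]) l hl
  rw [h2, Gam_zero_left]

include hx hy in
theorem Gam_beta (hs : 1 ≤ s) (h : ∀ l : ℂ, ‖l‖ < 1 → GB L x y s l (starRingEnd ℂ l) = 0) {l m : ℂ}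
    (hl : ‖l‖ < 1) (hm : ‖m‖ < 1) :
    Gam L x y s l m = L (RR (l • x) ^ s) + L (RR (m • y) ^ s) - L 1 := by
  obtain ⟨k, hk⟩ := Nat.exists_eq_add_of_le' hs
  have h1 := totally_real (fun p => GB L x y s p.1 p.2) (GB_diff L hx hy s) h
  have h2 : ∀ l m : ℂ, ‖l‖ < 1 → ‖m‖ < 1 →
      (1 - l * m) ^ k * GA L x y s l m = (1 - l * 0) ^ k * GA L x y s l 0 := by
    intro l m hl hm
    exact const_of_deriv (fun m => (1 - l * m) ^ k * GA L x y s l m) _
      (fun z hz => GA_deriv L hy s hl hz k hk hx)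
      (fun z hz => by rw [h1 l z hl hz, mul_zero, zero_div]) m hm
  have hk' : s - 1 = k := by omega
  have h3 := const_of_deriv (fun l => Gam L x y s l m - Gam L x y s l 0) _
    (fun z hz => (Gam_deriv L hx (y := y) s (l := z) (m := m) hz).sub
      (Gam_deriv L hx (y := y) s (l := z) (m := 0) hz))
    (fun z hz => by
      rw [hk', mul_assoc, mul_assoc, h2 z m hz hm, sub_self]) l hl
  simp only [Gam_zero_left, Gam_zero_right, zero_smul, RR_zero, one_pow] at h3
  have h4 : Gam L x y s l m = (Gam L x y s l m - L (RR (l • x) ^ s)) + L (RR (l • x) ^ s) := by ring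
  rw [h4, h3]
  ring

include hx hy in
theorem Gam_norm (hs : 1 ≤ s) (c : ℂ)
    (h : ∀ l : ℂ, ‖l‖ < 1 → c * Gam L x y s l (starRingEnd ℂ l) = 1) :
    (s : ℂ) * L (x * y) = L 1 := by
  obtain ⟨k, hk⟩ := Nat.exists_eq_add_of_le' hs
  have hc : c ≠ 0 := by
    intro hc
    have := h 0 (by simp)
    rw [hc, zero_mul] at this
    exact zero_ne_one this
  have h1 : ∀ l m : ℂ, ‖l‖ < 1 → ‖m‖ < 1 → c * Gam L x y s l m - 1 = 0 :=
    totally_real (fun p => c * Gam L x y s p.1 p.2 - 1)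
      (((Gam_diff L hx hy s).const_mul c).sub_const 1)
      (fun l hl => by
        show c * Gam L x y s l (starRingEnd ℂ l) - 1 = 0
        rw [h l hl, sub_self])
  have hev : ∀ (g : ℂ → ℂ), (∀ z, ‖z‖ < 1 → g z = 0) → ∀ z, ‖z‖ < 1 → ∀ g', HasDerivAt g g' z → g' = 0 := by
    intro g hg z hz g' hg'
    have h2 : HasDerivAt g 0 z := by
      have h3 : g =ᶠ[𝓝 z] fun _ => (0 : ℂ) := by
        filter_upwards [isOpen_ball.mem_nhds (show z ∈ ball (0 : ℂ) 1 by simpa using hz)] with w hw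
        exact hg w (by simpa using hw)
      exact (hasDerivAt_const z (0 : ℂ)).congr_of_eventuallyEq h3
    exact hg'.unique h2
  have h2 : ∀ l m : ℂ, ‖l‖ < 1 → ‖m‖ < 1 → (1 - l * m) ^ k * GA L x y s l m = 0 := by
    intro l m hl hm
    have h3 := hev _ (fun z hz => h1 z m hz hm) l hl _
      (((Gam_deriv L hx (y := y) s (l := l) (m := m) hl).const_mul c).sub_const 1)
    have hk' : s - 1 = k := by omega
    rw [hk', mul_assoc] at h3
    rcases mul_eq_zero.1 h3 with h4 | h4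
    · exact absurd h4 hc
    · rcases mul_eq_zero.1 h4 with h5 | h5
      · exfalso
        have : s = 0 := by exact_mod_cast h5
        omega
      · exact h5
  have h3 := hev _ (fun z hz => h2 0 z (by simp) hz) 0 (by simp) _
    (GA_deriv L hy s (l := 0) (m := 0) (by simp) (by simp) k hk hx)
  have h4 : GB L x y s 0 0 = 0 := by simpa using h3
  have h5 : GB L x y s 0 0 = (s : ℂ) * L (x * y) - L 1 := by
    rw [GB]
    simp only [zero_smul, sub_zero, RR_zero, one_pow, mul_one, map_sub, map_smul, smul_eq_mul]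
  rw [h5] at h4
  exact sub_eq_zero.1 h4

end banach

/-! ### the concrete situation -/

section concrete

variable {n : ℕ}

/-- `w ↦ ⟨z, w⟩` as an element of `C(CB n, ℂ)` -/
noncomputable def evz (z : Fin n → ℂ) : C(CB n, ℂ) :=
  ⟨fun w => ip z w.1, continuous_ip_comp continuous_const continuous_subtype_val⟩

/-- `w ↦ ⟨w, z⟩` as an element of `C(CB n, ℂ)` -/
noncomputable def evz' (z : Fin n → ℂ) : C(CB n, ℂ) :=
  ⟨fun w => ip w.1 z, continuous_ip_comp continuous_subtype_val continuous_const⟩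

theorem evz_norm_le {z : Fin n → ℂ} (hz : nsq z ≤ 1) : ‖evz z‖ ≤ 1 := by
  rw [ContinuousMap.norm_le _ zero_le_one]
  intro w
  exact norm_ip_le_one hz w.2

theorem evz'_norm_le {z : Fin n → ℂ} (hz : nsq z ≤ 1) : ‖evz' z‖ ≤ 1 := by
  rw [ContinuousMap.norm_le _ zero_le_one]
  intro w
  exact norm_ip_le_one w.2 hz

theorem evz_norm_lt {z : Fin n → ℂ} (hz : nsq z < 1) : ‖evz z‖ < 1 := by
  rw [ContinuousMap.norm_lt_iff _ zero_lt_one]
  intro w
  show ‖ip z w.1‖ < 1
  rw [norm_ip_comm]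
  exact norm_ip_lt_one w.2 hz

theorem evz'_norm_lt {z : Fin n → ℂ} (hz : nsq z < 1) : ‖evz' z‖ < 1 := by
  rw [ContinuousMap.norm_lt_iff _ zero_lt_one]
  intro w
  exact norm_ip_lt_one w.2 hz

/-- `z ↦ evz z` is continuous linear -/
noncomputable def evL (n : ℕ) : (Fin n → ℂ) →L[ℂ] C(CB n, ℂ) :=
  LinearMap.toContinuousLinearMap
    { toFun := evz
      map_add' := by
        intro a b
        ext w
        show ip (a + b) w.1 = ip a w.1 + ip b w.1
        simp only [ip, Pi.add_apply, add_mul, Finset.sum_add_distrib]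
      map_smul' := by
        intro c a
        ext w
        show ip (c • a) w.1 = c * ip a w.1
        simp only [ip, Pi.smul_apply, smul_eq_mul, mul_assoc, Finset.mul_sum] }

theorem evL_apply (z : Fin n → ℂ) : evL n z = evz z := rfl

theorem RR_apply {X : Type*} [TopologicalSpace X] [CompactSpace X] {a : C(X, ℂ)} (ha : ‖a‖ < 1)
    (w : X) : (RR a) w = 1 / (1 - a w) ∧ 1 - a w ≠ 0 := by
  have h1 := congrArg (fun f : C(X, ℂ) => f w) (RR_mul ha)
  have h2 : (1 - a w) * (RR a) w = 1 := by simpa using h1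
  have h3 : 1 - a w ≠ 0 := left_ne_zero_of_mul_eq_one h2
  refine ⟨?_, h3⟩
  rw [eq_div_iff h3, mul_comm]
  exact h2

theorem RR_evz_diff (s : ℕ) :
    DifferentiableOn ℂ (fun z : Fin n → ℂ => RR (evz z) ^ s) {z : Fin n → ℂ | nsq z < 1} := by
  apply DifferentiableOn.pow
  intro z hz
  have h1 := (hasFDerivAt_RR (evz_norm_lt hz)).differentiableAt
  apply DifferentiableAt.differentiableWithinAt
  exact DifferentiableAt.comp (g := (RR : C(CB n, ℂ) → C(CB n, ℂ))) (f := fun z => evL n z) z h1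
    (evL n).differentiableAt

/-- integration against `v dν` as a continuous linear functional -/
noncomputable def LL (ν : Measure (CB n)) [IsFiniteMeasure ν] (v : CB n → ℂ) (hv : Continuous v) :
    C(CB n, ℂ) →L[ℂ] ℂ :=
  LinearMap.mkContinuous
    { toFun := fun f => ∫ w, v w * f w ∂ν
      map_add' := by
        intro f g
        simp only [ContinuousMap.add_apply, mul_add]
        apply integral_add
        · exact (hv.mul f.continuous).integrable_of_hasCompactSupport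
            (HasCompactSupport.of_compactSpace _)
        · exact (hv.mul g.continuous).integrable_of_hasCompactSupport
            (HasCompactSupport.of_compactSpace _)
      map_smul' := by
        intro c f
        simp only [ContinuousMap.smul_apply, smul_eq_mul, RingHom.id_apply]
        rw [← integral_const_mul]
        congr 1
        ext w
        ring }
    (‖(⟨v, hv⟩ : C(CB n, ℂ))‖ * ν.real Set.univ) (by
      intro f
      show ‖∫ w, v w * f w ∂ν‖ ≤ _
      have h1 : ∀ᵐ w ∂ν, ‖v w * f w‖ ≤ ‖(⟨v, hv⟩ : C(CB n, ℂ))‖ * ‖f‖ := by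
        apply Filter.Eventually.of_forall
        intro w
        rw [norm_mul]
        exact mul_le_mul ((⟨v, hv⟩ : C(CB n, ℂ)).norm_coe_le_norm w) (f.norm_coe_le_norm w)
          (norm_nonneg _) (norm_nonneg _)
      have h2 := norm_integral_le_of_norm_le_const h1
      calc _ ≤ _ := h2
        _ = _ := by ring)

theorem LL_apply (ν : Measure (CB n)) [IsFiniteMeasure ν] (v : CB n → ℂ) (hv : Continuous v)
    (f : C(CB n, ℂ)) : LL ν v hv f = ∫ w, v w * f w ∂ν := rfl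

theorem evz_smul (l : ℂ) (z : Fin n → ℂ) : evz (l • z) = l • evz z := by
  have := (evL n).map_smul l z
  exact this

theorem evz'_smul (l : ℂ) (z : Fin n → ℂ) : evz' (l • z) = starRingEnd ℂ l • evz' z := by
  ext w
  show ip w.1 (l • z) = starRingEnd ℂ l * ip w.1 z
  simp only [ip, Pi.smul_apply, smul_eq_mul, map_mul, Finset.mul_sum]
  apply Finset.sum_congr rfl
  intro i _
  ring

theorem nsq_smul (l : ℂ) (z : Fin n → ℂ) : nsq (l • z) = ‖l‖ ^ 2 * nsq z := by
  simp only [nsq, Pi.smul_apply, smul_eq_mul, norm_mul, mul_pow, Finset.mul_sum]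

/-- polar decomposition of a nonzero point of the open ball -/
theorem exists_polar {z : Fin n → ℂ} (hz : nsq z < 1) (hz0 : z ≠ 0) :
    ∃ (r : ℝ) (ζ : Fin n → ℂ), 0 ≤ r ∧ r < 1 ∧ nsq ζ = 1 ∧ z = (r : ℂ) • ζ := by
  have hpos : 0 < nsq z := by
    rcases (nsq_nonneg z).lt_or_eq with h | h
    · exact h
    · exact absurd (nsq_eq_zero h.symm) hz0
  have hr : 0 < Real.sqrt (nsq z) := Real.sqrt_pos.2 hpos
  have hr1 : Real.sqrt (nsq z) < 1 := by
    rw [Real.sqrt_lt' one_pos]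
    simpa using hz
  have hrc : ((Real.sqrt (nsq z) : ℝ) : ℂ) ≠ 0 := by exact_mod_cast hr.ne'
  refine ⟨Real.sqrt (nsq z), ((Real.sqrt (nsq z) : ℝ) : ℂ)⁻¹ • z, hr.le, hr1, ?_, ?_⟩
  · rw [nsq_smul, norm_inv, Complex.norm_real, Real.norm_of_nonneg hr.le, inv_pow,
      Real.sq_sqrt hpos.le]
    exact inv_mul_cancel₀ hpos.ne'
  · rw [smul_smul, mul_inv_cancel₀ hrc, one_smul]

variable (ν : Measure (CB n)) [IsFiniteMeasure ν]

theorem norm_smul_lt' {x : C(CB n, ℂ)} (hx : ‖x‖ ≤ 1) {l : ℂ} (hl : ‖l‖ < 1) : ‖l • x‖ < 1 :=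
  norm_smul_lt hx hl

theorem GA_eq (u : CB n → ℂ) (hu : Continuous u) (s : ℕ) (ζ : Fin n → ℂ) (hζ : nsq ζ = 1) (l : ℂ)
    (hl : ‖l‖ < 1) :
    GA (LL ν u hu) (evz ζ) (evz' ζ) s l (starRingEnd ℂ l) =
      ∫ w, u w * (ip ζ w.1 - starRingEnd ℂ l) /
        ((1 - l * ip ζ w.1) ^ (s + 1) * (1 - starRingEnd ℂ l * ip w.1 ζ) ^ s) ∂ν := by
  rw [GA, LL_apply]
  congr 1
  ext w
  have h1 := RR_apply (norm_smul_lt (evz_norm_le hζ.le) hl) w
  have hl' : ‖starRingEnd ℂ l‖ < 1 := by rw [RCLike.norm_conj]; exact hl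
  have h2 := RR_apply (norm_smul_lt (evz'_norm_le hζ.le) hl') w
  have h3 : ((evz ζ - starRingEnd ℂ l • (1 : C(CB n, ℂ))) * RR (l • evz ζ) ^ (s + 1) *
      RR (starRingEnd ℂ l • evz' ζ) ^ s) w = (ip ζ w.1 - starRingEnd ℂ l) *
      ((RR (l • evz ζ)) w) ^ (s + 1) * ((RR (starRingEnd ℂ l • evz' ζ)) w) ^ s := by
    have h4 : (evz ζ - starRingEnd ℂ l • (1 : C(CB n, ℂ))) w = ip ζ w.1 - starRingEnd ℂ l := by
      simp only [ContinuousMap.sub_apply, ContinuousMap.smul_apply, ContinuousMap.one_apply,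
        smul_eq_mul, mul_one]
      rfl
    rw [← h4]
    rfl
  have h5 : (1 - (l • evz ζ) w) = 1 - l * ip ζ w.1 := rfl
  have h6 : (1 - (starRingEnd ℂ l • evz' ζ) w) = 1 - starRingEnd ℂ l * ip w.1 ζ := rfl
  rw [h3, h1.1, h2.1, h5, h6, one_div, one_div, inv_pow, inv_pow, div_eq_mul_inv, mul_inv]
  ring

theorem GB_eq (u : CB n → ℂ) (hu : Continuous u) (s : ℕ) (ζ : Fin n → ℂ) (hζ : nsq ζ = 1) (l : ℂ)
    (hl : ‖l‖ < 1) :
    GB (LL ν u hu) (evz ζ) (evz' ζ) s l (starRingEnd ℂ l) =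
      ∫ w, u w * ((s : ℂ) * (ip ζ w.1 - starRingEnd ℂ l) * (ip w.1 ζ - l)
            - (1 - l * ip ζ w.1) * (1 - starRingEnd ℂ l * ip w.1 ζ)) /
        ((1 - l * ip ζ w.1) ^ (s + 1) * (1 - starRingEnd ℂ l * ip w.1 ζ) ^ (s + 1)) ∂ν := by
  rw [GB, LL_apply]
  congr 1
  ext w
  have h1 := RR_apply (norm_smul_lt (evz_norm_le hζ.le) hl) w
  have hl' : ‖starRingEnd ℂ l‖ < 1 := by rw [RCLike.norm_conj]; exact hl
  have h2 := RR_apply (norm_smul_lt (evz'_norm_le hζ.le) hl') w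
  have h3 : (((s : ℂ) • ((evz ζ - starRingEnd ℂ l • (1 : C(CB n, ℂ))) *
      (evz' ζ - l • (1 : C(CB n, ℂ)))) - (1 - l • evz ζ) * (1 - starRingEnd ℂ l • evz' ζ)) *
      RR (l • evz ζ) ^ (s + 1) * RR (starRingEnd ℂ l • evz' ζ) ^ (s + 1)) w =
      ((s : ℂ) * ((ip ζ w.1 - starRingEnd ℂ l) * (ip w.1 ζ - l))
            - (1 - l * ip ζ w.1) * (1 - starRingEnd ℂ l * ip w.1 ζ)) *
      ((RR (l • evz ζ)) w) ^ (s + 1) * ((RR (starRingEnd ℂ l • evz' ζ)) w) ^ (s + 1) := by
    have h4 : (evz ζ - starRingEnd ℂ l • (1 : C(CB n, ℂ))) w = ip ζ w.1 - starRingEnd ℂ l := by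
      simp only [ContinuousMap.sub_apply, ContinuousMap.smul_apply, ContinuousMap.one_apply,
        smul_eq_mul, mul_one]
      rfl
    have h4' : (evz' ζ - l • (1 : C(CB n, ℂ))) w = ip w.1 ζ - l := by
      simp only [ContinuousMap.sub_apply, ContinuousMap.smul_apply, ContinuousMap.one_apply,
        smul_eq_mul, mul_one]
      rfl
    rw [← h4, ← h4']
    rfl
  have h5 : (1 - (l • evz ζ) w) = 1 - l * ip ζ w.1 := rfl
  have h6 : (1 - (starRingEnd ℂ l • evz' ζ) w) = 1 - starRingEnd ℂ l * ip w.1 ζ := rfl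
  rw [h3, h1.1, h2.1, h5, h6, one_div, one_div, inv_pow, inv_pow, div_eq_mul_inv, mul_inv]
  ring

theorem rep_eq (u : CB n → ℂ) (hu : Continuous u) (s : ℕ) (z : Fin n → ℂ) (hz : nsq z < 1) :
    ∫ w, u w / ((1 - ip z w.1) ^ s * (1 - ip w.1 z) ^ s) ∂ν =
      LL ν u hu (RR (evz z) ^ s * RR (evz' z) ^ s) := by
  rw [LL_apply]
  congr 1
  ext w
  have h1 := RR_apply (evz_norm_lt hz) w
  have h2 := RR_apply (evz'_norm_lt hz) w
  have h3 : (RR (evz z) ^ s * RR (evz' z) ^ s) w = ((RR (evz z)) w) ^ s * ((RR (evz' z)) w) ^ s := rfl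
  have h5 : (1 - (evz z) w) = 1 - ip z w.1 := rfl
  have h6 : (1 - (evz' z) w) = 1 - ip w.1 z := rfl
  rw [h3, h1.1, h2.1, h5, h6, one_div, one_div, inv_pow, inv_pow, div_eq_mul_inv, mul_inv]

theorem rep_smul (u : CB n → ℂ) (hu : Continuous u) (s : ℕ) (c : ℂ) (f : CB n → ℂ)
    (hrep : ∀ z : CB n, nsq z.1 < 1 → f z = c * ((1 - nsq z.1 : ℝ) : ℂ) ^ s *
      ∫ w, u w / ((1 - ip z.1 w.1) ^ s * (1 - ip w.1 z.1) ^ s) ∂ν)
    (ζ : Fin n → ℂ) (hζ : nsq ζ = 1) (l : ℂ) (hl : ‖l‖ < 1) (z : CB n) (hz : z.1 = l • ζ) :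
    f z = c * Gam (LL ν u hu) (evz ζ) (evz' ζ) s l (starRingEnd ℂ l) := by
  have h1 : nsq z.1 = ‖l‖ ^ 2 := by rw [hz, nsq_smul, hζ, mul_one]
  have h2 : nsq z.1 < 1 := by
    rw [h1]
    nlinarith [norm_nonneg l]
  rw [hrep z h2, rep_eq ν u hu s z.1 h2, Gam, h1, hz, evz_smul, evz'_smul, mul_assoc,
    Complex.mul_conj, Complex.normSq_eq_norm_sq]
  push_cast
  ring

theorem conj_LL (u : CB n → ℂ) (hu : Continuous u) (s : ℕ) (z : Fin n → ℂ) (hz : nsq z < 1) :
    starRingEnd ℂ (LL ν (fun w => starRingEnd ℂ (u w)) (Complex.continuous_conj.comp hu)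
      (RR (evz z) ^ s)) = LL ν u hu (RR (evz' z) ^ s) := by
  rw [LL_apply, LL_apply, ← integral_conj]
  congr 1
  ext w
  have h1 := RR_apply (evz_norm_lt hz) w
  have h2 := RR_apply (evz'_norm_lt hz) w
  have h3 : (RR (evz z) ^ s) w = ((RR (evz z)) w) ^ s := rfl
  have h3' : (RR (evz' z) ^ s) w = ((RR (evz' z)) w) ^ s := rfl
  have h5 : (1 - (evz z) w) = 1 - ip z w.1 := rfl
  have h6 : (1 - (evz' z) w) = 1 - ip w.1 z := rfl
  rw [h3, h3', h1.1, h2.1, h5, h6, map_mul, Complex.conj_conj, map_pow, map_div₀, map_sub, map_one,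
    conj_ip]

theorem conj_LL_one (u : CB n → ℂ) (hu : Continuous u) :
    starRingEnd ℂ (LL ν (fun w => starRingEnd ℂ (u w)) (Complex.continuous_conj.comp hu) 1) =
      LL ν u hu 1 := by
  rw [LL_apply, LL_apply, ← integral_conj]
  congr 1
  ext w
  rw [map_mul, Complex.conj_conj, ContinuousMap.one_apply, map_one]

theorem gamma_antihol (ν : Measure (CB n)) [IsFiniteMeasure ν] (u : CB n → ℂ) (hu : Continuous u)
    (s : ℕ) (c : ℂ)
    (hrep : ∀ z : CB n, nsq z.1 < 1 → u z = c * ((1 - nsq z.1 : ℝ) : ℂ) ^ s *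
      ∫ w, u w / ((1 - ip z.1 w.1) ^ s * (1 - ip w.1 z.1) ^ s) ∂ν)
    (halpha : ∀ (ζ : Fin n → ℂ) (l : ℂ), nsq ζ = 1 → ‖l‖ < 1 →
      ∫ w, u w * (ip ζ w.1 - starRingEnd ℂ l) /
        ((1 - l * ip ζ w.1) ^ (s + 1) * (1 - starRingEnd ℂ l * ip w.1 ζ) ^ s) ∂ν = 0) :
    ∃ G : (Fin n → ℂ) → ℂ, DifferentiableOn ℂ G {z : Fin n → ℂ | nsq z < 1} ∧
      ∀ z : CB n, nsq z.1 < 1 → u z = starRingEnd ℂ (G z.1) := by
  refine ⟨fun z => starRingEnd ℂ c * LL ν (fun w => starRingEnd ℂ (u w))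
    (Complex.continuous_conj.comp hu) (RR (evz z) ^ s), ?_, ?_⟩
  · apply DifferentiableOn.const_mul
    exact (LL ν (fun w => starRingEnd ℂ (u w))
      (Complex.continuous_conj.comp hu)).differentiable.comp_differentiableOn (RR_evz_diff s)
  · intro z hz
    rw [map_mul, Complex.conj_conj, conj_LL ν u hu s z.1 hz]
    by_cases hz0 : z.1 = 0
    · have h1 := hrep z hz
      rw [rep_eq ν u hu s z.1 hz] at h1
      have h2 : evz z.1 = 0 := by
        rw [hz0, ← evL_apply, map_zero]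
      rw [h1, h2, RR_zero, one_pow, one_mul, hz0, nsq_zero, sub_zero, Complex.ofReal_one, one_pow,
        mul_one]
    · obtain ⟨r, ζ, hr0, hr1, hζ, hzr⟩ := exists_polar hz hz0
      have hl : ‖(r : ℂ)‖ < 1 := by
        rw [Complex.norm_real, Real.norm_of_nonneg hr0]; exact hr1
      have hl' : ‖starRingEnd ℂ (r : ℂ)‖ < 1 := by rw [RCLike.norm_conj]; exact hl
      rw [rep_smul ν u hu s c u hrep ζ hζ r hl z hzr,
        Gam_alpha (LL ν u hu) (evz_norm_le hζ.le) (evz'_norm_le hζ.le) s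
          (fun l hl => by rw [GA_eq ν u hu s ζ hζ l hl]; exact halpha ζ l hζ hl) hl hl', hzr,
        evz'_smul]

theorem gamma_plh (ν : Measure (CB n)) [IsFiniteMeasure ν] (u : CB n → ℂ) (hu : Continuous u)
    (s : ℕ) (hs : 1 ≤ s) (c : ℂ)
    (hrep : ∀ z : CB n, nsq z.1 < 1 → u z = c * ((1 - nsq z.1 : ℝ) : ℂ) ^ s *
      ∫ w, u w / ((1 - ip z.1 w.1) ^ s * (1 - ip w.1 z.1) ^ s) ∂ν)
    (hbeta : ∀ (ζ : Fin n → ℂ) (l : ℂ), nsq ζ = 1 → ‖l‖ < 1 →
      ∫ w, u w * ((s : ℂ) * (ip ζ w.1 - starRingEnd ℂ l) * (ip w.1 ζ - l)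
            - (1 - l * ip ζ w.1) * (1 - starRingEnd ℂ l * ip w.1 ζ)) /
        ((1 - l * ip ζ w.1) ^ (s + 1) * (1 - starRingEnd ℂ l * ip w.1 ζ) ^ (s + 1)) ∂ν = 0) :
    ∃ F G : (Fin n → ℂ) → ℂ, DifferentiableOn ℂ F {z : Fin n → ℂ | nsq z < 1} ∧
      DifferentiableOn ℂ G {z : Fin n → ℂ | nsq z < 1} ∧
      ∀ z : CB n, nsq z.1 < 1 → u z = F z.1 + starRingEnd ℂ (G z.1) := by
  refine ⟨fun z => c * LL ν u hu (RR (evz z) ^ s), fun z => starRingEnd ℂ c * (LL ν
    (fun w => starRingEnd ℂ (u w)) (Complex.continuous_conj.comp hu) (RR (evz z) ^ s) -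
    LL ν (fun w => starRingEnd ℂ (u w)) (Complex.continuous_conj.comp hu) 1), ?_, ?_, ?_⟩
  · apply DifferentiableOn.const_mul
    exact (LL ν u hu).differentiable.comp_differentiableOn (RR_evz_diff s)
  · apply DifferentiableOn.const_mul
    apply DifferentiableOn.sub_const
    exact (LL ν (fun w => starRingEnd ℂ (u w))
      (Complex.continuous_conj.comp hu)).differentiable.comp_differentiableOn (RR_evz_diff s)
  · intro z hz
    show u z = c * LL ν u hu (RR (evz z.1) ^ s) + starRingEnd ℂ (starRingEnd ℂ c * (LL ν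
      (fun w => starRingEnd ℂ (u w)) (Complex.continuous_conj.comp hu) (RR (evz z.1) ^ s) -
      LL ν (fun w => starRingEnd ℂ (u w)) (Complex.continuous_conj.comp hu) 1))
    rw [map_mul, map_sub, Complex.conj_conj, conj_LL ν u hu s z.1 hz, conj_LL_one ν u hu]
    by_cases hz0 : z.1 = 0
    · have h1 := hrep z hz
      rw [rep_eq ν u hu s z.1 hz] at h1
      have h2 : evz z.1 = 0 := by
        rw [hz0, ← evL_apply, map_zero]
      have h3 : evz' z.1 = 0 := by
        have := evz'_smul (0 : ℂ) z.1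
        rw [zero_smul, map_zero, zero_smul] at this
        rw [hz0, this]
      have h4 : evz (0 : Fin n → ℂ) = 0 := by rw [← evL_apply, map_zero]
      rw [h1, h2, h3, RR_zero, one_pow, one_mul, hz0, nsq_zero, sub_zero, Complex.ofReal_one, one_pow,
        mul_one]
      ring
    · obtain ⟨r, ζ, hr0, hr1, hζ, hzr⟩ := exists_polar hz hz0
      have hl : ‖(r : ℂ)‖ < 1 := by
        rw [Complex.norm_real, Real.norm_of_nonneg hr0]; exact hr1
      have hl' : ‖starRingEnd ℂ (r : ℂ)‖ < 1 := by rw [RCLike.norm_conj]; exact hl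
      rw [rep_smul ν u hu s c u hrep ζ hζ r hl z hzr,
        Gam_beta (LL ν u hu) (evz_norm_le hζ.le) (evz'_norm_le hζ.le) s hs
          (fun l hl => by rw [GB_eq ν u hu s ζ hζ l hl]; exact hbeta ζ l hζ hl) hl hl', hzr,
        evz'_smul, evz_smul]
      ring

theorem gamma_norm (ν : Measure (CB n)) [IsFiniteMeasure ν] (s : ℕ) (hs : 1 ≤ s) (c : ℂ)
    (hrep : ∀ z : CB n, nsq z.1 < 1 → (1 : ℂ) = c * ((1 - nsq z.1 : ℝ) : ℂ) ^ s *
      ∫ w, 1 / ((1 - ip z.1 w.1) ^ s * (1 - ip w.1 z.1) ^ s) ∂ν)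
    (ζ : Fin n → ℂ) (hζ : nsq ζ = 1) :
    (s : ℂ) * ∫ w, ip ζ w.1 * ip w.1 ζ ∂ν = ∫ _w, (1 : ℂ) ∂ν := by
  have h1 := Gam_norm (LL ν (fun _ => (1 : ℂ)) continuous_const) (evz_norm_le hζ.le)
    (evz'_norm_le hζ.le) s hs c (by
      intro l hl
      have hz : ∑ i, ‖(l • ζ) i‖ ^ 2 ≤ 1 := by
        have := nsq_smul l ζ
        rw [hζ, mul_one] at this
        show nsq (l • ζ) ≤ 1
        rw [this]
        nlinarith [norm_nonneg l]
      exact (rep_smul ν (fun _ => (1 : ℂ)) continuous_const s c (fun _ => (1 : ℂ)) hrep ζ hζ l hl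
        ⟨l • ζ, hz⟩ rfl).symm)
  rw [LL_apply, LL_apply] at h1
  simp only [ContinuousMap.one_apply, mul_one, one_mul] at h1
  exact h1

end concrete

end Pool.Agent.Ball
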