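import Pool.Agent.Helper76.Ball9
import Pool.Agent.Helper76.BallD

set_option autoImplicit false
set_option linter.unusedSectionVars false
open MeasureTheory

/-! Vanishing typed components force (anti)holomorphy or pluriharmonicity. -/

namespace Pool.Agent.Ball

variable {n : ℕ} [NeZero n]

open ComplexConjugate

/-- change of variables on the closed ball -/
lemma cv_CB (a : CB n) (ha : nsq a.1 < 1) (g : (Fin n → ℂ) → ℂ) :
    ∫ w, g (mob a.1 w.1) * ((1 - nsq w.1 : ℝ) : ℂ) ∂(vB n) =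
      ((1 - nsq a.1 : ℝ) : ℂ) ^ (n + 2) * ∫ w, g w.1 /
        ((1 - ip w.1 a.1) ^ (n + 2) * (1 - ip a.1 w.1) ^ (n + 2)) *
          ((1 - nsq w.1 : ℝ) : ℂ) ∂(vB n) := by
  rw [integral_vB_wt (fun w => g (mob a.1 w)), change_var a.1 ha g,
    integral_vB_wt (fun w => g w / ((1 - ip w a.1) ^ (n + 2) * (1 - ip a.1 w) ^ (n + 2))),
    ← integral_const_mul]
  congr 1
  funext w
  ring

/-- the weighted measure -/
noncomputable def nu (n : ℕ) [NeZero n] : Measure (CB n) :=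
  (vB n).withDensity (fun w => ((wt w).toNNReal : ENNReal))

lemma int_nu (g : CB n → ℂ) : ∫ w, g w ∂(nu n) = ∫ w, g w * ((1 - nsq w.1 : ℝ) : ℂ) ∂(vB n) := by
  rw [nu, integral_withDensity_eq_integral_smul continuous_wt.measurable.real_toNNReal]
  congr 1
  funext w
  rw [NNReal.smul_def, Real.coe_toNNReal _ (wt_nonneg w), Complex.real_smul, mul_comm]
  rfl

instance : IsFiniteMeasure (nu n) := by
  refine isFiniteMeasure_withDensity ?_
  refine ne_of_lt (lt_of_le_of_lt (lintegral_mono (g := fun _ => 1) fun w => ?_) ?_)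
  · have h : (wt w).toNNReal ≤ 1 := by
      rw [Real.toNNReal_le_iff_le_coe]
      simpa using wt_le_one w
    show ((wt w).toNNReal : ENNReal) ≤ 1
    exact_mod_cast h
  · rw [lintegral_one]
    exact measure_lt_top _ _

lemma col_apply (U : UG n) (i : Fin n) : (col U).1 i = U.1 i 0 := by
  show mv U.1 (te n 1) i = _
  rw [mv_apply, Finset.sum_eq_single 0]
  · rw [te_zero_apply]; simp
  · intro b _ hb
    rw [te_apply_of_ne hb, mul_zero]
  · simp

lemma col_inv_apply (U : UG n) : (col U⁻¹).1 0 = conj ((col U).1 0) := by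
  rw [col_apply, col_apply]
  rfl

lemma act_te_apply (U : UG n) (t : ℝ) (p : CB n) (hp : p.1 = te n t) (i : Fin n) :
    (act U p).1 i = t * (col U).1 i := by
  rw [col_apply, act_val, hp, mv_apply, Finset.sum_eq_single 0]
  · rw [te_zero_apply, mul_comm]
  · intro b _ hb
    rw [te_apply_of_ne hb, mul_zero]
  · simp

/-- vanishing typed averages give vanishing weighted integrals -/
lemma int_zero_of_avg (u : C(CB n, ℂ)) (k : C(UG n, ℂ)) (hk : avg k u = 0) (K : CB n → ℂ)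
    (hKc : Continuous K)
    (hK : ∀ (t : ℝ) (p : CB n), p.1 = te n t → ∃ c : ℂ, ∀ U : UG n, K (act U p) = c * k U⁻¹) :
    ∫ w, u w * K w * ((wt w : ℝ) : ℂ) ∂(vB n) = 0 := by
  have hcont : Continuous fun w : CB n => u w * K w * ((wt w : ℝ) : ℂ) :=
    (u.continuous.mul hKc).mul (Complex.continuous_ofReal.comp continuous_wt)
  rw [int_average _ hcont]
  have h : ∀ w : CB n, ∫ U, u (act U w) * K (act U w) * ((wt (act U w) : ℝ) : ℂ) ∂(hU n) = 0 := by
    intro w
    simp only [wt_act]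
    rw [integral_mul_const]
    obtain ⟨V, t, ht, hw, -⟩ := exists_act w
    set p : CB n := ⟨te n t, by
      have := nsq_te (n := n) t; unfold nsq at this; rw [this]; exact ht.2⟩ with hp
    have h1 : ∫ U, u (act U w) * K (act U w) ∂(hU n) = ∫ U, u (act U p) * K (act U p) ∂(hU n) := by
      rw [hw]
      have := int_right V (fun U => u (act U p) * K (act U p))
      simp only [act_mul] at this
      exact this
    obtain ⟨c, hc⟩ := hK t p rfl
    have h2 : ∫ U, u (act U p) * K (act U p) ∂(hU n) =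
        ∫ U, c * (k U * u (act U⁻¹ p)) ∂(hU n) := by
      rw [← int_inv]
      congr 1
      funext U
      rw [hc, inv_inv]
      ring
    rw [h1, h2, integral_const_mul]
    have h3 : ∫ U, k U * u (act U⁻¹ p) ∂(hU n) = 0 := by
      have := congrArg (fun g : C(CB n, ℂ) => g p) hk
      simpa [avg_apply] using this
    rw [h3, mul_zero, zero_mul]
  simp only [h]
  simp

section alpha

variable {Y : Submodule ℂ C(CB n, ℂ)}

lemma comp_act_mem (hY : InvY Y) {f : C(CB n, ℂ)} (hf : f ∈ Y) (V : UG n) :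
    f.comp (actC V) ∈ Y :=
  MemF.mem (hY.actI V f (MemF.of_mem hf))

lemma comp_T_mem (hY : InvY Y) {f : C(CB n, ℂ)} (hf : f ∈ Y) (a : CB n) (ha : nsq a.1 < 1) :
    f.comp (TC a ha) ∈ Y :=
  MemF.mem (hY.mobI a ha f (MemF.of_mem hf))

/-- if the (1,0) components vanish at `e₁` then the (1,0) averages of `P f` vanish -/
lemma avg10_zero (hα : ∀ f ∈ Y, avg (k10 0) f (e1c n) = 0) {f : C(CB n, ℂ)} (hf : f ∈ Y) :
    avg (k10 0) (Pc f) = 0 := by
  obtain ⟨G, _, hG, _, hFG⟩ := struct10 (fun z i => avg (k10 i) f z)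
    (continuous_pi fun i => (avg (k10 i) f).continuous) (cov10_avg f)
  have h0 : G (te n 1) = 0 := by
    have h1 := hFG (e1c n) 0
    have h2 : (e1c n).1 0 = 1 := by
      show te n 1 0 = 1
      rw [te_zero_apply]; simp
    rw [h2, mul_one] at h1
    exact h1.symm.trans (hα f hf)
  have h3 : Pc (avg (k10 0) f) = Pc 0 := by
    refine Pc_congr fun z hz => ?_
    rw [hFG z 0]
    have h4 : G z.1 = G (te n 1) := radial_eq hG (by rw [hz, nsq_te]; norm_num)
    rw [h4, h0, zero_mul]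
    rfl
  rw [← Pc_avg, h3, map_zero]

lemma alpha_ip (hY : InvY Y) (hα : ∀ f ∈ Y, avg (k10 0) f (e1c n) = 0) {f : C(CB n, ℂ)}
    (hf : f ∈ Y) (ζ : Fin n → ℂ) (hζ : nsq ζ = 1) :
    ∫ w, Pc f w * ip ζ w.1 * ((wt w : ℝ) : ℂ) ∂(vB n) = 0 := by
  obtain ⟨V, hV⟩ := exists_act_sphere (z := (⟨ζ, hζ.le⟩ : CB n)) hζ
  have hV' : ζ = (col V).1 := congrArg Subtype.val hV
  rw [← int_act V]
  have h := int_zero_of_avg (Pc (f.comp (actC V))) (k10 0)
    (avg10_zero hα (comp_act_mem hY hf V)) (fun w => conj (w.1 0))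
    (Complex.continuous_conj.comp ((continuous_apply 0).comp continuous_subtype_val)) (by
      intro t p hp
      refine ⟨t, fun U => ?_⟩
      rw [act_te_apply U t p hp 0]
      show _ = (t : ℂ) * (col U⁻¹).1 0
      rw [col_inv_apply, map_mul, Complex.conj_ofReal])
  rw [← h]
  congr 1
  funext w
  rw [wt_act, Pc_act]
  congr 2
  rw [hV']
  show ip (mv V.1 (te n 1)) (mv V.1 w.1) = _
  rw [ip_mv, ip_te_left]
  simp

lemma alpha_T (hY : InvY Y) (hα : ∀ f ∈ Y, avg (k10 0) f (e1c n) = 0) {f : C(CB n, ℂ)}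
    (hf : f ∈ Y) (a : CB n) (ha : nsq a.1 < 1) (ζ : Fin n → ℂ) (hζ : nsq ζ = 1) :
    ∫ w, Pc f (T a w) * ip ζ w.1 * ((wt w : ℝ) : ℂ) ∂(vB n) = 0 := by
  have h := alpha_ip hY hα (comp_T_mem hY hf a ha) ζ hζ
  simp only [Pc_T] at h
  exact h

end alpha

lemma alg1 (l lc x : ℂ) (h : 1 - l * x ≠ 0) (h2 : 1 - l * lc ≠ 0) :
    ((lc - x) / (1 - l * x) - lc) / (1 - l * ((lc - x) / (1 - l * x))) = -x := by
  have e5 : 1 - l * ((lc - x) / (1 - l * x)) = (1 - l * lc) / (1 - l * x) := by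
    field_simp
    ring
  have e6 : (lc - x) / (1 - l * x) - lc = (-x * (1 - l * lc)) / (1 - l * x) := by
    rw [div_sub' h]
    congr 1
    ring
  rw [e5, e6, div_div_div_cancel_right₀ h, mul_div_cancel_right₀ _ h2]

lemma alg2 (u s x xc l lc : ℂ) (N : ℕ) (hA : 1 - l * x ≠ 0) (hB : 1 - lc * xc ≠ 0) :
    u * (s * (x - lc) * (xc - l) - (1 - l * x) * (1 - lc * xc)) /
      ((1 - l * x) ^ (N + 1) * (1 - lc * xc) ^ (N + 1)) =
    u * (s * ((x - lc) / (1 - l * x) * ((xc - l) / (1 - lc * xc))) - 1) /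
      ((1 - lc * xc) ^ N * (1 - l * x) ^ N) := by
  set A := 1 - l * x
  set B := 1 - lc * xc
  rw [pow_succ, pow_succ]
  field_simp

lemma alg3 (u x xc l lc : ℂ) (N : ℕ) (hA : 1 - l * x ≠ 0) :
    u * (x - lc) / ((1 - l * x) ^ (N + 1) * (1 - lc * xc) ^ N) =
    u * ((x - lc) / (1 - l * x)) / ((1 - lc * xc) ^ N * (1 - l * x) ^ N) := by
  set A := 1 - l * x
  set B := 1 - lc * xc
  rw [pow_succ]
  field_simp

/-- the slice formula -/
lemma ip_slice {ζ : Fin n → ℂ} (hζ : nsq ζ = 1) {l : ℂ} (hl : ‖l‖ < 1) {w : Fin n → ℂ}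
    (hw : nsq w ≤ 1) :
    ip ζ (mob (l • ζ) w) = (conj l - ip ζ w) / (1 - l * ip ζ w) := by
  have hns : nsq (l • ζ) = ‖l‖ ^ 2 := by rw [nsq_smul, hζ, mul_one]
  have ha : nsq (l • ζ) < 1 := by rw [hns]; nlinarith [norm_nonneg l]
  have hs := sq_sqC ha.le
  have h1 := one_add_sq_ne (l • ζ)
  have hwa : ip w (l • ζ) = conj l * ip w ζ := by
    simp only [ip, Pi.smul_apply, smul_eq_mul, map_mul, Finset.mul_sum]
    exact Finset.sum_congr rfl fun i _ => by ring
  have haw : ip (l • ζ) w = l * ip ζ w := by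
    simp only [ip, Pi.smul_apply, smul_eq_mul, Finset.mul_sum]
    exact Finset.sum_congr rfl fun i _ => by ring
  have hza : ip ζ (l • ζ) = conj l := by
    have : ip ζ (l • ζ) = conj l * ip ζ ζ := by
      simp only [ip, Pi.smul_apply, smul_eq_mul, map_mul, Finset.mul_sum]
      exact Finset.sum_congr rfl fun i _ => by ring
    rw [this, ip_self, hζ]; simp
  have hne : 1 - l * ip ζ w ≠ 0 := by
    rw [← haw]
    exact one_sub_ip_ne' ha hw
  have hll : l * conj l = 1 - (sq (l • ζ) : ℂ) ^ 2 := by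
    rw [hs, hns, Complex.mul_conj, Complex.normSq_eq_norm_sq]
    push_cast
    ring
  rw [mob_eq, ip_lin_right, hza]
  simp only [map_div₀, map_sub, map_neg, map_add, map_one, Complex.conj_ofReal, conj_ip, haw]
  field_simp
  linear_combination (-(ip ζ w)) * hll

section final

variable {Y : Submodule ℂ C(CB n, ℂ)}

lemma rep_nu (f : C(CB n, ℂ)) (z : CB n) (hz : nsq z.1 < 1) :
    Pc f z = (cw n : ℂ)⁻¹ * ((1 - nsq z.1 : ℝ) : ℂ) ^ (n + 2) *
      ∫ w, Pc f w / ((1 - ip z.1 w.1) ^ (n + 2) * (1 - ip w.1 z.1) ^ (n + 2)) ∂(nu n) := by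
  rw [int_nu, poisson_rep_of f (Rc_Pc f) z hz]
  congr 2
  funext w
  show _ = _ * ((wt w : ℝ) : ℂ)
  ring

/-- no (1,0) component: `P f` is antiholomorphic -/
theorem antihol_of (hY : InvY Y) (hα : ∀ f ∈ Y, avg (k10 0) f (e1c n) = 0) {f : C(CB n, ℂ)}
    (hf : f ∈ Y) : ∃ G : (Fin n → ℂ) → ℂ, DifferentiableOn ℂ G {z : Fin n → ℂ | nsq z < 1} ∧
      ∀ z : CB n, nsq z.1 < 1 → Pc f z = conj (G z.1) := by
  refine gamma_antihol (nu n) (Pc f) (Pc f).continuous (n + 2) ((cw n : ℂ)⁻¹) (rep_nu f) ?_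
  intro ζ l hζ hl
  have hns : nsq (l • ζ) = ‖l‖ ^ 2 := by rw [nsq_smul, hζ, mul_one]
  have ha : nsq (l • ζ) < 1 := by rw [hns]; nlinarith [norm_nonneg l]
  let a : CB n := ⟨l • ζ, ha.le⟩
  have hwa : ∀ w : Fin n → ℂ, ip w (l • ζ) = conj l * ip w ζ := by
    intro w
    simp only [ip, Pi.smul_apply, smul_eq_mul, map_mul, Finset.mul_sum]
    exact Finset.sum_congr rfl fun i _ => by ring
  have haw : ∀ w : Fin n → ℂ, ip (l • ζ) w = l * ip ζ w := by
    intro w
    simp only [ip, Pi.smul_apply, smul_eq_mul, Finset.mul_sum]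
    exact Finset.sum_congr rfl fun i _ => by ring
  let g : (Fin n → ℂ) → ℂ := fun w => ext0 (Pc f) w * ((ip ζ w - conj l) / (1 - l * ip ζ w))
  have h1 := cv_CB a ha g
  have h2 : ∫ w : CB n, g (mob a.1 w.1) * ((1 - nsq w.1 : ℝ) : ℂ) ∂(vB n) = 0 := by
    have h3 := alpha_T hY hα hf a ha ζ hζ
    have h4 : ∀ w : CB n, g (mob a.1 w.1) * ((1 - nsq w.1 : ℝ) : ℂ) =
        -(Pc f (T a w) * ip ζ w.1 * ((wt w : ℝ) : ℂ)) := by
      intro w
      have e1 : ext0 (Pc f) (mob a.1 w.1) = Pc f (T a w) := ext0_val (Pc f) (T a w)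
      have e2 := ip_slice hζ hl w.2
      have hne : 1 - l * ip ζ w.1 ≠ 0 := by
        rw [← haw]
        exact one_sub_ip_ne' ha w.2
      have hl2 : 1 - l * conj l ≠ 0 := by
        rw [Complex.mul_conj, Complex.normSq_eq_norm_sq]
        have : (0 : ℝ) < 1 - ‖l‖ ^ 2 := by nlinarith [norm_nonneg l]
        exact_mod_cast this.ne'
      simp only [g]
      rw [e1]
      have e3 : ip ζ (mob a.1 w.1) = (conj l - ip ζ w.1) / (1 - l * ip ζ w.1) := e2
      rw [e3]
      have e4 := alg1 l (conj l) (ip ζ w.1) hne hl2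
      rw [e4]
      show _ = -(Pc f (T a w) * ip ζ w.1 * ((1 - nsq w.1 : ℝ) : ℂ))
      ring
    simp only [h4]
    rw [integral_neg, h3, neg_zero]
  rw [h2] at h1
  have h5 : ((1 - nsq a.1 : ℝ) : ℂ) ^ (n + 2) ≠ 0 := by
    refine pow_ne_zero _ ?_
    have : (0 : ℝ) < 1 - nsq a.1 := by
      have := ha
      show (0 : ℝ) < 1 - nsq (l • ζ)
      linarith
    exact_mod_cast this.ne'
  have h6 := (mul_eq_zero.1 h1.symm).resolve_left h5
  rw [int_nu, ← h6]
  congr 1
  funext w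
  congr 1
  show _ = ext0 (Pc f) w.1 * ((ip ζ w.1 - conj l) / (1 - l * ip ζ w.1)) / _
  rw [ext0_val]
  show _ = _ / ((1 - ip w.1 (l • ζ)) ^ (n + 2) * (1 - ip (l • ζ) w.1) ^ (n + 2))
  rw [hwa, haw]
  have hne : 1 - l * ip ζ w.1 ≠ 0 := by
    rw [← haw]
    exact one_sub_ip_ne' ha w.2
  exact alg3 _ _ _ _ _ _ hne

/-- if the (1,1) components vanish at `e₁` then the (1,1) averages of `P f` vanish -/
lemma avg11_zero (hβ : ∀ f ∈ Y, avg (k11 0 0) f (e1c n) = 0) {f : C(CB n, ℂ)} (hf : f ∈ Y) :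
    avg (k11 0 0) (Pc f) = 0 := by
  have hn0 : (n : ℂ) ≠ 0 := by exact_mod_cast NeZero.ne n
  obtain ⟨G, _, hG, _, hFG⟩ := struct11 (mat fun i j => avg (k11 i j) f)
    (continuous_matrix fun i j => (avg (k11 i j) f).continuous) (cov11_avg f) (trace_avg f)
  have h3 : Pc (avg (k11 0 0) f) = Pc 0 := by
    refine Pc_congr fun z hz => ?_
    have h5 : avg (k11 0 0) f z = G z.1 * (z.1 0 * conj (z.1 0) -
        if (0 : Fin n) = 0 then (nsq z.1 : ℂ) / n else 0) := hFG z 0 0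
    have h6 : avg (k11 0 0) f z = G z.1 * (z.1 0 * conj (z.1 0) - 1 / n) := by
      rw [if_pos rfl, hz] at h5
      rw [h5]
      simp
    rw [h6]
    by_cases hn : n = 1
    · subst hn
      have h7 : z.1 0 * conj (z.1 0) = 1 := by
        have := ip_self z.1
        rw [hz] at this
        simpa [ip] using this
      rw [h7]
      simp
    · have h0 : G (te n 1) = 0 := by
        have h1 := hFG (e1c n) 0 0
        have h2 : (e1c n).1 0 = 1 := by
          show te n 1 0 = 1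
          rw [te_zero_apply]; simp
        have h2' : nsq (e1c n).1 = 1 := by
          show nsq (te n 1) = 1
          rw [nsq_te]; norm_num
        rw [if_pos rfl, h2, h2', map_one, mul_one] at h1
        have h8 : G (te n 1) * (1 - 1 / (n : ℂ)) = 0 := by
          have h9 : G (te n 1) * (1 - ((1 : ℝ) : ℂ) / n) = 0 := by
            refine Eq.trans h1.symm ?_
            exact hβ f hf
          rw [Complex.ofReal_one] at h9
          exact h9
        have h10 : (1 : ℂ) - 1 / n ≠ 0 := by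
          have e : (1 : ℂ) - 1 / n = ((n : ℂ) - 1) / n := by field_simp
          rw [e]
          refine div_ne_zero ?_ hn0
          rw [sub_ne_zero]
          exact_mod_cast hn
        exact (mul_eq_zero.1 h8).resolve_right h10
      have h4 : G z.1 = G (te n 1) := radial_eq hG (by rw [hz, nsq_te]; norm_num)
      rw [h4, h0, zero_mul]
      rfl
  rw [← Pc_avg, h3, map_zero]

lemma beta_ip (hY : InvY Y) (hβ : ∀ f ∈ Y, avg (k11 0 0) f (e1c n) = 0) {f : C(CB n, ℂ)}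
    (hf : f ∈ Y) (ζ : Fin n → ℂ) (hζ : nsq ζ = 1) :
    ∫ w, Pc f w * (ip ζ w.1 * ip w.1 ζ - (nsq w.1 : ℂ) / n) * ((wt w : ℝ) : ℂ) ∂(vB n) = 0 := by
  obtain ⟨V, hV⟩ := exists_act_sphere (z := (⟨ζ, hζ.le⟩ : CB n)) hζ
  have hV' : ζ = (col V).1 := congrArg Subtype.val hV
  rw [← int_act V]
  have hc0 : Continuous fun w : CB n => w.1 0 := (continuous_apply 0).comp continuous_subtype_val
  have hc1 : Continuous fun w : CB n => (nsq w.1 : ℂ) :=
    Complex.continuous_ofReal.comp (continuous_nsq.comp continuous_subtype_val)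
  have h := int_zero_of_avg (Pc (f.comp (actC V))) (k11 0 0)
    (avg11_zero hβ (comp_act_mem hY hf V))
    (fun w => w.1 0 * conj (w.1 0) - (nsq w.1 : ℂ) / n)
    ((hc0.mul (Complex.continuous_conj.comp hc0)).sub (hc1.div_const _)) (by
      intro t p hp
      refine ⟨(t : ℂ) ^ 2, fun U => ?_⟩
      have e1 : nsq (act U p).1 = t ^ 2 := by rw [nsq_act, hp, nsq_te]
      rw [e1, act_te_apply U t p hp 0]
      show _ = (t : ℂ) ^ 2 * ((col U⁻¹).1 0 * conj ((col U⁻¹).1 0) -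
        if (0 : Fin n) = 0 then 1 / (n : ℂ) else 0)
      rw [if_pos rfl, col_inv_apply, map_mul, Complex.conj_ofReal, Complex.conj_conj]
      push_cast
      ring)
  rw [← h]
  congr 1
  funext w
  rw [wt_act, Pc_act]
  congr 2
  rw [nsq_act, hV']
  show ip (mv V.1 (te n 1)) (mv V.1 w.1) * ip (mv V.1 w.1) (mv V.1 (te n 1)) - _ = _
  rw [ip_mv, ip_mv, ip_te_left, ip_te_right]
  simp only [Complex.ofReal_one, one_mul]
  ring

/-- the constant function is `P` invariant -/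
lemma Pc_one : Pc (1 : C(CB n, ℂ)) = 1 := by
  ext z
  rw [Pc_apply]
  simp

lemma int_ip_sq (ζ : Fin n → ℂ) (hζ : nsq ζ = 1) :
    ((n : ℂ) + 2) * ∫ w, ip ζ w.1 * ip w.1 ζ * ((wt w : ℝ) : ℂ) ∂(vB n) = cw n := by
  have h := gamma_norm (nu n) (n + 2) (by omega) ((cw n : ℂ)⁻¹) (fun z hz => by
    have := rep_nu (1 : C(CB n, ℂ)) z hz
    rw [Pc_one] at this
    simpa using this) ζ hζ
  rw [int_nu, int_nu] at h
  push_cast at h
  have e1 : ∫ w, ip ζ w.1 * ip w.1 ζ * ((wt w : ℝ) : ℂ) ∂(vB n) =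
      ∫ w, ip ζ w.1 * ip w.1 ζ * (1 - (nsq w.1 : ℂ)) ∂(vB n) := by
    congr 1
    funext w
    simp [wt]
  rw [e1, h, cw, ← integral_complex_ofReal]
  congr 1
  funext w
  simp [wt]

lemma int_nsq : ∫ w, (nsq w.1 : ℂ) * ((wt w : ℝ) : ℂ) ∂(vB n) = n * cw n / ((n : ℂ) + 2) := by
  have hn : ((n : ℂ) + 2) ≠ 0 := by
    have : (0 : ℝ) < (n : ℝ) + 2 := by positivity
    exact_mod_cast this.ne'
  have h1 : ∀ w : CB n, (nsq w.1 : ℂ) * ((wt w : ℝ) : ℂ) =
      ∑ i, ip (Pi.single i 1) w.1 * ip w.1 (Pi.single i 1) * ((wt w : ℝ) : ℂ) := by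
    intro w
    rw [← Finset.sum_mul]
    congr 1
    rw [← ip_self]
    simp only [ip]
    refine Finset.sum_congr rfl fun i _ => ?_
    rw [Finset.sum_eq_single i, Finset.sum_eq_single i]
    · simp [mul_comm]
    · intro b _ hb; simp [Pi.single_eq_of_ne hb]
    · simp
    · intro b _ hb; simp [Pi.single_eq_of_ne hb]
    · simp
  have h2 : ∀ i : Fin n, nsq (Pi.single i (1 : ℂ)) = 1 := by
    intro i
    rw [nsq, Finset.sum_eq_single i]
    · simp
    · intro b _ hb; simp [Pi.single_eq_of_ne hb]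
    · simp
  simp only [h1]
  rw [integral_finsetSum]
  · have h3 : ∀ i : Fin n, ∫ w, ip (Pi.single i 1) w.1 * ip w.1 (Pi.single i 1) *
        ((wt w : ℝ) : ℂ) ∂(vB n) = cw n / ((n : ℂ) + 2) := by
      intro i
      rw [eq_div_iff hn, mul_comm]
      exact int_ip_sq _ (h2 i)
    simp only [h3, Finset.sum_const, Finset.card_univ, Fintype.card_fin, nsmul_eq_mul]
    ring
  · intro i _
    refine integrable_vB ?_
    exact ((continuous_ip_comp continuous_const continuous_subtype_val).mul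
      (continuous_ip_comp continuous_subtype_val continuous_const)).mul
      (Complex.continuous_ofReal.comp continuous_wt)

lemma beta_T (hY : InvY Y) (hβ : ∀ f ∈ Y, avg (k11 0 0) f (e1c n) = 0) {f : C(CB n, ℂ)}
    (hf : f ∈ Y) (a : CB n) (ha : nsq a.1 < 1) (ζ : Fin n → ℂ) (hζ : nsq ζ = 1) :
    ∫ w, Pc f (T a w) * (((n : ℂ) + 2) * (ip ζ w.1 * ip w.1 ζ) - 1) *
      ((wt w : ℝ) : ℂ) ∂(vB n) = 0 := by
  have hn0 : (n : ℂ) ≠ 0 := by exact_mod_cast NeZero.ne n
  have hn : ((n : ℂ) + 2) ≠ 0 := by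
    have : (0 : ℝ) < (n : ℝ) + 2 := by positivity
    exact_mod_cast this.ne'
  have hwtc : Continuous fun w : CB n => ((wt w : ℝ) : ℂ) :=
    Complex.continuous_ofReal.comp continuous_wt
  have hnc : Continuous fun w : CB n => (nsq w.1 : ℂ) :=
    Complex.continuous_ofReal.comp (continuous_nsq.comp continuous_subtype_val)
  have hipc : Continuous fun w : CB n => ip ζ w.1 * ip w.1 ζ :=
    (continuous_ip_comp continuous_const continuous_subtype_val).mul
      (continuous_ip_comp continuous_subtype_val continuous_const)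
  set f' := f.comp (TC a ha) with hf'
  have h1 := beta_ip hY hβ (comp_T_mem hY hf a ha) ζ hζ
  have h2 := int_Pc_radial f' (fun w => (nsq w.1 : ℂ) * ((wt w : ℝ) : ℂ)) (hnc.mul hwtc)
    (fun U w => by simp only [nsq_act, wt_act])
  have h3 := int_Pc_radial f' (fun w => ((wt w : ℝ) : ℂ)) hwtc (fun U w => by simp only [wt_act])
  rw [int_nsq] at h2
  have h4 : ∫ w, ((wt w : ℝ) : ℂ) ∂(vB n) = cw n := integral_complex_ofReal
  rw [h4] at h3
  have i1 : Integrable (fun w => Pc f' w * (ip ζ w.1 * ip w.1 ζ - (nsq w.1 : ℂ) / n) *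
      ((wt w : ℝ) : ℂ)) (vB n) :=
    integrable_vB (((Pc f').continuous.mul (hipc.sub (hnc.div_const _))).mul hwtc)
  have i2 : Integrable (fun w => Pc f' w * ((nsq w.1 : ℂ) * ((wt w : ℝ) : ℂ))) (vB n) :=
    integrable_vB ((Pc f').continuous.mul (hnc.mul hwtc))
  have i3 : Integrable (fun w => Pc f' w * ((wt w : ℝ) : ℂ)) (vB n) :=
    integrable_vB ((Pc f').continuous.mul hwtc)
  have h5 : ∀ w : CB n, Pc f (T a w) * (((n : ℂ) + 2) * (ip ζ w.1 * ip w.1 ζ) - 1) *
      ((wt w : ℝ) : ℂ) =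
      ((n : ℂ) + 2) * (Pc f' w * (ip ζ w.1 * ip w.1 ζ - (nsq w.1 : ℂ) / n) * ((wt w : ℝ) : ℂ)) +
      (((n : ℂ) + 2) / n * (Pc f' w * ((nsq w.1 : ℂ) * ((wt w : ℝ) : ℂ))) -
        Pc f' w * ((wt w : ℝ) : ℂ)) := by
    intro w
    rw [hf', Pc_T]
    field_simp
    ring
  have i4 : Integrable (fun w => ((n : ℂ) + 2) / n * (Pc f' w * ((nsq w.1 : ℂ) *
      ((wt w : ℝ) : ℂ))) - Pc f' w * ((wt w : ℝ) : ℂ)) (vB n) := (i2.const_mul _).sub i3
  simp only [h5]
  rw [integral_add (i1.const_mul _) i4, integral_sub (i2.const_mul _) i3,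
    integral_const_mul, integral_const_mul, h1, h2, h3]
  field_simp
  ring

/-- no (1,1) component: `P f` is pluriharmonic -/
theorem plh_of (hY : InvY Y) (hβ : ∀ f ∈ Y, avg (k11 0 0) f (e1c n) = 0) {f : C(CB n, ℂ)}
    (hf : f ∈ Y) : ∃ F G : (Fin n → ℂ) → ℂ, DifferentiableOn ℂ F {z : Fin n → ℂ | nsq z < 1} ∧
      DifferentiableOn ℂ G {z : Fin n → ℂ | nsq z < 1} ∧
      ∀ z : CB n, nsq z.1 < 1 → Pc f z = F z.1 + conj (G z.1) := by
  refine gamma_plh (nu n) (Pc f) (Pc f).continuous (n + 2) (by omega) ((cw n : ℂ)⁻¹) (rep_nu f) ?_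
  intro ζ l hζ hl
  have hns : nsq (l • ζ) = ‖l‖ ^ 2 := by rw [nsq_smul, hζ, mul_one]
  have ha : nsq (l • ζ) < 1 := by rw [hns]; nlinarith [norm_nonneg l]
  let a : CB n := ⟨l • ζ, ha.le⟩
  have hwa : ∀ w : Fin n → ℂ, ip w (l • ζ) = conj l * ip w ζ := by
    intro w
    simp only [ip, Pi.smul_apply, smul_eq_mul, map_mul, Finset.mul_sum]
    exact Finset.sum_congr rfl fun i _ => by ring
  have haw : ∀ w : Fin n → ℂ, ip (l • ζ) w = l * ip ζ w := by
    intro w
    simp only [ip, Pi.smul_apply, smul_eq_mul, Finset.mul_sum]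
    exact Finset.sum_congr rfl fun i _ => by ring
  let g : (Fin n → ℂ) → ℂ := fun w => ext0 (Pc f) w *
    (((n : ℂ) + 2) * (((ip ζ w - conj l) / (1 - l * ip ζ w)) *
      conj ((ip ζ w - conj l) / (1 - l * ip ζ w))) - 1)
  have h1 := cv_CB a ha g
  have h2 : ∫ w : CB n, g (mob a.1 w.1) * ((1 - nsq w.1 : ℝ) : ℂ) ∂(vB n) = 0 := by
    rw [← beta_T hY hβ hf a ha ζ hζ]
    congr 1
    funext w
    have e1 : ext0 (Pc f) (mob a.1 w.1) = Pc f (T a w) := ext0_val (Pc f) (T a w)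
    have e2 := ip_slice hζ hl w.2
    have hne : 1 - l * ip ζ w.1 ≠ 0 := by
      rw [← haw]
      exact one_sub_ip_ne' ha w.2
    have hl2 : 1 - l * conj l ≠ 0 := by
      rw [Complex.mul_conj, Complex.normSq_eq_norm_sq]
      have : (0 : ℝ) < 1 - ‖l‖ ^ 2 := by nlinarith [norm_nonneg l]
      exact_mod_cast this.ne'
    simp only [g]
    rw [e1]
    have e3 : ip ζ (mob a.1 w.1) = (conj l - ip ζ w.1) / (1 - l * ip ζ w.1) := e2
    rw [e3]
    have e4 := alg1 l (conj l) (ip ζ w.1) hne hl2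
    rw [e4, map_neg, conj_ip]
    show _ * ((1 - nsq w.1 : ℝ) : ℂ) = _ * ((1 - nsq w.1 : ℝ) : ℂ)
    ring
  rw [h2] at h1
  have h5 : ((1 - nsq a.1 : ℝ) : ℂ) ^ (n + 2) ≠ 0 := by
    refine pow_ne_zero _ ?_
    have : (0 : ℝ) < 1 - nsq a.1 := by
      have := ha
      show (0 : ℝ) < 1 - nsq (l • ζ)
      linarith
    exact_mod_cast this.ne'
  have h6 := (mul_eq_zero.1 h1.symm).resolve_left h5
  rw [int_nu, ← h6]
  congr 1
  funext w
  congr 1
  show _ = ext0 (Pc f) w.1 * (((n : ℂ) + 2) * (((ip ζ w.1 - conj l) / (1 - l * ip ζ w.1)) *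
      conj ((ip ζ w.1 - conj l) / (1 - l * ip ζ w.1))) - 1) / _
  rw [ext0_val]
  show _ = _ / ((1 - ip w.1 (l • ζ)) ^ (n + 2) * (1 - ip (l • ζ) w.1) ^ (n + 2))
  rw [hwa, haw]
  have hne : 1 - l * ip ζ w.1 ≠ 0 := by
    rw [← haw]
    exact one_sub_ip_ne' ha w.2
  have hne2 : 1 - conj l * ip w.1 ζ ≠ 0 := by
    rw [← hwa]
    exact one_sub_ip_ne w.2 ha
  simp only [map_div₀, map_sub, map_mul, map_one, Complex.conj_conj, conj_ip]
  push_cast
  exact alg2 _ _ _ _ _ _ _ hne hne2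

end final

end Pool.Agent.Ball
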