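import Pool.Agent.Helper76.Ball10

set_option autoImplicit false
set_option linter.unusedSectionVars false
open MeasureTheory

/-! The classification. -/

namespace Pool.Agent.Ball

variable {n : ℕ} [NeZero n]

open ComplexConjugate

variable {Y : Submodule ℂ C(CB n, ℂ)}

/-- if some Poisson integral is nonzero then the constants are in `Y` -/
lemma one_mem (hY : InvY Y) (h : ∃ f ∈ Y, Pc f ≠ 0) : (1 : C(CB n, ℂ)) ∈ Y := by
  obtain ⟨f, hf, hne⟩ := h
  -- a point of the open ball where `P f` is nonzero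
  obtain ⟨z0, hz0, hfz0⟩ : ∃ z : CB n, nsq z.1 < 1 ∧ Pc f z ≠ 0 := by
    by_contra hcon
    push Not at hcon
    apply hne
    have := eq_of_eq_open (Pc f).continuous (continuous_const (y := (0 : ℂ))) hcon
    ext z
    exact congrFun this z
  set g := f.comp (TC z0 hz0) with hg
  have hgY : g ∈ Y := comp_T_mem hY hf z0 hz0
  have hgc : Pc g (cen n) ≠ 0 := by
    rw [hg, Pc_T]
    have : T z0 (cen n) = z0 := T_zero z0
    rw [this]
    exact hfz0
  have hh := typed00 hY (cov00_avg g) (avg_mem hY (k00 n) hgY)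
  have h1 : Pc (avg (k00 n) g) = Pc (Pc g (cen n) • (1 : C(CB n, ℂ))) := by
    refine Pc_congr fun z hz => ?_
    rw [avg_apply]
    have h2 : ∫ U, k00 n U * g (act U⁻¹ z) ∂(hU n) = ∫ U, g (act U z) ∂(hU n) := by
      have h3 := int_inv (n := n) (fun U => g (act U z))
      rw [← h3]
      congr 1
      funext U
      show (1 : ℂ) * _ = _
      rw [one_mul]
    rw [h2, avg_sphere g hz, ← Pc_cen]
    simp
  rw [h1, map_smul, Pc_one] at hh
  have h4 := Y.smul_mem ((Pc g (cen n))⁻¹) hh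
  rwa [smul_smul, inv_mul_cancel₀ hgc, one_smul] at h4

lemma holo_coord (i : Fin n) : holo (coordC i : C(CB n, ℂ)) :=
  ⟨fun z => z i, (differentiable_apply i).differentiableOn, fun _ _ => rfl⟩

/-- a nonzero (1,0) component gives the coordinate functions -/
lemma coord_mem (hY : InvY Y) (h : ∃ f ∈ Y, avg (k10 0) f (e1c n) ≠ 0) (i : Fin n) :
    (coordC i : C(CB n, ℂ)) ∈ Y := by
  obtain ⟨f, hf, hne⟩ := h
  obtain ⟨G, _, hG, _, hFG⟩ := struct10 (fun z i => avg (k10 i) f z)
    (continuous_pi fun i => (avg (k10 i) f).continuous) (cov10_avg f)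
  have h0 : G (te n 1) ≠ 0 := by
    have h1 := hFG (e1c n) 0
    have h2 : (e1c n).1 0 = 1 := by
      show te n 1 0 = 1
      rw [te_zero_apply]; simp
    rw [h2, mul_one] at h1
    intro h3
    exact hne (h1.trans h3)
  have hh := typed10 hY (cov10_avg f) (fun i => avg_mem hY (k10 i) hf) i
  have h1 : Pc (avg (k10 i) f) = Pc (G (te n 1) • coordC i) := by
    refine Pc_congr fun z hz => ?_
    rw [hFG z i]
    have h4 : G z.1 = G (te n 1) := radial_eq hG (by rw [hz, nsq_te]; norm_num)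
    rw [h4]
    rfl
  rw [h1, map_smul, holo_Pc _ (holo_coord i)] at hh
  have h4 := Y.smul_mem ((G (te n 1))⁻¹) hh
  rwa [smul_smul, inv_mul_cancel₀ h0, one_smul] at h4

lemma coord_ne : (coordC 0 : C(CB n, ℂ)) ≠ 0 := by
  intro h
  have := congrArg (fun g : C(CB n, ℂ) => g (e1c n)) h
  have h2 : (coordC 0 : C(CB n, ℂ)) (e1c n) = 1 := by
    show te n 1 0 = 1
    rw [te_zero_apply]; simp
  simp only [h2] at this
  simp at this

/-- a nonzero (1,0) component gives the ball algebra -/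
lemma holo_sub (hY : InvY Y) (h : ∃ f ∈ Y, avg (k10 0) f (e1c n) ≠ 0) (f : C(CB n, ℂ))
    (hf : holo f) : f ∈ Y := by
  have h1 : (1 : C(CB n, ℂ)) ∈ Y := one_mem hY
    ⟨coordC 0, coord_mem hY h 0, by rw [holo_Pc _ (holo_coord 0)]; exact coord_ne⟩
  exact holo_mem Y hY.closed (MemF.of_mem h1) (fun i => MemF.of_mem (coord_mem hY h i)) hY.mobI f hf

/-- the conjugate subspace -/
def Yst (Y : Submodule ℂ C(CB n, ℂ)) : Submodule ℂ C(CB n, ℂ) where
  carrier := {f | star f ∈ Y}
  add_mem' := fun {f g} hf hg => by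
    show star (f + g) ∈ Y
    rw [star_add]
    exact Y.add_mem hf hg
  zero_mem' := by
    show star (0 : C(CB n, ℂ)) ∈ Y
    rw [star_zero]
    exact Y.zero_mem
  smul_mem' := fun c f hf => by
    show star (c • f) ∈ Y
    rw [star_smul]
    exact Y.smul_mem _ hf

lemma mem_Yst {f : C(CB n, ℂ)} : f ∈ Yst Y ↔ star f ∈ Y := Iff.rfl

lemma memF_Yst {f : CB n → ℂ} : MemF (Yst Y) f ↔ MemF Y (fun z => conj (f z)) := by
  constructor
  · rintro ⟨g, hg, hgf⟩
    refine ⟨star g, hg, fun z => ?_⟩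
    show conj (g z) = conj (f z)
    rw [hgf]
  · rintro ⟨g, hg, hgf⟩
    refine ⟨star g, ?_, fun z => ?_⟩
    · rw [mem_Yst, star_star]
      exact hg
    · show conj (g z) = f z
      rw [hgf, Complex.conj_conj]

lemma inv_Yst (hY : InvY Y) : InvY (Yst Y) := by
  refine ⟨?_, ?_, ?_⟩
  · exact hY.closed.preimage continuous_star
  · intro a ha f hf
    rw [memF_Yst] at hf ⊢
    exact hY.mobI a ha _ hf
  · intro U f hf
    rw [memF_Yst] at hf ⊢
    exact hY.actI U _ hf

lemma Pc_star (f : C(CB n, ℂ)) : Pc (star f) = star (Pc f) := by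
  ext z
  show Pc (star f) z = conj (Pc f z)
  rw [Pc_apply, Pc_apply, ← integral_conj]
  rfl

/-- `z_i conj z_j` -/
noncomputable def zz (i j : Fin n) : C(CB n, ℂ) :=
  ⟨fun z => z.1 i * conj (z.1 j),
    ((continuous_apply i).comp continuous_subtype_val).mul
      (Complex.continuous_conj.comp ((continuous_apply j).comp continuous_subtype_val))⟩

/-- a nonzero (1,1) component gives the Poisson integrals of `z_i conj z_j` -/
lemma zz_mem (hY : InvY Y) (h1 : (1 : C(CB n, ℂ)) ∈ Y)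
    (h : ∃ f ∈ Y, avg (k11 0 0) f (e1c n) ≠ 0) (i j : Fin n) : Pc (zz i j) ∈ Y := by
  obtain ⟨f, hf, hne⟩ := h
  obtain ⟨G, _, hG, _, hFG⟩ := struct11 (mat fun i j => avg (k11 i j) f)
    (continuous_matrix fun i j => (avg (k11 i j) f).continuous) (cov11_avg f) (trace_avg f)
  have h0 : G (te n 1) ≠ 0 := by
    intro h3
    apply hne
    have h2 : avg (k11 0 0) f (e1c n) = G (te n 1) * ((e1c n).1 0 * conj ((e1c n).1 0) -
        if (0 : Fin n) = 0 then (nsq (e1c n).1 : ℂ) / n else 0) := hFG (e1c n) 0 0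
    rw [h2, h3, zero_mul]
  have hh := typed11 hY (cov11_avg f) (trace_avg f) (fun i j => avg_mem hY (k11 i j) hf) i j
  have h2 : Pc (avg (k11 i j) f) =
      Pc (G (te n 1) • (zz i j - (if i = j then 1 / (n : ℂ) else 0) • (1 : C(CB n, ℂ)))) := by
    refine Pc_congr fun z hz => ?_
    have h5 : avg (k11 i j) f z = G z.1 * (z.1 i * conj (z.1 j) -
        if i = j then (nsq z.1 : ℂ) / n else 0) := hFG z i j
    have h4 : G z.1 = G (te n 1) := radial_eq hG (by rw [hz, nsq_te]; norm_num)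
    rw [h5, h4, hz]
    split_ifs <;> simp [zz]
  rw [h2, map_smul, map_sub, map_smul, Pc_one] at hh
  have h4 := Y.smul_mem ((G (te n 1))⁻¹) hh
  rw [smul_smul, inv_mul_cancel₀ h0, one_smul] at h4
  have h5 := Y.add_mem h4 (Y.smul_mem (if i = j then 1 / (n : ℂ) else 0) h1)
  rwa [sub_add_cancel] at h5

lemma star_one' : star (1 : C(CB n, ℂ)) = 1 := star_one _

/-- if all three components are nonzero then all Poisson integrals are in `Y` -/
lemma all_sub (hY : InvY Y) (hA : ∀ f : C(CB n, ℂ), holo f → f ∈ Y)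
    (hA' : ∀ f : C(CB n, ℂ), holo (star f) → f ∈ Y)
    (h : ∃ f ∈ Y, avg (k11 0 0) f (e1c n) ≠ 0) (f : C(CB n, ℂ)) : Pc f ∈ Y := by
  have h1 : (1 : C(CB n, ℂ)) ∈ Y := hA 1 ⟨fun _ => 1, differentiableOn_const _, fun _ _ => rfl⟩
  set W : Submodule ℂ C(CB n, ℂ) :=
    Y.comap (Pc : C(CB n, ℂ) →L[ℂ] C(CB n, ℂ)).toLinearMap with hWdef
  have hW : IsClosed (W : Set C(CB n, ℂ)) := hY.closed.preimage Pc.continuous
  have hAW : ∀ f : C(CB n, ℂ), holo f → f ∈ W := fun f hf => by
    show Pc f ∈ Y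
    rw [holo_Pc f hf]
    exact hA f hf
  have hAW' : ∀ f : C(CB n, ℂ), holo (star f) → f ∈ W := fun f hf => by
    show Pc f ∈ Y
    have : Pc f = f := by
      have h2 := holo_Pc _ hf
      rw [Pc_star] at h2
      exact star_injective h2
    rw [this]
    exact hA' f hf
  have hdiff : ∀ (a : CB n), nsq a.1 < 1 →
      DifferentiableOn ℂ (fun z : Fin n → ℂ => 1 / (1 - ip z a.1))
        {z : Fin n → ℂ | ∑ i, ‖z i‖ ^ 2 < 1} := by
    intro a ha
    have h8 : DifferentiableOn ℂ (fun z : Fin n → ℂ => 1 - ip z a.1)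
        {z : Fin n → ℂ | ∑ i, ‖z i‖ ^ 2 < 1} :=
      (differentiableOn_const (1 : ℂ)).sub (ip_diff a.1).differentiableOn
    have h9 : ∀ z ∈ {z : Fin n → ℂ | ∑ i, ‖z i‖ ^ 2 < 1}, 1 - ip z a.1 ≠ 0 := by
      intro z hz
      have hz' : nsq z < 1 := hz
      exact one_sub_ip_ne hz'.le ha
    refine (h8.inv h9).congr fun z _ => ?_
    simp
  have hcont : ∀ (a : CB n), nsq a.1 < 1 → Continuous fun z : CB n => 1 / (1 - ip z.1 a.1) := by
    intro a ha
    have h7 : Continuous fun z : CB n => ip z.1 a.1 :=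
      continuous_ip_comp continuous_subtype_val continuous_const
    exact continuous_const.div (continuous_const.sub h7) fun z => one_sub_ip_ne z.2 ha
  have hq : ∀ (a : CB n), nsq a.1 < 1 → MemF W (fun z => 1 / (1 - ip z.1 a.1)) := by
    intro a ha
    exact ⟨⟨_, hcont a ha⟩, hAW _ ⟨_, hdiff a ha, fun _ _ => rfl⟩, fun _ => rfl⟩
  have hp : ∀ (a : CB n), nsq a.1 < 1 → ∀ i, MemF W (fun z => z.1 i / (1 - ip z.1 a.1)) := by
    intro a ha i
    have hc : Continuous fun z : CB n => z.1 i / (1 - ip z.1 a.1) := by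
      have := (coordC i : C(CB n, ℂ)).continuous.mul (hcont a ha)
      refine this.congr fun z => ?_
      simp [div_eq_mul_inv, coordC_apply]
    refine ⟨⟨_, hc⟩, hAW _ ⟨fun z => z i / (1 - ip z a.1), ?_, fun _ _ => rfl⟩, fun _ => rfl⟩
    have := (differentiable_apply (𝕜 := ℂ) i).differentiableOn.mul (hdiff a ha)
    refine this.congr fun z _ => ?_
    simp [div_eq_mul_inv]
  have hq' : ∀ (a : CB n), nsq a.1 < 1 → MemF W (fun z => 1 / (1 - ip a.1 z.1)) := by
    intro a ha
    refine ⟨star ⟨_, hcont a ha⟩, hAW' _ ?_, fun z => ?_⟩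
    · rw [star_star]
      exact ⟨_, hdiff a ha, fun _ _ => rfl⟩
    · show conj (1 / (1 - ip z.1 a.1)) = _
      simp [conj_ip]
  have hp' : ∀ (a : CB n), nsq a.1 < 1 → ∀ i,
      MemF W (fun z => conj (z.1 i) / (1 - ip a.1 z.1)) := by
    intro a ha i
    have hc : Continuous fun z : CB n => z.1 i / (1 - ip z.1 a.1) := by
      have := (coordC i : C(CB n, ℂ)).continuous.mul (hcont a ha)
      refine this.congr fun z => ?_
      simp [div_eq_mul_inv, coordC_apply]
    refine ⟨star ⟨_, hc⟩, hAW' _ ?_, fun z => ?_⟩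
    · rw [star_star]
      refine ⟨fun z => z i / (1 - ip z a.1), ?_, fun _ _ => rfl⟩
      have := (differentiable_apply (𝕜 := ℂ) i).differentiableOn.mul (hdiff a ha)
      refine this.congr fun z _ => ?_
      simp [div_eq_mul_inv]
    · show conj (z.1 i / (1 - ip z.1 a.1)) = _
      simp [conj_ip]
  have hzz : ∀ i j, MemF W (fun z => z.1 i * conj (z.1 j)) := fun i j =>
    ⟨zz i j, zz_mem hY h1 h i j, fun _ => rfl⟩
  have hT : ∀ (a : CB n), nsq a.1 < 1 → ∀ f, MemF W f → MemF W (fun z => f (T a z)) := by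
    rintro a ha f ⟨g, hg, hgf⟩
    refine ⟨g.comp (TC a ha), ?_, fun z => hgf _⟩
    show Pc (g.comp (TC a ha)) ∈ Y
    have h3 := comp_T_mem hY hg a ha
    have h4 : Pc (g.comp (TC a ha)) = (Pc g).comp (TC a ha) := by
      ext z
      exact Pc_T g a ha z
    rw [h4]
    exact h3
  refine all_mem_of Rc_Pc Y hY.closed ?_ f
  intro b hb g hg
  have h5 := kernels_mem W hW (MemF.of_mem (hAW 1 ⟨fun _ => 1, differentiableOn_const _,
    fun _ _ => rfl⟩)) hp hq hp' hq' hzz hT b hb (n + 2)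
  obtain ⟨g', hg', hg2⟩ := h5
  have : g' = g := ContinuousMap.ext fun z => (hg2 z).trans (hg z).symm
  rw [← this]
  exact hg'

end Pool.Agent.Ball
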