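import Pool.Agent.Helper76.Ball11

set_option autoImplicit false
set_option linter.unusedSectionVars false
open MeasureTheory

/-! The classification, second part. -/

namespace Pool.Agent.Ball

variable {n : ℕ} [NeZero n]

open ComplexConjugate

variable {Y : Submodule ℂ C(CB n, ℂ)}

/-- a function all whose dilations are in a closed subspace is in the subspace -/
lemma mem_of_dil (hY : IsClosed (Y : Set C(CB n, ℂ))) (f : C(CB n, ℂ))
    (hdil : ∀ (r : ℝ) (hr0 : 0 ≤ r) (hr : r < 1), MemF Y (fun z => f (dil r (by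
      rw [abs_of_nonneg hr0]; exact hr.le) z))) : f ∈ Y := by
  have hlim : MemF Y f := by
    apply MemF.of_approx hY
    intro ε hε
    have huc := CompactSpace.uniformContinuous_of_continuous f.continuous
    rw [Metric.uniformContinuous_iff] at huc
    obtain ⟨δ, hδ, hδf⟩ := huc ε hε
    obtain ⟨r, hr0, hr1, hrδ⟩ : ∃ r : ℝ, 0 ≤ r ∧ r < 1 ∧ 1 - r < δ := by
      refine ⟨max 0 (1 - δ / 2), le_max_left _ _, ?_, ?_⟩
      · apply max_lt one_pos
        linarith
      · have := le_max_right 0 (1 - δ / 2)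
        linarith
    refine ⟨_, hdil r hr0 hr1, ?_⟩
    intro z
    rw [← dist_eq_norm]
    apply le_of_lt
    apply hδf
    rw [Subtype.dist_eq, dist_eq_norm]
    have h3 : (dil r (by rw [abs_of_nonneg hr0]; exact hr1.le) z).1 - z.1 =
        ((r - 1 : ℝ) : ℂ) • z.1 := by
      show (r : ℂ) • z.1 - z.1 = _
      rw [Complex.ofReal_sub, Complex.ofReal_one, sub_smul, one_smul]
    rw [h3, norm_smul, Complex.norm_real, Real.norm_eq_abs, abs_sub_comm, abs_of_pos (by linarith)]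
    have h4 : ‖z.1‖ ≤ 1 := by
      refine (pi_norm_le_iff_of_nonneg zero_le_one).2 fun i => ?_
      have h5 : ‖z.1 i‖ ^ 2 ≤ ∑ i, ‖z.1 i‖ ^ 2 :=
        Finset.single_le_sum (f := fun i => ‖z.1 i‖ ^ 2) (fun i _ => sq_nonneg _) (Finset.mem_univ i)
      have h6 := z.2
      nlinarith [norm_nonneg (z.1 i)]
    calc (1 - r) * ‖z.1‖ ≤ (1 - r) * 1 := mul_le_mul_of_nonneg_left h4 (by linarith)
      _ < δ := by rw [mul_one]; exact hrδ
  exact MemF.mem hlim

/-- pluriharmonic inside -/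
def plhC (f : C(CB n, ℂ)) : Prop := ∃ F G : (Fin n → ℂ) → ℂ,
  DifferentiableOn ℂ F {z : Fin n → ℂ | ∑ i, ‖z i‖ ^ 2 < 1} ∧
  DifferentiableOn ℂ G {z : Fin n → ℂ | ∑ i, ‖z i‖ ^ 2 < 1} ∧
  ∀ x : CB n, ∑ i, ‖x.1 i‖ ^ 2 < 1 → f x = F x.1 + conj (G x.1)

lemma dil_holo (F : (Fin n → ℂ) → ℂ)
    (hF : DifferentiableOn ℂ F {z : Fin n → ℂ | ∑ i, ‖z i‖ ^ 2 < 1}) (r : ℝ) (hr0 : 0 ≤ r)
    (hr : r < 1) : ∃ g : C(CB n, ℂ), holo g ∧
      ∀ z, g z = F (dil r (by rw [abs_of_nonneg hr0]; exact hr.le) z).1 := by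
  have hr' : |r| ≤ 1 := by rw [abs_of_nonneg hr0]; exact hr.le
  have hlt : ∀ w : CB n, nsq (dil r hr' w).1 < 1 := fun w =>
    nsq_smul_lt (by rw [Complex.norm_real, Real.norm_of_nonneg hr0]; exact hr) w.2
  have hdc : Continuous (dil r hr' : CB n → CB n) := by
    apply Continuous.subtype_mk
    fun_prop
  have hc : Continuous fun z : CB n => F (dil r hr' z).1 :=
    hF.continuousOn.comp_continuous (continuous_subtype_val.comp hdc) fun z => hlt z
  refine ⟨⟨_, hc⟩, ⟨fun z => F ((r : ℂ) • z), ?_, fun x _ => rfl⟩, fun z => rfl⟩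
  have h1 : DifferentiableOn ℂ (fun z : Fin n → ℂ => (r : ℂ) • z)
      {z : Fin n → ℂ | ∑ i, ‖z i‖ ^ 2 < 1} := (differentiable_id.const_smul (r : ℂ)).differentiableOn
  refine hF.comp h1 fun z hz => ?_
  have hz' : nsq z < 1 := hz
  exact nsq_smul_lt (by rw [Complex.norm_real, Real.norm_of_nonneg hr0]; exact hr) hz'.le

lemma plh_mem (hY : IsClosed (Y : Set C(CB n, ℂ))) (hA : ∀ f : C(CB n, ℂ), holo f → f ∈ Y)
    (hA' : ∀ f : C(CB n, ℂ), holo (star f) → f ∈ Y) (f : C(CB n, ℂ)) (hf : plhC f) : f ∈ Y := by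
  obtain ⟨F, G, hF, hG, hFG⟩ := hf
  refine mem_of_dil hY f fun r hr0 hr => ?_
  have hr' : |r| ≤ 1 := by rw [abs_of_nonneg hr0]; exact hr.le
  have hlt : ∀ w : CB n, nsq (dil r hr' w).1 < 1 := fun w =>
    nsq_smul_lt (by rw [Complex.norm_real, Real.norm_of_nonneg hr0]; exact hr) w.2
  obtain ⟨g1, hg1, hg1z⟩ := dil_holo F hF r hr0 hr
  obtain ⟨g2, hg2, hg2z⟩ := dil_holo G hG r hr0 hr
  refine ⟨g1 + star g2, Y.add_mem (hA g1 hg1) (hA' _ (by rw [star_star]; exact hg2)), fun z => ?_⟩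
  show g1 z + conj (g2 z) = _
  rw [hg1z, hg2z]
  exact (hFG _ (hlt z)).symm

lemma holo_mul {f g : C(CB n, ℂ)} (hf : holo f) (hg : holo g) : holo (f * g) := by
  obtain ⟨F, hF, hFf⟩ := hf
  obtain ⟨G, hG, hGg⟩ := hg
  exact ⟨fun z => F z * G z, hF.mul hG, fun x hx => by
    show f x * g x = _
    rw [hFf x hx, hGg x hx]⟩

lemma holo_sub' {f g : C(CB n, ℂ)} (hf : holo f) (hg : holo g) : holo (f - g) := by
  obtain ⟨F, hF, hFf⟩ := hf
  obtain ⟨G, hG, hGg⟩ := hg
  exact ⟨fun z => F z - G z, hF.sub hG, fun x hx => by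
    show f x - g x = _
    rw [hFf x hx, hGg x hx]⟩

lemma holo_const (c : ℂ) : holo (ContinuousMap.const (CB n) c) :=
  ⟨fun _ => c, differentiableOn_const _, fun _ _ => rfl⟩

/-- holomorphic and antiholomorphic implies constant -/
lemma const_of_both {f : C(CB n, ℂ)} (hf : holo f) (hf' : holo (star f)) (w : CB n) :
    f w = f (cen n) := by
  set v : C(CB n, ℂ) := f - ContinuousMap.const (CB n) (f (cen n)) with hv
  have hv1 : holo v := holo_sub' hf (holo_const _)
  have hv2 : holo (star v) := by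
    have : star v = star f - ContinuousMap.const (CB n) (conj (f (cen n))) := by
      rw [hv, star_sub]
      rfl
    rw [this]
    exact holo_sub' hf' (holo_const _)
  have h1 := holo_avg_act (v * star v) (holo_mul hv1 hv2) w
  have h2 : (v * star v) (cen n) = 0 := by
    show v (cen n) * _ = 0
    have : v (cen n) = 0 := by
      show f (cen n) - f (cen n) = 0
      ring
    rw [this, zero_mul]
  rw [h2] at h1
  have h3 : ∀ U : UG n, (v * star v) (act U w) = ((‖v (act U w)‖ ^ 2 : ℝ) : ℂ) := by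
    intro U
    show v (act U w) * conj (v (act U w)) = _
    rw [Complex.mul_conj, Complex.normSq_eq_norm_sq]
  simp only [h3] at h1
  rw [integral_complex_ofReal] at h1
  have h4 : ∫ U, ‖v (act U w)‖ ^ 2 ∂(hU n) = 0 := by exact_mod_cast h1
  have hc : Continuous fun U : UG n => ‖v (act U w)‖ ^ 2 := by
    have hs : Continuous fun U : UG n => act U w :=
      continuous_act_comp continuous_id continuous_const
    have h5 := Continuous.comp v.continuous hs
    simp only [Function.comp_def] at h5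
    exact h5.norm.pow 2
  have h5 := (integral_eq_zero_iff_of_nonneg (μ := hU n) (f := fun U => ‖v (act U w)‖ ^ 2)
    (fun U => by positivity) (hc.integrable_of_hasCompactSupport
      (HasCompactSupport.of_compactSpace _))).1 h4
  have h6 : (fun U : UG n => ‖v (act U w)‖ ^ 2) = fun _ => (0 : ℝ) :=
    (Continuous.ae_eq_iff_eq (hU n) hc continuous_const).1 h5
  have h7 := congrFun h6 1
  simp only [act_one] at h7
  have h8 : v w = 0 := by
    rw [← norm_eq_zero]
    exact pow_eq_zero_iff (two_ne_zero) |>.1 h7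
  have h9 : f w - f (cen n) = 0 := h8
  exact sub_eq_zero.1 h9

/-- the trichotomy of components -/
theorem classify (hY : InvY Y) :
    (∀ f ∈ Y, Pc f = 0) ∨
    ((1 : C(CB n, ℂ)) ∈ Y ∧ ∀ f ∈ Y, ∃ c : ℂ, ∀ z, Pc f z = c) ∨
    ((∀ f : C(CB n, ℂ), holo f → f ∈ Y) ∧ ∀ f ∈ Y, holo (Pc f)) ∨
    ((∀ f : C(CB n, ℂ), holo (star f) → f ∈ Y) ∧ ∀ f ∈ Y, holo (star (Pc f))) ∨
    ((∀ f : C(CB n, ℂ), plhC f → f ∈ Y) ∧ ∀ f ∈ Y, plhC (Pc f)) ∨
    (∀ f : C(CB n, ℂ), Pc f ∈ Y) := by
  by_cases h0 : ∀ f ∈ Y, Pc f = 0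
  · exact Or.inl h0
  right
  push Not at h0
  have h1 : (1 : C(CB n, ℂ)) ∈ Y := one_mem hY h0
  have hYs := inv_Yst hY
  by_cases hα : ∃ f ∈ Y, avg (k10 0) f (e1c n) ≠ 0
  · have hA := holo_sub hY hα
    by_cases hα' : ∃ f ∈ Yst Y, avg (k10 0) f (e1c n) ≠ 0
    · have hA' : ∀ f : C(CB n, ℂ), holo (star f) → f ∈ Y := fun f hf => by
        have := holo_sub hYs hα' (star f) hf
        rw [mem_Yst, star_star] at this
        exact this
      by_cases hβ : ∃ f ∈ Y, avg (k11 0 0) f (e1c n) ≠ 0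
      · exact Or.inr (Or.inr (Or.inr (Or.inr (all_sub hY hA hA' hβ))))
      · push Not at hβ
        exact Or.inr (Or.inr (Or.inr (Or.inl ⟨plh_mem hY.closed hA hA', fun f hf =>
          plh_of hY hβ hf⟩)))
    · push Not at hα'
      refine Or.inr (Or.inl ⟨hA, fun f hf => ?_⟩)
      obtain ⟨G, hG, hGz⟩ := antihol_of hYs hα' (f := star f) (by rw [mem_Yst, star_star]; exact hf)
      refine ⟨G, hG, fun x hx => ?_⟩
      have h2 := hGz x hx
      rw [Pc_star] at h2
      have h3 : conj (Pc f x) = conj (G x.1) := h2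
      exact star_injective h3
  · push Not at hα
    by_cases hα' : ∃ f ∈ Yst Y, avg (k10 0) f (e1c n) ≠ 0
    · have hA' : ∀ f : C(CB n, ℂ), holo (star f) → f ∈ Y := fun f hf => by
        have := holo_sub hYs hα' (star f) hf
        rw [mem_Yst, star_star] at this
        exact this
      refine Or.inr (Or.inr (Or.inl ⟨hA', fun f hf => ?_⟩))
      obtain ⟨G, hG, hGz⟩ := antihol_of hY hα hf
      refine ⟨G, hG, fun x hx => ?_⟩
      show conj (Pc f x) = G x.1
      rw [hGz x hx, Complex.conj_conj]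
    · push Not at hα'
      refine Or.inl ⟨h1, fun f hf => ⟨Pc f (cen n), fun z => ?_⟩⟩
      refine const_of_both ?_ ?_ z
      · obtain ⟨G, hG, hGz⟩ := antihol_of hYs hα' (f := star f)
          (by rw [mem_Yst, star_star]; exact hf)
        refine ⟨G, hG, fun x hx => ?_⟩
        have h2 := hGz x hx
        rw [Pc_star] at h2
        have h3 : conj (Pc f x) = conj (G x.1) := h2
        exact star_injective h3
      · obtain ⟨G, hG, hGz⟩ := antihol_of hY hα hf
        refine ⟨G, hG, fun x hx => ?_⟩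
        show conj (Pc f x) = G x.1
        rw [hGz x hx, Complex.conj_conj]

end Pool.Agent.Ball
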