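import Pool.Agent.Helper76.Ball1

set_option autoImplicit false
set_option linter.unusedSectionVars false
open MeasureTheory

/-! Compactness, Haar measure on the unitary group, integrals of families in a closed subspace. -/

namespace Pool.Agent.Ball

variable {n : ℕ}

open ComplexConjugate

/-! ### compactness of the closed ball -/

instance CB.compactSpace : CompactSpace (CB n) := by
  refine isCompact_iff_compactSpace.1 ?_
  have hcl : IsClosed {z : Fin n → ℂ | ∑ i, ‖z i‖ ^ 2 ≤ 1} :=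
    isClosed_le (continuous_nsq (n := n)) continuous_const
  refine Metric.isCompact_of_isClosed_isBounded hcl ?_
  refine (Metric.isBounded_closedBall (x := (0 : Fin n → ℂ)) (r := 1)).subset ?_
  intro z hz
  have hz' : ∑ i, ‖z i‖ ^ 2 ≤ 1 := hz
  rw [mem_closedBall_zero_iff]
  refine (pi_norm_le_iff_of_nonneg zero_le_one).2 fun i => ?_
  have h1 : ‖z i‖ ^ 2 ≤ ∑ i, ‖z i‖ ^ 2 :=
    Finset.single_le_sum (f := fun i => ‖z i‖ ^ 2) (fun i _ => sq_nonneg _) (Finset.mem_univ i)
  nlinarith [norm_nonneg (z i)]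

/-! ### membership of functions in a subspace of `C(X,ℂ)` -/

section memF

variable {X : Type*} [TopologicalSpace X] [CompactSpace X]

/-- `f` is (the underlying function of) a member of `Y` -/
def MemF (Y : Submodule ℂ C(X, ℂ)) (f : X → ℂ) : Prop := ∃ g ∈ Y, ∀ z, g z = f z

variable {Y : Submodule ℂ C(X, ℂ)} {f g : X → ℂ}

lemma MemF.of_mem {g : C(X, ℂ)} (h : g ∈ Y) : MemF Y (fun z => g z) := ⟨g, h, fun _ => rfl⟩

lemma MemF.mem {g : C(X, ℂ)} (h : MemF Y (fun z => g z)) : g ∈ Y := by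
  obtain ⟨k, hk, hk2⟩ := h
  have : k = g := ContinuousMap.ext hk2
  rwa [← this]

lemma memF_iff {g : C(X, ℂ)} : MemF Y (fun z => g z) ↔ g ∈ Y := ⟨MemF.mem, MemF.of_mem⟩

lemma MemF.continuous (h : MemF Y f) : Continuous f := by
  obtain ⟨k, _, hk2⟩ := h
  have : f = fun z => k z := funext fun z => (hk2 z).symm
  rw [this]
  exact k.continuous

lemma MemF.congr (h : MemF Y f) (hfg : ∀ z, f z = g z) : MemF Y g := by
  obtain ⟨k, hk, hk2⟩ := h
  exact ⟨k, hk, fun z => (hk2 z).trans (hfg z)⟩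

lemma MemF.zero : MemF Y (fun _ => (0 : ℂ)) := ⟨0, Y.zero_mem, fun _ => rfl⟩

lemma MemF.add (hf : MemF Y f) (hg : MemF Y g) : MemF Y (fun z => f z + g z) := by
  obtain ⟨k, hk, hk2⟩ := hf
  obtain ⟨l, hl, hl2⟩ := hg
  exact ⟨k + l, Y.add_mem hk hl, fun z => by simp [hk2, hl2]⟩

lemma MemF.sub (hf : MemF Y f) (hg : MemF Y g) : MemF Y (fun z => f z - g z) := by
  obtain ⟨k, hk, hk2⟩ := hf
  obtain ⟨l, hl, hl2⟩ := hg
  exact ⟨k - l, Y.sub_mem hk hl, fun z => by simp [hk2, hl2]⟩

lemma MemF.smul (c : ℂ) (hf : MemF Y f) : MemF Y (fun z => c * f z) := by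
  obtain ⟨k, hk, hk2⟩ := hf
  exact ⟨c • k, Y.smul_mem c hk, fun z => by simp [hk2]⟩

lemma MemF.sum {ι : Type*} (s : Finset ι) {F : ι → X → ℂ} (h : ∀ i ∈ s, MemF Y (F i)) :
    MemF Y (fun z => ∑ i ∈ s, F i z) := by
  classical
  induction s using Finset.induction_on with
  | empty => simpa using MemF.zero
  | insert i s hi ih =>
    have h1 := (h i (Finset.mem_insert_self _ _)).add
      (ih fun j hj => h j (Finset.mem_insert_of_mem hj))
    exact h1.congr fun z => by rw [Finset.sum_insert hi]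

/-- uniform limits stay in a closed subspace -/
lemma MemF.of_approx (hY : IsClosed (Y : Set C(X, ℂ)))
    (h : ∀ ε : ℝ, 0 < ε → ∃ k : X → ℂ, MemF Y k ∧ ∀ z, ‖k z - f z‖ ≤ ε) : MemF Y f := by
  have hc : Continuous f := by
    refine continuous_of_uniform_approx_of_continuous fun u hu => ?_
    obtain ⟨ε, hε, hεu⟩ := Metric.mem_uniformity_dist.1 hu
    obtain ⟨k, hk, hk3⟩ := h (ε / 2) (by positivity)
    refine ⟨k, hk.continuous, fun y => hεu ?_⟩
    rw [dist_comm, dist_eq_norm]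
    exact lt_of_le_of_lt (hk3 y) (by linarith)
  refine ⟨⟨f, hc⟩, ?_, fun z => rfl⟩
  have : (⟨f, hc⟩ : C(X, ℂ)) ∈ closure (Y : Set C(X, ℂ)) := by
    rw [Metric.mem_closure_iff]
    intro ε hε
    obtain ⟨k, ⟨k', hk', hk2⟩, hk3⟩ := h (ε / 2) (by positivity)
    refine ⟨k', hk', ?_⟩
    rw [dist_eq_norm]
    refine lt_of_le_of_lt ((ContinuousMap.norm_le _ (by positivity : (0 : ℝ) ≤ ε / 2)).2 ?_)
      (by linarith)
    intro z
    have := hk3 z
    rw [← hk2 z, ← norm_neg] at this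
    simpa using this
  rwa [hY.closure_eq] at this

/-- integrals of continuous families stay in a closed subspace -/
lemma MemF.integral {S : Type*} [TopologicalSpace S] [CompactSpace S] [MeasurableSpace S]
    [BorelSpace S] [SecondCountableTopology S] (μ : Measure S) [IsFiniteMeasure μ]
    (hY : IsClosed (Y : Set C(X, ℂ))) (G : S → X → ℂ) (hG : Continuous fun p : S × X => G p.1 p.2)
    (h : ∀ t, MemF Y (G t)) : MemF Y (fun x => ∫ t, G t x ∂μ) := by
  have := hY.completeSpace_coe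
  let F0 : C(S, C(X, ℂ)) := (⟨fun p : S × X => G p.1 p.2, hG⟩ : C(S × X, ℂ)).curry
  have hF0 : ∀ t, F0 t ∈ Y := fun t => by
    obtain ⟨k, hk, hk2⟩ := h t
    have : k = F0 t := ContinuousMap.ext fun x => hk2 x
    rwa [← this]
  let F : S → Y := fun t => ⟨F0 t, hF0 t⟩
  have hFc : Continuous F := F0.continuous.subtype_mk _
  have hFi : Integrable F μ := hFc.integrable_of_hasCompactSupport
    (HasCompactSupport.of_compactSpace _)
  refine ⟨(∫ t, F t ∂μ : Y), Subtype.mem _, fun x => ?_⟩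
  have h1 : ((∫ t, F t ∂μ : Y) : C(X, ℂ)) = ∫ t, (F0 t) ∂μ :=
    (Y.subtypeL.integral_comp_comm hFi).symm
  have hF0i : Integrable (fun t => F0 t) μ := F0.continuous.integrable_of_hasCompactSupport
    (HasCompactSupport.of_compactSpace _)
  rw [h1]
  exact ((ContinuousMap.evalCLM ℂ x).integral_comp_comm hF0i).symm

end memF

end Pool.Agent.Ball
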