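import Pool.Agent.Helper76.Ball2

set_option autoImplicit false
set_option linter.unusedSectionVars false
open MeasureTheory

/-! The unitary group: compactness, Haar probability measure, action on the ball. -/

namespace Pool.Agent.Ball

variable {n : ℕ}

open ComplexConjugate

instance UG.compactSpace : CompactSpace (UG n) := by
  refine isCompact_iff_compactSpace.1 ?_
  have hK : IsCompact (Set.pi Set.univ fun _ : Fin n => Set.pi Set.univ fun _ : Fin n =>
      Metric.closedBall (0 : ℂ) 1) :=
    isCompact_univ_pi fun _ => isCompact_univ_pi fun _ => isCompact_closedBall _ _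
  refine IsCompact.of_isClosed_subset hK (isClosed_unitary (R := Matrix (Fin n) (Fin n) ℂ)) ?_
  intro U hU i _ j _
  rw [mem_closedBall_zero_iff]
  exact entry_norm_bound_of_unitary hU i j

instance UG.secondCountable : SecondCountableTopology (UG n) := by
  have : SecondCountableTopology (Matrix (Fin n) (Fin n) ℂ) :=
    inferInstanceAs (SecondCountableTopology (Fin n → Fin n → ℂ))
  exact TopologicalSpace.Subtype.secondCountableTopology _

noncomputable instance UG.measurableSpace : MeasurableSpace (UG n) := borel _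

instance UG.borelSpace : BorelSpace (UG n) := ⟨rfl⟩

/-- Haar probability measure -/
noncomputable def hU (n : ℕ) : Measure (UG n) := Measure.haarMeasure ⊤

instance : (hU n).IsHaarMeasure := by unfold hU; infer_instance

instance : IsProbabilityMeasure (hU n) := by
  refine ⟨?_⟩
  have : (hU n) ((⊤ : TopologicalSpace.PositiveCompacts (UG n)) : Set (UG n)) = 1 :=
    Measure.haarMeasure_self
  simpa using this

lemma eq_hU (μ : Measure (UG n)) [IsProbabilityMeasure μ] [μ.IsMulLeftInvariant] : μ = hU n := by
  have h3 := Measure.isMulInvariant_eq_smul_of_compactSpace μ (hU n)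
  have h4 : Measure.haarScalarFactor μ (hU n) = 1 := by
    have h := congrArg (fun m => m Set.univ) h3
    simp only [measure_univ] at h
    rw [Measure.smul_apply, measure_univ] at h
    have h5 : (1 : ENNReal) = ((Measure.haarScalarFactor μ (hU n) : NNReal) : ENNReal) := by
      rw [h]
      simp [ENNReal.smul_def]
    exact_mod_cast h5.symm
  rw [h3, h4, one_smul]

instance : (hU n).IsMulRightInvariant := by
  refine ⟨fun g => ?_⟩
  have h2 : IsProbabilityMeasure (Measure.map (fun x => x * g) (hU n)) :=
    Measure.isProbabilityMeasure_map (continuous_mul_const g).measurable.aemeasurable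
  exact eq_hU (Measure.map (fun x => x * g) (hU n))

instance : (hU n).IsInvInvariant := by
  refine ⟨?_⟩
  have h2 : IsProbabilityMeasure (hU n).inv :=
    Measure.isProbabilityMeasure_map continuous_inv.measurable.aemeasurable
  exact eq_hU (hU n).inv

lemma int_left (V : UG n) (f : UG n → ℂ) : ∫ U, f (V * U) ∂(hU n) = ∫ U, f U ∂(hU n) :=
  integral_mul_left_eq_self f V

lemma int_right (V : UG n) (f : UG n → ℂ) : ∫ U, f (U * V) ∂(hU n) = ∫ U, f U ∂(hU n) :=
  integral_mul_right_eq_self f V

lemma int_inv (f : UG n → ℂ) : ∫ U, f (U⁻¹) ∂(hU n) = ∫ U, f U ∂(hU n) :=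
  integral_inv_eq_self f (hU n)

lemma integrable_hU {f : UG n → ℂ} (hf : Continuous f) : Integrable f (hU n) :=
  hf.integrable_of_hasCompactSupport (HasCompactSupport.of_compactSpace _)

/-! ### action on the closed ball -/

/-- unitary action on the closed ball -/
noncomputable def act (U : UG n) (z : CB n) : CB n :=
  ⟨mv U.1 z.1, by have := nsq_mv U z.1; have h := z.2; unfold nsq at this; rw [this]; exact h⟩

lemma act_val (U : UG n) (z : CB n) : (act U z).1 = mv U.1 z.1 := rfl

lemma act_mul (U V : UG n) (z : CB n) : act (U * V) z = act U (act V z) := by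
  apply Subtype.ext
  simp [act, Matrix.mulVec_mulVec]

lemma act_one (z : CB n) : act 1 z = z := by
  apply Subtype.ext
  simp [act]

lemma act_inv_act (U : UG n) (z : CB n) : act U⁻¹ (act U z) = z := by
  rw [← act_mul, inv_mul_cancel, act_one]

lemma act_act_inv (U : UG n) (z : CB n) : act U (act U⁻¹ z) = z := by
  rw [← act_mul, mul_inv_cancel, act_one]

lemma continuous_act : Continuous (fun p : UG n × CB n => act p.1 p.2) := by
  refine Continuous.subtype_mk ?_ _
  refine continuous_pi fun i => ?_
  simp only [mv, Matrix.mulVec, dotProduct]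
  refine continuous_finsetSum _ fun j _ => ?_
  have h0 : Continuous fun p : UG n × CB n => (p.1.1 : Matrix (Fin n) (Fin n) ℂ) :=
    continuous_subtype_val.comp continuous_fst
  have h1 : Continuous fun p : UG n × CB n => p.1.1 i j := h0.matrix_elem i j
  have h2 : Continuous fun p : UG n × CB n => p.2.1 j :=
    (continuous_apply j).comp (continuous_subtype_val.comp continuous_snd)
  exact h1.mul h2

lemma continuous_act_comp {X : Type*} [TopologicalSpace X] {f : X → UG n} {g : X → CB n}
    (hf : Continuous f) (hg : Continuous g) : Continuous fun x => act (f x) (g x) :=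
  continuous_act.comp (hf.prodMk hg)

lemma T_act (U : UG n) (a z : CB n) : T (act U a) (act U z) = act U (T a z) := by
  apply Subtype.ext
  simp [act, T, mob_mv]

lemma nsq_act (U : UG n) (z : CB n) : nsq (act U z).1 = nsq z.1 := nsq_mv U z.1

/-! ### the first coordinate vector and transitivity -/

section e1

variable [NeZero n]

/-- `t e₁` -/
noncomputable def te (n : ℕ) [NeZero n] (t : ℝ) : Fin n → ℂ := Pi.single 0 (t : ℂ)

lemma nsq_te (t : ℝ) : nsq (te n t) = t ^ 2 := by
  unfold nsq te
  rw [Finset.sum_eq_single 0]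
  · simp
  · intro b _ hb
    simp [Pi.single_eq_of_ne hb]
  · simp

lemma ip_te_right (z : Fin n → ℂ) (t : ℝ) : ip z (te n t) = t * z 0 := by
  unfold ip te
  rw [Finset.sum_eq_single 0]
  · simp [mul_comm]
  · intro b _ hb
    simp [Pi.single_eq_of_ne hb]
  · simp

lemma ip_te_left (z : Fin n → ℂ) (t : ℝ) : ip (te n t) z = t * conj (z 0) := by
  rw [← conj_ip, ip_te_right]
  simp

lemma te_zero_apply (t : ℝ) : te n t 0 = t := by simp [te]

lemma te_apply_of_ne {i : Fin n} (hi : i ≠ 0) (t : ℝ) : te n t i = 0 := by
  simp [te, Pi.single_eq_of_ne hi]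

/-- every vector is a unitary image of `|z| e₁` -/
lemma exists_unitary (z : Fin n → ℂ) : ∃ U : UG n, mv U.1 (te n (Real.sqrt (nsq z))) = z := by
  classical
  by_cases hz : nsq z = 0
  · refine ⟨1, ?_⟩
    rw [nsq_eq_zero hz]
    simp [te, nsq_zero]
  · have hpos : 0 < nsq z := lt_of_le_of_ne (nsq_nonneg z) (Ne.symm hz)
    have hs : 0 < Real.sqrt (nsq z) := Real.sqrt_pos.2 hpos
    let v0 : EuclideanSpace ℂ (Fin n) := WithLp.toLp 2 (fun i => (Real.sqrt (nsq z) : ℂ)⁻¹ * z i)
    have hv0 : ‖v0‖ = 1 := by
      rw [EuclideanSpace.norm_eq]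
      have : ∑ i, ‖v0 i‖ ^ 2 = 1 := by
        have h1 : ∀ i, ‖v0 i‖ ^ 2 = (nsq z)⁻¹ * ‖z i‖ ^ 2 := fun i => by
          simp only [v0, norm_mul, mul_pow, norm_inv, Complex.norm_real, Real.norm_eq_abs]
          rw [inv_pow, sq_abs, Real.sq_sqrt (nsq_nonneg z)]
        rw [Finset.sum_congr rfl fun i _ => h1 i, ← Finset.mul_sum]
        exact inv_mul_cancel₀ hz
      rw [this, Real.sqrt_one]
    let v : Fin n → EuclideanSpace ℂ (Fin n) := fun _ => v0
    have hv : Orthonormal ℂ (({0} : Set (Fin n)).domRestrict v) := by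
      constructor
      · intro i; exact hv0
      · intro i j hij
        exact absurd (Subsingleton.elim i j) hij
    obtain ⟨b, hb⟩ := hv.exists_orthonormalBasis_extension_of_card_eq
      (by simp : Module.finrank ℂ (EuclideanSpace ℂ (Fin n)) = Fintype.card (Fin n))
    have hb0 : b 0 = v0 := hb 0 (by simp)
    let a := EuclideanSpace.basisFun (Fin n) ℂ
    refine ⟨⟨a.toBasis.toMatrix b, a.toMatrix_orthonormalBasis_mem_unitary b⟩, ?_⟩
    funext i
    simp only [mv, te]
    rw [Matrix.mulVec_single]
    simp only [op_smul_eq_smul, Pi.smul_apply, Matrix.col_apply, smul_eq_mul]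
    rw [Module.Basis.toMatrix_apply]
    have : a.toBasis.repr (b 0) i = v0 i := by
      rw [hb0]
      simp [a]
    rw [this]
    simp only [v0]
    have : (Real.sqrt (nsq z) : ℂ) ≠ 0 := by exact_mod_cast hs.ne'
    field_simp

end e1

end Pool.Agent.Ball
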