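import Pool.Agent.Helper76.Ball1

set_option autoImplicit false
open MeasureTheory

/-! Module B: change of variables under the Moebius involution of the ball. -/

namespace Pool.Agent.Ball

variable {n : ℕ}

/-- the linear form `⟨·, z⟩` -/
noncomputable def ipL (z : Fin n → ℂ) : (Fin n → ℂ) →L[ℂ] ℂ :=
  ∑ i, (starRingEnd ℂ (z i)) • (ContinuousLinearMap.proj i : (Fin n → ℂ) →L[ℂ] ℂ)

lemma ipL_apply (z w : Fin n → ℂ) : ipL z w = ip w z := by
  simp only [ipL, ip, sum_apply, smul_apply, ContinuousLinearMap.proj_apply, smul_eq_mul]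
  exact Finset.sum_congr rfl fun i _ => mul_comm _ _

/-- complex derivative of `mob z` at `w` -/
noncomputable def mobD (z w : Fin n → ℂ) : (Fin n → ℂ) →L[ℂ] (Fin n → ℂ) :=
  (-(sq z : ℂ) / (1 - ip w z)) • ContinuousLinearMap.id ℂ (Fin n → ℂ)
    + (ipL z).smulRight ((((sq z : ℂ) / (1 + (sq z : ℂ))) / (1 - ip w z) ^ 2) • z
      + ((-(sq z : ℂ)) / (1 - ip w z) ^ 2) • w)

lemma hasFDerivAt_mob {z w : Fin n → ℂ} (h : ip w z ≠ 1) : HasFDerivAt (mob z) (mobD z w) w := by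
  have h' : 1 - ip w z ≠ 0 := sub_ne_zero.2 h.symm
  have h1 := one_add_sq_ne z
  have hL : HasFDerivAt (fun y : Fin n → ℂ => ipL z y) (ipL z) w := (ipL z).hasFDerivAt
  have e2 : HasDerivAt (fun t : ℂ => 1 - t) (-1) (ip w z) := (hasDerivAt_id _).const_sub 1
  have hα : HasDerivAt (fun t : ℂ => (1 - t / (1 + (sq z : ℂ))) / (1 - t))
      (((sq z : ℂ) / (1 + (sq z : ℂ))) / (1 - ip w z) ^ 2) (ipL z w) := by
    rw [ipL_apply]
    have e1 : HasDerivAt (fun t : ℂ => 1 - t / (1 + (sq z : ℂ))) (-(1 / (1 + (sq z : ℂ)))) (ip w z) :=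
      ((hasDerivAt_id _).div_const _).const_sub 1
    refine (e1.div e2 h').congr_deriv ?_
    field_simp
    ring
  have hβ : HasDerivAt (fun t : ℂ => (-(sq z : ℂ)) / (1 - t))
      ((-(sq z : ℂ)) / (1 - ip w z) ^ 2) (ipL z w) := by
    rw [ipL_apply]
    refine ((hasDerivAt_const (ip w z) (-(sq z : ℂ))).div e2 h').congr_deriv ?_
    field_simp
    ring
  have hα' : HasFDerivAt (fun y : Fin n → ℂ =>
      ((1 - ipL z y / (1 + (sq z : ℂ))) / (1 - ipL z y)) • z) _ w :=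
    (hα.comp_hasFDerivAt w hL).smul_const z
  have hβ' : HasFDerivAt (fun y : Fin n → ℂ => ((-(sq z : ℂ)) / (1 - ipL z y)) • y) _ w :=
    (hβ.comp_hasFDerivAt w hL).smul (hasFDerivAt_id w)
  have hs := hα'.add hβ'
  refine (hs.congr_fderiv ?_).congr_of_eventuallyEq (Filter.Eventually.of_forall fun y => ?_)
  · ext v i
    simp [mobD, ipL_apply]
    ring
  · funext i
    rw [mob_eq]
    simp [ipL_apply]

lemma det_mobD {z w : Fin n → ℂ} (hz : nsq z < 1) (h : ip w z ≠ 1) :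
    LinearMap.det (mobD z w : (Fin n → ℂ) →ₗ[ℂ] (Fin n → ℂ))
      = (-(sq z : ℂ) / (1 - ip w z)) ^ n * ((sq z : ℂ) / (1 - ip w z)) := by
  have h' : 1 - ip w z ≠ 0 := sub_ne_zero.2 h.symm
  have h1 := one_add_sq_ne z
  have hs : (sq z : ℂ) ≠ 0 := by exact_mod_cast (sq_pos hz).ne'
  have e : (mobD z w : (Fin n → ℂ) →ₗ[ℂ] (Fin n → ℂ)) = (-(sq z : ℂ) / (1 - ip w z)) •
      LinearMap.transvection (ipL z : (Fin n → ℂ) →ₗ[ℂ] ℂ)
        ((-(sq z : ℂ) / (1 - ip w z))⁻¹ • ((((sq z : ℂ) / (1 + (sq z : ℂ))) / (1 - ip w z) ^ 2) • z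
      + ((-(sq z : ℂ)) / (1 - ip w z) ^ 2) • w)) := by
    refine LinearMap.ext fun v => ?_
    funext i
    simp only [mobD, ContinuousLinearMap.coe_coe, add_apply, smul_apply,
      ContinuousLinearMap.id_apply, ContinuousLinearMap.smulRight_apply, LinearMap.smul_apply,
      LinearMap.transvection.apply, Pi.add_apply, Pi.smul_apply, smul_eq_mul]
    field_simp
    ring
  rw [e, LinearMap.det_smul, LinearMap.transvection.det]
  have e2 : Module.finrank ℂ (Fin n → ℂ) = n := by simp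
  rw [e2]
  congr 1
  have e3 : (ipL z : (Fin n → ℂ) →ₗ[ℂ] ℂ)
      ((-(sq z : ℂ) / (1 - ip w z))⁻¹ • ((((sq z : ℂ) / (1 + (sq z : ℂ))) / (1 - ip w z) ^ 2) • z
      + ((-(sq z : ℂ)) / (1 - ip w z) ^ 2) • w)) = (-(sq z : ℂ) / (1 - ip w z))⁻¹ *
      ((((sq z : ℂ) / (1 + (sq z : ℂ))) / (1 - ip w z) ^ 2) * (nsq z : ℂ)
      + ((-(sq z : ℂ)) / (1 - ip w z) ^ 2) * ip w z) := by
    rw [map_smul, map_add, map_smul, map_smul]
    simp only [ContinuousLinearMap.coe_coe, ipL_apply, ip_self, smul_eq_mul]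
  rw [e3]
  have hA : (nsq z : ℂ) = 1 - (sq z : ℂ) ^ 2 := by rw [sq_sqC hz.le]; ring
  rw [hA]
  field_simp
  ring

lemma det_real {z w : Fin n → ℂ} (hz : nsq z < 1) (h : ip w z ≠ 1) :
    |((mobD z w).restrictScalars ℝ).det| = ((1 - nsq z) / ‖1 - ip w z‖ ^ 2) ^ (n + 1) := by
  have h' : 1 - ip w z ≠ 0 := sub_ne_zero.2 h.symm
  have e1 : ((mobD z w).restrictScalars ℝ).det
      = Algebra.norm ℝ (LinearMap.det (mobD z w : (Fin n → ℂ) →ₗ[ℂ] (Fin n → ℂ))) := by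
    rw [← LinearMap.det_restrictScalars]
    rfl
  rw [e1, det_mobD hz h, Algebra.norm_complex_apply, Complex.normSq_eq_norm_sq,
    abs_of_nonneg (by positivity), norm_mul, norm_pow, norm_div, norm_div, norm_neg,
    Complex.norm_real, Real.norm_of_nonneg (sq_nn z), ← pow_succ, ← pow_mul, mul_comm (n + 1) 2,
    pow_mul, div_pow, sq_sq hz.le]

lemma measurableSet_ball : MeasurableSet {w : Fin n → ℂ | nsq w < 1} :=
  (isOpen_lt continuous_nsq continuous_const).measurableSet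

lemma image_mob {z : Fin n → ℂ} (hz : nsq z < 1) :
    mob z '' {w : Fin n → ℂ | nsq w < 1} = {w : Fin n → ℂ | nsq w < 1} := by
  apply Set.Subset.antisymm
  · rintro _ ⟨w, hw, rfl⟩
    exact mob_mem_open hz hw
  · intro w hw
    have hw' : nsq w < 1 := hw
    exact ⟨mob z w, mob_mem_open hz hw', mob_mob hz (ip_ne_one hw'.le hz)⟩

theorem change_var (z : Fin n → ℂ) (hz : nsq z < 1) (g : (Fin n → ℂ) → ℂ) :
    ∫ w in {w : Fin n → ℂ | nsq w < 1}, g (mob z w) * ((1 - nsq w : ℝ) : ℂ) =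
    ∫ w in {w : Fin n → ℂ | nsq w < 1}, g w * ((1 - nsq w : ℝ) : ℂ) *
      (((1 - nsq z : ℝ) : ℂ) ^ (n + 2) / ((1 - ip w z) ^ (n + 2) * (1 - ip z w) ^ (n + 2))) := by
  have hinj : Set.InjOn (mob z) {w : Fin n → ℂ | nsq w < 1} := by
    intro a ha b hb hab
    have ha' : nsq a < 1 := ha
    have hb' : nsq b < 1 := hb
    rw [← mob_mob hz (ip_ne_one ha'.le hz), hab, mob_mob hz (ip_ne_one hb'.le hz)]
  have key := integral_image_eq_integral_abs_det_fderiv_smul (μ := volume)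
    (s := {w : Fin n → ℂ | nsq w < 1}) measurableSet_ball
    (f := mob z) (f' := fun w => (mobD z w).restrictScalars ℝ)
    (fun w hw => ((hasFDerivAt_mob (ip_ne_one (le_of_lt hw) hz)).restrictScalars ℝ).hasFDerivWithinAt)
    hinj
    (fun w => g w * ((1 - nsq w : ℝ) : ℂ) *
      (((1 - nsq z : ℝ) : ℂ) ^ (n + 2) / ((1 - ip w z) ^ (n + 2) * (1 - ip z w) ^ (n + 2))))
  rw [image_mob hz] at key
  rw [key]
  refine setIntegral_congr_fun measurableSet_ball fun w hw => ?_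
  have hw' : nsq w < 1 := hw
  have h := ip_ne_one hw'.le hz
  have h' : 1 - ip w z ≠ 0 := sub_ne_zero.2 h.symm
  have h'' : 1 - ip z w ≠ 0 := one_sub_ip_ne' hz hw'.le
  have hZ : (1 : ℂ) - (nsq z : ℂ) ≠ 0 := by
    have : (0 : ℝ) < 1 - nsq z := by linarith
    exact_mod_cast this.ne'
  rw [det_real hz h]
  have hn : ((‖1 - ip w z‖ ^ 2 : ℝ) : ℂ) = (1 - ip w z) * (1 - ip z w) := by
    rw [← conj_ip w z]
    have : (1 - (starRingEnd ℂ) (ip w z)) = (starRingEnd ℂ) (1 - ip w z) := by simp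
    rw [this, Complex.mul_conj, Complex.normSq_eq_norm_sq]
  have e1 := one_sub_ip_mob hz.le h
  have e1' : 1 - ip z (mob z w) = (1 - (nsq z : ℂ)) / (1 - ip z w) := by
    have := congrArg (starRingEnd ℂ) e1
    simpa [conj_ip] using this
  have e2 := mob_nsqC hz.le h
  rw [Complex.real_smul]
  push_cast at hn ⊢
  rw [hn, e1, e1', e2]
  simp only [div_pow, mul_pow]
  field_simp
  ring

end Pool.Agent.Ball
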