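import Pool.Agent.Helper76.Ball3
import Pool.Agent.Helper76.BallB

set_option autoImplicit false
set_option linter.unusedSectionVars false
open MeasureTheory

/-! Lebesgue measure on the closed ball and its invariance. -/

namespace Pool.Agent.Ball

variable {n : ℕ}

open ComplexConjugate

lemma det_mv (U : UG n) : LinearMap.det ((Matrix.toLin' U.1).restrictScalars ℝ) = 1 := by
  rw [LinearMap.det_restrictScalars, LinearMap.det_toLin']
  have h := Matrix.det_of_mem_unitary U.2
  have h2 : Complex.normSq (Matrix.det U.1) = 1 := by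
    have := (Unitary.mem_iff.1 h).2
    have h3 : Matrix.det U.1 * conj (Matrix.det U.1) = 1 := this
    rw [Complex.mul_conj] at h3
    exact_mod_cast h3
  rw [← h2]
  exact Algebra.norm_complex_eq ▸ rfl

lemma mp_mv (U : UG n) : MeasurePreserving (mv U.1) (volume : Measure (Fin n → ℂ)) volume := by
  have hc : Continuous (mv U.1) := by
    unfold mv
    exact LinearMap.continuous_of_finiteDimensional (Matrix.toLin' U.1)
  refine ⟨hc.measurable, ?_⟩
  have h := Measure.map_linearMap_addHaar_eq_smul_addHaar (volume : Measure (Fin n → ℂ))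
    (f := (Matrix.toLin' U.1).restrictScalars ℝ) (by rw [det_mv]; norm_num)
  rw [det_mv] at h
  simp only [inv_one, abs_one, ENNReal.ofReal_one, one_smul] at h
  exact h

/-- Lebesgue measure on the closed ball -/
noncomputable def vB (n : ℕ) : Measure (CB n) := Measure.comap Subtype.val volume

lemma measurableSet_closedBall : MeasurableSet {z : Fin n → ℂ | ∑ i, ‖z i‖ ^ 2 ≤ 1} :=
  (isClosed_le (continuous_nsq (n := n)) continuous_const).measurableSet

lemma isOpen_ball : IsOpen {z : Fin n → ℂ | nsq z < 1} :=
  isOpen_lt continuous_nsq continuous_const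

lemma me_val : MeasurableEmbedding (Subtype.val : CB n → Fin n → ℂ) :=
  MeasurableEmbedding.subtype_coe measurableSet_closedBall

lemma volume_closedBall_lt_top : volume {z : Fin n → ℂ | ∑ i, ‖z i‖ ^ 2 ≤ 1} < ⊤ := by
  have : IsCompact {z : Fin n → ℂ | ∑ i, ‖z i‖ ^ 2 ≤ 1} :=
    isCompact_iff_compactSpace.2 CB.compactSpace
  exact this.measure_lt_top

instance : IsFiniteMeasure (vB n) := by
  refine ⟨?_⟩
  rw [vB, me_val.comap_apply, Set.image_univ, Subtype.range_coe_subtype]
  exact volume_closedBall_lt_top

lemma integral_vB (f : (Fin n → ℂ) → ℂ) :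
    ∫ z, f z.1 ∂(vB n) = ∫ z in {z : Fin n → ℂ | ∑ i, ‖z i‖ ^ 2 ≤ 1}, f z :=
  integral_subtype_comap measurableSet_closedBall f

/-- integrals with the weight `1-|z|²` -/
lemma integral_vB_wt (f : (Fin n → ℂ) → ℂ) :
    ∫ z, f z.1 * ((1 - nsq z.1 : ℝ) : ℂ) ∂(vB n) =
      ∫ z in {z : Fin n → ℂ | nsq z < 1}, f z * ((1 - nsq z : ℝ) : ℂ) := by
  rw [integral_vB (fun z => f z * ((1 - nsq z : ℝ) : ℂ))]
  refine setIntegral_eq_of_subset_of_forall_sdiff_eq_zero measurableSet_closedBall ?_ ?_
  · intro z hz
    have h : nsq z < 1 := hz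
    exact h.le
  · intro z hz
    have h1 : nsq z ≤ 1 := hz.1
    have h2 : ¬ nsq z < 1 := hz.2
    have h3 : nsq z = 1 := le_antisymm h1 (not_lt.1 h2)
    simp [h3]

lemma mp_act (U : UG n) : MeasurePreserving (act U) (vB n) (vB n) := by
  have hc : Continuous (act U) := continuous_act_comp continuous_const continuous_id
  refine ⟨hc.measurable, ?_⟩
  ext s hs
  rw [Measure.map_apply hc.measurable hs, vB, me_val.comap_apply, me_val.comap_apply]
  have : Subtype.val '' (act U ⁻¹' s) = mv U.1 ⁻¹' (Subtype.val '' s) := by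
    ext z
    constructor
    · rintro ⟨w, hw, rfl⟩
      exact ⟨act U w, hw, rfl⟩
    · rintro ⟨w, hw, hwz⟩
      have hz : ∑ i, ‖z i‖ ^ 2 ≤ 1 := by
        have := nsq_mv U z
        rw [← hwz] at this
        have h2 : nsq z ≤ 1 := by rw [← this]; exact w.2
        exact h2
      refine ⟨⟨z, hz⟩, ?_, rfl⟩
      have : act U ⟨z, hz⟩ = w := Subtype.ext hwz.symm
      show act U ⟨z, hz⟩ ∈ s
      rw [this]
      exact hw
  rw [this]
  exact (mp_mv U).measure_preimage (me_val.measurableSet_image.2 hs).nullMeasurableSet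

lemma int_act (U : UG n) (f : CB n → ℂ) : ∫ z, f (act U z) ∂(vB n) = ∫ z, f z ∂(vB n) := by
  have hh : MeasurableEmbedding (act U : CB n → CB n) := by
    let e : CB n ≃ₜ CB n :=
      { toFun := act U
        invFun := act U⁻¹
        left_inv := fun z => act_inv_act U z
        right_inv := fun z => act_act_inv U z
        continuous_toFun := continuous_act_comp continuous_const continuous_id
        continuous_invFun := continuous_act_comp continuous_const continuous_id }
    exact e.measurableEmbedding
  exact (mp_act U).integral_comp hh f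

lemma integrable_vB {f : CB n → ℂ} (hf : Continuous f) : Integrable f (vB n) :=
  hf.integrable_of_hasCompactSupport (HasCompactSupport.of_compactSpace _)

/-- averaging an integral over the ball over the unitary group -/
lemma int_average (f : CB n → ℂ) (hf : Continuous f) :
    ∫ z, f z ∂(vB n) = ∫ z, (∫ U, f (act U z) ∂(hU n)) ∂(vB n) := by
  have h1 : ∫ U, (∫ z, f (act U z) ∂(vB n)) ∂(hU n) = ∫ z, f z ∂(vB n) := by
    simp only [int_act]
    simp
  rw [← h1]
  have hc : Continuous fun p : UG n × CB n => f (act p.1 p.2) := hf.comp continuous_act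
  exact integral_integral_swap_of_hasCompactSupport (f := fun U z => f (act U z)) hc
    (HasCompactSupport.of_compactSpace _)

end Pool.Agent.Ball
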