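import Pool.Agent.Helper76.Ball4

set_option autoImplicit false
set_option linter.unusedSectionVars false
open MeasureTheory

/-! The invariant Poisson operator. -/

namespace Pool.Agent.Ball

variable {n : ℕ} [NeZero n]

open ComplexConjugate

/-- first coordinate vector in the closed ball -/
noncomputable def e1c (n : ℕ) [NeZero n] : CB n :=
  ⟨te n 1, by have := nsq_te (n := n) 1; unfold nsq at this; rw [this]; norm_num⟩

/-- image of the first coordinate vector -/
noncomputable def col (U : UG n) : CB n := act U (e1c n)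

lemma nsq_col (U : UG n) : nsq (col U).1 = 1 := by
  rw [col, nsq_act]
  show nsq (te n 1) = 1
  rw [nsq_te]; norm_num

lemma col_mul (U V : UG n) : col (U * V) = act U (col V) := act_mul _ _ _

lemma continuous_col : Continuous (col : UG n → CB n) :=
  continuous_act_comp continuous_id continuous_const

/-- scalar unitary matrix -/
noncomputable def phase (n : ℕ) (θ : ℝ) : UG n :=
  ⟨Complex.exp (θ * Complex.I) • (1 : Matrix (Fin n) (Fin n) ℂ), by
    rw [Matrix.mem_unitaryGroup_iff, star_smul, star_one, smul_mul_smul_comm, one_mul]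
    have : Complex.exp (θ * Complex.I) * star (Complex.exp (θ * Complex.I)) = 1 := by
      show Complex.exp (θ * Complex.I) * conj (Complex.exp (θ * Complex.I)) = 1
      rw [Complex.mul_conj, Complex.normSq_eq_norm_sq, Complex.norm_exp_ofReal_mul_I]
      norm_num
    rw [this, one_smul]⟩

lemma phase_mv (θ : ℝ) (z : Fin n → ℂ) :
    mv (phase n θ).1 z = fun i => Complex.exp (θ * Complex.I) * z i := by
  funext i
  simp [phase, mv, Matrix.smul_mulVec]

/-- the set where the first column is a given vector is null -/
lemma ae_col_ne (z : CB n) : ∀ᵐ U ∂(hU n), col U ≠ z := by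
  by_cases hz : nsq z.1 = 1
  swap
  · refine Filter.Eventually.of_forall fun U h => hz ?_
    rw [← h, nsq_col]
  rw [ae_iff]
  simp only [ne_eq, not_not]
  set A : CB n → Set (UG n) := fun w => {U | col U = w} with hA
  have hmeas : ∀ w, MeasurableSet (A w) := fun w =>
    (isClosed_singleton.preimage continuous_col).measurableSet
  have hinv : ∀ (V : UG n) (w : CB n), hU n (A (act V w)) = hU n (A w) := by
    intro V w
    have : A w = (fun U => V * U) ⁻¹' (A (act V w)) := by
      ext U
      simp only [hA, Set.mem_preimage, Set.mem_ofPred_eq, col_mul]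
      constructor
      · intro h; rw [h]
      · intro h
        have := congrArg (act V⁻¹) h
        rwa [act_inv_act, act_inv_act] at this
    rw [this, measure_preimage_mul]
  have hz0 : ∃ i, z.1 i ≠ 0 := by
    by_contra h
    push Not at h
    have : z.1 = 0 := funext h
    rw [this, nsq_zero] at hz
    norm_num at hz
  obtain ⟨i, hi⟩ := hz0
  let th : ℕ → ℝ := fun k => 1 / (k + 1)
  have hdisj : Pairwise (Function.onFun Disjoint fun k => A (act (phase n (th k)) z)) := by
    intro j k hjk
    refine Set.disjoint_left.2 fun U hU1 hU2 => hjk ?_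
    have h1 : act (phase n (th j)) z = act (phase n (th k)) z := by
      have e1 : col U = act (phase n (th j)) z := hU1
      have e2 : col U = act (phase n (th k)) z := hU2
      rw [← e1, ← e2]
    have h2 := congrFun (congrArg Subtype.val h1) i
    rw [act_val, act_val, phase_mv, phase_mv] at h2
    have h3 : Complex.exp (th j * Complex.I) = Complex.exp (th k * Complex.I) :=
      mul_right_cancel₀ hi h2
    have h4 : Real.cos (th j) = Real.cos (th k) := by
      have := congrArg Complex.re h3
      rwa [Complex.exp_ofReal_mul_I_re, Complex.exp_ofReal_mul_I_re] at this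
    have hpi := Real.pi_gt_three
    have hmem : ∀ k : ℕ, th k ∈ Set.Icc 0 Real.pi := by
      intro k
      have h1 : (0 : ℝ) < k + 1 := by positivity
      refine ⟨by positivity, ?_⟩
      have : (1 : ℝ) / (k + 1) ≤ 1 := by
        rw [div_le_one h1]
        have : (0 : ℝ) ≤ k := Nat.cast_nonneg k
        linarith
      show (1 : ℝ) / (k + 1) ≤ Real.pi
      linarith
    have h5 := Real.injOn_cos (hmem j) (hmem k) h4
    have h6 : ((j : ℝ) + 1) = k + 1 := by
      have h1 : (0 : ℝ) < j + 1 := by positivity
      have h2 : (0 : ℝ) < k + 1 := by positivity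
      have h5' : (1 : ℝ) / (j + 1) = 1 / (k + 1) := h5
      field_simp at h5'
      linarith
    exact_mod_cast add_right_cancel h6
  have hsum := measure_iUnion (μ := hU n) hdisj fun k => hmeas _
  have hconst : ∀ k, hU n (A (act (phase n (th k)) z)) = hU n (A z) := fun k => hinv _ _
  simp only [hconst] at hsum
  by_contra hne
  have htop : ∑' _ : ℕ, hU n (A z) = ⊤ := ENNReal.tsum_const_eq_top_of_ne_zero hne
  rw [htop] at hsum
  exact (measure_ne_top (hU n) _) hsum

lemma ip_col_ne {z : CB n} {U : UG n} (h : col U ≠ z) : ip (col U).1 z.1 ≠ 1 := fun h1 =>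
  h (Subtype.ext (eq_of_ip_eq_one (col U).2 z.2 h1))

lemma measurable_T (z : CB n) : Measurable (T z) := by
  refine Measurable.subtype_mk ?_
  refine measurable_pi_lambda _ fun i => ?_
  simp only [mob]
  have h1 : Measurable fun w : CB n => Om z.1 w.1 i :=
    ((continuous_apply i).comp (continuous_Om.comp
      (continuous_const.prodMk continuous_subtype_val))).measurable
  have h2 : Measurable fun w : CB n => ip w.1 z.1 :=
    (continuous_ip_comp continuous_subtype_val continuous_const).measurable
  exact (measurable_const.sub h1).div (measurable_const.sub h2)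

/-- Poisson integral as a plain function -/
noncomputable def Pf (f : CB n → ℂ) (z : CB n) : ℂ := ∫ U, f (T z (col U)) ∂(hU n)

lemma bdd (f : C(CB n, ℂ)) (z : CB n) : ‖f z‖ ≤ ‖f‖ := f.norm_coe_le_norm z

lemma aesm_P (f : C(CB n, ℂ)) (z : CB n) :
    AEStronglyMeasurable (fun U => f (T z (col U))) (hU n) :=
  (f.continuous.measurable.comp ((measurable_T z).comp continuous_col.measurable)).aestronglyMeasurable

lemma integrable_P (f : C(CB n, ℂ)) (z : CB n) : Integrable (fun U => f (T z (col U))) (hU n) :=
  Integrable.of_bound (aesm_P f z) ‖f‖ (Filter.Eventually.of_forall fun _ => bdd f _)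

lemma Pf_sphere (f : CB n → ℂ) {z : CB n} (hz : nsq z.1 = 1) : Pf f z = f z := by
  have : ∫ U, f (T z (col U)) ∂(hU n) = ∫ _U : UG n, f z ∂(hU n) := by
    refine integral_congr_ae ?_
    filter_upwards [ae_col_ne z] with U hU1
    have : T z (col U) = z := Subtype.ext (mob_of_sphere_left hz (ip_col_ne hU1))
    rw [this]
  rw [Pf, this]
  simp

lemma continuous_Pf (f : C(CB n, ℂ)) : Continuous (Pf (f : CB n → ℂ)) := by
  rw [continuous_iff_continuousAt]
  intro z0
  refine continuousAt_of_dominated (bound := fun _ => ‖f‖)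
    (Filter.Eventually.of_forall fun z => aesm_P f z)
    (Filter.Eventually.of_forall fun z => Filter.Eventually.of_forall fun U => bdd f _)
    (integrable_const _) ?_
  filter_upwards [ae_col_ne z0] with U hU1
  have h1 : ContinuousAt (fun p : CB n × CB n => T p.1 p.2) (z0, col U) :=
    continuousAt_T (ip_col_ne hU1)
  have h2 : ContinuousAt (fun z : CB n => T z (col U)) z0 :=
    ContinuousAt.comp (f := fun z : CB n => (z, col U)) (g := fun p : CB n × CB n => T p.1 p.2) h1
      (by fun_prop)
  exact ContinuousAt.comp (g := f) f.continuous.continuousAt h2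

lemma norm_Pf_le (f : C(CB n, ℂ)) (z : CB n) : ‖Pf (f : CB n → ℂ) z‖ ≤ ‖f‖ := by
  refine (norm_integral_le_of_norm_le_const (C := ‖f‖)
    (Filter.Eventually.of_forall fun U => bdd f _)).trans ?_
  simp

/-- the invariant Poisson operator -/
noncomputable def Pc : C(CB n, ℂ) →L[ℂ] C(CB n, ℂ) :=
  LinearMap.mkContinuous
    { toFun := fun f => ⟨Pf f, continuous_Pf f⟩
      map_add' := fun f g => by
        ext z
        exact integral_add (integrable_P f z) (integrable_P g z)
      map_smul' := fun c f => by
        ext z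
        exact integral_smul c _ } 1 (fun f => by
      rw [one_mul]
      exact (ContinuousMap.norm_le _ (norm_nonneg _)).2 fun z => norm_Pf_le f z)

lemma Pc_apply (f : C(CB n, ℂ)) (z : CB n) : Pc f z = ∫ U, f (T z (col U)) ∂(hU n) := rfl

lemma Pc_sphere (f : C(CB n, ℂ)) {z : CB n} (hz : nsq z.1 = 1) : Pc f z = f z := Pf_sphere f hz

/-- composition with the action -/
noncomputable def actC (V : UG n) : C(CB n, CB n) :=
  ⟨act V, continuous_act_comp continuous_const continuous_id⟩

/-- composition with a Moebius involution -/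
noncomputable def TC (a : CB n) (ha : nsq a.1 < 1) : C(CB n, CB n) :=
  ⟨T a, by
    rw [continuous_iff_continuousAt]
    intro z
    exact ContinuousAt.comp (f := fun z : CB n => (a, z)) (g := fun p : CB n × CB n => T p.1 p.2)
      (continuousAt_T (ip_ne_one z.2 ha)) (by fun_prop)⟩

lemma Pc_act (f : C(CB n, ℂ)) (V : UG n) (z : CB n) : Pc (f.comp (actC V)) z = Pc f (act V z) := by
  rw [Pc_apply, Pc_apply]
  have h : ∀ U : UG n, (f.comp (actC V)) (T z (col U)) = f (T (act V z) (col (V * U))) := by
    intro U
    rw [col_mul, T_act]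
    rfl
  simp only [h]
  exact int_left V (fun U => f (T (act V z) (col U)))

/-- values on the sphere determine the Poisson integral -/
lemma Pc_congr {f g : C(CB n, ℂ)} (h : ∀ z : CB n, nsq z.1 = 1 → f z = g z) : Pc f = Pc g := by
  ext z
  by_cases hz : nsq z.1 = 1
  · rw [Pc_sphere f hz, Pc_sphere g hz, h z hz]
  · have hz' : nsq z.1 < 1 := lt_of_le_of_ne z.2 hz
    rw [Pc_apply, Pc_apply]
    congr 1
    funext U
    exact h _ (mob_sphere hz' (nsq_col U))

lemma T_zero (z : CB n) : T z ⟨0, by simp⟩ = z := Subtype.ext (mob_zero_right z.1)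

/-- the centre of the ball -/
noncomputable def cen (n : ℕ) : CB n := ⟨0, by simp⟩

lemma Pc_cen (f : C(CB n, ℂ)) : Pc f (cen n) = ∫ U, f (col U) ∂(hU n) := by
  rw [Pc_apply]
  have h : ∀ U : UG n, T (cen n) (col U) = col (phase n Real.pi * U) := by
    intro U
    rw [col_mul]
    apply Subtype.ext
    show mob 0 (col U).1 = _
    rw [mob_zero_left, act_val, phase_mv]
    funext i
    simp [Complex.exp_pi_mul_I]
  simp only [h]
  exact int_left (phase n Real.pi) (fun U => f (col U))

lemma exists_act (z : CB n) : ∃ (V : UG n) (t : ℝ) (ht : 0 ≤ t ∧ t ^ 2 ≤ 1),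
    z = act V ⟨te n t, by have := nsq_te (n := n) t; unfold nsq at this; rw [this]; exact ht.2⟩ ∧
    t = Real.sqrt (nsq z.1) := by
  obtain ⟨V, hV⟩ := exists_unitary z.1
  have h2 : Real.sqrt (nsq z.1) ^ 2 ≤ 1 := by rw [Real.sq_sqrt (nsq_nonneg _)]; exact z.2
  exact ⟨V, Real.sqrt (nsq z.1), ⟨Real.sqrt_nonneg _, h2⟩, Subtype.ext hV.symm, rfl⟩

lemma exists_act_sphere {z : CB n} (hz : nsq z.1 = 1) : ∃ V : UG n, z = col V := by
  obtain ⟨V, hV⟩ := exists_unitary z.1
  rw [hz, Real.sqrt_one] at hV
  exact ⟨V, Subtype.ext hV.symm⟩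

/-- averages over the orbit of a sphere point -/
lemma avg_sphere (f : C(CB n, ℂ)) {z : CB n} (hz : nsq z.1 = 1) :
    ∫ U, f (act U z) ∂(hU n) = ∫ U, f (col U) ∂(hU n) := by
  obtain ⟨V, rfl⟩ := exists_act_sphere hz
  have : ∀ U : UG n, f (act U (col V)) = f (col (U * V)) := fun U => by rw [col_mul]
  simp only [this]
  exact int_right V (fun U => f (col U))

/-- `P f` has the spherical mean value property at the centre -/
lemma avg_Pc (f : C(CB n, ℂ)) (w : CB n) :
    ∫ U, Pc f (act U w) ∂(hU n) = Pc f (cen n) := by
  rw [Pc_cen]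
  by_cases hw : nsq w.1 = 1
  · have : ∀ U : UG n, Pc f (act U w) = f (act U w) := fun U =>
      Pc_sphere f (by rw [nsq_act, hw])
    simp only [this]
    exact avg_sphere f hw
  · have hw' : nsq w.1 < 1 := lt_of_le_of_ne w.2 hw
    have h1 : ∀ U : UG n, Pc f (act U w) = ∫ V, f (act U (T w (col V))) ∂(hU n) := by
      intro U
      rw [← Pc_act, Pc_apply]
      rfl
    simp only [h1]
    have hc : Continuous fun p : UG n × UG n => f (act p.1 (T w (col p.2))) := by
      refine f.continuous.comp (continuous_act_comp continuous_fst ?_)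
      exact (TC w hw').continuous.comp (continuous_col.comp continuous_snd)
    rw [integral_integral_swap_of_hasCompactSupport
      (f := fun U V => f (act U (T w (col V)))) hc (HasCompactSupport.of_compactSpace _)]
    have h2 : ∀ V : UG n, ∫ U, f (act U (T w (col V))) ∂(hU n) = ∫ U, f (col U) ∂(hU n) :=
      fun V => avg_sphere f (mob_sphere hw' (nsq_col V))
    simp only [h2]
    simp

end Pool.Agent.Ball
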