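import Pool.Agent.Helper76.Ball5

set_option autoImplicit false
set_option linter.unusedSectionVars false
open MeasureTheory

/-! The averaging operator `R` with weight `1-|w|²`. -/

namespace Pool.Agent.Ball

variable {n : ℕ} [NeZero n]

open ComplexConjugate

/-- the weight `1-|w|²` -/
noncomputable def wt (w : CB n) : ℝ := 1 - nsq w.1

lemma continuous_wt : Continuous (wt : CB n → ℝ) :=
  continuous_const.sub (continuous_nsq.comp continuous_subtype_val)

lemma wt_nonneg (w : CB n) : 0 ≤ wt w := sub_nonneg.2 w.2

lemma wt_le_one (w : CB n) : wt w ≤ 1 := by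
  have := nsq_nonneg w.1
  unfold wt
  linarith

lemma wt_act (U : UG n) (w : CB n) : wt (act U w) = wt w := by simp [wt, nsq_act]

/-- bounded kernels, continuous off the sphere in the first variable, times a weight vanishing on
the sphere, are continuous -/
lemma continuous_weight {E : Type*} [NormedAddCommGroup E] [NormedSpace ℝ E]
    (h : CB n × CB n → E) (ω : CB n → ℝ) (hω : Continuous ω) (hω0 : ∀ w, nsq w.1 = 1 → ω w = 0)
    (C : ℝ) (hC : ∀ p, ‖h p‖ ≤ C)
    (hc : ∀ p : CB n × CB n, nsq p.1.1 < 1 → ContinuousAt h p) :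
    Continuous fun p : CB n × CB n => ω p.1 • h p := by
  rw [continuous_iff_continuousAt]
  intro p
  by_cases hp : nsq p.1.1 < 1
  · exact (hω.comp continuous_fst).continuousAt.smul (hc p hp)
  · have hp1 : nsq p.1.1 = 1 := le_antisymm p.1.2 (not_lt.1 hp)
    have h0 : ω p.1 • h p = 0 := by rw [hω0 _ hp1, zero_smul]
    rw [ContinuousAt, h0]
    rw [tendsto_zero_iff_norm_tendsto_zero]
    have h1 : Filter.Tendsto (fun q : CB n × CB n => |ω q.1| * C) (nhds p) (nhds 0) := by
      have : Filter.Tendsto (fun q : CB n × CB n => |ω q.1| * C) (nhds p) (nhds (|ω p.1| * C)) :=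
        (((hω.comp continuous_fst).abs.mul continuous_const).tendsto p)
      rwa [hω0 _ hp1, abs_zero, zero_mul] at this
    refine squeeze_zero (fun q => norm_nonneg _) (fun q => ?_) h1
    rw [norm_smul, Real.norm_eq_abs]
    exact mul_le_mul_of_nonneg_left (hC q) (abs_nonneg _)

lemma wt_zero {w : CB n} (h : nsq w.1 = 1) : wt w = 0 := by simp [wt, h]

/-- kernel of the left averages: `(a,z) ↦ (1-|a|²) f(φ_a(z))` is continuous -/
lemma continuous_left (f : C(CB n, ℂ)) :
    Continuous fun p : CB n × CB n => wt p.1 • f (T p.1 p.2) := by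
  refine continuous_weight (fun p => f (T p.1 p.2)) wt continuous_wt (fun w => wt_zero) ‖f‖
    (fun p => bdd f _) ?_
  intro p hp
  exact ContinuousAt.comp (g := f) f.continuous.continuousAt
    (continuousAt_T (ip_ne_one p.2.2 hp))

/-- kernel of `R`: `(z,w) ↦ (1-|w|²) f(φ_z(w))` is continuous -/
lemma continuous_right (f : C(CB n, ℂ)) :
    Continuous fun p : CB n × CB n => wt p.2 • f (T p.1 p.2) := by
  have h : Continuous fun p : CB n × CB n => wt p.1 • f (T p.2 p.1) := by
    refine continuous_weight (fun p : CB n × CB n => f (T p.2 p.1)) wt continuous_wt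
      (fun w => wt_zero) ‖f‖ (fun p => bdd f _) ?_
    intro p hp
    have h1 : ContinuousAt (fun q : CB n × CB n => T q.1 q.2) (p.2, p.1) :=
      continuousAt_T (p := (p.2, p.1)) (ip_ne_one' hp p.2.2)
    have h2 : ContinuousAt (fun p : CB n × CB n => T p.2 p.1) p :=
      ContinuousAt.comp (f := fun p : CB n × CB n => (p.2, p.1))
        (g := fun q : CB n × CB n => T q.1 q.2) h1 (by fun_prop)
    exact ContinuousAt.comp (g := f) f.continuous.continuousAt h2
  have hs : Continuous fun p : CB n × CB n => (p.2, p.1) := continuous_snd.prodMk continuous_fst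
  have h4 := Continuous.comp h hs
  simp only [Function.comp_def] at h4
  exact h4

/-- total mass of the weight -/
noncomputable def cw (n : ℕ) : ℝ := ∫ w, wt w ∂(vB n)

lemma continuous_param {f : CB n × CB n → ℂ} (hf : Continuous f) :
    Continuous fun z => ∫ w, f (z, w) ∂(vB n) := by
  rw [continuous_iff_continuousAt]
  intro z0
  obtain ⟨C, hC⟩ : ∃ C : ℝ, ∀ p, ‖f p‖ ≤ C := by
    have := (isCompact_range hf.norm).bddAbove
    obtain ⟨C, hC⟩ := this
    exact ⟨C, fun p => hC ⟨p, rfl⟩⟩
  refine continuousAt_of_dominated (bound := fun _ => C)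
    (Filter.Eventually.of_forall fun z => ?_)
    (Filter.Eventually.of_forall fun z => Filter.Eventually.of_forall fun w => hC _)
    (integrable_const _) (Filter.Eventually.of_forall fun w => ?_)
  · exact (hf.comp (by fun_prop : Continuous fun w : CB n => (z, w))).aestronglyMeasurable
  · exact (hf.comp (by fun_prop : Continuous fun z : CB n => (z, w))).continuousAt

/-- unnormalised `R` -/
noncomputable def R0 (f : C(CB n, ℂ)) (z : CB n) : ℂ := ∫ w, wt w • f (T z w) ∂(vB n)

lemma continuous_R0 (f : C(CB n, ℂ)) : Continuous (R0 f) := continuous_param (continuous_right f)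

lemma integrable_right (f : C(CB n, ℂ)) (z : CB n) :
    Integrable (fun w => wt w • f (T z w)) (vB n) := by
  have hs : Continuous fun w : CB n => (z, w) := continuous_const.prodMk continuous_id
  have h4 := Continuous.comp (continuous_right f) hs
  simp only [Function.comp_def] at h4
  exact integrable_vB h4

lemma integrable_wt : Integrable (wt : CB n → ℝ) (vB n) :=
  continuous_wt.integrable_of_hasCompactSupport (HasCompactSupport.of_compactSpace _)

lemma norm_R0_le (f : C(CB n, ℂ)) (z : CB n) : ‖R0 f z‖ ≤ cw n * ‖f‖ := by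
  rw [R0, cw, ← integral_mul_const]
  refine norm_integral_le_of_norm_le (integrable_wt.mul_const _)
    (Filter.Eventually.of_forall fun w => ?_)
  rw [norm_smul, Real.norm_eq_abs, abs_of_nonneg (wt_nonneg w)]
  exact mul_le_mul_of_nonneg_left (bdd f _) (wt_nonneg w)

lemma cw_pos : 0 < cw n := by
  rw [cw, integral_pos_iff_support_of_nonneg wt_nonneg integrable_wt]
  have h1 : Function.support (wt : CB n → ℝ) = {w : CB n | nsq w.1 < 1} := by
    ext w
    simp only [Function.mem_support, wt, Set.mem_ofPred_eq]
    constructor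
    · intro h
      exact lt_of_le_of_ne w.2 (fun h2 => h (sub_eq_zero.2 h2.symm))
    · intro h
      exact (sub_pos.2 h).ne'
  rw [h1, vB, me_val.comap_apply]
  have h2 : Subtype.val '' {w : CB n | nsq w.1 < 1} = {w : Fin n → ℂ | nsq w < 1} := by
    ext w
    constructor
    · rintro ⟨v, hv, rfl⟩
      exact hv
    · intro hw
      have hw' : nsq w < 1 := hw
      exact ⟨⟨w, hw'.le⟩, hw, rfl⟩
  rw [h2]
  exact isOpen_ball.measure_pos _ ⟨0, by
    show nsq (0 : Fin n → ℂ) < 1
    rw [nsq_zero]; norm_num⟩

/-- the averaging operator `R` -/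
noncomputable def Rc : C(CB n, ℂ) →L[ℂ] C(CB n, ℂ) :=
  LinearMap.mkContinuous
    { toFun := fun f => ⟨fun z => (cw n : ℂ)⁻¹ * R0 f z, continuous_const.mul (continuous_R0 f)⟩
      map_add' := fun f g => by
        ext z
        have : R0 (f + g) z = R0 f z + R0 g z := by
          rw [R0, R0, R0, ← integral_add (integrable_right f z) (integrable_right g z)]
          congr 1
          funext w
          simp
        simp [this, mul_add]
      map_smul' := fun c f => by
        ext z
        have : R0 (c • f) z = c * R0 f z := by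
          rw [R0, R0, ← integral_const_mul]
          congr 1
          funext w
          simp only [ContinuousMap.smul_apply, smul_eq_mul, Complex.real_smul]
          ring
        simp only [this, ContinuousMap.coe_mk, RingHom.id_apply, ContinuousMap.smul_apply,
          smul_eq_mul]
        ring } 1 (fun f => by
      rw [one_mul]
      refine (ContinuousMap.norm_le _ (norm_nonneg _)).2 fun z => ?_
      show ‖(cw n : ℂ)⁻¹ * R0 f z‖ ≤ ‖f‖
      have hc := cw_pos (n := n)
      rw [norm_mul, norm_inv, Complex.norm_real, Real.norm_eq_abs, abs_of_pos hc,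
        inv_mul_le_iff₀ hc]
      exact norm_R0_le f z)

lemma Rc_apply (f : C(CB n, ℂ)) (z : CB n) :
    Rc f z = (cw n : ℂ)⁻¹ * ∫ w, wt w • f (T z w) ∂(vB n) := rfl

end Pool.Agent.Ball
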