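import Pool.Agent.Helper76.Ball0

set_option autoImplicit false
open MeasureTheory

namespace Pool.Agent.Ball
variable {n : ℕ}

namespace ModC

theorem nsq_eq_dot (w : Fin n → ℂ) : ((nsq w : ℝ) : ℂ) = star w ⬝ᵥ w := by
  unfold nsq dotProduct
  push_cast
  refine Finset.sum_congr rfl fun i _ => ?_
  rw [Pi.star_apply, Complex.star_def, ← Complex.normSq_eq_conj_mul_self, Complex.normSq_eq_norm_sq]
  push_cast; rfl

theorem nsq_mv (U : UG n) (w : Fin n → ℂ) : nsq (mv U.1 w) = nsq w := by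
  have h : ((nsq (mv U.1 w) : ℝ) : ℂ) = ((nsq w : ℝ) : ℂ) := by
    rw [nsq_eq_dot, nsq_eq_dot]
    show star (U.1.mulVec w) ⬝ᵥ (U.1.mulVec w) = _
    rw [Matrix.star_mulVec, Matrix.dotProduct_mulVec, Matrix.vecMul_vecMul]
    have : U.1.conjTranspose * U.1 = 1 := (Matrix.mem_unitaryGroup_iff'.1 U.2)
    rw [this, Matrix.vecMul_one]
  exact_mod_cast h

theorem nsq_continuous : Continuous (fun w : Fin n → ℂ => nsq w) := by
  unfold nsq
  fun_prop

abbrev B (n : ℕ) : Set (Fin n → ℂ) := {w : Fin n → ℂ | nsq w < 1}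

theorem B_open : IsOpen (B n) := isOpen_lt nsq_continuous continuous_const

theorem norm_apply_le (w : Fin n → ℂ) (i : Fin n) : ‖w i‖ ^ 2 ≤ nsq w := by
  unfold nsq
  exact Finset.single_le_sum (f := fun j => ‖w j‖ ^ 2) (fun j _ => by positivity) (Finset.mem_univ i)

theorem cB_compact : IsCompact {w : Fin n → ℂ | nsq w ≤ 1} := by
  refine Metric.isCompact_of_isClosed_isBounded (isClosed_le nsq_continuous continuous_const) ?_
  refine (Metric.isBounded_closedBall (x := (0 : Fin n → ℂ)) (r := 1)).subset ?_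
  intro w hw
  rw [mem_closedBall_zero_iff]
  refine (pi_norm_le_iff_of_nonneg zero_le_one).2 fun i => ?_
  have h1 := norm_apply_le w i
  have h2 : nsq w ≤ 1 := hw
  have h3 : ‖w i‖ ^ 2 ≤ 1 := h1.trans h2
  nlinarith [norm_nonneg (w i)]

theorem B_finite : volume (B n) < ⊤ := by
  refine lt_of_le_of_lt (measure_mono ?_) (cB_compact (n := n)).measure_lt_top
  intro w (hw : nsq w < 1)
  exact hw.le

theorem B_pos : volume (B n) ≠ 0 := by
  refine (B_open.measure_pos volume ⟨0, ?_⟩).ne'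
  show nsq (0 : Fin n → ℂ) < 1
  unfold nsq; simp

/-- the action of a unitary matrix as a homeomorphism -/
noncomputable def mvHomeo (U : UG n) : (Fin n → ℂ) ≃ₜ (Fin n → ℂ) where
  toFun := mv U.1
  invFun := mv (star U).1
  left_inv w := by
    show (star U).1.mulVec (U.1.mulVec w) = w
    rw [Matrix.mulVec_mulVec]
    have : (star U).1 * U.1 = 1 := (Matrix.mem_unitaryGroup_iff'.1 U.2)
    rw [this, Matrix.one_mulVec]
  right_inv w := by
    show U.1.mulVec ((star U).1.mulVec w) = w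
    rw [Matrix.mulVec_mulVec]
    have : U.1 * (star U).1 = 1 := (Matrix.mem_unitaryGroup_iff.1 U.2)
    rw [this, Matrix.one_mulVec]
  continuous_toFun := by
    show Continuous fun w => U.1.mulVec w
    exact Continuous.matrix_mulVec continuous_const continuous_id
  continuous_invFun := by
    show Continuous fun w => (star U).1.mulVec w
    exact Continuous.matrix_mulVec continuous_const continuous_id

theorem mp (U : UG n) : MeasurePreserving (mv U.1) (volume : Measure (Fin n → ℂ)) volume := by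
  refine ⟨(mvHomeo U).continuous.measurable, ?_⟩
  let f : (Fin n → ℂ) →ₗ[ℝ] (Fin n → ℂ) := (Matrix.toLin' U.1).restrictScalars ℝ
  have hf : ∀ w, f w = mv U.1 w := fun w => by simp [f]
  have hfc : (f : (Fin n → ℂ) → (Fin n → ℂ)) = mv U.1 := funext hf
  have hdet : LinearMap.det f ≠ 0 := by
    have hu : IsUnit f := by
      rw [Module.End.isUnit_iff, hfc]
      exact (mvHomeo U).bijective
    exact (LinearMap.isUnit_iff_isUnit_det f).1 hu |>.ne_zero
  have h1 := Measure.map_linearMap_addHaar_eq_smul_addHaar (volume : Measure (Fin n → ℂ)) hdet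
  rw [hfc] at h1
  have h2 : Measure.map (mv U.1) (volume : Measure (Fin n → ℂ)) (B n) = volume (B n) := by
    rw [Measure.map_apply (show Measurable (mv U.1) from (mvHomeo U).continuous.measurable) B_open.measurableSet]
    congr 1
    ext w
    show nsq (mv U.1 w) < 1 ↔ nsq w < 1
    rw [nsq_mv]
  rw [h1] at h2
  rw [Measure.smul_apply, smul_eq_mul] at h2
  have h3 : ENNReal.ofReal |(LinearMap.det f)⁻¹| = 1 := by
    have := (ENNReal.mul_eq_right B_pos B_finite.ne).1 h2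
    exact this
  rw [h1, h3, one_smul]

theorem integral_mv (U : UG n) (F : (Fin n → ℂ) → ℂ) :
    ∫ w in B n, F (mv U.1 w) = ∫ w in B n, F w := by
  have h := (mp U).setIntegral_preimage_emb (mvHomeo U).measurableEmbedding F (B n)
  have h2 : (mv U.1) ⁻¹' (B n) = B n := by
    ext w
    show nsq (mv U.1 w) < 1 ↔ nsq w < 1
    rw [nsq_mv]
  rw [h2] at h
  exact h

/-- the real rotation in the plane of the coordinates `0` and `i` -/
noncomputable def Lrot [NeZero n] (i : Fin n) (c s : ℝ) : (Fin n → ℂ) →ₗ[ℂ] (Fin n → ℂ) where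
  toFun w k := if k = 0 then (c : ℂ) * w 0 + s * w i else if k = i then -(s : ℂ) * w 0 + c * w i else w k
  map_add' x y := by
    funext k
    simp only [Pi.add_apply]
    split_ifs <;> ring
  map_smul' a x := by
    funext k
    simp only [Pi.smul_apply, smul_eq_mul, RingHom.id_apply]
    split_ifs <;> ring

theorem Lrot_comp [NeZero n] (i : Fin n) (hi : i ≠ 0) (c s : ℝ) (h : c ^ 2 + s ^ 2 = 1) :
    (Lrot i c s) ∘ₗ (Lrot i c (-s)) = LinearMap.id := by
  have h' : (c : ℂ) ^ 2 + (s : ℂ) ^ 2 = 1 := by exact_mod_cast h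
  refine LinearMap.ext fun w => funext fun k => ?_
  simp only [LinearMap.comp_apply, LinearMap.id_apply]
  show (if k = 0 then _ else _) = _
  simp only [Lrot, LinearMap.coe_mk, AddHom.coe_mk, if_true, hi, if_false]
  split_ifs with h1 h2
  · subst h1; push_cast; linear_combination (w 0) * h'
  · subst h2; push_cast; linear_combination (w k) * h'
  · rfl

theorem Lrot_star [NeZero n] (i : Fin n) (hi : i ≠ 0) (c s : ℝ) :
    star (LinearMap.toMatrix' (Lrot i c s)) = LinearMap.toMatrix' (Lrot i c (-s)) := by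
  ext a b
  rw [Matrix.star_apply, LinearMap.toMatrix'_apply, LinearMap.toMatrix'_apply]
  simp only [Lrot, LinearMap.coe_mk, AddHom.coe_mk]
  have hi' : (0 : Fin n) ≠ i := fun h => hi h.symm
  by_cases ha : a = 0 <;> by_cases hb : b = 0 <;> by_cases ha' : a = i <;> by_cases hb' : b = i <;>
    first
    | (subst ha; subst ha'; exact absurd rfl hi)
    | (subst hb; subst hb'; exact absurd rfl hi)
    | (simp [ha, hb, ha', hb', hi, hi', Pi.single_apply, eq_comm])

/-- real rotation as a unitary matrix -/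
noncomputable def rot [NeZero n] (i : Fin n) (hi : i ≠ 0) (θ : ℝ) : UG n :=
  ⟨LinearMap.toMatrix' (Lrot i (Real.cos θ) (Real.sin θ)), by
    rw [Matrix.mem_unitaryGroup_iff, Lrot_star i hi, ← LinearMap.toMatrix'_comp,
      Lrot_comp i hi _ _ (Real.cos_sq_add_sin_sq θ), LinearMap.toMatrix'_id]⟩

theorem mv_rot [NeZero n] (i : Fin n) (hi : i ≠ 0) (θ : ℝ) (w : Fin n → ℂ) :
    mv (rot i hi θ).1 w = Lrot i (Real.cos θ) (Real.sin θ) w := by
  show (LinearMap.toMatrix' _).mulVec w = _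
  rw [LinearMap.toMatrix'_mulVec]

/-- diagonal unitary matrices -/
noncomputable def dg (d : Fin n → ℂ) (hd : ∀ k, ‖d k‖ = 1) : UG n :=
  ⟨Matrix.diagonal d, by
    rw [Matrix.mem_unitaryGroup_iff, Matrix.star_eq_conjTranspose, Matrix.diagonal_conjTranspose,
      Matrix.diagonal_mul_diagonal]
    rw [← Matrix.diagonal_one]
    congr 1
    funext k
    rw [Pi.star_apply, Complex.star_def, Complex.mul_conj, Complex.normSq_eq_norm_sq, hd k]
    norm_num⟩

theorem mv_dg (d : Fin n → ℂ) (hd : ∀ k, ‖d k‖ = 1) (w : Fin n → ℂ) :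
    mv (dg d hd).1 w = fun k => d k * w k := by
  funext k
  show (Matrix.diagonal d).mulVec w k = _
  rw [Matrix.mulVec_diagonal]

/-- functions changing sign under a unitary matrix have zero integral -/
theorem integral_odd (U : UG n) (G f : (Fin n → ℂ) → ℂ) (hG : ∀ w, G (mv U.1 w) = G w)
    (hf : ∀ w, f (mv U.1 w) = - f w) : ∫ w in B n, G w * f w = 0 := by
  have h := integral_mv U (fun w => G w * f w)
  simp only [hG, hf, mul_neg, integral_neg] at h
  have h2 : (2 : ℂ) * ∫ w in B n, G w * f w = 0 := by linear_combination -h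
  rcases mul_eq_zero.1 h2 with h3 | h3
  · norm_num at h3
  · exact h3

theorem integrable_mul (G f : (Fin n → ℂ) → ℂ)
    (hGm : AEStronglyMeasurable G (volume.restrict (B n))) (C : ℝ) (hGb : ∀ w ∈ B n, ‖G w‖ ≤ C)
    (hf : ContinuousOn f {w | nsq w ≤ 1}) : IntegrableOn (fun w => G w * f w) (B n) := by
  obtain ⟨M, hM⟩ := (cB_compact (n := n)).exists_bound_of_continuousOn hf
  have hfm : AEStronglyMeasurable f (volume.restrict (B n)) :=
    (hf.mono (fun w (hw : nsq w < 1) => hw.le)).aestronglyMeasurable B_open.measurableSet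
  have : IsFiniteMeasure ((volume : Measure (Fin n → ℂ)).restrict (B n)) :=
    ⟨by rw [Measure.restrict_apply_univ]; exact B_finite⟩
  refine Integrable.of_bound (hGm.mul hfm) (|C| * |M|) ?_
  refine (ae_restrict_iff' B_open.measurableSet).2 (Filter.Eventually.of_forall fun w hw => ?_)
  rw [norm_mul]
  refine mul_le_mul ((hGb w hw).trans (le_abs_self _)) ((hM w (show nsq w ≤ 1 from le_of_lt hw)).trans (le_abs_self _))
    (norm_nonneg _) (abs_nonneg _)

/-- Lie derivatives along unitary one-parameter groups integrate to zero against radial functions -/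
theorem integral_lie (R : ℝ → UG n) (hR0 : (R 0).1 = 1) (G f f' : (Fin n → ℂ) → ℂ)
    (hGm : AEStronglyMeasurable G (volume.restrict (B n))) (C : ℝ) (hGb : ∀ w ∈ B n, ‖G w‖ ≤ C)
    (hinv : ∀ (U : UG n) (w : Fin n → ℂ), G (mv U.1 w) = G w)
    (hf : ContinuousOn f {w | nsq w ≤ 1}) (hf' : ContinuousOn f' {w | nsq w ≤ 1})
    (hd : ∀ w ∈ B n, ∀ θ : ℝ, HasDerivAt (fun θ => f (mv (R θ).1 w)) (f' (mv (R θ).1 w)) θ) :
    ∫ w in B n, G w * f' w = 0 := by
  obtain ⟨M, hM⟩ := (cB_compact (n := n)).exists_bound_of_continuousOn hf'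
  have : IsFiniteMeasure ((volume : Measure (Fin n → ℂ)).restrict (B n)) :=
    ⟨by rw [Measure.restrict_apply_univ]; exact B_finite⟩
  have hcomp : ∀ (g : (Fin n → ℂ) → ℂ), ContinuousOn g {w | nsq w ≤ 1} → ∀ θ,
      AEStronglyMeasurable (fun w => G w * g (mv (R θ).1 w)) (volume.restrict (B n)) := by
    intro g hg θ
    refine hGm.mul ?_
    refine ContinuousOn.aestronglyMeasurable ?_ B_open.measurableSet
    refine ContinuousOn.comp (t := {w | nsq w ≤ 1}) hg (mvHomeo (R θ)).continuous.continuousOn ?_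
    intro w (hw : nsq w < 1)
    show nsq (mv (R θ).1 w) ≤ 1
    rw [nsq_mv]; exact hw.le
  have key := hasDerivAt_integral_of_dominated_loc_of_deriv_le (μ := volume.restrict (B n))
    (F := fun θ w => G w * f (mv (R θ).1 w)) (F' := fun θ w => G w * f' (mv (R θ).1 w)) (x₀ := (0 : ℝ))
    (s := Set.univ) (bound := fun _ => |C| * |M|) Filter.univ_mem
    (Filter.Eventually.of_forall fun θ => hcomp f hf θ) ?_ (hcomp f' hf' 0) ?_ ?_ ?_
  · have h1 := key.2
    have h2 : (fun θ => ∫ w in B n, G w * f (mv (R θ).1 w)) = fun _ => ∫ w in B n, G w * f w := by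
      funext θ
      have := integral_mv (R θ) (fun w => G w * f w)
      simp only [hinv] at this
      exact this
    simp only [h2] at h1
    have h3 := h1.unique (hasDerivAt_const (0 : ℝ) (∫ w in B n, G w * f w))
    simp only [hR0, mv, Matrix.one_mulVec] at h3
    exact h3
  · simp only [hR0, mv, Matrix.one_mulVec]
    exact integrable_mul G f hGm C hGb hf
  · refine (ae_restrict_iff' B_open.measurableSet).2 (Filter.Eventually.of_forall fun w hw => ?_)
    intro θ _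
    rw [norm_mul]
    refine mul_le_mul ((hGb w hw).trans (le_abs_self _)) ((hM _ ?_).trans (le_abs_self _))
      (norm_nonneg _) (abs_nonneg _)
    show nsq (mv (R θ).1 w) ≤ 1
    rw [nsq_mv]; exact le_of_lt hw
  · exact integrable_const _
  · refine (ae_restrict_iff' B_open.measurableSet).2 (Filter.Eventually.of_forall fun w hw => ?_)
    intro θ _
    exact (hd w hw θ).const_mul (G w)

/-- removing the boundedness assumption on the radial function -/
theorem truncate (K G : (Fin n → ℂ) → ℂ)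
    (hGm : AEStronglyMeasurable G (volume.restrict (B n)))
    (hinv : ∀ (U : UG n) (w : Fin n → ℂ), G (mv U.1 w) = G w)
    (H : ∀ G' : (Fin n → ℂ) → ℂ, AEStronglyMeasurable G' (volume.restrict (B n)) →
      (∃ C : ℝ, ∀ w ∈ B n, ‖G' w‖ ≤ C) →
      (∀ (U : UG n) (w : Fin n → ℂ), G' (mv U.1 w) = G' w) → ∫ w in B n, G' w * K w = 0) :
    ∫ w in B n, G w * K w = 0 := by
  by_cases hint : Integrable (fun w => G w * K w) (volume.restrict (B n))
  swap
  · exact integral_undef hint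
  let T : ℕ → ℂ → ℂ := fun k z => z / ((1 + ‖z‖ / (k + 1) : ℝ) : ℂ)
  have hpos : ∀ (k : ℕ) (z : ℂ), 1 ≤ 1 + ‖z‖ / (k + 1) := fun k z => by
    have : 0 ≤ ‖z‖ / ((k : ℝ) + 1) := by positivity
    linarith
  have hTc : ∀ k, Continuous (T k) := by
    intro k
    refine Continuous.div continuous_id ?_ ?_
    · fun_prop
    · intro z
      have := hpos k z
      exact_mod_cast (by positivity : (1 + ‖z‖ / ((k:ℝ) + 1)) ≠ 0)
  have hTn : ∀ k z, ‖T k z‖ = ‖z‖ / (1 + ‖z‖ / (k + 1)) := by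
    intro k z
    show ‖z / ((1 + ‖z‖ / (k + 1) : ℝ) : ℂ)‖ = _
    rw [norm_div, Complex.norm_real, Real.norm_of_nonneg (by linarith [hpos k z])]
  have hTle : ∀ k z, ‖T k z‖ ≤ ‖z‖ := by
    intro k z
    rw [hTn]
    exact div_le_self (norm_nonneg _) (hpos k z)
  have hTb : ∀ k z, ‖T k z‖ ≤ k + 1 := by
    intro k z
    rw [hTn, div_le_iff₀ (by linarith [hpos k z])]
    have : ((k : ℝ) + 1) * (1 + ‖z‖ / (k + 1)) = (k + 1) + ‖z‖ := by
      field_simp
    rw [this]
    have : (0 : ℝ) ≤ k := by positivity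
    linarith
  have hTt : ∀ z, Filter.Tendsto (fun k => T k z) Filter.atTop (nhds z) := by
    intro z
    have h1 : Filter.Tendsto (fun k : ℕ => ‖z‖ / ((k : ℝ) + 1)) Filter.atTop (nhds 0) := by
      have := (tendsto_one_div_add_atTop_nhds_zero_nat (𝕜 := ℝ)).const_mul ‖z‖
      simpa [div_eq_mul_inv] using this
    have h2 : Filter.Tendsto (fun k : ℕ => ((1 + ‖z‖ / ((k : ℝ) + 1) : ℝ) : ℂ)) Filter.atTop
        (nhds ((1 + 0 : ℝ) : ℂ)) :=
      (Complex.continuous_ofReal.tendsto _).comp (h1.const_add 1)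
    have h3 := (tendsto_const_nhds (x := z)).div h2 (by norm_num)
    have h4 : z / ((1 + 0 : ℝ) : ℂ) = z := by simp
    rw [h4] at h3
    exact h3
  have hz : ∀ k : ℕ, ∫ w in B n, T k (G w) * K w = 0 := by
    intro k
    refine H (fun w => T k (G w)) ((hTc k).comp_aestronglyMeasurable hGm) ⟨k + 1, fun w _ => hTb k _⟩ ?_
    intro U w
    simp only [hinv]
  have ht := tendsto_integral_of_dominated_convergence (μ := volume.restrict (B n))
    (F := fun (k : ℕ) w => T k (G w) * K w) (f := fun w => G w * K w) (fun w => ‖G w * K w‖)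
    (fun k => ?_) hint.norm (fun k => Filter.Eventually.of_forall fun w => ?_)
    (Filter.Eventually.of_forall fun w => (hTt (G w)).mul_const (K w))
  · simp only [hz] at ht
    exact (tendsto_nhds_unique ht tendsto_const_nhds)
  · have h1 : AEStronglyMeasurable (fun w => T k (G w) * K w) (volume.restrict (B n)) := by
      have h2 : (fun w => T k (G w) * K w) =
          fun w => (G w * K w) * (((1 + ‖G w‖ / (k + 1) : ℝ) : ℂ))⁻¹ := by
        funext w
        show G w / ((1 + ‖G w‖ / (k + 1) : ℝ) : ℂ) * K w = _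
        rw [div_eq_mul_inv]; ring
      rw [h2]
      refine hint.1.mul ?_
      have hc : Continuous (fun z : ℂ => (((1 + ‖z‖ / ((k:ℝ) + 1) : ℝ) : ℂ))⁻¹) := by
        refine Continuous.inv₀ (by fun_prop) ?_
        intro z
        have := hpos k z
        exact_mod_cast (by positivity : (1 + ‖z‖ / ((k:ℝ) + 1)) ≠ 0)
      exact hc.comp_aestronglyMeasurable hGm
    exact h1
  · show ‖T k (G w) * K w‖ ≤ ‖G w * K w‖
    rw [norm_mul, norm_mul]
    exact mul_le_mul_of_nonneg_right (hTle k _) (norm_nonneg _)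

theorem hd_div (M p q : ℝ → ℂ) (M' p' q' : ℂ) (θ : ℝ) (a b : ℕ) (hM : HasDerivAt M M' θ)
    (hp : HasDerivAt p p' θ) (hq : HasDerivAt q q' θ) (hp0 : p θ ≠ 0) (hq0 : q θ ≠ 0) :
    HasDerivAt (fun θ => M θ / (p θ ^ (a + 1) * q θ ^ (b + 1)))
      (M' / (p θ ^ (a + 1) * q θ ^ (b + 1)) - M θ * ((a + 1) * p' / (p θ ^ (a + 2) * q θ ^ (b + 1)) +
        (b + 1) * q' / (p θ ^ (a + 1) * q θ ^ (b + 2)))) θ := by
  have h := hM.div ((hp.pow (a + 1)).mul (hq.pow (b + 1)))
    (mul_ne_zero (pow_ne_zero _ hp0) (pow_ne_zero _ hq0))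
  have he : (M' / (p θ ^ (a + 1) * q θ ^ (b + 1)) - M θ * ((a + 1) * p' / (p θ ^ (a + 2) * q θ ^ (b + 1)) +
        (b + 1) * q' / (p θ ^ (a + 1) * q θ ^ (b + 2)))) =
      (M' * ((p ^ (a + 1)) θ * (q ^ (b + 1)) θ) - M θ * (((a + 1 : ℕ) : ℂ) * p θ ^ (a + 1 - 1) * p' *
        (q ^ (b + 1)) θ + (p ^ (a + 1)) θ * (((b + 1 : ℕ) : ℂ) * q θ ^ (b + 1 - 1) * q'))) /
        ((p ^ (a + 1)) θ * (q ^ (b + 1)) θ) ^ 2 := by
    simp only [Pi.pow_apply, Nat.add_sub_cancel]
    push_cast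
    field_simp
    ring
  rw [he]
  exact h

theorem hrot0 [NeZero n] (i : Fin n) (hi : i ≠ 0) (θ : ℝ) (w : Fin n → ℂ) :
    HasDerivAt (fun θ : ℝ => mv (rot i hi θ).1 w 0) (mv (rot i hi θ).1 w i) θ := by
  simp only [mv_rot, Lrot, LinearMap.coe_mk, AddHom.coe_mk, if_true, hi, if_false]
  have h1 := ((Real.hasDerivAt_cos θ).ofReal_comp.mul_const (w 0)).add
    ((Real.hasDerivAt_sin θ).ofReal_comp.mul_const (w i))
  refine h1.congr_deriv ?_
  push_cast; ring

theorem hroti [NeZero n] (i : Fin n) (hi : i ≠ 0) (θ : ℝ) (w : Fin n → ℂ) :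
    HasDerivAt (fun θ : ℝ => mv (rot i hi θ).1 w i) (-mv (rot i hi θ).1 w 0) θ := by
  simp only [mv_rot, Lrot, LinearMap.coe_mk, AddHom.coe_mk, if_true, hi, if_false]
  have h1 := ((Real.hasDerivAt_sin θ).ofReal_comp.neg.mul_const (w 0)).add
    ((Real.hasDerivAt_cos θ).ofReal_comp.mul_const (w i))
  refine h1.congr_deriv ?_
  push_cast; ring

theorem rot_zero [NeZero n] (i : Fin n) (hi : i ≠ 0) : (rot i hi 0).1 = 1 := by
  have : Lrot i (Real.cos 0) (Real.sin 0) = LinearMap.id := by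
    refine LinearMap.ext fun w => funext fun k => ?_
    simp only [Lrot, LinearMap.coe_mk, AddHom.coe_mk, Real.cos_zero, Real.sin_zero, LinearMap.id_apply]
    split_ifs with h1 h2
    · subst h1; simp
    · subst h2; simp
    · rfl
  show LinearMap.toMatrix' _ = 1
  rw [this, LinearMap.toMatrix'_id]

theorem A_ne [NeZero n] (t : ℝ) (ht0 : 0 ≤ t) (ht1 : t < 1) (w : Fin n → ℂ) (hw : nsq w ≤ 1) :
    (1 - t * w 0 : ℂ) ≠ 0 := by
  intro h
  have h1 : (t : ℂ) * w 0 = 1 := by linear_combination -h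
  have h2 : ‖(t : ℂ) * w 0‖ = 1 := by rw [h1]; simp
  rw [norm_mul, Complex.norm_real, Real.norm_of_nonneg ht0] at h2
  have h3 := (norm_apply_le w 0).trans hw
  have h4 : ‖w 0‖ ≤ 1 := by nlinarith [norm_nonneg (w 0)]
  nlinarith [norm_nonneg (w 0)]

theorem A'_ne [NeZero n] (t : ℝ) (ht0 : 0 ≤ t) (ht1 : t < 1) (w : Fin n → ℂ) (hw : nsq w ≤ 1) :
    (1 - t * starRingEnd ℂ (w 0) : ℂ) ≠ 0 := by
  have h := A_ne t ht0 ht1 w hw
  intro h1
  apply h
  have h2 := congrArg (starRingEnd ℂ) h1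
  simpa using h2

theorem cont_div [NeZero n] (t : ℝ) (ht0 : 0 ≤ t) (ht1 : t < 1) (M : (Fin n → ℂ) → ℂ)
    (hM : Continuous M) (a b : ℕ) :
    ContinuousOn (fun w : Fin n → ℂ => M w / ((1 - t * w 0) ^ a * (1 - t * starRingEnd ℂ (w 0)) ^ b))
      {w | nsq w ≤ 1} := by
  refine ContinuousOn.div hM.continuousOn ?_ ?_
  · refine Continuous.continuousOn ?_
    have h1 : Continuous (fun w : Fin n → ℂ => starRingEnd ℂ (w 0)) :=
      Complex.continuous_conj.comp (continuous_apply 0)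
    fun_prop
  · intro w hw
    exact mul_ne_zero (pow_ne_zero _ (A_ne t ht0 ht1 w hw)) (pow_ne_zero _ (A'_ne t ht0 ht1 w hw))

theorem hA [NeZero n] (t : ℝ) (x : ℝ → Fin n → ℂ) (d : ℂ) (θ : ℝ) (h : HasDerivAt (fun θ => x θ 0) d θ) :
    HasDerivAt (fun θ : ℝ => (1 - t * x θ 0 : ℂ)) (-(t * d)) θ := by
  have := (h.const_mul (t : ℂ)).const_sub 1
  exact this

theorem hA' [NeZero n] (t : ℝ) (x : ℝ → Fin n → ℂ) (d : ℂ) (θ : ℝ) (h : HasDerivAt (fun θ => x θ 0) d θ) :
    HasDerivAt (fun θ : ℝ => (1 - t * starRingEnd ℂ (x θ 0) : ℂ)) (-(t * starRingEnd ℂ d)) θ := by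
  have := (h.star.const_mul (t : ℂ)).const_sub 1
  exact this

/-- the unitary matrix multiplying the `i`-th coordinate by the imaginary unit -/
noncomputable def ph (i : Fin n) : UG n :=
  dg (fun k => if k = i then Complex.I else 1) (by intro k; split_ifs <;> simp)

theorem mv_ph (i : Fin n) (w : Fin n → ℂ) :
    mv (ph i).1 w = fun k => (if k = i then Complex.I else 1) * w k := mv_dg _ _ _

/-- main Lie-derivative identity for kernel11 -/
theorem main11 [NeZero n] (G : (Fin n → ℂ) → ℂ)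
    (hGm : AEStronglyMeasurable G (volume.restrict (B n))) (C : ℝ) (hGb : ∀ w ∈ B n, ‖G w‖ ≤ C)
    (hinv : ∀ (U : UG n) (w : Fin n → ℂ), G (mv U.1 w) = G w) (t : ℝ) (ht0 : 0 ≤ t) (ht1 : t < 1)
    (i : Fin n) (hi : i ≠ 0) :
    ∫ w in B n, G w * ((w i * starRingEnd ℂ (w i) - w 0 * starRingEnd ℂ (w 0)) /
      ((1 - t * w 0) ^ (n + 2) * (1 - t * starRingEnd ℂ (w 0)) ^ (n + 2)) +
      (n + 2) * t * (w i * starRingEnd ℂ (w i)) * starRingEnd ℂ (w 0) /
      ((1 - t * w 0) ^ (n + 2) * (1 - t * starRingEnd ℂ (w 0)) ^ (n + 3))) = 0 := by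
  have hcj : ∀ k : Fin n, Continuous (fun w : Fin n → ℂ => starRingEnd ℂ (w k)) := fun k =>
    Complex.continuous_conj.comp (continuous_apply k)
  have hc0 := hcj 0
  have hci := hcj i
  -- the odd term
  have hodd : ∫ w in B n, G w * ((n + 2) * t * (w i) ^ 2 * starRingEnd ℂ (w 0) /
      ((1 - t * w 0) ^ (n + 3) * (1 - t * starRingEnd ℂ (w 0)) ^ (n + 2))) = 0 := by
    refine integral_odd (ph i) G _ (fun w => hinv _ w) ?_
    intro w
    simp only [mv_ph, if_true, if_neg hi.symm, one_mul, mul_pow, Complex.I_sq]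
    ring
  have hlie := integral_lie (fun θ => rot i hi θ) (rot_zero i hi) G
    (fun w => (w i * starRingEnd ℂ (w 0)) /
      ((1 - t * w 0) ^ (n + 1 + 1) * (1 - t * starRingEnd ℂ (w 0)) ^ (n + 1 + 1)))
    (fun w => ((w i * starRingEnd ℂ (w i) - w 0 * starRingEnd ℂ (w 0)) /
      ((1 - t * w 0) ^ (n + 2) * (1 - t * starRingEnd ℂ (w 0)) ^ (n + 2)) +
      (n + 2) * t * (w i * starRingEnd ℂ (w i)) * starRingEnd ℂ (w 0) /
      ((1 - t * w 0) ^ (n + 2) * (1 - t * starRingEnd ℂ (w 0)) ^ (n + 3))) +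
      (n + 2) * t * (w i) ^ 2 * starRingEnd ℂ (w 0) /
      ((1 - t * w 0) ^ (n + 3) * (1 - t * starRingEnd ℂ (w 0)) ^ (n + 2)))
    hGm C hGb hinv (cont_div t ht0 ht1 _ (by fun_prop) _ _)
    (((cont_div t ht0 ht1 _ (by fun_prop) _ _).add (cont_div t ht0 ht1 _ (by fun_prop) _ _)).add
      (cont_div t ht0 ht1 _ (by fun_prop) _ _)) ?_
  · have hI1 := integrable_mul G (fun w => ((w i * starRingEnd ℂ (w i) - w 0 * starRingEnd ℂ (w 0)) /
      ((1 - t * w 0) ^ (n + 2) * (1 - t * starRingEnd ℂ (w 0)) ^ (n + 2)) +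
      (n + 2) * t * (w i * starRingEnd ℂ (w i)) * starRingEnd ℂ (w 0) /
      ((1 - t * w 0) ^ (n + 2) * (1 - t * starRingEnd ℂ (w 0)) ^ (n + 3)))) hGm C hGb
      ((cont_div t ht0 ht1 _ (by fun_prop) _ _).add (cont_div t ht0 ht1 _ (by fun_prop) _ _))
    have hI2 := integrable_mul G (fun w => (n + 2) * t * (w i) ^ 2 * starRingEnd ℂ (w 0) /
      ((1 - t * w 0) ^ (n + 3) * (1 - t * starRingEnd ℂ (w 0)) ^ (n + 2))) hGm C hGb
      (cont_div t ht0 ht1 _ (by fun_prop) _ _)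
    have hadd := integral_add hI1 hI2
    simp only [← mul_add] at hadd
    rw [hlie, hodd, add_zero] at hadd
    exact hadd.symm
  · intro w hw θ
    set v : ℝ → Fin n → ℂ := fun θ => mv (rot i hi θ).1 w with hv
    have h0 : HasDerivAt (fun θ => v θ 0) (v θ i) θ := hrot0 i hi θ w
    have h1 : HasDerivAt (fun θ => v θ i) (-v θ 0) θ := hroti i hi θ w
    have hvn : nsq (v θ) ≤ 1 := by rw [hv]; simp only [nsq_mv]; exact le_of_lt hw
    have key := hd_div (fun θ => v θ i * starRingEnd ℂ (v θ 0)) (fun θ => 1 - t * v θ 0)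
      (fun θ => 1 - t * starRingEnd ℂ (v θ 0)) _ _ _ θ (n + 1) (n + 1) (h1.mul h0.star)
      (hA t v _ θ h0) (hA' t v _ θ h0) (A_ne t ht0 ht1 _ hvn) (A'_ne t ht0 ht1 _ hvn)
    refine key.congr_deriv ?_
    have e1 := A_ne t ht0 ht1 _ hvn
    have e2 := A'_ne t ht0 ht1 _ hvn
    have hvθ : mv (rot i hi θ).1 w = v θ := rfl
    rw [hvθ]
    simp only [Complex.star_def]
    generalize (1 - (t : ℂ) * v θ 0) = A at *
    generalize (1 - (t : ℂ) * starRingEnd ℂ (v θ 0)) = A' at *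
    push_cast
    field_simp
    ring

/-- main Lie-derivative identity for kernel10 -/
theorem main10 [NeZero n] (G : (Fin n → ℂ) → ℂ)
    (hGm : AEStronglyMeasurable G (volume.restrict (B n))) (C : ℝ) (hGb : ∀ w ∈ B n, ‖G w‖ ≤ C)
    (hinv : ∀ (U : UG n) (w : Fin n → ℂ), G (mv U.1 w) = G w) (t : ℝ) (ht0 : 0 ≤ t) (ht1 : t < 1)
    (i : Fin n) (hi : i ≠ 0) :
    ∫ w in B n, G w * (-starRingEnd ℂ (w 0) /
      ((1 - t * w 0) ^ (n + 2) * (1 - t * starRingEnd ℂ (w 0)) ^ (n + 2)) +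
      (n + 2) * t * (w i * starRingEnd ℂ (w i)) /
      ((1 - t * w 0) ^ (n + 3) * (1 - t * starRingEnd ℂ (w 0)) ^ (n + 2))) = 0 := by
  have hcj : ∀ k : Fin n, Continuous (fun w : Fin n → ℂ => starRingEnd ℂ (w k)) := fun k =>
    Complex.continuous_conj.comp (continuous_apply k)
  have hc0 := hcj 0
  have hci := hcj i
  -- the odd term
  have hodd : ∫ w in B n, G w * ((n + 2) * t * (starRingEnd ℂ (w i)) ^ 2 /
      ((1 - t * w 0) ^ (n + 2) * (1 - t * starRingEnd ℂ (w 0)) ^ (n + 3))) = 0 := by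
    refine integral_odd (ph i) G _ (fun w => hinv _ w) ?_
    intro w
    simp only [mv_ph, if_true, if_neg hi.symm, one_mul, mul_pow, map_mul, Complex.conj_I, neg_sq,
      Complex.I_sq]
    ring
  have hlie := integral_lie (fun θ => rot i hi θ) (rot_zero i hi) G
    (fun w => (starRingEnd ℂ (w i)) /
      ((1 - t * w 0) ^ (n + 1 + 1) * (1 - t * starRingEnd ℂ (w 0)) ^ (n + 1 + 1)))
    (fun w => (-starRingEnd ℂ (w 0) /
      ((1 - t * w 0) ^ (n + 2) * (1 - t * starRingEnd ℂ (w 0)) ^ (n + 2)) +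
      (n + 2) * t * (w i * starRingEnd ℂ (w i)) /
      ((1 - t * w 0) ^ (n + 3) * (1 - t * starRingEnd ℂ (w 0)) ^ (n + 2))) +
      (n + 2) * t * (starRingEnd ℂ (w i)) ^ 2 /
      ((1 - t * w 0) ^ (n + 2) * (1 - t * starRingEnd ℂ (w 0)) ^ (n + 3)))
    hGm C hGb hinv (cont_div t ht0 ht1 _ (by fun_prop) _ _)
    (((cont_div t ht0 ht1 _ (by fun_prop) _ _).add (cont_div t ht0 ht1 _ (by fun_prop) _ _)).add
      (cont_div t ht0 ht1 _ (by fun_prop) _ _)) ?_
  · have hI1 := integrable_mul G (fun w => (-starRingEnd ℂ (w 0) /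
      ((1 - t * w 0) ^ (n + 2) * (1 - t * starRingEnd ℂ (w 0)) ^ (n + 2)) +
      (n + 2) * t * (w i * starRingEnd ℂ (w i)) /
      ((1 - t * w 0) ^ (n + 3) * (1 - t * starRingEnd ℂ (w 0)) ^ (n + 2)))) hGm C hGb
      ((cont_div t ht0 ht1 _ (by fun_prop) _ _).add (cont_div t ht0 ht1 _ (by fun_prop) _ _))
    have hI2 := integrable_mul G (fun w => (n + 2) * t * (starRingEnd ℂ (w i)) ^ 2 /
      ((1 - t * w 0) ^ (n + 2) * (1 - t * starRingEnd ℂ (w 0)) ^ (n + 3))) hGm C hGb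
      (cont_div t ht0 ht1 _ (by fun_prop) _ _)
    have hadd := integral_add hI1 hI2
    simp only [← mul_add] at hadd
    rw [hlie, hodd, add_zero] at hadd
    exact hadd.symm
  · intro w hw θ
    set v : ℝ → Fin n → ℂ := fun θ => mv (rot i hi θ).1 w with hv
    have h0 : HasDerivAt (fun θ => v θ 0) (v θ i) θ := hrot0 i hi θ w
    have h1 : HasDerivAt (fun θ => v θ i) (-v θ 0) θ := hroti i hi θ w
    have hvn : nsq (v θ) ≤ 1 := by rw [hv]; simp only [nsq_mv]; exact le_of_lt hw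
    have key := hd_div (fun θ => starRingEnd ℂ (v θ i)) (fun θ => 1 - t * v θ 0)
      (fun θ => 1 - t * starRingEnd ℂ (v θ 0)) _ _ _ θ (n + 1) (n + 1) h1.star
      (hA t v _ θ h0) (hA' t v _ θ h0) (A_ne t ht0 ht1 _ hvn) (A'_ne t ht0 ht1 _ hvn)
    refine key.congr_deriv ?_
    have e1 := A_ne t ht0 ht1 _ hvn
    have e2 := A'_ne t ht0 ht1 _ hvn
    have hvθ : mv (rot i hi θ).1 w = v θ := rfl
    rw [hvθ]
    simp only [Complex.star_def, map_neg]
    generalize (1 - (t : ℂ) * v θ 0) = A at *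
    generalize (1 - (t : ℂ) * starRingEnd ℂ (v θ 0)) = A' at *
    push_cast
    field_simp
    ring

/-- scalar rotations -/
noncomputable def sc (θ : ℝ) : UG n :=
  dg (fun _ => Complex.exp (θ * Complex.I)) (fun _ => Complex.norm_exp_ofReal_mul_I θ)

theorem mv_sc (θ : ℝ) (w : Fin n → ℂ) :
    mv (sc θ : UG n).1 w = fun k => Complex.exp (θ * Complex.I) * w k := mv_dg _ _ _

theorem sc_zero : (sc 0 : UG n).1 = 1 := by
  show Matrix.diagonal _ = 1
  simp

theorem hsc (θ : ℝ) (w : Fin n → ℂ) (k : Fin n) :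
    HasDerivAt (fun θ : ℝ => mv (sc θ : UG n).1 w k) (Complex.I * mv (sc θ : UG n).1 w k) θ := by
  simp only [mv_sc]
  have h1 : HasDerivAt (fun θ : ℝ => (θ : ℂ) * Complex.I) (1 * Complex.I) θ :=
    (Complex.ofRealCLM.hasDerivAt (x := θ)).mul_const Complex.I
  have h2 := (h1.cexp).mul_const (w k)
  refine h2.congr_deriv ?_
  ring

/-- scalar rotation identity for kernel10 -/
theorem sc10 [NeZero n] (G : (Fin n → ℂ) → ℂ)
    (hGm : AEStronglyMeasurable G (volume.restrict (B n))) (C : ℝ) (hGb : ∀ w ∈ B n, ‖G w‖ ≤ C)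
    (hinv : ∀ (U : UG n) (w : Fin n → ℂ), G (mv U.1 w) = G w) (t : ℝ) (ht0 : 0 ≤ t) (ht1 : t < 1)
    (a b : ℕ) :
    ∫ w in B n, G w * (Complex.I * (((a + 1) * (t * w 0) / ((1 - t * w 0) ^ (a + 2) *
        (1 - t * starRingEnd ℂ (w 0)) ^ (b + 1)))
        - ((b + 1) * (t * starRingEnd ℂ (w 0)) / ((1 - t * w 0) ^ (a + 1) *
        (1 - t * starRingEnd ℂ (w 0)) ^ (b + 2))))) = 0 := by
  have hcj : ∀ k : Fin n, Continuous (fun w : Fin n → ℂ => starRingEnd ℂ (w k)) := fun k =>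
    Complex.continuous_conj.comp (continuous_apply k)
  have hc0 := hcj 0
  refine integral_lie (fun θ => sc θ) sc_zero G
    (fun w => (1 : ℂ) /
      ((1 - t * w 0) ^ (a + 1) * (1 - t * starRingEnd ℂ (w 0)) ^ (b + 1)))
    _ hGm C hGb hinv (cont_div t ht0 ht1 _ (by fun_prop) _ _)
    (continuousOn_const.mul ((cont_div t ht0 ht1 _ (by fun_prop) _ _).sub
      (cont_div t ht0 ht1 _ (by fun_prop) _ _))) ?_
  intro w hw θ
  set v : ℝ → Fin n → ℂ := fun θ => mv (sc θ : UG n).1 w with hv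
  have h0 : HasDerivAt (fun θ => v θ 0) (Complex.I * v θ 0) θ := hsc θ w 0
  have hvn : nsq (v θ) ≤ 1 := by rw [hv]; simp only [nsq_mv]; exact le_of_lt hw
  have key := hd_div (fun θ => 1) (fun θ => 1 - t * v θ 0)
    (fun θ => 1 - t * starRingEnd ℂ (v θ 0)) _ _ _ θ a b (hasDerivAt_const θ (1 : ℂ))
    (hA t v _ θ h0) (hA' t v _ θ h0) (A_ne t ht0 ht1 _ hvn) (A'_ne t ht0 ht1 _ hvn)
  refine key.congr_deriv ?_
  have e1 := A_ne t ht0 ht1 _ hvn
  have e2 := A'_ne t ht0 ht1 _ hvn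
  have hvθ : mv (sc θ : UG n).1 w = v θ := rfl
  rw [hvθ]
  simp only [map_mul, Complex.conj_I]
  generalize (1 - (t : ℂ) * v θ 0) = A at *
  generalize (1 - (t : ℂ) * starRingEnd ℂ (v θ 0)) = A' at *
  field_simp
  ring

theorem sum_erase [NeZero n] (w : Fin n → ℂ) :
    ∑ i ∈ Finset.univ.erase (0 : Fin n), w i * starRingEnd ℂ (w i) =
      (nsq w : ℂ) - w 0 * starRingEnd ℂ (w 0) := by
  have h1 : ∑ i, w i * starRingEnd ℂ (w i) = (nsq w : ℂ) := by
    rw [nsq_eq_dot]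
    unfold dotProduct
    exact Finset.sum_congr rfl fun i _ => mul_comm _ _
  rw [← h1, ← Finset.add_sum_erase _ _ (Finset.mem_univ (0 : Fin n))]
  ring

theorem sum_erase_const [NeZero n] (c : ℂ) :
    ∑ _i ∈ Finset.univ.erase (0 : Fin n), c = ((n : ℂ) - 1) * c := by
  rw [Finset.sum_const, Finset.card_erase_of_mem (Finset.mem_univ _), Finset.card_univ,
    Fintype.card_fin, nsmul_eq_mul, Nat.cast_sub (NeZero.one_le)]
  push_cast; ring

end ModC

open ModC

theorem kernel10 [NeZero n] (G : (Fin n → ℂ) → ℂ)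
    (hGm : AEStronglyMeasurable G (volume.restrict {w : Fin n → ℂ | nsq w < 1}))
    (C : ℝ) (hGb : ∀ w, nsq w < 1 → ‖G w‖ * Real.sqrt (nsq w) ≤ C)
    (hinv : ∀ (U : UG n) (w : Fin n → ℂ), G (mv U.1 w) = G w) (t : ℝ) (ht0 : 0 ≤ t) (ht1 : t < 1) :
    ∫ w in {w : Fin n → ℂ | nsq w < 1}, G w *
      ((((nsq w : ℂ) * t ^ 2 - t * w 0) / (1 - t * w 0) + 2 / ((n : ℂ) + 2) * (t * w 0)) /
        ((1 - t * w 0) ^ (n + 2) * (1 - t * starRingEnd ℂ (w 0)) ^ (n + 2))) = 0 := by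
  refine truncate _ G hGm hinv ?_
  intro G' hm ⟨C', hC'⟩ hinv'
  have hcj : ∀ k : Fin n, Continuous (fun w : Fin n → ℂ => starRingEnd ℂ (w k)) := fun k =>
    Complex.continuous_conj.comp (continuous_apply k)
  have hc0 := hcj 0
  let P : Fin n → (Fin n → ℂ) → ℂ := fun i w => (-starRingEnd ℂ (w 0) /
      ((1 - t * w 0) ^ (n + 2) * (1 - t * starRingEnd ℂ (w 0)) ^ (n + 2)) +
      (n + 2) * t * (w i * starRingEnd ℂ (w i)) /
      ((1 - t * w 0) ^ (n + 3) * (1 - t * starRingEnd ℂ (w 0)) ^ (n + 2)))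
  let Q : ℕ → ℕ → (Fin n → ℂ) → ℂ := fun a b w => Complex.I * (((a + 1) * (t * w 0) /
        ((1 - t * w 0) ^ (a + 2) * (1 - t * starRingEnd ℂ (w 0)) ^ (b + 1)))
        - ((b + 1) * (t * starRingEnd ℂ (w 0)) / ((1 - t * w 0) ^ (a + 1) *
        (1 - t * starRingEnd ℂ (w 0)) ^ (b + 2))))
  have hPc : ∀ i, ContinuousOn (P i) {w | nsq w ≤ 1} := by
    intro i
    have hci := hcj i
    exact (cont_div t ht0 ht1 _ (by fun_prop) _ _).add (cont_div t ht0 ht1 _ (by fun_prop) _ _)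
  have hQc : ∀ a b, ContinuousOn (Q a b) {w | nsq w ≤ 1} := by
    intro a b
    exact (continuousOn_const.mul ((cont_div t ht0 ht1 _ (by fun_prop) _ _).sub
      (cont_div t ht0 ht1 _ (by fun_prop) _ _)))
  have hP0 : ∀ i ∈ Finset.univ.erase (0 : Fin n), ∫ w in B n, G' w * P i w = 0 := fun i hi =>
    main10 G' hm C' hC' hinv' t ht0 ht1 i (Finset.ne_of_mem_erase hi)
  have hQ0 : ∀ a b, ∫ w in B n, G' w * Q a b w = 0 := fun a b =>
    sc10 G' hm C' hC' hinv' t ht0 ht1 a b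
  have hPi : ∀ i, IntegrableOn (fun w => G' w * P i w) (B n) := fun i =>
    integrable_mul G' (P i) hm C' hC' (hPc i)
  have hQi : ∀ a b, IntegrableOn (fun w => G' w * Q a b w) (B n) := fun a b =>
    integrable_mul G' (Q a b) hm C' hC' (hQc a b)
  have key : ∀ w ∈ B n, G' w *
      ((((nsq w : ℂ) * t ^ 2 - t * w 0) / (1 - t * w 0) + 2 / ((n : ℂ) + 2) * (t * w 0)) /
        ((1 - t * w 0) ^ (n + 2) * (1 - t * starRingEnd ℂ (w 0)) ^ (n + 2))) =
      (∑ i ∈ Finset.univ.erase (0 : Fin n), (t / (n + 2) : ℂ) * (G' w * P i w)) +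
      ((-Complex.I) * (-1 / (n + 2)) * (G' w * Q (n + 1) n w) +
        (-Complex.I) * (2 / ((n + 1) * (n + 2))) * (G' w * Q n n w)) := by
    intro w hw
    have e1 := A_ne t ht0 ht1 w (le_of_lt hw)
    have e2 := A'_ne t ht0 ht1 w (le_of_lt hw)
    have hn2 : (n : ℂ) + 2 ≠ 0 := by exact_mod_cast (by omega : n + 2 ≠ 0)
    have hn1 : (n : ℂ) + 1 ≠ 0 := by exact_mod_cast (by omega : n + 1 ≠ 0)
    have hsum : (∑ i ∈ Finset.univ.erase (0 : Fin n), (t / (n + 2) : ℂ) * (G' w * P i w)) =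
        (t / (n + 2) : ℂ) * (G' w * (((n : ℂ) - 1) * (-starRingEnd ℂ (w 0) /
      ((1 - t * w 0) ^ (n + 2) * (1 - t * starRingEnd ℂ (w 0)) ^ (n + 2))) +
      (n + 2) * t * ((nsq w : ℂ) - w 0 * starRingEnd ℂ (w 0)) /
      ((1 - t * w 0) ^ (n + 3) * (1 - t * starRingEnd ℂ (w 0)) ^ (n + 2)))) := by
      rw [← Finset.mul_sum, ← Finset.mul_sum]
      congr 2
      simp only [P]
      rw [Finset.sum_add_distrib, sum_erase_const, ← Finset.sum_div, ← Finset.mul_sum, sum_erase]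
    rw [hsum]
    simp only [Q]
    have hx : (t : ℂ) * w 0 = 1 - (1 - t * w 0) := by ring
    have hy : (t : ℂ) * starRingEnd ℂ (w 0) = 1 - (1 - t * starRingEnd ℂ (w 0)) := by ring
    generalize hA : (1 - (t : ℂ) * w 0) = A at *
    generalize hA' : (1 - (t : ℂ) * starRingEnd ℂ (w 0)) = A' at *
    push_cast
    have hI : Complex.I * Complex.I = -1 := Complex.I_mul_I
    have hI2 : Complex.I ^ 2 = -1 := Complex.I_sq
    field_simp
    rw [hI2]
    rw [← hA, ← hA']
    ring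
  rw [setIntegral_congr_fun B_open.measurableSet key]
  have I1 : Integrable (fun w => ∑ i ∈ Finset.univ.erase (0 : Fin n),
      (t / (n + 2) : ℂ) * (G' w * P i w)) (volume.restrict (B n)) :=
    integrable_finsetSum _ fun i _ => (hPi i).const_mul _
  have I2 : Integrable (fun w => (-Complex.I) * (-1 / ((n : ℂ) + 2)) * (G' w * Q (n + 1) n w))
      (volume.restrict (B n)) := (hQi _ _).const_mul _
  have I3 : Integrable (fun w => (-Complex.I) * (2 / (((n : ℂ) + 1) * (n + 2))) * (G' w * Q n n w))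
      (volume.restrict (B n)) := (hQi _ _).const_mul _
  have I23 : Integrable (fun w => (-Complex.I) * (-1 / ((n : ℂ) + 2)) * (G' w * Q (n + 1) n w) +
      (-Complex.I) * (2 / (((n : ℂ) + 1) * (n + 2))) * (G' w * Q n n w))
      (volume.restrict (B n)) := I2.add I3
  rw [integral_add I1 I23, integral_finsetSum _ (fun i _ => (hPi i).const_mul _),
    integral_add I2 I3, integral_const_mul, integral_const_mul, hQ0, hQ0]
  rw [Finset.sum_eq_zero, mul_zero, mul_zero, add_zero, add_zero]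
  intro i hi
  rw [integral_const_mul, hP0 i hi, mul_zero]

theorem kernel11 [NeZero n] (G : (Fin n → ℂ) → ℂ)
    (hGm : AEStronglyMeasurable G (volume.restrict {w : Fin n → ℂ | nsq w < 1}))
    (C : ℝ) (hGb : ∀ w, nsq w < 1 → ‖G w‖ * nsq w ≤ C)
    (hinv : ∀ (U : UG n) (w : Fin n → ℂ), G (mv U.1 w) = G w) (t : ℝ) (ht0 : 0 ≤ t) (ht1 : t < 1) :
    ∫ w in {w : Fin n → ℂ | nsq w < 1}, G w *
      ((-(t * starRingEnd ℂ (w 0)) * ((nsq w : ℂ) * t ^ 2 - t * w 0) / (1 - t * starRingEnd ℂ (w 0))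
          - (t : ℂ) ^ 2 * nsq w / n
          - 2 / ((n : ℂ) + 2) * ((t : ℂ) ^ 2 * (w 0 * starRingEnd ℂ (w 0)) - (t : ℂ) ^ 2 * nsq w / n)) /
        ((1 - t * w 0) ^ (n + 2) * (1 - t * starRingEnd ℂ (w 0)) ^ (n + 2))) = 0 := by
  refine truncate _ G hGm hinv ?_
  intro G' hm ⟨C', hC'⟩ hinv'
  have hcj : ∀ k : Fin n, Continuous (fun w : Fin n → ℂ => starRingEnd ℂ (w k)) := fun k =>
    Complex.continuous_conj.comp (continuous_apply k)
  have hc0 := hcj 0
  let P : Fin n → (Fin n → ℂ) → ℂ := fun i w => ((w i * starRingEnd ℂ (w i) - w 0 * starRingEnd ℂ (w 0)) /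
      ((1 - t * w 0) ^ (n + 2) * (1 - t * starRingEnd ℂ (w 0)) ^ (n + 2)) +
      (n + 2) * t * (w i * starRingEnd ℂ (w i)) * starRingEnd ℂ (w 0) /
      ((1 - t * w 0) ^ (n + 2) * (1 - t * starRingEnd ℂ (w 0)) ^ (n + 3)))
  have hPc : ∀ i, ContinuousOn (P i) {w | nsq w ≤ 1} := by
    intro i
    have hci := hcj i
    exact (cont_div t ht0 ht1 _ (by fun_prop) _ _).add (cont_div t ht0 ht1 _ (by fun_prop) _ _)
  have hP0 : ∀ i ∈ Finset.univ.erase (0 : Fin n), ∫ w in B n, G' w * P i w = 0 := fun i hi =>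
    main11 G' hm C' hC' hinv' t ht0 ht1 i (Finset.ne_of_mem_erase hi)
  have hPi : ∀ i, IntegrableOn (fun w => G' w * P i w) (B n) := fun i =>
    integrable_mul G' (P i) hm C' hC' (hPc i)
  have key : ∀ w ∈ B n, G' w *
      ((-(t * starRingEnd ℂ (w 0)) * ((nsq w : ℂ) * t ^ 2 - t * w 0) / (1 - t * starRingEnd ℂ (w 0))
          - (t : ℂ) ^ 2 * nsq w / n
          - 2 / ((n : ℂ) + 2) * ((t : ℂ) ^ 2 * (w 0 * starRingEnd ℂ (w 0)) - (t : ℂ) ^ 2 * nsq w / n)) /
        ((1 - t * w 0) ^ (n + 2) * (1 - t * starRingEnd ℂ (w 0)) ^ (n + 2))) =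
      (∑ i ∈ Finset.univ.erase (0 : Fin n), (-(t ^ 2) / (n + 2) : ℂ) * (G' w * P i w)) := by
    intro w hw
    have e1 := A_ne t ht0 ht1 w (le_of_lt hw)
    have e2 := A'_ne t ht0 ht1 w (le_of_lt hw)
    have hn2 : (n : ℂ) + 2 ≠ 0 := by exact_mod_cast (by omega : n + 2 ≠ 0)
    have hn0 : (n : ℂ) ≠ 0 := by exact_mod_cast (NeZero.ne n)
    have hsum : (∑ i ∈ Finset.univ.erase (0 : Fin n), (-(t ^ 2) / (n + 2) : ℂ) * (G' w * P i w)) =
        (-(t ^ 2) / (n + 2) : ℂ) * (G' w * ((((nsq w : ℂ) - w 0 * starRingEnd ℂ (w 0)) -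
          ((n : ℂ) - 1) * (w 0 * starRingEnd ℂ (w 0))) /
      ((1 - t * w 0) ^ (n + 2) * (1 - t * starRingEnd ℂ (w 0)) ^ (n + 2)) +
      (n + 2) * t * ((nsq w : ℂ) - w 0 * starRingEnd ℂ (w 0)) * starRingEnd ℂ (w 0) /
      ((1 - t * w 0) ^ (n + 2) * (1 - t * starRingEnd ℂ (w 0)) ^ (n + 3)))) := by
      rw [← Finset.mul_sum, ← Finset.mul_sum]
      congr 2
      simp only [P]
      rw [Finset.sum_add_distrib, ← Finset.sum_div, Finset.sum_sub_distrib, sum_erase_const,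
        ← Finset.sum_div, ← Finset.sum_mul, ← Finset.mul_sum, sum_erase]
    rw [hsum]
    generalize hA : (1 - (t : ℂ) * w 0) = A at *
    generalize hA' : (1 - (t : ℂ) * starRingEnd ℂ (w 0)) = A' at *
    field_simp
    rw [← hA']
    ring
  rw [setIntegral_congr_fun B_open.measurableSet key]
  rw [integral_finsetSum _ (fun i _ => (hPi i).const_mul _)]
  rw [Finset.sum_eq_zero]
  intro i hi
  rw [integral_const_mul, hP0 i hi, mul_zero]

end Pool.Agent.Ball
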