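import Pool.Agent.Helper76.Ball6

/-! Module H for MP_a59212_an: structure of covariant functions on the closed ball. -/

set_option autoImplicit false
set_option linter.unusedSectionVars false
open MeasureTheory Matrix

namespace Pool.Agent.Ball

variable {n : ℕ} [NeZero n]

open ComplexConjugate

/-- the point `r e_0` of the closed ball (`r` clamped to `[0,1]`) -/
noncomputable def teC (n : ℕ) [NeZero n] (r : ℝ) : CB n :=
  ⟨te n (max 0 (min r 1)), by
    have h : nsq (te n (max 0 (min r 1))) ≤ 1 := by
      rw [nsq_te]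
      have h0 : 0 ≤ max 0 (min r 1) := le_max_left _ _
      have h1 : max 0 (min r 1) ≤ 1 := max_le zero_le_one (min_le_right _ _)
      nlinarith
    exact h⟩

lemma teC_val {r : ℝ} (h0 : 0 ≤ r) (h1 : r ≤ 1) : (teC n r).1 = te n r := by
  simp [teC, min_eq_left h1, max_eq_right h0]

lemma teC_apply_of_ne {i : Fin n} (hi : i ≠ 0) (r : ℝ) : (teC n r).1 i = 0 :=
  te_apply_of_ne hi _

lemma continuous_teC : Continuous (teC n) := by
  refine Continuous.subtype_mk ?_ _
  have h : (fun r : ℝ => te n (max 0 (min r 1))) =
      fun r => (Pi.single 0 ((max 0 (min r 1) : ℝ) : ℂ) : Fin n → ℂ) := rfl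
  rw [h]
  refine continuous_pi fun i => ?_
  by_cases hi : i = 0
  · subst hi
    simp only [Pi.single_eq_same]
    fun_prop
  · simp only [Pi.single_eq_of_ne hi]
    exact continuous_const

lemma exists_act_teC (w : CB n) : ∃ U : UG n, act U (teC n (Real.sqrt (nsq w.1))) = w := by
  obtain ⟨U, hU⟩ := exists_unitary w.1
  refine ⟨U, ?_⟩
  apply Subtype.ext
  rw [act_val, teC_val (Real.sqrt_nonneg _) (Real.sqrt_le_one.mpr (CB.nsq_le w)), hU]

/-- sign change of the coordinate `i` -/
noncomputable def flip (i : Fin n) : UG n :=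
  ⟨Matrix.diagonal (fun j => if j = i then -1 else 1), by
    rw [Matrix.mem_unitaryGroup_iff, Matrix.star_eq_conjTranspose, Matrix.diagonal_conjTranspose,
      Matrix.diagonal_mul_diagonal]
    have : (fun j : Fin n => (if j = i then (-1 : ℂ) else 1) *
        star (fun j : Fin n => if j = i then (-1 : ℂ) else 1) j) = fun _ => 1 := by
      funext j
      simp only [Pi.star_apply]
      split_ifs <;> simp
    rw [this, Matrix.diagonal_one]⟩

lemma act_flip {i : Fin n} (hi : i ≠ 0) (r : ℝ) : act (flip i) (teC n r) = teC n r := by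
  apply Subtype.ext
  rw [act_val]
  funext j
  simp only [mv, flip, Matrix.mulVec_diagonal]
  by_cases hj : j = i
  · subst hj
    rw [teC_apply_of_ne hi, mul_zero]
  · simp [hj]

/-- transposition of two coordinates -/
noncomputable def swp (i j : Fin n) : UG n :=
  ⟨(Equiv.swap i j).toPEquiv.toMatrix, by
    rw [Matrix.mem_unitaryGroup_iff]
    ext a b
    simp only [Matrix.mul_apply, Matrix.star_apply, PEquiv.toMatrix_apply, Equiv.toPEquiv_apply,
      Option.mem_def, Option.some.injEq, Matrix.one_apply]
    rw [Finset.sum_eq_single (Equiv.swap i j a)]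
    · by_cases h : a = b
      · subst h; simp
      · have : Equiv.swap i j b ≠ Equiv.swap i j a := fun h' => h ((Equiv.swap i j).injective h').symm
        simp [h, this]
    · intro c _ hc
      simp [Ne.symm hc]
    · simp⟩

lemma mv_swp (i j : Fin n) (z : Fin n → ℂ) (k : Fin n) :
    mv (swp i j).1 z k = z (Equiv.swap i j k) := by
  simp only [mv, swp, Matrix.mulVec, dotProduct, PEquiv.toMatrix_apply, Equiv.toPEquiv_apply,
    Option.mem_def, Option.some.injEq]
  rw [Finset.sum_eq_single (Equiv.swap i j k)]
  · simp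
  · intro c _ hc
    simp [Ne.symm hc]
  · simp

lemma act_swp {i j : Fin n} (hi : i ≠ 0) (hj : j ≠ 0) (r : ℝ) :
    act (swp i j) (teC n r) = teC n r := by
  apply Subtype.ext
  rw [act_val]
  funext k
  rw [mv_swp]
  by_cases hki : k = i
  · subst hki
    rw [Equiv.swap_apply_left, teC_apply_of_ne hi, teC_apply_of_ne hj]
  · by_cases hkj : k = j
    · subst hkj
      rw [Equiv.swap_apply_right, teC_apply_of_ne hi, teC_apply_of_ne hj]
    · rw [Equiv.swap_apply_of_ne_of_ne hki hkj]

lemma nsq_teC_zero : (teC n 0).1 = 0 := by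
  rw [teC_val le_rfl zero_le_one]
  simp [te]

lemma act_teC_zero (U : UG n) : act U (teC n 0) = teC n 0 := by
  apply Subtype.ext
  rw [act_val, nsq_teC_zero]
  simp [mv]

lemma mv_flip (i : Fin n) (z : Fin n → ℂ) (j : Fin n) :
    mv (flip i).1 z j = (if j = i then -1 else 1) * z j := by
  simp [mv, flip, Matrix.mulVec_diagonal]

theorem struct10 (F : CB n → Fin n → ℂ) (hF : Continuous F)
    (hcov : ∀ (U : UG n) (z : CB n), F (act U z) = mv U.1 (F z)) :
    ∃ G : (Fin n → ℂ) → ℂ, Measurable G ∧ (∀ (U : UG n) (w : Fin n → ℂ), G (mv U.1 w) = G w) ∧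
      (∃ C : ℝ, ∀ w, nsq w < 1 → ‖G w‖ * Real.sqrt (nsq w) ≤ C) ∧
      ∀ (w : CB n) (i : Fin n), F w i = G w.1 * w.1 i := by
  have hF0 : Continuous fun z : CB n => F z 0 := (continuous_apply 0).comp hF
  have hFi : ∀ (i : Fin n), i ≠ 0 → ∀ r, F (teC n r) i = 0 := by
    intro i hi r
    have h := congrFun (hcov (flip i) (teC n r)) i
    rw [act_flip hi, mv_flip, if_pos rfl] at h
    have h2 : 2 * F (teC n r) i = 0 := by linear_combination h
    simpa using h2
  have hFz : F (teC n 0) = 0 := by
    funext i
    have h := congrFun (hcov (flip i) (teC n 0)) i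
    rw [act_teC_zero, mv_flip, if_pos rfl] at h
    have h2 : 2 * F (teC n 0) i = 0 := by linear_combination h
    simpa using h2
  obtain ⟨C, hC⟩ : ∃ C : ℝ, ∀ z : CB n, ‖F z 0‖ ≤ C := by
    obtain ⟨C, hC⟩ := (isCompact_range hF0).isBounded.exists_norm_le
    exact ⟨C, fun z => hC _ ⟨z, rfl⟩⟩
  refine ⟨fun w => F (teC n (Real.sqrt (nsq w))) 0 / (Real.sqrt (nsq w) : ℂ), ?_, ?_, ⟨C, ?_⟩, ?_⟩
  · have hs : Continuous fun w : Fin n → ℂ => Real.sqrt (nsq w) :=
      Real.continuous_sqrt.comp continuous_nsq
    have h1 : Continuous fun w : Fin n → ℂ => F (teC n (Real.sqrt (nsq w))) 0 :=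
      hF0.comp (continuous_teC.comp hs)
    have h2 : Continuous fun w : Fin n → ℂ => (Real.sqrt (nsq w) : ℂ) :=
      Complex.continuous_ofReal.comp hs
    exact h1.measurable.div h2.measurable
  · intro U w
    simp only [nsq_mv]
  · intro w _
    simp only [norm_div, Complex.norm_real, Real.norm_eq_abs, abs_of_nonneg (Real.sqrt_nonneg _)]
    by_cases h0 : Real.sqrt (nsq w) = 0
    · rw [h0, mul_zero]
      exact (norm_nonneg _).trans (hC (cen n))
    · rw [div_mul_cancel₀ _ h0]
      exact hC _
  · intro w i
    obtain ⟨U, hU⟩ := exists_act_teC w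
    set r := Real.sqrt (nsq w.1) with hr
    have hr0 : 0 ≤ r := Real.sqrt_nonneg _
    have hr1 : r ≤ 1 := Real.sqrt_le_one.mpr w.2
    by_cases h0 : r = 0
    · have hw : w = teC n 0 := by
        rw [← hU, h0, act_teC_zero]
      rw [hw, hFz, nsq_teC_zero]
      simp
    · have hrC : (r : ℂ) ≠ 0 := by exact_mod_cast h0
      have hw1 : w.1 = mv U.1 (te n r) := by
        rw [← teC_val hr0 hr1, ← act_val, hU]
      have hFw : F w = mv U.1 (F (teC n r)) := by rw [← hcov, hU]
      have hFt : F (teC n r) = (F (teC n r) 0 / (r : ℂ)) • te n r := by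
        funext j
        by_cases hj : j = 0
        · subst hj
          rw [Pi.smul_apply, te_zero_apply, smul_eq_mul, div_mul_cancel₀ _ hrC]
        · rw [hFi j hj, Pi.smul_apply, te_apply_of_ne hj, smul_zero]
      have h3 : F w = (F (teC n r) 0 / (r : ℂ)) • w.1 := by
        rw [hw1, hFw]
        conv_lhs => rw [hFt]
        simp only [mv, Matrix.mulVec_smul]
      simp only [← hr]
      rw [h3, Pi.smul_apply, smul_eq_mul]

theorem struct11 (M : CB n → Matrix (Fin n) (Fin n) ℂ) (hM : Continuous M)
    (hcov : ∀ (U : UG n) (z : CB n), M (act U z) = U.1 * M z * star U.1)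
    (htr : ∀ z, (M z).trace = 0) :
    ∃ G : (Fin n → ℂ) → ℂ, Measurable G ∧ (∀ (U : UG n) (w : Fin n → ℂ), G (mv U.1 w) = G w) ∧
      (∃ C : ℝ, ∀ w, nsq w < 1 → ‖G w‖ * nsq w ≤ C) ∧
      ∀ (w : CB n) (i j : Fin n), M w i j =
        G w.1 * (w.1 i * conj (w.1 j) - if i = j then (nsq w.1 : ℂ) / n else 0) := by
  have hM0 : Continuous fun z : CB n => M z 0 0 := hM.matrix_elem 0 0
  -- off-diagonal entries vanish
  have hflip : ∀ (k : Fin n) (z : CB n), act (flip k) z = z → ∀ i j,
      M z i j = (if i = k then -1 else 1) * M z i j * (if j = k then -1 else 1) := by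
    intro k z hz i j
    have h := hcov (flip k) z
    rw [hz] at h
    have h2 := congrFun (congrFun h i) j
    rw [Matrix.star_eq_conjTranspose] at h2
    simp only [flip, Matrix.diagonal_conjTranspose, Matrix.mul_diagonal, Matrix.diagonal_mul,
      Pi.star_apply] at h2
    have h3 : star (if j = k then (-1 : ℂ) else 1) = if j = k then -1 else 1 := by
      split_ifs <;> simp
    rw [h3] at h2
    exact h2
  have hoff : ∀ r (i j : Fin n), i ≠ j → M (teC n r) i j = 0 := by
    intro r i j hij
    by_cases hi : i = 0
    · have hj : j ≠ 0 := fun h => hij (hi.trans h.symm)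
      have h := hflip j (teC n r) (act_flip hj r) i j
      rw [if_neg hij, if_pos rfl] at h
      have h2 : 2 * M (teC n r) i j = 0 := by linear_combination h
      simpa using h2
    · have h := hflip i (teC n r) (act_flip hi r) i j
      rw [if_pos rfl, if_neg (Ne.symm hij)] at h
      have h2 : 2 * M (teC n r) i j = 0 := by linear_combination h
      simpa using h2
  have hswp : ∀ (a b : Fin n) (z : CB n), act (swp a b) z = z → M z a a = M z b b := by
    intro a b z hz
    have h := hcov (swp a b) z
    rw [hz] at h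
    have h2 : M z * (swp a b).1 = (swp a b).1 * M z := by
      conv_lhs => rw [h]
      rw [mul_assoc, Matrix.mem_unitaryGroup_iff'.1 (swp a b).2, mul_one]
    have h3 := congrFun (congrFun h2 a) b
    have e1 : (M z * (swp a b).1) a b = M z a a := by
      simp only [Matrix.mul_apply, swp, PEquiv.toMatrix_apply, Equiv.toPEquiv_apply,
        Option.mem_def, Option.some.injEq]
      rw [Finset.sum_eq_single a]
      · simp
      · intro c _ hc
        have : Equiv.swap a b c ≠ b := by
          intro h'
          apply hc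
          have h5 : Equiv.swap a b a = b := Equiv.swap_apply_left a b
          exact (Equiv.swap a b).injective (h'.trans h5.symm)
        simp [this]
      · simp
    have e2 : ((swp a b).1 * M z) a b = M z b b := by
      simp only [Matrix.mul_apply, swp, PEquiv.toMatrix_apply, Equiv.toPEquiv_apply,
        Option.mem_def, Option.some.injEq]
      rw [Finset.sum_eq_single b]
      · simp
      · intro c _ hc
        simp [Ne.symm hc]
      · simp
    rw [e1, e2] at h3
    exact h3
  have hdiag : ∀ r (i j : Fin n), i ≠ 0 → j ≠ 0 → M (teC n r) i i = M (teC n r) j j := by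
    intro r i j hi hj
    exact hswp i j _ (act_swp hi hj r)
  have hn0 : (n : ℂ) ≠ 0 := by exact_mod_cast NeZero.ne n
  -- trace relation
  have htrace : ∀ r (i : Fin n), i ≠ 0 → M (teC n r) 0 0 = - (((n : ℂ) - 1) * M (teC n r) i i) := by
    intro r i hi
    have h := htr (teC n r)
    rw [Matrix.trace, ← Finset.add_sum_erase _ _ (Finset.mem_univ (0 : Fin n))] at h
    have h2 : ∑ j ∈ Finset.univ.erase (0 : Fin n), (M (teC n r)).diag j
        = ((n : ℂ) - 1) * M (teC n r) i i := by
      rw [Finset.sum_congr rfl (g := fun _ => M (teC n r) i i)]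
      · rw [Finset.sum_const, Finset.card_erase_of_mem (Finset.mem_univ _), Finset.card_univ,
          Fintype.card_fin, nsmul_eq_mul, Nat.cast_sub (NeZero.one_le), Nat.cast_one]
      · intro j hj
        exact hdiag r j i (Finset.ne_of_mem_erase hj) hi
    rw [h2] at h
    simp only [Matrix.diag_apply] at h
    linear_combination h
  have hz0 : M (teC n 0) = 0 := by
    ext i j
    by_cases hij : i = j
    · subst hij
      have hc : ∀ j, M (teC n 0) j j = M (teC n 0) i i := fun j => hswp j i _ (act_teC_zero _)
      have h := htr (teC n 0)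
      have h4 : ∑ j : Fin n, (M (teC n 0)).diag j = ∑ _j : Fin n, M (teC n 0) i i :=
        Finset.sum_congr rfl fun j _ => hc j
      rw [Matrix.trace, h4, Finset.sum_const, Finset.card_univ, Fintype.card_fin, nsmul_eq_mul] at h
      rcases mul_eq_zero.1 h with h | h
      · exact absurd h hn0
      · rw [h]; simp
    · rw [hoff 0 i j hij]; simp
  obtain ⟨C, hC⟩ : ∃ C : ℝ, ∀ z : CB n, ‖M z 0 0‖ ≤ C := by
    obtain ⟨C, hC⟩ := (isCompact_range hM0).isBounded.exists_norm_le
    exact ⟨C, fun z => hC _ ⟨z, rfl⟩⟩
  set κ : ℂ := (n : ℂ) / ((n : ℂ) - 1) with hκ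
  refine ⟨fun w => κ * M (teC n (Real.sqrt (nsq w))) 0 0 / (nsq w : ℂ), ?_, ?_, ⟨‖κ‖ * C, ?_⟩, ?_⟩
  · have hs : Continuous fun w : Fin n → ℂ => Real.sqrt (nsq w) :=
      Real.continuous_sqrt.comp continuous_nsq
    have h1 : Continuous fun w : Fin n → ℂ => M (teC n (Real.sqrt (nsq w))) 0 0 :=
      hM0.comp (continuous_teC.comp hs)
    have h2 : Continuous fun w : Fin n → ℂ => (nsq w : ℂ) :=
      Complex.continuous_ofReal.comp continuous_nsq
    exact (measurable_const.mul h1.measurable).div h2.measurable
  · intro U w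
    simp only [nsq_mv]
  · intro w _
    simp only [norm_div, norm_mul, Complex.norm_real, Real.norm_eq_abs, abs_of_nonneg (nsq_nonneg w)]
    by_cases h0 : nsq w = 0
    · rw [h0, mul_zero]
      exact mul_nonneg (norm_nonneg _) ((norm_nonneg _).trans (hC (cen n)))
    · rw [div_mul_cancel₀ _ h0]
      exact mul_le_mul_of_nonneg_left (hC _) (norm_nonneg _)
  · intro w i j
    obtain ⟨U, hU⟩ := exists_act_teC w
    have hsq : nsq w.1 = (Real.sqrt (nsq w.1)) ^ 2 := (Real.sq_sqrt (nsq_nonneg _)).symm
    set r := Real.sqrt (nsq w.1) with hr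
    have hr0 : 0 ≤ r := Real.sqrt_nonneg _
    have hr1 : r ≤ 1 := Real.sqrt_le_one.mpr (CB.nsq_le w)
    simp only [← hr]
    by_cases h0 : r = 0
    · have hw : w = teC n 0 := by
        rw [← hU, h0, act_teC_zero]
      rw [hw, hz0, h0, hz0]
      simp
    · have hrC : (r : ℂ) ≠ 0 := by exact_mod_cast h0
      have hw1 : w.1 = mv U.1 (te n r) := by
        rw [← teC_val hr0 hr1, ← act_val, hU]
      have hMw : M w = U.1 * M (teC n r) * star U.1 := by rw [← hcov, hU]
      set g : ℂ := κ * M (teC n r) 0 0 / (nsq w.1 : ℂ) with hg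
      have hMt : M (teC n r) = g • (Matrix.vecMulVec (te n r) (star (te n r)))
          - (g * ((nsq w.1 : ℂ) / n)) • (1 : Matrix (Fin n) (Fin n) ℂ) := by
        ext a b
        simp only [Matrix.sub_apply, Matrix.smul_apply, Matrix.vecMulVec_apply, Pi.star_apply,
          smul_eq_mul, Matrix.one_apply]
        have hnsq : (nsq w.1 : ℂ) = (r : ℂ) ^ 2 := by rw [hsq]; push_cast; rfl
        by_cases hab : a = b
        · subst hab
          rw [if_pos rfl, mul_one]
          by_cases ha : a = 0
          · subst ha
            rw [te_zero_apply]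
            have hst : star (r : ℂ) = (r : ℂ) := Complex.conj_ofReal r
            rw [hst]
            by_cases hn1 : (n : ℂ) - 1 = 0
            · have hn1' : n = 1 := by
                have : (n : ℂ) = 1 := sub_eq_zero.1 hn1
                exact_mod_cast this
              have hM00 : M (teC n r) 0 0 = 0 := by
                have h := htr (teC n r)
                rw [Matrix.trace, ← Finset.add_sum_erase _ _ (Finset.mem_univ (0 : Fin n))] at h
                have h2 : (Finset.univ.erase (0 : Fin n)) = ∅ := by
                  rw [← Finset.card_eq_zero, Finset.card_erase_of_mem (Finset.mem_univ _),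
                    Finset.card_univ, Fintype.card_fin, hn1']
                rw [h2, Finset.sum_empty, add_zero] at h
                exact h
              have hκ0 : κ = 0 := by rw [hκ, hn1, div_zero]
              rw [hg, hM00, hκ0]
              simp
            · rw [hg, hκ, hnsq]
              field_simp
          · rw [te_apply_of_ne ha]
            have hn1 : (n : ℂ) - 1 ≠ 0 := by
              intro h
              have h1 : (n : ℂ) = 1 := sub_eq_zero.1 h
              have h2 : n = 1 := by exact_mod_cast h1
              apply ha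
              apply Fin.ext
              have := a.2
              simp only [Fin.val_zero]
              omega
            rw [hg, hκ, hnsq, htrace r a ha]
            field_simp
            ring
        · rw [if_neg hab, mul_zero, sub_zero, hoff r a b hab]
          by_cases ha : a = 0
          · have hb : b ≠ 0 := fun h => hab (ha.trans h.symm)
            rw [te_apply_of_ne hb]
            simp
          · rw [te_apply_of_ne ha]
            simp
      have hUU : U.1 * star U.1 = 1 := Matrix.mem_unitaryGroup_iff.1 U.2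
      have hfin : M w = g • (Matrix.vecMulVec w.1 (star w.1))
          - (g * ((nsq w.1 : ℂ) / n)) • (1 : Matrix (Fin n) (Fin n) ℂ) := by
        rw [hMw]
        conv_lhs => rw [hMt]
        rw [mul_sub, sub_mul, mul_smul_comm, smul_mul_assoc, mul_smul_comm, smul_mul_assoc,
          mul_one, hUU, Matrix.mul_vecMulVec, Matrix.vecMulVec_mul]
        have h1 : (star (te n r)) ᵥ* star U.1 = star w.1 := by
          rw [hw1, Matrix.star_eq_conjTranspose]
          exact (Matrix.star_mulVec _ _).symm
        have h2 : U.1 *ᵥ te n r = w.1 := hw1.symm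
        rw [h1, h2]
      rw [hfin]
      simp only [Matrix.sub_apply, Matrix.smul_apply, Matrix.vecMulVec_apply, Pi.star_apply,
        smul_eq_mul, Matrix.one_apply]
      have h5 : star (w.1 j) = conj (w.1 j) := rfl
      rw [h5]
      split_ifs <;> ring

end Pool.Agent.Ball
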