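import Pool.Agent.Helper76.Ball6
import Pool.Agent.Helper76.BallC
import Pool.Agent.Helper76.BallH

set_option autoImplicit false
set_option linter.unusedSectionVars false
open MeasureTheory

/-! Left averages of typed functions are right averages. -/

namespace Pool.Agent.Ball

variable {n : ℕ} [NeZero n]

open ComplexConjugate

lemma radial_eq {G : (Fin n → ℂ) → ℂ} (hG : ∀ (U : UG n) (w : Fin n → ℂ), G (mv U.1 w) = G w)
    {w w' : Fin n → ℂ} (h : nsq w = nsq w') : G w = G w' := by
  obtain ⟨U, hU⟩ := exists_unitary w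
  obtain ⟨V, hV⟩ := exists_unitary w'
  rw [← hU, ← hV, hG, hG, h]

/-- scaling of the closed ball -/
noncomputable def scl (r : ℝ) (hr0 : 0 ≤ r) (hr1 : r ≤ 1) (z : CB n) : CB n :=
  ⟨fun i => r * z.1 i, by
    have h : ∑ i, ‖(r : ℂ) * z.1 i‖ ^ 2 = r ^ 2 * nsq z.1 := by
      rw [nsq, Finset.mul_sum]
      refine Finset.sum_congr rfl fun i _ => ?_
      rw [norm_mul, mul_pow, Complex.norm_real, Real.norm_eq_abs, sq_abs]
    rw [h]
    have h1 := z.2
    have h2 := nsq_nonneg z.1
    have h3 : nsq z.1 ≤ 1 := z.2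
    nlinarith⟩

lemma eq_of_eq_open {E : Type*} [TopologicalSpace E] [T2Space E] {f g : CB n → E}
    (hf : Continuous f) (hg : Continuous g) (h : ∀ z : CB n, nsq z.1 < 1 → f z = g z) : f = g := by
  have hd : Dense {z : CB n | nsq z.1 < 1} := by
    intro z
    rw [mem_closure_iff_seq_limit]
    let r : ℕ → ℝ := fun k => 1 - 1 / (k + 2)
    have hr : ∀ k : ℕ, 0 ≤ r k ∧ r k < 1 := by
      intro k
      have h1 : (0 : ℝ) < k + 2 := by positivity
      have h2 : (1 : ℝ) / (k + 2) ≤ 1 := by
        rw [div_le_one h1]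
        have : (0 : ℝ) ≤ k := Nat.cast_nonneg k
        linarith
      have h3 : (0 : ℝ) < 1 / (k + 2) := by positivity
      constructor
      · show 0 ≤ 1 - 1 / ((k : ℝ) + 2)
        linarith
      · show 1 - 1 / ((k : ℝ) + 2) < 1
        linarith
    refine ⟨fun k => scl (r k) (hr k).1 (hr k).2.le z, fun k => ?_, ?_⟩
    · have h : nsq (scl (r k) (hr k).1 (hr k).2.le z).1 = (r k) ^ 2 * nsq z.1 := by
        show nsq (fun i => ((r k : ℝ) : ℂ) * z.1 i) = _
        rw [nsq, nsq, Finset.mul_sum]
        refine Finset.sum_congr rfl fun i _ => ?_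
        rw [norm_mul, mul_pow, Complex.norm_real, Real.norm_eq_abs, sq_abs]
      show nsq (scl (r k) (hr k).1 (hr k).2.le z).1 < 1
      rw [h]
      have h1 : nsq z.1 ≤ 1 := z.2
      have h2 := nsq_nonneg z.1
      have h3 := hr k
      nlinarith
    · refine tendsto_subtype_rng.2 ?_
      have hlim : Filter.Tendsto r Filter.atTop (nhds 1) := by
        have h1 : Filter.Tendsto (fun k : ℕ => 1 / ((k : ℝ) + 2)) Filter.atTop (nhds 0) := by
          have := tendsto_one_div_add_atTop_nhds_zero_nat (𝕜 := ℝ)
          have h2 := this.comp (Filter.tendsto_add_atTop_nat 1)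
          refine h2.congr fun k => ?_
          simp only [Function.comp_apply, Nat.cast_add, Nat.cast_one]
          ring
        have h5 := (tendsto_const_nhds (x := (1 : ℝ))).sub h1
        rw [sub_zero] at h5
        exact h5
      refine tendsto_pi_nhds.2 fun i => ?_
      have h1 : Filter.Tendsto (fun k => ((r k : ℝ) : ℂ)) Filter.atTop (nhds ((1 : ℝ) : ℂ)) :=
        (Complex.continuous_ofReal.tendsto 1).comp hlim
      have h2 := h1.mul_const (z.1 i)
      rw [Complex.ofReal_one, one_mul] at h2
      exact h2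
  exact Continuous.ext_on hd hf hg fun z hz => h z hz

/-- matrix of `Om a` -/
noncomputable def OmM (a : Fin n → ℂ) (i k : Fin n) : ℂ :=
  (if i = k then (sq a : ℂ) else 0) + a i * conj (a k) / (1 + (sq a : ℂ))

/-- matrix of `Lam a` -/
noncomputable def LamM (a : Fin n → ℂ) (i k : Fin n) : ℂ :=
  (if i = k then 1 else 0) - a i * conj (a k) / (1 + (sq a : ℂ))

lemma Om_sum (a v : Fin n → ℂ) (i : Fin n) : Om a v i = ∑ k, OmM a i k * v k := by
  simp only [OmM, add_mul, ite_mul, zero_mul, Finset.sum_add_distrib, Finset.sum_ite_eq,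
    Finset.mem_univ, if_true, Om, ip, Finset.sum_div, Finset.sum_mul]
  congr 1
  exact Finset.sum_congr rfl fun k _ => by ring

lemma Lam_sum (a v : Fin n → ℂ) (i : Fin n) : Lam a v i = ∑ k, LamM a i k * v k := by
  simp only [LamM, sub_mul, ite_mul, zero_mul, one_mul, Finset.sum_sub_distrib, Finset.sum_ite_eq,
    Finset.mem_univ, if_true, Lam, ip, Finset.sum_div, Finset.sum_mul]
  congr 1
  exact Finset.sum_congr rfl fun k _ => by ring

lemma continuous_OmM (i k : Fin n) : Continuous fun a : CB n => OmM a.1 i k := by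
  unfold OmM
  have h1 : Continuous fun a : CB n => (sq a.1 : ℂ) :=
    Complex.continuous_ofReal.comp (continuous_sq.comp continuous_subtype_val)
  have h2 : Continuous fun a : CB n => a.1 i := (continuous_apply i).comp continuous_subtype_val
  have h3 : Continuous fun a : CB n => conj (a.1 k) :=
    Complex.continuous_conj.comp ((continuous_apply k).comp continuous_subtype_val)
  have h4 : Continuous fun a : CB n => a.1 i * conj (a.1 k) / (1 + (sq a.1 : ℂ)) :=
    (h2.mul h3).div (continuous_const.add h1) fun a => one_add_sq_ne _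
  split_ifs
  · exact h1.add h4
  · exact continuous_const.add h4

lemma continuous_LamM (i k : Fin n) : Continuous fun a : CB n => LamM a.1 i k := by
  unfold LamM
  have h1 : Continuous fun a : CB n => (sq a.1 : ℂ) :=
    Complex.continuous_ofReal.comp (continuous_sq.comp continuous_subtype_val)
  have h2 : Continuous fun a : CB n => a.1 i := (continuous_apply i).comp continuous_subtype_val
  have h3 : Continuous fun a : CB n => conj (a.1 k) :=
    Complex.continuous_conj.comp ((continuous_apply k).comp continuous_subtype_val)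
  have h4 : Continuous fun a : CB n => a.1 i * conj (a.1 k) / (1 + (sq a.1 : ℂ)) :=
    (h2.mul h3).div (continuous_const.add h1) fun a => one_add_sq_ne _
  split_ifs
  · exact continuous_const.sub h4
  · exact continuous_const.sub h4

/-! ### type (1,0) -/

/-- integrand of the left average of type (1,0) -/
noncomputable def L10k (F : Fin n → C(CB n, ℂ)) (i : Fin n) (a z : CB n) : ℂ :=
  wt a • Om a.1 (fun k => F k (T a z)) i

lemma continuous_L10k (F : Fin n → C(CB n, ℂ)) (i : Fin n) :
    Continuous fun p : CB n × CB n => L10k F i p.1 p.2 := by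
  have h : (fun p : CB n × CB n => L10k F i p.1 p.2) =
      fun p => ∑ k, OmM p.1.1 i k * (wt p.1 • F k (T p.1 p.2)) := by
    funext p
    rw [L10k, Om_sum, Finset.smul_sum]
    refine Finset.sum_congr rfl fun k _ => ?_
    simp only [Complex.real_smul]
    ring
  rw [h]
  refine continuous_finsetSum _ fun k _ => ?_
  have h1 : Continuous fun p : CB n × CB n => OmM p.1.1 i k := by
    have := Continuous.comp (continuous_OmM i k) (continuous_fst (X := CB n) (Y := CB n))
    simp only [Function.comp_def] at this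
    exact this
  exact h1.mul (continuous_left (F k))

/-- left average of type (1,0) -/
noncomputable def L10 (F : Fin n → C(CB n, ℂ)) (z : CB n) (i : Fin n) : ℂ :=
  ∫ a, L10k F i a z ∂(vB n)

lemma L10k_slice (F : Fin n → C(CB n, ℂ)) (i : Fin n) (z : CB n) :
    Continuous fun a : CB n => L10k F i a z := by
  have hs : Continuous fun a : CB n => (a, z) := continuous_id.prodMk continuous_const
  have h4 := Continuous.comp (continuous_L10k F i) hs
  simp only [Function.comp_def] at h4
  exact h4

lemma continuous_L10 (F : Fin n → C(CB n, ℂ)) : Continuous (L10 F) := by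
  refine continuous_pi fun i => ?_
  have hs : Continuous fun p : CB n × CB n => (p.2, p.1) := continuous_snd.prodMk continuous_fst
  have h4 := Continuous.comp (continuous_L10k F i) hs
  simp only [Function.comp_def] at h4
  exact continuous_param h4

/-- the covariance condition of type (1,0) -/
def Cov10 (F : Fin n → C(CB n, ℂ)) : Prop :=
  ∀ (U : UG n) (z : CB n), (fun i => F i (act U z)) = mv U.1 (fun i => F i z)

lemma mv_apply (U : Matrix (Fin n) (Fin n) ℂ) (v : Fin n → ℂ) (i : Fin n) :
    mv U v i = ∑ k, U i k * v k := rfl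

lemma L10_cov {F : Fin n → C(CB n, ℂ)} (hF : Cov10 F) (U : UG n) (z : CB n) :
    L10 F (act U z) = mv U.1 (L10 F z) := by
  funext i
  rw [L10, ← int_act U, mv_apply]
  have h : ∀ a : CB n, L10k F i (act U a) (act U z) = ∑ k, U.1 i k * L10k F k a z := by
    intro a
    have h1 : (fun k => F k (act U (T a z))) = mv U.1 (fun k => F k (T a z)) := hF U _
    simp only [L10k, wt_act, T_act, act_val]
    rw [h1, Om_mv, mv_apply, Finset.smul_sum]
    exact Finset.sum_congr rfl fun k _ => by simp only [Complex.real_smul]; ring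
  simp only [h]
  rw [integral_finsetSum _ fun k _ => (integrable_vB (L10k_slice F k z)).const_mul _]
  simp only [L10, integral_const_mul]

lemma R0_cov {F : Fin n → C(CB n, ℂ)} (hF : Cov10 F) (U : UG n) (z : CB n) :
    (fun i => R0 (F i) (act U z)) = mv U.1 (fun i => R0 (F i) z) := by
  funext i
  rw [R0, ← int_act U, mv_apply]
  have h : ∀ w : CB n, wt (act U w) • F i (T (act U z) (act U w)) =
      ∑ k, U.1 i k * (wt w • F k (T z w)) := by
    intro w
    have h1 := congrFun (hF U (T z w)) i
    rw [mv_apply] at h1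
    rw [wt_act, T_act]
    rw [h1, Finset.smul_sum]
    exact Finset.sum_congr rfl fun k _ => by simp only [Complex.real_smul]; ring
  simp only [h]
  rw [integral_finsetSum _ fun k _ => (integrable_right (F k) z).const_mul _]
  simp only [R0, integral_const_mul]

/-- the point `t e₁` of the closed ball -/
noncomputable def tpt (t : ℝ) (ht : t ^ 2 ≤ 1) : CB n :=
  ⟨te n t, by have := nsq_te (n := n) t; unfold nsq at this; rw [this]; exact ht⟩

/-- a covariant function whose first component vanishes along `t e₁` is zero -/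
lemma cov10_zero (D : CB n → Fin n → ℂ) (hD : Continuous D)
    (hcov : ∀ (U : UG n) (z : CB n), D (act U z) = mv U.1 (D z))
    (h0 : ∀ (t : ℝ) (_ : 0 < t) (ht : t < 1), D (tpt t (by nlinarith)) 0 = 0) : D = fun _ => 0 := by
  obtain ⟨G, _, hG, _, hDG⟩ := struct10 D hD hcov
  refine eq_of_eq_open hD continuous_const fun z hz => ?_
  funext i
  rw [hDG]
  by_cases hz0 : nsq z.1 = 0
  · rw [nsq_eq_zero hz0]; simp
  · have hpos : 0 < nsq z.1 := lt_of_le_of_ne (nsq_nonneg _) (Ne.symm hz0)
    have hs : 0 < Real.sqrt (nsq z.1) := Real.sqrt_pos.2 hpos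
    have hs1 : Real.sqrt (nsq z.1) < 1 := by
      rw [Real.sqrt_lt' one_pos]; simpa using hz
    have h1 := h0 _ hs hs1
    rw [hDG] at h1
    have h2 : (tpt (n := n) (Real.sqrt (nsq z.1)) (by nlinarith)).1 0 =
        (Real.sqrt (nsq z.1) : ℂ) := by
      show te n _ 0 = _
      rw [te_zero_apply]
    rw [h2] at h1
    have h3 : G (tpt (n := n) (Real.sqrt (nsq z.1)) (by nlinarith)).1 = G z.1 := by
      refine radial_eq hG ?_
      show nsq (te n (Real.sqrt (nsq z.1))) = nsq z.1
      rw [nsq_te, Real.sq_sqrt (nsq_nonneg _)]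
    rw [h3] at h1
    have h4 : (Real.sqrt (nsq z.1) : ℂ) ≠ 0 := by exact_mod_cast hs.ne'
    rcases mul_eq_zero.1 h1 with h | h
    · rw [h]; simp
    · exact absurd h h4

lemma ip_cmul_left (c : ℂ) (v z : Fin n → ℂ) : ip (fun k => c * v k) z = c * ip v z := by
  simp only [ip, Finset.mul_sum]
  exact Finset.sum_congr rfl fun k _ => by ring

lemma ip_Om_smul (a v z : Fin n → ℂ) (c : ℂ) :
    ip (Om a (fun k => c * v k)) z = c * ip (Om a v) z := by
  have : Om a (fun k => c * v k) = fun i => c * Om a v i + 0 * v i := by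
    funext i
    rw [Om_sum, Om_sum, Finset.mul_sum]
    simp only [zero_mul, add_zero]
    exact Finset.sum_congr rfl fun k _ => by ring
  rw [this, ip_lin_left]
  ring

/-- the left average of type (1,0) is a multiple of `R` -/
theorem left10 {F : Fin n → C(CB n, ℂ)} (hF : Cov10 F) (z : CB n) (i : Fin n) :
    L10 F z i = -(2 / ((n : ℂ) + 2)) * R0 (F i) z := by
  have hn : ((n : ℂ) + 2) ≠ 0 := by
    have : (0 : ℝ) < (n : ℝ) + 2 := by positivity
    exact_mod_cast this.ne'
  set c : ℂ := 2 / ((n : ℂ) + 2) with hc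
  let D : CB n → Fin n → ℂ := fun z i => L10 F z i + c * R0 (F i) z
  have hD : Continuous D := by
    refine continuous_pi fun i => ?_
    exact ((continuous_apply i).comp (continuous_L10 F)).add
      (continuous_const.mul (continuous_R0 (F i)))
  have hcov : ∀ (U : UG n) (z : CB n), D (act U z) = mv U.1 (D z) := by
    intro U z
    funext i
    have h1 := congrFun (L10_cov hF U z) i
    have h2 := congrFun (R0_cov hF U z) i
    rw [mv_apply] at h1 h2
    rw [mv_apply]
    show L10 F (act U z) i + c * R0 (F i) (act U z) = ∑ k, U.1 i k * (L10 F z k + c * R0 (F k) z)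
    rw [h1, h2, Finset.mul_sum, ← Finset.sum_add_distrib]
    exact Finset.sum_congr rfl fun k _ => by ring
  suffices h : D = fun _ => 0 by
    have := congrFun (congrFun h z) i
    have h1 : L10 F z i + c * R0 (F i) z = 0 := this
    linear_combination h1
  refine cov10_zero D hD hcov fun t ht0 ht1 => ?_
  obtain ⟨G, hGm, hG, ⟨C, hC⟩, hFG⟩ := struct10 (fun z i => F i z)
    (continuous_pi fun i => (F i).continuous) hF
  set z : CB n := tpt t (by nlinarith) with hz
  have hzt : z.1 = te n t := rfl
  have hz1 : nsq z.1 < 1 := by rw [hzt, nsq_te]; nlinarith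
  have hkey : (t : ℂ) * D z 0 = 0 := by
    -- write as one integral
    have e1 : (t : ℂ) * D z 0 = ∫ a, (ip (Om a.1 (fun k => F k (T a z))) z.1 +
        c * ip (fun k => F k (T z a)) z.1) * ((1 - nsq a.1 : ℝ) : ℂ) ∂(vB n) := by
      show (t : ℂ) * (L10 F z 0 + c * R0 (F 0) z) = _
      rw [L10, R0, ← integral_const_mul, ← integral_add (integrable_vB (L10k_slice F 0 z))
        ((integrable_right (F 0) z).const_mul c), ← integral_const_mul]
      congr 1
      funext a
      rw [hzt, ip_te_right, ip_te_right, L10k]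
      simp only [Complex.real_smul, wt]
      ring
    -- pass to the open ball
    let f : (Fin n → ℂ) → ℂ := fun a => G (mob a z.1) * ip (Om a (mob a z.1)) z.1 +
      c * (G (mob z.1 a) * ip (mob z.1 a) z.1)
    have e2 : ∀ a : CB n, (ip (Om a.1 (fun k => F k (T a z))) z.1 +
        c * ip (fun k => F k (T z a)) z.1) = f a.1 := by
      intro a
      have h1 : (fun k => F k (T a z)) = fun k => G (mob a.1 z.1) * mob a.1 z.1 k :=
        funext fun k => hFG (T a z) k
      have h2 : (fun k => F k (T z a)) = fun k => G (mob z.1 a.1) * mob z.1 a.1 k :=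
        funext fun k => hFG (T z a) k
      rw [h1, ip_Om_smul, h2, ip_cmul_left]
    simp only [e2] at e1
    rw [e1, integral_vB_wt f]
    let g : (Fin n → ℂ) → ℂ := fun w => G w * (((nsq w : ℂ) * nsq z.1 - ip w z.1) / (1 - ip w z.1) +
      c * ip w z.1)
    have e3 : ∀ a ∈ {w : Fin n → ℂ | nsq w < 1}, f a * ((1 - nsq a : ℝ) : ℂ) =
        g (mob z.1 a) * ((1 - nsq a : ℝ) : ℂ) := by
      intro a ha
      have ha1 : nsq a < 1 := ha
      have hx := mob_mem_open hz1 ha1
      have h0 : mob z.1 (mob z.1 a) = a := mob_mob hz1 (ip_ne_one ha1.le hz1)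
      have h1 := kern_Om hz1 hx
      rw [h0] at h1
      have h2 : G (mob a z.1) = G (mob z.1 a) :=
        radial_eq hG (nsq_mob_comm ha1.le hz1.le (ip_ne_one' hz1 ha1.le))
      simp only [f, g, h1, h2]
      ring
    rw [setIntegral_congr_fun measurableSet_ball e3, change_var z.1 hz1 g]
    have e4 : ∀ w : Fin n → ℂ, g w * ((1 - nsq w : ℝ) : ℂ) * (((1 - nsq z.1 : ℝ) : ℂ) ^ (n + 2) /
        ((1 - ip w z.1) ^ (n + 2) * (1 - ip z.1 w) ^ (n + 2))) =
        ((1 - nsq z.1 : ℝ) : ℂ) ^ (n + 2) * ((G w * ((1 - nsq w : ℝ) : ℂ)) *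
          ((((nsq w : ℂ) * t ^ 2 - t * w 0) / (1 - t * w 0) + 2 / ((n : ℂ) + 2) * (t * w 0)) /
        ((1 - t * w 0) ^ (n + 2) * (1 - t * starRingEnd ℂ (w 0)) ^ (n + 2)))) := by
      intro w
      simp only [g]
      rw [hzt, ip_te_right, ip_te_left, nsq_te]
      push_cast
      ring
    simp only [e4]
    rw [integral_const_mul, kernel10 (fun w => G w * ((1 - nsq w : ℝ) : ℂ)) ?_ C ?_ ?_ t ht0.le ht1,
      mul_zero]
    · refine (hGm.mul ?_).aestronglyMeasurable
      exact (Complex.continuous_ofReal.comp (continuous_const.sub continuous_nsq)).measurable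
    · intro w hw
      have h1 := hC w hw
      have h2 := nsq_nonneg w
      have h3 : ‖((1 - nsq w : ℝ) : ℂ)‖ ≤ 1 := by
        rw [Complex.norm_real, Real.norm_eq_abs, abs_of_nonneg (by linarith)]
        linarith
      rw [norm_mul]
      calc ‖G w‖ * ‖((1 - nsq w : ℝ) : ℂ)‖ * Real.sqrt (nsq w)
          ≤ ‖G w‖ * 1 * Real.sqrt (nsq w) := by gcongr
        _ ≤ C := by rw [mul_one]; exact h1
    · intro U w
      simp only [hG, nsq_mv]
  have ht : (t : ℂ) ≠ 0 := by exact_mod_cast ht0.ne'
  exact (mul_eq_zero.1 hkey).resolve_left ht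

end Pool.Agent.Ball
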