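import Pool.Agent.Helper76.Ball7

set_option autoImplicit false
set_option linter.unusedSectionVars false
open MeasureTheory

/-! Left averages of functions of type (1,1). -/

namespace Pool.Agent.Ball

variable {n : ℕ} [NeZero n]

open ComplexConjugate

lemma continuous_left_sq (f : C(CB n, ℂ)) :
    Continuous fun p : CB n × CB n => sq p.1.1 • f (T p.1 p.2) := by
  refine continuous_weight (fun p => f (T p.1 p.2)) (fun w => sq w.1)
    (continuous_sq.comp continuous_subtype_val) (fun w hw => by simp [sq, hw]) ‖f‖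
    (fun p => bdd f _) ?_
  intro p hp
  exact ContinuousAt.comp (g := f) f.continuous.continuousAt
    (continuousAt_T (ip_ne_one p.2.2 hp))

/-- matrix of functions as matrix valued function -/
noncomputable def mat (M : Fin n → Fin n → C(CB n, ℂ)) (z : CB n) : Matrix (Fin n) (Fin n) ℂ :=
  Matrix.of fun i j => M i j z

/-- covariance of type (1,1) -/
def Cov11 (M : Fin n → Fin n → C(CB n, ℂ)) : Prop :=
  ∀ (U : UG n) (z : CB n), mat M (act U z) = U.1 * mat M z * star U.1

lemma OmM_act (U : UG n) (a : Fin n → ℂ) :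
    (Matrix.of (OmM (mv U.1 a)) : Matrix (Fin n) (Fin n) ℂ) = U.1 * Matrix.of (OmM a) * star U.1 := by
  have h1 : ∀ b : Fin n → ℂ, (Matrix.of (OmM b) : Matrix (Fin n) (Fin n) ℂ) =
      (sq b : ℂ) • 1 + (1 / (1 + (sq b : ℂ))) • Matrix.vecMulVec b (star b) := by
    intro b
    ext i k
    simp only [Matrix.of_apply, OmM, Matrix.add_apply, Matrix.smul_apply, Matrix.one_apply,
      Matrix.vecMulVec_apply, Pi.star_apply, smul_eq_mul, mul_ite, mul_one, mul_zero]
    congr 1
    rw [RCLike.star_def]
    ring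
  have hU : U.1 * star U.1 = 1 := Matrix.mem_unitaryGroup_iff.1 U.2
  rw [h1, h1, sq_mv, Matrix.mul_add, Matrix.add_mul, Matrix.mul_smul, Matrix.mul_one,
    Matrix.smul_mul, hU, Matrix.mul_smul, Matrix.smul_mul, Matrix.mul_vecMulVec,
    Matrix.vecMulVec_mul]
  congr 3
  rw [mv, Matrix.star_mulVec, Matrix.star_eq_conjTranspose]

lemma LamM_act (U : UG n) (a : Fin n → ℂ) :
    (Matrix.of (LamM (mv U.1 a)) : Matrix (Fin n) (Fin n) ℂ) =
      U.1 * Matrix.of (LamM a) * star U.1 := by
  have h1 : ∀ b : Fin n → ℂ, (Matrix.of (LamM b) : Matrix (Fin n) (Fin n) ℂ) =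
      1 - (1 / (1 + (sq b : ℂ))) • Matrix.vecMulVec b (star b) := by
    intro b
    ext i k
    simp only [Matrix.of_apply, LamM, Matrix.sub_apply, Matrix.smul_apply, Matrix.one_apply,
      Matrix.vecMulVec_apply, Pi.star_apply, smul_eq_mul]
    congr 1
    rw [RCLike.star_def]
    ring
  have hU : U.1 * star U.1 = 1 := Matrix.mem_unitaryGroup_iff.1 U.2
  rw [h1, h1, sq_mv, Matrix.mul_sub, Matrix.sub_mul, Matrix.mul_one, hU, Matrix.mul_smul,
    Matrix.smul_mul, Matrix.mul_vecMulVec, Matrix.vecMulVec_mul]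
  congr 3
  rw [mv, Matrix.star_mulVec, Matrix.star_eq_conjTranspose]

lemma OmM_LamM {a : Fin n → ℂ} (ha : nsq a ≤ 1) (i j : Fin n) :
    ∑ k, OmM a i k * LamM a k j = if i = j then (sq a : ℂ) else 0 := by
  have h1 : ∀ k, LamM a k j = (fun k => (if k = j then (1 : ℂ) else 0)
      - conj (a j) / (1 + (sq a : ℂ)) * a k) k := fun k => by
    simp only [LamM]; ring
  have h2 : ∑ k, OmM a i k * LamM a k j =
      Om a (fun k => (if k = j then (1 : ℂ) else 0) - conj (a j) / (1 + (sq a : ℂ)) * a k) i := by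
    rw [Om_sum]
    exact Finset.sum_congr rfl fun k _ => by rw [h1]
  rw [h2]
  have h3 : ip (fun k => (if k = j then (1 : ℂ) else 0) - conj (a j) / (1 + (sq a : ℂ)) * a k) a =
      conj (a j) - conj (a j) / (1 + (sq a : ℂ)) * nsq a := by
    have : (fun k => (if k = j then (1 : ℂ) else 0) - conj (a j) / (1 + (sq a : ℂ)) * a k) =
        fun k => 1 * (if k = j then (1 : ℂ) else 0) + (-(conj (a j) / (1 + (sq a : ℂ)))) * a k := by
      funext k; ring
    rw [this, ip_lin_left, ip_self]
    have : ip (fun k => if k = j then (1 : ℂ) else 0) a = conj (a j) := by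
      simp [ip]
    rw [this]
    ring
  have hs := sq_sqC ha
  have h4 := one_add_sq_ne a
  have hA : (nsq a : ℂ) = 1 - (sq a : ℂ) ^ 2 := by rw [hs]; ring
  simp only [Om]
  rw [h3, hA]
  by_cases hij : i = j
  · subst hij
    simp only [if_true]
    field_simp
    ring
  · simp only [if_neg hij]
    field_simp
    ring

/-- integrand of the left average of type (1,1) -/
noncomputable def L11k (M : Fin n → Fin n → C(CB n, ℂ)) (a z : CB n) : Matrix (Fin n) (Fin n) ℂ :=
  (sq a.1 : ℂ) • (Matrix.of (OmM a.1) * mat M (T a z) * Matrix.of (LamM a.1))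

lemma L11k_apply (M : Fin n → Fin n → C(CB n, ℂ)) (a z : CB n) (i j : Fin n) :
    L11k M a z i j = ∑ l, ∑ k, (OmM a.1 i k * LamM a.1 l j) * (sq a.1 • M k l (T a z)) := by
  simp only [L11k, Matrix.smul_apply, Matrix.mul_apply, Matrix.of_apply, mat, smul_eq_mul,
    Finset.sum_mul, Finset.mul_sum, Complex.real_smul]
  refine Finset.sum_congr rfl fun l _ => Finset.sum_congr rfl fun k _ => by ring

lemma continuous_L11k (M : Fin n → Fin n → C(CB n, ℂ)) (i j : Fin n) :
    Continuous fun p : CB n × CB n => L11k M p.1 p.2 i j := by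
  simp only [L11k_apply]
  refine continuous_finsetSum _ fun l _ => continuous_finsetSum _ fun k _ => ?_
  have h1 : Continuous fun p : CB n × CB n => OmM p.1.1 i k := by
    have := Continuous.comp (continuous_OmM i k) (continuous_fst (X := CB n) (Y := CB n))
    simp only [Function.comp_def] at this
    exact this
  have h2 : Continuous fun p : CB n × CB n => LamM p.1.1 l j := by
    have := Continuous.comp (continuous_LamM l j) (continuous_fst (X := CB n) (Y := CB n))
    simp only [Function.comp_def] at this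
    exact this
  exact (h1.mul h2).mul (continuous_left_sq (M k l))

lemma L11k_slice (M : Fin n → Fin n → C(CB n, ℂ)) (i j : Fin n) (z : CB n) :
    Continuous fun a : CB n => L11k M a z i j := by
  have hs : Continuous fun a : CB n => (a, z) := continuous_id.prodMk continuous_const
  have h4 := Continuous.comp (continuous_L11k M i j) hs
  simp only [Function.comp_def] at h4
  exact h4

/-- left average of type (1,1) -/
noncomputable def L11 (M : Fin n → Fin n → C(CB n, ℂ)) (z : CB n) : Matrix (Fin n) (Fin n) ℂ :=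
  Matrix.of fun i j => ∫ a, L11k M a z i j ∂(vB n)

lemma continuous_L11 (M : Fin n → Fin n → C(CB n, ℂ)) : Continuous (L11 M) := by
  refine continuous_matrix fun i j => ?_
  have hs : Continuous fun p : CB n × CB n => (p.2, p.1) := continuous_snd.prodMk continuous_fst
  have h4 := Continuous.comp (continuous_L11k M i j) hs
  simp only [Function.comp_def] at h4
  exact continuous_param h4

lemma conj_apply (A B C : Matrix (Fin n) (Fin n) ℂ) (i j : Fin n) :
    (A * B * C) i j = ∑ l, ∑ k, (A i k * C l j) * B k l := by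
  simp only [Matrix.mul_apply, Finset.sum_mul]
  refine Finset.sum_congr rfl fun l _ => Finset.sum_congr rfl fun k _ => by ring

lemma L11k_cov {M : Fin n → Fin n → C(CB n, ℂ)} (hM : Cov11 M) (U : UG n) (a z : CB n) :
    L11k M (act U a) (act U z) = U.1 * L11k M a z * star U.1 := by
  have hU : star U.1 * U.1 = 1 := Matrix.mem_unitaryGroup_iff'.1 U.2
  have hU' : ∀ X : Matrix (Fin n) (Fin n) ℂ, star U.1 * (U.1 * X) = X := fun X => by
    rw [← Matrix.mul_assoc, hU, Matrix.one_mul]
  unfold L11k
  rw [T_act, hM, act_val, OmM_act, LamM_act, sq_mv]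
  simp only [Matrix.mul_smul, Matrix.smul_mul, Matrix.mul_assoc, hU']

lemma L11_cov {M : Fin n → Fin n → C(CB n, ℂ)} (hM : Cov11 M) (U : UG n) (z : CB n) :
    L11 M (act U z) = U.1 * L11 M z * star U.1 := by
  ext i j
  rw [conj_apply]
  simp only [L11, Matrix.of_apply]
  rw [← int_act U]
  simp only [L11k_cov hM, conj_apply]
  rw [integral_finsetSum]
  · refine Finset.sum_congr rfl fun l _ => ?_
    rw [integral_finsetSum]
    · exact Finset.sum_congr rfl fun k _ => integral_const_mul _ _
    · exact fun k _ => (integrable_vB (L11k_slice M k l z)).const_mul _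
  · refine fun l _ => integrable_finsetSum _ fun k _ => ?_
    exact (integrable_vB (L11k_slice M k l z)).const_mul _

lemma L11_trace {M : Fin n → Fin n → C(CB n, ℂ)} (htr : ∀ z, (mat M z).trace = 0) (z : CB n) :
    (L11 M z).trace = 0 := by
  simp only [Matrix.trace, Matrix.diag, L11, Matrix.of_apply]
  rw [← integral_finsetSum _ fun i _ => integrable_vB (L11k_slice M i i z)]
  have h : ∀ a : CB n, ∑ i, L11k M a z i i = 0 := by
    intro a
    have h1 : ∑ i, L11k M a z i i = (L11k M a z).trace := rfl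
    have h2 : (Matrix.of (OmM a.1) : Matrix (Fin n) (Fin n) ℂ) * Matrix.of (LamM a.1) =
        (sq a.1 : ℂ) • 1 := by
      ext i j
      rw [Matrix.mul_apply]
      simp only [Matrix.of_apply]
      rw [OmM_LamM a.2]
      simp [Matrix.one_apply]
    have h3 : (Matrix.of (LamM a.1) : Matrix (Fin n) (Fin n) ℂ) * Matrix.of (OmM a.1) =
        (sq a.1 : ℂ) • 1 := by
      have hsym1 : (Matrix.of (OmM a.1) : Matrix (Fin n) (Fin n) ℂ).conjTranspose =
          Matrix.of (OmM a.1) := by
        ext i j
        simp only [Matrix.conjTranspose_apply, Matrix.of_apply, OmM]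
        rw [RCLike.star_def, map_add, map_div₀, map_mul, Complex.conj_conj, map_add, map_one,
          Complex.conj_ofReal]
        by_cases hij : i = j
        · subst hij; simp [mul_comm]
        · have hji : j ≠ i := fun h => hij h.symm
          simp [hij, hji, mul_comm]
      have hsym2 : (Matrix.of (LamM a.1) : Matrix (Fin n) (Fin n) ℂ).conjTranspose =
          Matrix.of (LamM a.1) := by
        ext i j
        simp only [Matrix.conjTranspose_apply, Matrix.of_apply, LamM]
        rw [RCLike.star_def, map_sub, map_div₀, map_mul, Complex.conj_conj, map_add, map_one,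
          Complex.conj_ofReal]
        by_cases hij : i = j
        · subst hij; simp [mul_comm]
        · have hji : j ≠ i := fun h => hij h.symm
          simp [hij, hji, mul_comm]
      have := congrArg Matrix.conjTranspose h2
      rw [Matrix.conjTranspose_mul, hsym1, hsym2, Matrix.conjTranspose_smul,
        Matrix.conjTranspose_one] at this
      rw [this]
      congr 1
      simp
    rw [h1, L11k, Matrix.trace_smul, Matrix.trace_mul_comm, ← Matrix.mul_assoc, h3,
      Matrix.smul_mul, Matrix.one_mul, Matrix.trace_smul, htr]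
    simp
  simp only [h]
  simp

/-- matrix version of `R0` -/
noncomputable def R11 (M : Fin n → Fin n → C(CB n, ℂ)) (z : CB n) : Matrix (Fin n) (Fin n) ℂ :=
  Matrix.of fun i j => R0 (M i j) z

lemma continuous_R11 (M : Fin n → Fin n → C(CB n, ℂ)) : Continuous (R11 M) :=
  continuous_matrix fun i j => continuous_R0 (M i j)

lemma R11_cov {M : Fin n → Fin n → C(CB n, ℂ)} (hM : Cov11 M) (U : UG n) (z : CB n) :
    R11 M (act U z) = U.1 * R11 M z * star U.1 := by
  ext i j
  rw [conj_apply]
  simp only [R11, Matrix.of_apply, R0]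
  rw [← int_act U]
  have h : ∀ w : CB n, wt (act U w) • M i j (T (act U z) (act U w)) =
      ∑ l, ∑ k, (U.1 i k * (star U.1) l j) * (wt w • M k l (T z w)) := by
    intro w
    have h1 := congrFun (congrFun (hM U (T z w)) i) j
    rw [conj_apply] at h1
    rw [wt_act, T_act]
    have h2 : M i j (act U (T z w)) = mat M (act U (T z w)) i j := rfl
    rw [h2, h1, Finset.smul_sum]
    refine Finset.sum_congr rfl fun l _ => ?_
    rw [Finset.smul_sum]
    refine Finset.sum_congr rfl fun k _ => ?_
    simp only [Complex.real_smul, mat, Matrix.of_apply]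
    ring
  simp only [h]
  rw [integral_finsetSum]
  · refine Finset.sum_congr rfl fun l _ => ?_
    rw [integral_finsetSum]
    · exact Finset.sum_congr rfl fun k _ => integral_const_mul _ _
    · exact fun k _ => (integrable_right (M k l) z).const_mul _
  · refine fun l _ => integrable_finsetSum _ fun k _ => ?_
    exact (integrable_right (M k l) z).const_mul _

lemma R11_trace {M : Fin n → Fin n → C(CB n, ℂ)} (htr : ∀ z, (mat M z).trace = 0) (z : CB n) :
    (R11 M z).trace = 0 := by
  simp only [Matrix.trace, Matrix.diag, R11, Matrix.of_apply, R0]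
  rw [← integral_finsetSum _ fun i _ => integrable_right (M i i) z]
  have h : ∀ w : CB n, ∑ i, wt w • M i i (T z w) = 0 := by
    intro w
    rw [← Finset.smul_sum]
    have := htr (T z w)
    simp only [Matrix.trace, Matrix.diag, mat, Matrix.of_apply] at this
    rw [this, smul_zero]
  simp only [h]
  simp

/-- a covariant traceless function whose first entry vanishes along `t e₁` is zero -/
lemma cov11_zero (D : CB n → Matrix (Fin n) (Fin n) ℂ) (hD : Continuous D)
    (hcov : ∀ (U : UG n) (z : CB n), D (act U z) = U.1 * D z * star U.1)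
    (htr : ∀ z, (D z).trace = 0)
    (h0 : ∀ (t : ℝ) (_ : 0 < t) (ht : t < 1), D (tpt t (by nlinarith)) 0 0 = 0) :
    D = fun _ => 0 := by
  obtain ⟨G, _, hG, _, hDG⟩ := struct11 D hD hcov htr
  have hn0 : (n : ℂ) ≠ 0 := by exact_mod_cast NeZero.ne n
  refine eq_of_eq_open hD continuous_const fun z hz => ?_
  ext i j
  rw [hDG]
  by_cases hz0 : nsq z.1 = 0
  · rw [hz0, nsq_eq_zero hz0]; simp
  by_cases hn : n = 1
  · subst hn
    have hi : i = 0 := Subsingleton.elim _ _
    have hj : j = 0 := Subsingleton.elim _ _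
    subst hi hj
    have : (nsq z.1 : ℂ) = z.1 0 * conj (z.1 0) := by
      rw [← ip_self]
      simp [ip]
    simp [this]
  · have hpos : 0 < nsq z.1 := lt_of_le_of_ne (nsq_nonneg _) (Ne.symm hz0)
    have hs : 0 < Real.sqrt (nsq z.1) := Real.sqrt_pos.2 hpos
    have hs1 : Real.sqrt (nsq z.1) < 1 := by
      rw [Real.sqrt_lt' one_pos]; simpa using hz
    have h1 := h0 _ hs hs1
    rw [hDG] at h1
    have h2 : (tpt (n := n) (Real.sqrt (nsq z.1)) (by nlinarith)).1 0 =
        (Real.sqrt (nsq z.1) : ℂ) := by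
      show te n _ 0 = _
      rw [te_zero_apply]
    have h5 : nsq (tpt (n := n) (Real.sqrt (nsq z.1)) (by nlinarith)).1 = nsq z.1 := by
      show nsq (te n (Real.sqrt (nsq z.1))) = nsq z.1
      rw [nsq_te, Real.sq_sqrt (nsq_nonneg _)]
    have h3 : G (tpt (n := n) (Real.sqrt (nsq z.1)) (by nlinarith)).1 = G z.1 := radial_eq hG h5
    rw [h3, h2, h5] at h1
    have h6 : (Real.sqrt (nsq z.1) : ℂ) * conj (Real.sqrt (nsq z.1) : ℂ) = (nsq z.1 : ℂ) := by
      rw [Complex.conj_ofReal, ← Complex.ofReal_mul, Real.mul_self_sqrt (nsq_nonneg _)]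
    rw [h6] at h1
    have h7 : (nsq z.1 : ℂ) - (if (0 : Fin n) = 0 then (nsq z.1 : ℂ) / n else 0) ≠ 0 := by
      simp only [if_true]
      have e : (nsq z.1 : ℂ) - (nsq z.1 : ℂ) / n = (nsq z.1 : ℂ) * ((n : ℂ) - 1) / n := by
        field_simp
      rw [e]
      have h8 : (nsq z.1 : ℂ) ≠ 0 := by exact_mod_cast hz0
      have h9 : (n : ℂ) - 1 ≠ 0 := by
        rw [sub_ne_zero]
        exact_mod_cast hn
      exact div_ne_zero (mul_ne_zero h8 h9) hn0
    have h10 : G z.1 = 0 := (mul_eq_zero.1 h1).resolve_right h7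
    rw [h10]
    simp

lemma LamM_symm (a : Fin n → ℂ) (l j : Fin n) : LamM a l j = conj (LamM a j l) := by
  simp only [LamM, map_sub, map_div₀, map_mul, Complex.conj_conj, map_add, map_one,
    Complex.conj_ofReal]
  by_cases hij : l = j
  · subst hij; simp [mul_comm]
  · have hji : j ≠ l := fun h => hij h.symm
    simp [hij, hji, mul_comm]

/-- the first entry of the integrand for a matrix `g (v v^* - N/n)` -/
lemma entry_formula {a : Fin n → ℂ} (ha : nsq a ≤ 1) (g N : ℂ) (v : Fin n → ℂ)
    (m : Fin n → Fin n → ℂ) (hm : ∀ k l, m k l = g * (v k * conj (v l) - if k = l then N / n else 0))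
    (i j : Fin n) :
    ∑ l, ∑ k, (OmM a i k * LamM a l j) * m k l =
      g * (Om a v i * conj (Lam a v j) - if i = j then N / n * sq a else 0) := by
  have e1 : ∑ l, ∑ k, (OmM a i k * LamM a l j) * m k l =
      g * ((∑ k, OmM a i k * v k) * conj (∑ l, LamM a j l * v l)) -
      g * (N / n) * ∑ k, OmM a i k * LamM a k j := by
    simp only [hm]
    have h1 : ∀ l, ∑ k, OmM a i k * LamM a l j *
        (g * (v k * conj (v l) - if k = l then N / n else 0)) =
        g * ((∑ k, OmM a i k * v k) * (conj (LamM a j l) * conj (v l))) -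
          g * (N / n) * (OmM a i l * LamM a l j) := by
      intro l
      rw [Finset.sum_mul, Finset.mul_sum]
      have h2 : ∀ k, OmM a i k * LamM a l j *
          (g * (v k * conj (v l) - if k = l then N / n else 0)) =
          g * (OmM a i k * v k * (conj (LamM a j l) * conj (v l))) -
          (if k = l then g * (N / n) * (OmM a i l * LamM a l j) else 0) := by
        intro k
        rw [← LamM_symm]
        by_cases hkl : k = l
        · subst hkl; simp only [if_true]; ring
        · simp only [if_neg hkl]; ring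
      simp only [h2, Finset.sum_sub_distrib, Finset.sum_ite_eq', Finset.mem_univ, if_true]
    simp only [h1, Finset.sum_sub_distrib, ← Finset.mul_sum, map_sum, map_mul]
  rw [e1, ← Om_sum, ← Lam_sum, OmM_LamM ha]
  by_cases hij : i = j
  · simp only [if_pos hij]; ring
  · simp only [if_neg hij]; ring

/-- the left average of type (1,1) is a multiple of `R` -/
theorem left11 {M : Fin n → Fin n → C(CB n, ℂ)} (hM : Cov11 M)
    (htr : ∀ z, (mat M z).trace = 0) (z : CB n) (i j : Fin n) :
    L11 M z i j = (2 / ((n : ℂ) + 2)) * R0 (M i j) z := by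
  have hn : ((n : ℂ) + 2) ≠ 0 := by
    have : (0 : ℝ) < (n : ℝ) + 2 := by positivity
    exact_mod_cast this.ne'
  set c : ℂ := 2 / ((n : ℂ) + 2) with hc
  let D : CB n → Matrix (Fin n) (Fin n) ℂ := fun z => L11 M z - c • R11 M z
  have hD : Continuous D := (continuous_L11 M).sub ((continuous_R11 M).const_smul c)
  have hcov : ∀ (U : UG n) (z : CB n), D (act U z) = U.1 * D z * star U.1 := by
    intro U z
    show L11 M (act U z) - c • R11 M (act U z) = U.1 * (L11 M z - c • R11 M z) * star U.1
    rw [L11_cov hM, R11_cov hM, Matrix.mul_sub, Matrix.sub_mul, Matrix.mul_smul, Matrix.smul_mul]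
  have hDtr : ∀ z, (D z).trace = 0 := by
    intro z
    show (L11 M z - c • R11 M z).trace = 0
    rw [Matrix.trace_sub, Matrix.trace_smul, L11_trace htr, R11_trace htr]
    simp
  suffices h : D = fun _ => 0 by
    have := congrFun (congrFun (congrFun h z) i) j
    have h1 : L11 M z i j - c * R0 (M i j) z = 0 := this
    linear_combination h1
  refine cov11_zero D hD hcov hDtr fun t ht0 ht1 => ?_
  have hMc : Continuous (mat M) := continuous_matrix fun i j => (M i j).continuous
  obtain ⟨G, hGm, hG, ⟨C, hC⟩, hMG⟩ := struct11 (mat M) hMc hM htr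
  set z : CB n := tpt t (by nlinarith) with hz
  have hzt : z.1 = te n t := rfl
  have hz1 : nsq z.1 < 1 := by rw [hzt, nsq_te]; nlinarith
  have hkey : (t : ℂ) ^ 2 * D z 0 0 = 0 := by
    let g : (Fin n → ℂ) → ℂ := fun w => G w *
      (-(ip z.1 w) * ((nsq w : ℂ) * nsq z.1 - ip w z.1) / (1 - ip z.1 w)
        - (nsq z.1 : ℂ) * nsq w / n - c * (ip w z.1 * ip z.1 w - (nsq z.1 : ℂ) * nsq w / n))
    let f : (Fin n → ℂ) → ℂ := fun a => if nsq a < 1 then g (mob z.1 a) else 0
    have e1 : (t : ℂ) ^ 2 * D z 0 0 = ∫ a : CB n, f a.1 * ((1 - nsq a.1 : ℝ) : ℂ) ∂(vB n) := by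
      show (t : ℂ) ^ 2 * (L11 M z 0 0 - c * R0 (M 0 0) z) = _
      simp only [L11, Matrix.of_apply, R0]
      rw [← integral_const_mul, ← integral_sub (integrable_vB (L11k_slice M 0 0 z))
        ((integrable_right (M 0 0) z).const_mul c), ← integral_const_mul]
      congr 1
      funext a
      have hm : ∀ k l, M k l (T a z) = G (mob a.1 z.1) * (mob a.1 z.1 k * conj (mob a.1 z.1 l) -
          if k = l then (nsq (mob a.1 z.1) : ℂ) / n else 0) := fun k l => hMG (T a z) k l
      have hm2 : M 0 0 (T z a) = G (mob z.1 a.1) * (mob z.1 a.1 0 * conj (mob z.1 a.1 0) -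
          (nsq (mob z.1 a.1) : ℂ) / n) := by
        have := hMG (T z a) 0 0
        rw [if_pos rfl] at this
        exact this
      have e2 : L11k M a z 0 0 = sq a.1 * (G (mob a.1 z.1) * (Om a.1 (mob a.1 z.1) 0 *
          conj (Lam a.1 (mob a.1 z.1) 0) - (nsq (mob a.1 z.1) : ℂ) / n * sq a.1)) := by
        rw [L11k_apply]
        have := entry_formula a.2 (G (mob a.1 z.1)) (nsq (mob a.1 z.1)) (mob a.1 z.1)
          (fun k l => M k l (T a z)) hm 0 0
        simp only [if_true] at this
        rw [← this, Finset.mul_sum]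
        refine Finset.sum_congr rfl fun l _ => ?_
        rw [Finset.mul_sum]
        refine Finset.sum_congr rfl fun k _ => ?_
        simp only [Complex.real_smul]
        ring
      rw [e2, hm2]
      by_cases ha : nsq a.1 < 1
      · have hx := mob_mem_open hz1 ha
        have h0 : mob z.1 (mob z.1 a.1) = a.1 := mob_mob hz1 (ip_ne_one ha.le hz1)
        have h1 := kern_Om hz1 hx
        have h2 := kern_Lam hz1 hx
        rw [h0] at h1 h2
        have hcomm : nsq (mob a.1 z.1) = nsq (mob z.1 a.1) :=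
          nsq_mob_comm ha.le hz1.le (ip_ne_one' hz1 ha.le)
        have h3 : G (mob a.1 z.1) = G (mob z.1 a.1) := radial_eq hG hcomm
        rw [h3, hcomm]
        simp only [f, if_pos ha, g]
        have h4 : (sq a.1 : ℂ) ^ 2 = 1 - (nsq a.1 : ℂ) := sq_sqC ha.le
        have h5 : 1 - ip (mob z.1 a.1) z.1 ≠ 0 := one_sub_ip_ne hx.le hz1
        have h6 : 1 - ip z.1 (mob z.1 a.1) ≠ 0 := one_sub_ip_ne' hz1 hx.le
        -- rewrite the products of first components
        have h7 : (t : ℂ) ^ 2 * (Om a.1 (mob a.1 z.1) 0 * conj (Lam a.1 (mob a.1 z.1) 0)) =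
            ip (Om a.1 (mob a.1 z.1)) z.1 * ip z.1 (Lam a.1 (mob a.1 z.1)) := by
          rw [hzt, ip_te_right, ip_te_left]; ring
        have h8 : (t : ℂ) ^ 2 * (mob z.1 a.1 0 * conj (mob z.1 a.1 0)) =
            ip (mob z.1 a.1) z.1 * ip z.1 (mob z.1 a.1) := by
          rw [hzt, ip_te_right, ip_te_left]; ring
        have h9 : (nsq z.1 : ℂ) = (t : ℂ) ^ 2 := by rw [hzt, nsq_te]; push_cast; ring
        rw [h1, h2] at h7
        have h10 : (wt a : ℂ) = (sq a.1 : ℂ) ^ 2 := by rw [h4]; simp [wt]
        have h11 : ((1 - nsq a.1 : ℝ) : ℂ) = (sq a.1 : ℂ) ^ 2 := by rw [h4]; push_cast; ring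
        simp only [Complex.real_smul]
        rw [h10, h11, h9]
        rw [h9] at h7
        have h12 : ((nsq (mob z.1 a.1) : ℂ) * (t : ℂ) ^ 2 - ip (mob z.1 a.1) z.1) /
            (1 - ip (mob z.1 a.1) z.1) *
            (-(sq a.1 : ℂ) * ip z.1 (mob z.1 a.1) * (1 - ip (mob z.1 a.1) z.1) /
              (1 - ip z.1 (mob z.1 a.1))) =
            (sq a.1 : ℂ) * (-(ip z.1 (mob z.1 a.1)) *
              ((nsq (mob z.1 a.1) : ℂ) * (t : ℂ) ^ 2 - ip (mob z.1 a.1) z.1) /
                (1 - ip z.1 (mob z.1 a.1))) := by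
          field_simp
        rw [h12] at h7
        linear_combination (sq a.1 : ℂ) * G (mob z.1 a.1) * h7 -
          c * (sq a.1 : ℂ) ^ 2 * G (mob z.1 a.1) * h8
      · have ha1 : nsq a.1 = 1 := le_antisymm a.2 (not_lt.1 ha)
        have h1 : sq a.1 = 0 := by simp [sq, ha1]
        have h2 : wt a = 0 := wt_zero ha1
        simp only [f, if_neg ha, h1, h2]
        simp
    rw [e1, integral_vB_wt f]
    have e3 : ∀ a ∈ {w : Fin n → ℂ | nsq w < 1}, f a * ((1 - nsq a : ℝ) : ℂ) =
        g (mob z.1 a) * ((1 - nsq a : ℝ) : ℂ) := by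
      intro a ha
      have ha1 : nsq a < 1 := ha
      simp only [f, if_pos ha1]
    rw [setIntegral_congr_fun measurableSet_ball e3, change_var z.1 hz1 g]
    have e4 : ∀ w : Fin n → ℂ, g w * ((1 - nsq w : ℝ) : ℂ) * (((1 - nsq z.1 : ℝ) : ℂ) ^ (n + 2) /
        ((1 - ip w z.1) ^ (n + 2) * (1 - ip z.1 w) ^ (n + 2))) =
        ((1 - nsq z.1 : ℝ) : ℂ) ^ (n + 2) * ((G w * ((1 - nsq w : ℝ) : ℂ)) *
      ((-(t * starRingEnd ℂ (w 0)) * ((nsq w : ℂ) * t ^ 2 - t * w 0) / (1 - t * starRingEnd ℂ (w 0))
          - (t : ℂ) ^ 2 * nsq w / n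
          - 2 / ((n : ℂ) + 2) * ((t : ℂ) ^ 2 * (w 0 * starRingEnd ℂ (w 0)) - (t : ℂ) ^ 2 * nsq w / n)) /
        ((1 - t * w 0) ^ (n + 2) * (1 - t * starRingEnd ℂ (w 0)) ^ (n + 2)))) := by
      intro w
      simp only [g]
      rw [hzt, ip_te_right, ip_te_left, nsq_te]
      push_cast
      ring
    simp only [e4]
    rw [integral_const_mul, kernel11 (fun w => G w * ((1 - nsq w : ℝ) : ℂ)) ?_ C ?_ ?_ t ht0.le ht1,
      mul_zero]
    · refine (hGm.mul ?_).aestronglyMeasurable
      exact (Complex.continuous_ofReal.comp (continuous_const.sub continuous_nsq)).measurable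
    · intro w hw
      have h1 := hC w hw
      have h2 := nsq_nonneg w
      have h3 : ‖((1 - nsq w : ℝ) : ℂ)‖ ≤ 1 := by
        rw [Complex.norm_real, Real.norm_eq_abs, abs_of_nonneg (by linarith)]
        linarith
      rw [norm_mul]
      calc ‖G w‖ * ‖((1 - nsq w : ℝ) : ℂ)‖ * nsq w
          ≤ ‖G w‖ * 1 * nsq w := by gcongr
        _ ≤ C := by rw [mul_one]; exact h1
    · intro U w
      simp only [hG, nsq_mv]
  have ht : (t : ℂ) ^ 2 ≠ 0 := pow_ne_zero _ (by exact_mod_cast ht0.ne')
  exact (mul_eq_zero.1 hkey).resolve_left ht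

end Pool.Agent.Ball
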