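import Pool.Agent.Helper76.Ball0

set_option autoImplicit false

/-! Module A for MP_a59212_an: automorphisms of the ball fixing `0` are unitary (Cartan). -/

namespace Pool.Agent.Ball

open Metric

variable {n : ℕ}

/-- The Euclidean version of a map of `ℂⁿ`. -/
noncomputable def euc (ψ : (Fin n → ℂ) → (Fin n → ℂ)) (x : EuclideanSpace ℂ (Fin n)) :
    EuclideanSpace ℂ (Fin n) := WithLp.toLp 2 (ψ (WithLp.ofLp x))

lemma nsq_ofLp (x : EuclideanSpace ℂ (Fin n)) : nsq (WithLp.ofLp x) = ‖x‖ ^ 2 := by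
  rw [EuclideanSpace.norm_sq_eq]; rfl

lemma nsq_lt_one_iff (x : EuclideanSpace ℂ (Fin n)) : nsq (WithLp.ofLp x) < 1 ↔ ‖x‖ < 1 := by
  rw [nsq_ofLp]
  constructor
  · intro h
    nlinarith [norm_nonneg x]
  · intro h
    nlinarith [norm_nonneg x]

lemma euc_diff {ψ : (Fin n → ℂ) → (Fin n → ℂ)}
    (hψ : DifferentiableOn ℂ ψ {z : Fin n → ℂ | nsq z < 1}) :
    DifferentiableOn ℂ (euc ψ) (ball 0 1) := by
  have h1 : Differentiable ℂ (fun x : EuclideanSpace ℂ (Fin n) => WithLp.ofLp x) :=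
    (PiLp.continuousLinearEquiv 2 ℂ (fun _ : Fin n => ℂ)).differentiable
  have h2 : Differentiable ℂ (fun x : Fin n → ℂ =>
      (WithLp.toLp 2 x : EuclideanSpace ℂ (Fin n))) :=
    (PiLp.continuousLinearEquiv 2 ℂ (fun _ : Fin n => ℂ)).symm.differentiable
  refine h2.comp_differentiableOn (hψ.comp h1.differentiableOn ?_)
  intro x hx
  rw [mem_ball_zero_iff] at hx
  exact (nsq_lt_one_iff x).2 hx

lemma euc_norm_lt {ψ : (Fin n → ℂ) → (Fin n → ℂ)}
    (hψm : ∀ z, nsq z < 1 → nsq (ψ z) < 1) {x : EuclideanSpace ℂ (Fin n)} (hx : ‖x‖ < 1) :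
    ‖euc ψ x‖ < 1 := by
  rw [← nsq_lt_one_iff]
  exact hψm _ ((nsq_lt_one_iff x).2 hx)

theorem cartan (ψ χ : (Fin n → ℂ) → (Fin n → ℂ))
    (hψ : DifferentiableOn ℂ ψ {z : Fin n → ℂ | nsq z < 1})
    (hχ : DifferentiableOn ℂ χ {z : Fin n → ℂ | nsq z < 1})
    (hψm : ∀ z, nsq z < 1 → nsq (ψ z) < 1)
    (hinv : ∀ z, nsq z < 1 → nsq (χ z) < 1 ∧ ψ (χ z) = z ∧ χ (ψ z) = z)
    (h0 : ψ 0 = 0) :
    ∃ U : UG n, ∀ z, nsq z < 1 → ψ z = mv U.1 z := by
  set E := EuclideanSpace ℂ (Fin n) with hE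
  -- basic facts
  have hn0 : nsq (0 : Fin n → ℂ) < 1 := by simp [nsq]
  have hχ0 : χ 0 = 0 := by
    have := (hinv 0 hn0).2.2
    rwa [h0] at this
  have hP := euc_diff hψ
  have hX := euc_diff hχ
  have hP0 : euc ψ 0 = 0 := by
    simp only [euc, WithLp.ofLp_zero, h0, WithLp.toLp_zero]
  have hX0 : euc χ 0 = 0 := by
    simp only [euc, WithLp.ofLp_zero, hχ0, WithLp.toLp_zero]
  have hPle : ∀ x : E, ‖x‖ < 1 → ‖euc ψ x‖ ≤ ‖x‖ := fun x hx =>
    Complex.norm_le_norm_of_mapsTo_ball hP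
      (fun y hy => by
        rw [mem_ball_zero_iff] at hy
        rw [mem_closedBall_zero_iff]
        exact (euc_norm_lt hψm hy).le) hP0 hx
  have hXle : ∀ x : E, ‖x‖ < 1 → ‖euc χ x‖ ≤ ‖x‖ := fun x hx =>
    Complex.norm_le_norm_of_mapsTo_ball hX
      (fun y hy => by
        rw [mem_ball_zero_iff] at hy
        rw [mem_closedBall_zero_iff]
        exact (euc_norm_lt (fun z hz => (hinv z hz).1) hy).le) hX0 hx
  have hXP : ∀ x : E, ‖x‖ < 1 → euc χ (euc ψ x) = x := fun x hx => by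
    have := (hinv (WithLp.ofLp x) ((nsq_lt_one_iff x).2 hx)).2.2
    simp only [euc, WithLp.ofLp_toLp, this, WithLp.toLp_ofLp]
  have hnorm : ∀ x : E, ‖x‖ < 1 → ‖euc ψ x‖ = ‖x‖ := fun x hx => by
    refine le_antisymm (hPle x hx) ?_
    have h1 := hXle (euc ψ x) (euc_norm_lt hψm hx)
    rwa [hXP x hx] at h1
  -- the derivative at zero
  set A : E →L[ℂ] E := fderiv ℂ (euc ψ) 0 with hA
  have hAd : HasFDerivAt (euc ψ) A 0 :=
    (hP.differentiableAt (ball_mem_nhds _ one_pos)).hasFDerivAt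
  -- linear on unit discs
  have hdisc : ∀ ζ : E, ‖ζ‖ = 1 → ∀ l : ℂ, ‖l‖ < 1 → euc ψ (l • ζ) = l • A ζ := by
    intro ζ hζ l hl
    set f : ℂ → E := fun l => euc ψ (l • ζ) with hf
    have hmaps : Set.MapsTo (fun l : ℂ => l • ζ) (ball 0 1) (ball 0 1) := fun m hm => by
      rw [mem_ball_zero_iff] at hm ⊢
      rw [norm_smul, hζ, mul_one]; exact hm
    have hlin : Differentiable ℂ (fun l : ℂ => l • ζ) := differentiable_id.smul_const ζ
    have hfd : DifferentiableOn ℂ f (ball 0 1) := hP.comp hlin.differentiableOn hmaps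
    have hf0 : f 0 = 0 := by simp only [hf, zero_smul, hP0]
    have hfn : ∀ m : ℂ, ‖m‖ < 1 → ‖f m‖ = ‖m‖ := fun m hm => by
      have h1 : ‖m • ζ‖ = ‖m‖ := by rw [norm_smul, hζ, mul_one]
      have h2 := hnorm (m • ζ) (by rw [h1]; exact hm)
      rw [h1] at h2
      exact h2
    have h12 : ((1 / 2 : ℂ)) ∈ ball (0 : ℂ) 1 := by
      rw [mem_ball_zero_iff]; norm_num
    have hds : ‖dslope f 0 (1 / 2)‖ = 1 / 1 := by
      rw [dslope_of_ne _ (by norm_num : (1 / 2 : ℂ) ≠ 0), slope_def_module, hf0, sub_zero, sub_zero,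
        norm_smul, hfn _ (by norm_num), norm_inv, inv_mul_cancel₀ (by norm_num), div_one]
    have haff := Complex.affine_of_mapsTo_ball_of_norm_dslope_eq_div hfd
      (fun m hm => by
        rw [mem_ball_zero_iff] at hm
        rw [hf0, mem_closedBall_zero_iff, hfn m hm]
        exact hm.le) h12 hds
    set v := dslope f 0 (1 / 2) with hv
    have hfv : ∀ m : ℂ, ‖m‖ < 1 → f m = m • v := fun m hm => by
      have := haff (mem_ball_zero_iff.2 hm)
      simpa [hf0] using this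
    have hd1 : HasDerivAt f v 0 := by
      have h1 : HasDerivAt (fun m : ℂ => m • v) v 0 := by
        simpa using (hasDerivAt_id (0 : ℂ)).smul_const v
      refine h1.congr_of_eventuallyEq ?_
      filter_upwards [ball_mem_nhds (0 : ℂ) one_pos] with m hm
      exact hfv m (mem_ball_zero_iff.1 hm)
    have hd2 : HasDerivAt f (A ζ) 0 := by
      have h1 : HasDerivAt (fun m : ℂ => m • ζ) ζ 0 := by
        simpa using (hasDerivAt_id (0 : ℂ)).smul_const ζ
      have h2 : HasFDerivAt (euc ψ) A ((fun m : ℂ => m • ζ) 0) := by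
        simpa using hAd
      exact h2.comp_hasDerivAt 0 h1
    have hvA : v = A ζ := hd1.unique hd2
    have := hfv l hl
    rw [hvA] at this
    exact this
  have hlinear : ∀ x : E, ‖x‖ < 1 → euc ψ x = A x := by
    intro x hx
    rcases eq_or_ne x 0 with rfl | hx0
    · rw [hP0, map_zero]
    · have hnx : ‖x‖ ≠ 0 := norm_ne_zero_iff.2 hx0
      have hc : ((‖x‖ : ℝ) : ℂ) ≠ 0 := by exact_mod_cast hnx
      have hζ : ‖((‖x‖ : ℝ) : ℂ)⁻¹ • x‖ = 1 := by
        rw [norm_smul, norm_inv, Complex.norm_real, norm_norm, inv_mul_cancel₀ hnx]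
      have h1 := hdisc _ hζ ((‖x‖ : ℝ) : ℂ) (by rw [Complex.norm_real, norm_norm]; exact hx)
      rw [smul_smul, mul_inv_cancel₀ hc, one_smul, map_smul, smul_smul, mul_inv_cancel₀ hc,
        one_smul] at h1
      exact h1
  have hAnorm : ∀ x : E, ‖A x‖ = ‖x‖ := by
    intro x
    have hpos : (0 : ℝ) < ‖x‖ + 1 := by positivity
    set c : ℂ := (((‖x‖ + 1)⁻¹ : ℝ) : ℂ) with hc
    have hcn : ‖c‖ = (‖x‖ + 1)⁻¹ := by
      rw [hc, Complex.norm_real, Real.norm_of_nonneg (by positivity)]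
    have hlt : ‖c • x‖ < 1 := by
      rw [norm_smul, hcn, inv_mul_lt_iff₀ hpos]
      linarith
    have h1 := hnorm (c • x) hlt
    rw [hlinear _ hlt, map_smul, norm_smul, norm_smul, hcn] at h1
    exact mul_left_cancel₀ (by positivity) h1
  let L : E →ₗᵢ[ℂ] E := ⟨A.toLinearMap, hAnorm⟩
  -- the matrix
  let U : Matrix (Fin n) (Fin n) ℂ :=
    Matrix.of fun i j => WithLp.ofLp (A (EuclideanSpace.single j (1 : ℂ))) i
  have hU : U ∈ Matrix.unitaryGroup (Fin n) ℂ := by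
    rw [Matrix.mem_unitaryGroup_iff']
    ext i j
    have h1 : inner ℂ (A (EuclideanSpace.single i (1 : ℂ))) (A (EuclideanSpace.single j (1 : ℂ))) =
        inner ℂ (EuclideanSpace.single i (1 : ℂ)) (EuclideanSpace.single j (1 : ℂ)) :=
      L.inner_map_map _ _
    rw [EuclideanSpace.inner_single_left, map_one, one_mul] at h1
    rw [Matrix.mul_apply, Matrix.one_apply]
    rw [PiLp.inner_apply] at h1
    have h2 : (EuclideanSpace.single j (1 : ℂ) : E) i = if i = j then 1 else 0 := by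
      simp
    rw [h2] at h1
    rw [← h1]
    refine Finset.sum_congr rfl fun k _ => ?_
    rw [Matrix.star_apply]
    simp only [U, Matrix.of_apply, RCLike.inner_apply]
    exact mul_comm _ _
  refine ⟨⟨U, hU⟩, fun z hz => ?_⟩
  have hz' : ‖(WithLp.toLp 2 z : E)‖ < 1 := by
    rw [← nsq_lt_one_iff]; exact hz
  have h1 := hlinear _ hz'
  have h2 : (WithLp.toLp 2 z : E) = ∑ j, z j • (EuclideanSpace.single j (1 : ℂ) : E) := by
    ext i
    simp [Pi.single_apply]
  have h3 : ψ z = WithLp.ofLp (A (WithLp.toLp 2 z)) := by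
    rw [← h1]
    simp only [euc, WithLp.ofLp_toLp]
  rw [h3, h2, map_sum]
  ext i
  simp only [map_smul, mv, U, Matrix.mulVec, dotProduct, Matrix.of_apply]
  rw [WithLp.ofLp_sum, Finset.sum_apply]
  refine Finset.sum_congr rfl fun j _ => ?_
  exact mul_comm (z j) _

end Pool.Agent.Ball
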