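import Pool.Agent.Helper76.Ball6
import Pool.Agent.Helper76.BallA

set_option autoImplicit false
set_option linter.unusedSectionVars false
open MeasureTheory

/-! Module F for MP_a59212_an: the Poisson operator and the automorphisms of the ball. -/

namespace Pool.Agent.Ball

variable {n : ℕ} [NeZero n]

/-- the open ball is dense in the closed ball -/
theorem dense_ball : Dense {w : CB n | nsq w.1 < 1} := by
  intro w
  let c : ℕ → ℝ := fun k => (k : ℝ) / (k + 1)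
  have hc0 : ∀ k, 0 ≤ c k := fun k => by positivity
  have hc1 : ∀ k, c k < 1 := fun k => by
    have : (0 : ℝ) < k + 1 := by positivity
    rw [div_lt_one this]
    linarith
  have hn : ∀ k, nsq (fun i => (c k : ℂ) * w.1 i) = c k ^ 2 * nsq w.1 := by
    intro k
    simp only [nsq, Finset.mul_sum, norm_mul, mul_pow, Complex.norm_real, Real.norm_eq_abs, sq_abs]
  have hlt : ∀ k, nsq (fun i => (c k : ℂ) * w.1 i) < 1 := by
    intro k
    rw [hn]
    have h1 : c k ^ 2 < 1 := by nlinarith [hc0 k, hc1 k]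
    have h2 : nsq w.1 ≤ 1 := w.2
    nlinarith [nsq_nonneg w.1, sq_nonneg (c k)]
  let f : ℕ → CB n := fun k => ⟨fun i => (c k : ℂ) * w.1 i, (hlt k).le⟩
  refine mem_closure_of_tendsto (f := f) (b := Filter.atTop) ?_
    (Filter.Eventually.of_forall fun k => hlt k)
  rw [tendsto_subtype_rng]
  rw [tendsto_pi_nhds]
  intro i
  have h1 : Filter.Tendsto c Filter.atTop (nhds 1) := tendsto_natCast_div_add_atTop (1 : ℝ)
  have h2 : Filter.Tendsto (fun k => (c k : ℂ) * w.1 i) Filter.atTop (nhds (((1 : ℝ) : ℂ) * w.1 i)) :=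
    ((Complex.continuous_ofReal.tendsto 1).comp h1).mul_const _
  simpa using h2

lemma diffOn_mob {a : Fin n → ℂ} (ha : nsq a < 1) :
    DifferentiableOn ℂ (mob a) {z : Fin n → ℂ | nsq z < 1} := fun _ hz =>
  (hasFDerivAt_mob (ip_ne_one (le_of_lt hz) ha)).differentiableAt.differentiableWithinAt

lemma mapsTo_mob {a : Fin n → ℂ} (ha : nsq a < 1) :
    Set.MapsTo (mob a) {z : Fin n → ℂ | nsq z < 1} {z : Fin n → ℂ | nsq z < 1} := fun _ hz =>
  mob_mem_open ha hz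

lemma mob_mob' {a z : Fin n → ℂ} (ha : nsq a < 1) (hz : nsq z < 1) : mob a (mob a z) = z :=
  mob_mob ha (ip_ne_one hz.le ha)

/-- composition of two Moebius maps is a Moebius map after a unitary map -/
theorem T_comp (a z : CB n) (ha : nsq a.1 < 1) (hz : nsq z.1 < 1) :
    ∃ W : UG n, ∀ w : CB n, T a (T z w) = T (T a z) (act W w) := by
  set b : Fin n → ℂ := mob a.1 z.1 with hbdef
  have hb : nsq b < 1 := mob_mem_open ha hz
  have h0 : nsq (0 : Fin n → ℂ) < 1 := by rw [nsq_zero]; norm_num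
  obtain ⟨W, hW⟩ := cartan (fun w => mob b (mob a.1 (mob z.1 w)))
    (fun w => mob z.1 (mob a.1 (mob b w)))
    ((diffOn_mob hb).comp ((diffOn_mob ha).comp (diffOn_mob hz) (mapsTo_mob hz))
      ((mapsTo_mob ha).comp (mapsTo_mob hz)))
    ((diffOn_mob hz).comp ((diffOn_mob ha).comp (diffOn_mob hb) (mapsTo_mob hb))
      ((mapsTo_mob ha).comp (mapsTo_mob hb)))
    (fun w hw => mob_mem_open hb (mob_mem_open ha (mob_mem_open hz hw)))
    (fun w hw => by
      refine ⟨mob_mem_open hz (mob_mem_open ha (mob_mem_open hb hw)), ?_, ?_⟩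
      · show mob b (mob a.1 (mob z.1 (mob z.1 (mob a.1 (mob b w))))) = w
        rw [mob_mob' hz (mob_mem_open ha (mob_mem_open hb hw)),
          mob_mob' ha (mob_mem_open hb hw), mob_mob' hb hw]
      · show mob z.1 (mob a.1 (mob b (mob b (mob a.1 (mob z.1 w))))) = w
        rw [mob_mob' hb (mob_mem_open ha (mob_mem_open hz hw)),
          mob_mob' ha (mob_mem_open hz hw), mob_mob' hz hw])
    (by
      show mob b (mob a.1 (mob z.1 0)) = 0
      rw [mob_zero_right, ← hbdef, mob_self hb])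
  refine ⟨W, ?_⟩
  have hTb : nsq (T a z).1 < 1 := hb
  have h1 : ∀ w : CB n, nsq w.1 < 1 → T a (T z w) = T (T a z) (act W w) := by
    intro w hw
    apply Subtype.ext
    show mob a.1 (mob z.1 w.1) = mob b (mv W.1 w.1)
    have h2 : mob b (mob a.1 (mob z.1 w.1)) = mv W.1 w.1 := hW w.1 hw
    rw [← h2, mob_mob' hb (mob_mem_open ha (mob_mem_open hz hw))]
  have h2 : Continuous fun w : CB n => T a (T z w) := by
    have h4 := Continuous.comp (TC a ha).continuous (TC z hz).continuous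
    exact h4
  have h3 : Continuous fun w : CB n => T (T a z) (act W w) := by
    have h4 := Continuous.comp (TC (T a z) hTb).continuous (actC W).continuous
    exact h4
  have h5 := Continuous.ext_on dense_ball h2 h3 (fun w hw => h1 w hw)
  exact fun w => congrFun h5 w

/-- `P` commutes with the Moebius maps -/
theorem Pc_T (f : C(CB n, ℂ)) (a : CB n) (ha : nsq a.1 < 1) (z : CB n) :
    Pc (f.comp (TC a ha)) z = Pc f (T a z) := by
  by_cases hz : nsq z.1 = 1
  · have hTz : nsq (T a z).1 = 1 := mob_sphere ha hz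
    rw [Pc_sphere (f.comp (TC a ha)) hz]
    have h2 := Pc_sphere f hTz
    rw [h2]
    rfl
  · have hz' : nsq z.1 < 1 := lt_of_le_of_ne z.2 hz
    obtain ⟨W, hW⟩ := T_comp a z ha hz'
    rw [Pc_apply, Pc_apply]
    have h1 : ∀ U : UG n, (f.comp (TC a ha)) (T z (col U)) = f (T (T a z) (col (W * U))) := by
      intro U
      rw [col_mul, ← hW]
      rfl
    simp only [h1]
    exact int_left W (fun U => f (T (T a z) (col U)))

/-- mean value property of `P f` against radial integrable weights -/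
theorem int_Pc_radial (f : C(CB n, ℂ)) (g : CB n → ℂ) (hg : Continuous g)
    (hinv : ∀ (U : UG n) w, g (act U w) = g w) :
    ∫ w, Pc f w * g w ∂(vB n) = Pc f (cen n) * ∫ w, g w ∂(vB n) := by
  rw [int_average (fun w => Pc f w * g w) ((Pc f).continuous.mul hg)]
  have h1 : ∀ z : CB n, ∫ U, Pc f (act U z) * g (act U z) ∂(hU n) = Pc f (cen n) * g z := by
    intro z
    simp only [hinv]
    rw [integral_mul_const, avg_Pc]
  simp only [h1]
  exact integral_const_mul _ _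

/-- `R P = P` -/
theorem Rc_Pc (f : C(CB n, ℂ)) : Rc (Pc f) = Pc f := by
  have hcw : (cw n : ℂ) ≠ 0 := by exact_mod_cast (cw_pos (n := n)).ne'
  have hint : ∫ w, ((wt w : ℝ) : ℂ) ∂(vB n) = (cw n : ℂ) := by
    rw [cw]
    exact integral_ofReal
  ext z
  rw [Rc_apply]
  by_cases hz : nsq z.1 = 1
  · have h1 : ∀ w : CB n, wt w • Pc f (T z w) = Pc f z * ((wt w : ℝ) : ℂ) := by
      intro w
      by_cases hw : nsq w.1 = 1
      · rw [wt_zero hw]
        simp
      · have hw' : nsq w.1 < 1 := lt_of_le_of_ne w.2 hw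
        have h2 : T z w = z := Subtype.ext (mob_of_sphere_left hz (ip_ne_one' hw' z.2))
        rw [h2, Complex.real_smul, mul_comm]
    simp only [h1]
    rw [integral_const_mul, hint]
    field_simp
  · have hz' : nsq z.1 < 1 := lt_of_le_of_ne z.2 hz
    have h1 : ∀ w : CB n, wt w • Pc f (T z w) = Pc (f.comp (TC z hz')) w * ((wt w : ℝ) : ℂ) := by
      intro w
      rw [Pc_T, Complex.real_smul, mul_comm]
    simp only [h1]
    rw [int_Pc_radial _ (fun w => ((wt w : ℝ) : ℂ)) (Complex.continuous_ofReal.comp continuous_wt)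
      (fun U w => by rw [wt_act]), hint, Pc_T]
    have h2 : T z (cen n) = z := T_zero z
    rw [h2]
    field_simp

/-- the ball of radius `r` inside the closed ball -/
def Ar (n : ℕ) (r : ℝ) : Set (CB n) := {w | nsq w.1 < r ^ 2}

lemma isOpen_Ar (r : ℝ) : IsOpen (Ar n r) :=
  isOpen_lt (continuous_nsq.comp continuous_subtype_val) continuous_const

lemma act_preimage_Ar (U : UG n) (r : ℝ) : act U ⁻¹' (Ar n r) = Ar n r := by
  ext w
  simp only [Ar, Set.mem_preimage, Set.mem_ofPred_eq, nsq_act]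

lemma image_Ar {r : ℝ} (hr : r ^ 2 ≤ 1) :
    Subtype.val '' (Ar n r) = {z : Fin n → ℂ | ∑ i, ‖z i‖ ^ 2 < r ^ 2} := by
  ext z
  constructor
  · rintro ⟨w, hw, rfl⟩
    exact hw
  · intro hz
    have hz' : ∑ i, ‖z i‖ ^ 2 < r ^ 2 := hz
    exact ⟨⟨z, (hz'.trans_le hr).le⟩, hz', rfl⟩

lemma setInt_vB {r : ℝ} (hr : r ^ 2 ≤ 1) (h : (Fin n → ℂ) → ℂ) :
    ∫ w in Ar n r, h w.1 ∂(vB n) = ∫ z in {z : Fin n → ℂ | ∑ i, ‖z i‖ ^ 2 < r ^ 2}, h z := by
  have h1 : (vB n).map Subtype.val = volume.restrict (Set.range (Subtype.val : CB n → _)) :=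
    me_val.map_comap _
  have h2 := me_val.setIntegral_map (μ := vB n) h {z : Fin n → ℂ | ∑ i, ‖z i‖ ^ 2 < r ^ 2}
  have h3 : Subtype.val ⁻¹' {z : Fin n → ℂ | ∑ i, ‖z i‖ ^ 2 < r ^ 2} = Ar n r := rfl
  rw [h3] at h2
  rw [← h2, h1, Measure.restrict_restrict_of_subset]
  rw [← image_Ar hr]
  rintro _ ⟨w, -, rfl⟩
  exact ⟨w, rfl⟩

lemma vB_Ar {r : ℝ} (hr : r ^ 2 ≤ 1) :
    (vB n) (Ar n r) = volume {z : Fin n → ℂ | ∑ i, ‖z i‖ ^ 2 < r ^ 2} := by
  rw [vB, me_val.comap_apply, image_Ar hr]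

/-- mean value property over balls -/
lemma mean_Ar (k : C(CB n, ℂ)) (r : ℝ) :
    ∫ w in Ar n r, Pc k w ∂(vB n) = ((vB n) (Ar n r)).toReal • Pc k (cen n) := by
  have hme : ∀ U : UG n, MeasurableEmbedding (act U : CB n → CB n) := by
    intro U
    let e : CB n ≃ₜ CB n :=
      { toFun := act U
        invFun := act U⁻¹
        left_inv := fun z => act_inv_act U z
        right_inv := fun z => act_act_inv U z
        continuous_toFun := continuous_act_comp continuous_const continuous_id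
        continuous_invFun := continuous_act_comp continuous_const continuous_id }
    exact e.measurableEmbedding
  have h1 : ∀ U : UG n, ∫ w in Ar n r, Pc k (act U w) ∂(vB n) = ∫ w in Ar n r, Pc k w ∂(vB n) := by
    intro U
    have h2 := (mp_act U).restrict_preimage (isOpen_Ar (n := n) r).measurableSet
    rw [act_preimage_Ar] at h2
    exact h2.integral_comp (hme U) _
  have h2 : ∫ U, (∫ w in Ar n r, Pc k (act U w) ∂(vB n)) ∂(hU n) = ∫ w in Ar n r, Pc k w ∂(vB n) := by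
    simp only [h1]
    simp
  rw [← h2]
  have hc : Continuous fun p : UG n × CB n => Pc k (act p.1 p.2) :=
    (Pc k).continuous.comp continuous_act
  rw [integral_integral_swap_of_hasCompactSupport (f := fun U z => Pc k (act U z)) hc
    (HasCompactSupport.of_compactSpace _)]
  have h3 : ∀ z : CB n, ∫ U, Pc k (act U z) ∂(hU n) = Pc k (cen n) := fun z => avg_Pc k z
  simp only [h3]
  rw [setIntegral_const]
  rfl

/-- `P f` belongs to the sixth class of the frozen statement -/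
theorem Pc_mvp (f : C(CB n, ℂ)) (F : (Fin n → ℂ) → ℂ) (hF : ∀ x : CB n, F x.1 = Pc f x)
    (ψ : (Fin n → ℂ) → (Fin n → ℂ))
    (h1 : DifferentiableOn ℂ ψ {z : Fin n → ℂ | ∑ i, ‖z i‖ ^ 2 < 1})
    (h2 : ∀ z : Fin n → ℂ, ∑ i, ‖z i‖ ^ 2 < 1 → ∑ i, ‖ψ z i‖ ^ 2 < 1)
    (h3 : ∃ χ : (Fin n → ℂ) → (Fin n → ℂ),
      DifferentiableOn ℂ χ {z : Fin n → ℂ | ∑ i, ‖z i‖ ^ 2 < 1} ∧
      ∀ z : Fin n → ℂ, ∑ i, ‖z i‖ ^ 2 < 1 →
        ∑ i, ‖χ z i‖ ^ 2 < 1 ∧ ψ (χ z) = z ∧ χ (ψ z) = z)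
    (r : ℝ) (hr0 : 0 < r) (hr1 : r < 1) :
    ∫ z in {z : Fin n → ℂ | ∑ i, ‖z i‖ ^ 2 < r ^ 2}, F (ψ z) =
      (volume {z : Fin n → ℂ | ∑ i, ‖z i‖ ^ 2 < r ^ 2}).toReal • F (ψ 0) := by
  obtain ⟨χ, hχ, hχ'⟩ := h3
  have hr : r ^ 2 ≤ 1 := by nlinarith
  have h0 : nsq (0 : Fin n → ℂ) < 1 := by rw [nsq_zero]; norm_num
  set a : Fin n → ℂ := ψ 0 with hadef
  have ha : nsq a < 1 := h2 0 h0
  have ha1 : ∑ i, ‖a i‖ ^ 2 ≤ 1 := ha.le
  obtain ⟨W, hW⟩ := cartan (fun w => mob a (ψ w)) (fun w => χ (mob a w))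
    ((diffOn_mob ha).comp h1 (fun z hz => h2 z hz))
    (DifferentiableOn.comp (t := {z : Fin n → ℂ | nsq z < 1}) hχ (diffOn_mob ha) (mapsTo_mob ha))
    (fun z hz => mob_mem_open ha (h2 z hz))
    (fun z hz => by
      have h4 := mob_mem_open ha hz
      obtain ⟨h5, h6, h7⟩ := hχ' (mob a z) h4
      obtain ⟨h8, h9, h10⟩ := hχ' z hz
      refine ⟨h5, ?_, ?_⟩
      · show mob a (ψ (χ (mob a z))) = z
        rw [h6, mob_mob' ha hz]
      · show χ (mob a (mob a (ψ z))) = z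
        rw [mob_mob' ha (h2 z hz), h10])
    (by
      show mob a (ψ 0) = 0
      rw [← hadef, mob_self ha])
  have hψ : ∀ z, nsq z < 1 → ψ z = mob a (mv W.1 z) := by
    intro z hz
    have h4 : mob a (ψ z) = mv W.1 z := hW z hz
    rw [← h4, mob_mob' ha (h2 z hz)]
  let k : C(CB n, ℂ) := (f.comp (TC ⟨a, ha1⟩ ha)).comp (actC W)
  have hk : ∀ w : CB n, nsq w.1 < 1 → F (ψ w.1) = Pc k w := by
    intro w hw
    rw [hψ w.1 hw]
    have h4 : mob a (mv W.1 w.1) = (T ⟨a, ha1⟩ (act W w)).1 := rfl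
    rw [h4, hF, Pc_act, Pc_T]
  have h5 : F (ψ 0) = Pc k (cen n) := hk (cen n) h0
  rw [← vB_Ar hr, ← setInt_vB hr (fun z => F (ψ z)), hadef, h5, ← mean_Ar]
  refine setIntegral_congr_fun (isOpen_Ar (n := n) r).measurableSet ?_
  intro w hw
  have hw' : nsq w.1 < r ^ 2 := hw
  exact hk w (hw'.trans_le hr)

instance : (vB n).IsOpenPosMeasure := by
  refine ⟨fun V hV hne => ?_⟩
  obtain ⟨w, hw, hwV⟩ := dense_ball.inter_open_nonempty V hV hne
  obtain ⟨O, hO, rfl⟩ := isOpen_induced_iff.1 hV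
  rw [vB, me_val.comap_apply]
  have h1 : O ∩ {z : Fin n → ℂ | nsq z < 1} ⊆ Subtype.val '' (Subtype.val ⁻¹' O : Set (CB n)) := by
    rintro z ⟨hz1, hz2⟩
    exact ⟨⟨z, le_of_lt hz2⟩, hz1, rfl⟩
  have h2 : 0 < volume (O ∩ {z : Fin n → ℂ | nsq z < 1}) :=
    (hO.inter isOpen_ball).measure_pos _ ⟨w.1, hw, hwV⟩
  exact (h2.trans_le (measure_mono h1)).ne'

/-- the sixth class consists of Poisson integrals (maximum principle) -/
theorem eq_Pc_of_mvp (h : C(CB n, ℂ))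
    (H : ∀ F : (Fin n → ℂ) → ℂ, (∀ x : CB n, F x.1 = h x) →
      ∀ ψ : (Fin n → ℂ) → (Fin n → ℂ),
      DifferentiableOn ℂ ψ {z : Fin n → ℂ | ∑ i, ‖z i‖ ^ 2 < 1} →
      (∀ z : Fin n → ℂ, ∑ i, ‖z i‖ ^ 2 < 1 → ∑ i, ‖ψ z i‖ ^ 2 < 1) →
      (∃ χ : (Fin n → ℂ) → (Fin n → ℂ),
        DifferentiableOn ℂ χ {z : Fin n → ℂ | ∑ i, ‖z i‖ ^ 2 < 1} ∧
        ∀ z : Fin n → ℂ, ∑ i, ‖z i‖ ^ 2 < 1 →
          ∑ i, ‖χ z i‖ ^ 2 < 1 ∧ ψ (χ z) = z ∧ χ (ψ z) = z) →
      ∀ r : ℝ, 0 < r → r < 1 →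
        ∫ z in {z : Fin n → ℂ | ∑ i, ‖z i‖ ^ 2 < r ^ 2}, F (ψ z) =
          (volume {z : Fin n → ℂ | ∑ i, ‖z i‖ ^ 2 < r ^ 2}).toReal • F (ψ 0)) :
    h = Pc h := by
  classical
  by_contra hne
  set g : C(CB n, ℂ) := h - Pc h with hg
  have hg0 : g ≠ 0 := fun h0 => hne (sub_eq_zero.1 h0)
  have hgs : ∀ z : CB n, nsq z.1 = 1 → g z = 0 := by
    intro z hz
    rw [hg, ContinuousMap.sub_apply, Pc_sphere h hz, sub_self]
  have hMpos : 0 < ‖g‖ := norm_pos_iff.2 hg0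
  have hneC : Nonempty (CB n) := ⟨cen n⟩
  obtain ⟨z0, -, hz0⟩ := (isCompact_univ : IsCompact (Set.univ : Set (CB n))).exists_isMaxOn
    Set.univ_nonempty (g.continuous.norm.continuousOn)
  have hz0' : ∀ z, ‖g z‖ ≤ ‖g z0‖ := fun z => hz0 (Set.mem_univ z)
  have hM : 0 < ‖g z0‖ := by
    by_contra hc
    have h1 : ∀ z, g z = 0 := fun z => norm_le_zero_iff.1 ((hz0' z).trans (not_lt.1 hc))
    exact hg0 (ContinuousMap.ext h1)
  have hz0b : nsq z0.1 < 1 := by
    refine lt_of_le_of_ne z0.2 fun h1 => ?_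
    rw [hgs z0 h1, norm_zero] at hM
    exact lt_irrefl _ hM
  -- the function `g ∘ φ_{z0}`
  let G : C(CB n, ℂ) := g.comp (TC z0 hz0b)
  have hGle : ∀ w, ‖G w‖ ≤ ‖g z0‖ := fun w => hz0' _
  have hGcen : G (cen n) = g z0 := by
    show g (T z0 (cen n)) = g z0
    rw [show T z0 (cen n) = z0 from T_zero z0]
  have hmean : ∀ r : ℝ, 0 < r → r < 1 →
      ∫ w in Ar n r, G w ∂(vB n) = ((vB n) (Ar n r)).toReal • G (cen n) := by
    intro r hr0 hr1
    have hr : r ^ 2 ≤ 1 := by nlinarith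
    let F : (Fin n → ℂ) → ℂ := fun x => if hx : ∑ i, ‖x i‖ ^ 2 ≤ 1 then h ⟨x, hx⟩ else 0
    have hF : ∀ x : CB n, F x.1 = h x := fun x => dif_pos x.2
    let F2 : (Fin n → ℂ) → ℂ := fun x => if hx : ∑ i, ‖x i‖ ^ 2 ≤ 1 then Pc h ⟨x, hx⟩ else 0
    have hF2 : ∀ x : CB n, F2 x.1 = Pc h x := fun x => dif_pos x.2
    have e1 := H F hF (mob z0.1) (diffOn_mob hz0b) (fun z hz => mob_mem_open hz0b hz)
      ⟨mob z0.1, diffOn_mob hz0b, fun z hz => ⟨mob_mem_open hz0b hz, mob_mob' hz0b hz,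
        mob_mob' hz0b hz⟩⟩ r hr0 hr1
    have e2 := Pc_mvp h F2 hF2 (mob z0.1) (diffOn_mob hz0b) (fun z hz => mob_mem_open hz0b hz)
      ⟨mob z0.1, diffOn_mob hz0b, fun z hz => ⟨mob_mem_open hz0b hz, mob_mob' hz0b hz,
        mob_mob' hz0b hz⟩⟩ r hr0 hr1
    rw [← vB_Ar hr, ← setInt_vB hr (fun z => F (mob z0.1 z))] at e1
    rw [← vB_Ar hr, ← setInt_vB hr (fun z => F2 (mob z0.1 z))] at e2
    have e3 : ∀ w : CB n, F (mob z0.1 w.1) = (h.comp (TC z0 hz0b)) w := fun w => hF (T z0 w)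
    have e4 : ∀ w : CB n, F2 (mob z0.1 w.1) = ((Pc h).comp (TC z0 hz0b)) w := fun w => hF2 (T z0 w)
    simp only [e3] at e1
    simp only [e4] at e2
    have e5 : F (mob z0.1 0) = (h.comp (TC z0 hz0b)) (cen n) := e3 (cen n)
    have e6 : F2 (mob z0.1 0) = ((Pc h).comp (TC z0 hz0b)) (cen n) := e4 (cen n)
    rw [e5] at e1
    rw [e6] at e2
    have e7 : ∀ w : CB n, G w = (h.comp (TC z0 hz0b)) w - ((Pc h).comp (TC z0 hz0b)) w :=
      fun w => rfl
    simp only [e7]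
    rw [integral_sub (integrable_vB (ContinuousMap.continuous _)).restrict
      (integrable_vB (ContinuousMap.continuous _)).restrict, e1, e2, smul_sub]
  -- the nonnegative function
  let φ : CB n → ℝ := fun w => ‖g z0‖ ^ 2 - (starRingEnd ℂ (g z0) * G w).re
  have hφc : Continuous φ :=
    continuous_const.sub (Complex.continuous_re.comp (continuous_const.mul G.continuous))
  have hφ0 : ∀ w, 0 ≤ φ w := by
    intro w
    have h1 : (starRingEnd ℂ (g z0) * G w).re ≤ ‖starRingEnd ℂ (g z0) * G w‖ := Complex.re_le_norm _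
    rw [norm_mul, RCLike.norm_conj] at h1
    have h2 := mul_le_mul_of_nonneg_left (hGle w) hM.le
    show 0 ≤ ‖g z0‖ ^ 2 - (starRingEnd ℂ (g z0) * G w).re
    nlinarith
  have hφr : ∀ r : ℝ, 0 < r → r < 1 → ∀ w ∈ Ar n r, φ w = 0 := by
    intro r hr0 hr1
    have hGi : Integrable (fun w => G w) ((vB n).restrict (Ar n r)) :=
      (integrable_vB G.continuous).restrict
    have e1 : ∫ w in Ar n r, φ w ∂(vB n) = 0 := by
      have e2 : ∫ w in Ar n r, φ w ∂(vB n) = (∫ _w in Ar n r, ‖g z0‖ ^ 2 ∂(vB n)) -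
          ∫ w in Ar n r, (starRingEnd ℂ (g z0) * G w).re ∂(vB n) :=
        integral_sub (integrable_const _) (hGi.const_mul _).re
      have e3 : ∫ w in Ar n r, (starRingEnd ℂ (g z0) * G w).re ∂(vB n) =
          (∫ w in Ar n r, starRingEnd ℂ (g z0) * G w ∂(vB n)).re :=
        integral_re (hGi.const_mul _)
      rw [e2, e3, integral_const_mul, hmean r hr0 hr1, hGcen, setIntegral_const]
      rw [Complex.real_smul]
      have e4 : starRingEnd ℂ (g z0) * ((((vB n) (Ar n r)).toReal : ℂ) * g z0) =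
          ((((vB n) (Ar n r)).toReal * ‖g z0‖ ^ 2 : ℝ) : ℂ) := by
        have e5 : starRingEnd ℂ (g z0) * g z0 = ((‖g z0‖ ^ 2 : ℝ) : ℂ) := by
          rw [mul_comm, Complex.mul_conj, Complex.normSq_eq_norm_sq]
        rw [Complex.ofReal_mul, ← e5]
        ring
      rw [e4, Complex.ofReal_re]
      simp [Measure.real]
    have e2 := (integral_eq_zero_iff_of_nonneg (fun w => hφ0 w)
      ((hφc.integrable_of_hasCompactSupport (HasCompactSupport.of_compactSpace _)).restrict)).1 e1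
    have e3 := Measure.eqOn_open_of_ae_eq e2 (isOpen_Ar r) hφc.continuousOn continuousOn_const
    exact fun w hw => e3 hw
  have hφb : ∀ w ∈ {w : CB n | nsq w.1 < 1}, φ w = 0 := by
    intro w hw
    have hw' : nsq w.1 < 1 := hw
    obtain ⟨t, ht1, ht2⟩ := exists_between hw'
    have ht0 : 0 < t := (nsq_nonneg w.1).trans_lt ht1
    refine hφr (Real.sqrt t) (Real.sqrt_pos.2 ht0) ?_ w ?_
    · rw [Real.sqrt_lt' one_pos]
      simpa using ht2
    · show nsq w.1 < Real.sqrt t ^ 2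
      rw [Real.sq_sqrt ht0.le]
      exact ht1
  have hφall := Continuous.ext_on dense_ball hφc continuous_const (fun w hw => hφb w hw)
  have e1 : φ (col 1) = 0 := congrFun hφall (col 1)
  have e2 : G (col 1) = 0 := hgs _ (mob_sphere hz0b (nsq_col 1))
  have e3 : φ (col 1) = ‖g z0‖ ^ 2 := by
    show ‖g z0‖ ^ 2 - (starRingEnd ℂ (g z0) * G (col 1)).re = _
    rw [e2]
    simp
  rw [e3] at e1
  exact absurd e1 (by positivity)

end Pool.Agent.Ball
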