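import Pool.Agent.Helper76.Ball6

set_option autoImplicit false
set_option linter.unusedSectionVars false
open MeasureTheory

/-! Module G of MP_a59212_an: the iterates of the averaging operator `R` tend to zero on the
functions vanishing on the sphere. -/

namespace Pool.Agent.Ball

variable {n : ℕ} [NeZero n]

/-! ### the mean of the Moebius maps -/

/-- coordinate functions -/
noncomputable def coordC (i : Fin n) : C(CB n, ℂ) :=
  ⟨fun z => z.1 i, (continuous_apply i).comp continuous_subtype_val⟩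

lemma coordC_apply (i : Fin n) (z : CB n) : coordC i z = z.1 i := rfl

lemma circle_mean (c a b : ℂ) (hc : ‖c‖ < 1) :
    (2 * Real.pi)⁻¹ • ∫ θ in (0 : ℝ)..2 * Real.pi,
      (a - Complex.exp (θ * Complex.I) * b) / (1 - Complex.exp (θ * Complex.I) * c) = a := by
  have h0 : ∀ x : ℂ, ‖x‖ ≤ 1 → 1 - x * c ≠ 0 := by
    intro x hx h
    have h1 : x * c = 1 := (sub_eq_zero.1 h).symm
    have h2 : ‖x * c‖ < 1 := by
      rw [norm_mul]
      calc ‖x‖ * ‖c‖ ≤ 1 * ‖c‖ := mul_le_mul_of_nonneg_right hx (norm_nonneg _)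
        _ < 1 := by rw [one_mul]; exact hc
    rw [h1, norm_one] at h2
    exact lt_irrefl _ h2
  have hd : DiffContOnCl ℂ (fun x : ℂ => (a - x * b) / (1 - x * c)) (Metric.ball 0 |(1 : ℝ)|) := by
    have h1 : DifferentiableOn ℂ (fun x : ℂ => (a - x * b) / (1 - x * c))
        (Metric.closedBall 0 1) := by
      intro x hx
      have hx' : ‖x‖ ≤ 1 := by simpa using hx
      apply DifferentiableAt.differentiableWithinAt
      have e1 : DifferentiableAt ℂ (fun x : ℂ => a - x * b) x := by fun_prop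
      have e2 : DifferentiableAt ℂ (fun x : ℂ => 1 - x * c) x := by fun_prop
      exact e1.fun_div e2 (h0 x hx')
    rw [abs_one]
    refine ⟨h1.mono Metric.ball_subset_closedBall, ?_⟩
    rw [closure_ball (0 : ℂ) one_ne_zero]
    exact h1.continuousOn
  have h2 := hd.circleAverage
  rw [Real.circleAverage_def] at h2
  simp only [circleMap_zero, Complex.ofReal_one, one_mul, zero_mul, sub_zero, div_one] at h2
  exact h2

lemma ip_smul_left' (x : ℂ) (w z : Fin n → ℂ) : ip (fun i => x * w i) z = x * ip w z := by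
  have := ip_lin_left x 0 w w z
  simpa using this

lemma act_phase_val (θ : ℝ) (w : CB n) :
    (act (phase n θ) w).1 = fun i => Complex.exp (θ * Complex.I) * w.1 i := by
  rw [act_val, phase_mv]

lemma T_phase (z w : CB n) (θ : ℝ) (i : Fin n) :
    (T z (act (phase n θ) w)).1 i =
      (z.1 i - Complex.exp (θ * Complex.I) * Om z.1 w.1 i) /
        (1 - Complex.exp (θ * Complex.I) * ip w.1 z.1) := by
  show mob z.1 (act (phase n θ) w).1 i = _
  rw [act_phase_val]
  simp only [mob, Om, ip_smul_left']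
  ring_nf

lemma continuous_phase_act : Continuous fun p : CB n × ℝ => act (phase n p.2) p.1 := by
  refine Continuous.subtype_mk ?_ _
  refine continuous_pi fun i => ?_
  have : (fun p : CB n × ℝ => mv (phase n p.2).1 p.1.1 i) =
      fun p : CB n × ℝ => Complex.exp (p.2 * Complex.I) * p.1.1 i := by
    funext p
    rw [phase_mv]
  rw [this]
  have h1 : Continuous fun p : CB n × ℝ => Complex.exp (p.2 * Complex.I) := by fun_prop
  exact h1.mul ((continuous_apply i).comp (continuous_subtype_val.comp continuous_fst))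

lemma int_coord (z : CB n) (i : Fin n) :
    ∫ w, wt w • (T z w).1 i ∂(vB n) = (cw n : ℂ) * z.1 i := by
  set I : ℂ := ∫ w, wt w • (T z w).1 i ∂(vB n) with hI
  have hpi := Real.pi_pos
  -- the integrand on the product
  set G : CB n → ℝ → ℂ := fun w θ => wt w • (T z (act (phase n θ) w)).1 i with hG
  have hGc : Continuous (Function.uncurry G) := by
    have h1 := continuous_right (coordC (n := n) i)
    have h2 : Continuous fun p : CB n × ℝ => ((z, act (phase n p.2) p.1) : CB n × CB n) :=
      continuous_const.prodMk continuous_phase_act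
    have h4 := Continuous.comp h1 h2
    simp only [Function.comp_def] at h4
    have : Function.uncurry G = fun p : CB n × ℝ =>
        wt (act (phase n p.2) p.1) • coordC i (T z (act (phase n p.2) p.1)) := by
      funext p
      rw [wt_act]
      rfl
    rw [this]
    exact h4
  have hslice : ∀ θ : ℝ, ∫ w, G w θ ∂(vB n) = I := by
    intro θ
    have h1 := int_act (phase n θ) (fun w => wt w • (T z w).1 i)
    simp only [wt_act] at h1
    exact h1
  have hbd : ∀ p : CB n × ℝ, ‖Function.uncurry G p‖ ≤ 1 := by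
    intro p
    show ‖wt p.1 • (T z (act (phase n p.2) p.1)).1 i‖ ≤ 1
    rw [norm_smul, Real.norm_eq_abs, abs_of_nonneg (wt_nonneg _)]
    have h1 : ‖(T z (act (phase n p.2) p.1)).1 i‖ ≤ 1 := by
      have h2 := (T z (act (phase n p.2) p.1)).2
      have h3 : ‖(T z (act (phase n p.2) p.1)).1 i‖ ^ 2 ≤
          ∑ i, ‖(T z (act (phase n p.2) p.1)).1 i‖ ^ 2 :=
        Finset.single_le_sum (f := fun i => ‖(T z (act (phase n p.2) p.1)).1 i‖ ^ 2)
          (fun i _ => sq_nonneg _) (Finset.mem_univ i)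
      nlinarith [norm_nonneg ((T z (act (phase n p.2) p.1)).1 i)]
    calc wt p.1 * ‖(T z (act (phase n p.2) p.1)).1 i‖ ≤ 1 * 1 :=
          mul_le_mul (wt_le_one _) h1 (norm_nonneg _) zero_le_one
      _ = 1 := one_mul _
  have hint : Integrable (Function.uncurry G)
      ((vB n).prod (volume.restrict (Set.Ioc (0 : ℝ) (2 * Real.pi)))) :=
    Integrable.of_bound hGc.aestronglyMeasurable 1 (Filter.Eventually.of_forall hbd)
  have hsw := integral_integral_swap hint
  have h2 : ∫ w, (∫ θ in Set.Ioc (0 : ℝ) (2 * Real.pi), G w θ) ∂(vB n) =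
      (2 * Real.pi) • I := by
    rw [hsw]
    simp only [hslice]
    rw [setIntegral_const]
    congr 1
    simp [Measure.real, hpi.le]
  have h3 : ∀ w : CB n, (∫ θ in Set.Ioc (0 : ℝ) (2 * Real.pi), G w θ) =
      (2 * Real.pi) • (wt w • z.1 i) := by
    intro w
    by_cases hw : nsq w.1 < 1
    · have hc : ‖ip w.1 z.1‖ < 1 := by
        rw [norm_ip_comm]
        exact norm_ip_lt_one z.2 hw
      have h4 := circle_mean (ip w.1 z.1) (z.1 i) (Om z.1 w.1 i) hc
      rw [intervalIntegral.integral_of_le (by positivity)] at h4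
      have h5 : (∫ θ in Set.Ioc (0 : ℝ) (2 * Real.pi), G w θ) = wt w •
          ∫ θ in Set.Ioc (0 : ℝ) (2 * Real.pi),
            (z.1 i - Complex.exp (θ * Complex.I) * Om z.1 w.1 i) /
              (1 - Complex.exp (θ * Complex.I) * ip w.1 z.1) := by
        rw [← integral_smul]
        congr 1
        funext θ
        simp only [hG, T_phase]
      rw [h5, smul_comm]
      congr 1
      rw [← h4, smul_smul, h4, mul_inv_cancel₀ (by positivity), one_smul]
    · have hw1 : nsq w.1 = 1 := le_antisymm w.2 (not_lt.1 hw)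
      simp only [hG, wt_zero hw1, zero_smul, smul_zero, integral_zero]
  simp only [h3] at h2
  rw [integral_smul] at h2
  have h4 : ∫ w, wt w • z.1 i ∂(vB n) = I := by
    have h5 : (2 * Real.pi) ≠ 0 := by positivity
    have h6 := congrArg (fun x : ℂ => (2 * Real.pi)⁻¹ • x) h2
    simpa only [smul_smul, inv_mul_cancel₀ h5, one_smul] using h6
  rw [← h4, integral_smul_const]
  rfl

/-! ### `R (1-|z|²) ≤ 1-|z|²` -/

lemma integrable_nsq_comp (z : CB n) (i : Fin n) :
    Integrable (fun w => wt w * ‖(T z w).1 i‖ ^ 2) (vB n) := by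
  have h := integrable_right (⟨fun z => z.1 i * (starRingEnd ℂ) (z.1 i),
    ((continuous_apply i).comp continuous_subtype_val).mul
      (Complex.continuous_conj.comp ((continuous_apply i).comp continuous_subtype_val))⟩ : C(CB n, ℂ)) z
  have h2 := h.re
  refine h2.congr (Filter.Eventually.of_forall fun w => ?_)
  show RCLike.re (wt w • ((T z w).1 i * (starRingEnd ℂ) ((T z w).1 i))) = _
  rw [Complex.mul_conj, Complex.normSq_eq_norm_sq]
  show (wt w • ((‖(T z w).1 i‖ ^ 2 : ℝ) : ℂ)).re = _
  rw [Complex.smul_re, Complex.ofReal_re, smul_eq_mul]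

lemma variance (z : CB n) (i : Fin n) :
    cw n * ‖z.1 i‖ ^ 2 ≤ ∫ w, wt w * ‖(T z w).1 i‖ ^ 2 ∂(vB n) := by
  have hint : Integrable (fun w => wt w • (T z w).1 i) (vB n) := integrable_right (coordC i) z
  have h1 : ∀ w : CB n, wt w * ‖(T z w).1 i - z.1 i‖ ^ 2 =
      wt w * ‖(T z w).1 i‖ ^ 2 - 2 * ((wt w • (T z w).1 i) * (starRingEnd ℂ) (z.1 i)).re
        + wt w * ‖z.1 i‖ ^ 2 := by
    intro w
    have e : ‖(T z w).1 i - z.1 i‖ ^ 2 = ‖(T z w).1 i‖ ^ 2
        - 2 * ((T z w).1 i * (starRingEnd ℂ) (z.1 i)).re + ‖z.1 i‖ ^ 2 := by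
      rw [← Complex.normSq_eq_norm_sq, ← Complex.normSq_eq_norm_sq, ← Complex.normSq_eq_norm_sq,
        Complex.normSq_sub]
      ring
    rw [e, smul_mul_assoc, Complex.smul_re, smul_eq_mul]
    ring
  have h2 : 0 ≤ ∫ w, wt w * ‖(T z w).1 i - z.1 i‖ ^ 2 ∂(vB n) :=
    integral_nonneg fun w => mul_nonneg (wt_nonneg w) (sq_nonneg _)
  simp only [h1] at h2
  have hre : Integrable (fun w => ((wt w • (T z w).1 i) * (starRingEnd ℂ) (z.1 i)).re) (vB n) :=
    (hint.mul_const _).re
  have hA : Integrable (fun w : CB n => wt w * ‖(T z w).1 i‖ ^ 2 -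
      2 * ((wt w • (T z w).1 i) * (starRingEnd ℂ) (z.1 i)).re) (vB n) :=
    (integrable_nsq_comp z i).sub (hre.const_mul 2)
  have hB : Integrable (fun w : CB n => wt w * ‖z.1 i‖ ^ 2) (vB n) := integrable_wt.mul_const _
  have hC : Integrable (fun w : CB n =>
      2 * ((wt w • (T z w).1 i) * (starRingEnd ℂ) (z.1 i)).re) (vB n) := hre.const_mul 2
  rw [integral_add hA hB, integral_sub (integrable_nsq_comp z i) hC, integral_const_mul,
    integral_mul_const] at h2
  have h3 : ∫ w, ((wt w • (T z w).1 i) * (starRingEnd ℂ) (z.1 i)).re ∂(vB n) =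
      cw n * ‖z.1 i‖ ^ 2 := by
    have h4 : ∫ w, ((wt w • (T z w).1 i) * (starRingEnd ℂ) (z.1 i)).re ∂(vB n) =
        (∫ w, (wt w • (T z w).1 i) * (starRingEnd ℂ) (z.1 i) ∂(vB n)).re :=
      integral_re (hint.mul_const _)
    rw [h4, integral_mul_const, int_coord, mul_assoc, Complex.mul_conj,
      Complex.normSq_eq_norm_sq, ← Complex.ofReal_mul, Complex.ofReal_re]
  rw [h3] at h2
  have h5 : (∫ w, wt w ∂(vB n)) = cw n := rfl
  rw [h5] at h2
  linarith

lemma integrable_wt_T (z : CB n) : Integrable (fun w => wt w * wt (T z w)) (vB n) := by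
  have h := integrable_right (⟨fun z => ((wt z : ℝ) : ℂ),
    Complex.continuous_ofReal.comp continuous_wt⟩ : C(CB n, ℂ)) z
  refine h.re.congr (Filter.Eventually.of_forall fun w => ?_)
  show RCLike.re (wt w • ((wt (T z w) : ℝ) : ℂ)) = _
  simp

lemma R_wt_le (z : CB n) : ∫ w, wt w * wt (T z w) ∂(vB n) ≤ cw n * wt z := by
  have h1 : ∀ w : CB n, wt w * wt (T z w) = wt w - ∑ i, wt w * ‖(T z w).1 i‖ ^ 2 := by
    intro w
    rw [← Finset.mul_sum]
    show wt w * (1 - nsq (T z w).1) = wt w - wt w * nsq (T z w).1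
    ring
  simp only [h1]
  rw [integral_sub integrable_wt (integrable_finsetSum _ fun i _ => integrable_nsq_comp z i),
    integral_finsetSum _ fun i _ => integrable_nsq_comp z i]
  have h2 : cw n * nsq z.1 ≤ ∑ i, ∫ w, wt w * ‖(T z w).1 i‖ ^ 2 ∂(vB n) := by
    unfold nsq
    rw [Finset.mul_sum]
    exact Finset.sum_le_sum fun i _ => variance z i
  have h5 : (∫ w, wt w ∂(vB n)) = cw n := rfl
  rw [h5]
  have h6 : wt z = 1 - nsq z.1 := rfl
  rw [h6]
  linarith

/-! ### positivity -/

lemma Rc_re (f : C(CB n, ℂ)) (z : CB n) :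
    (Rc f z).re = (cw n)⁻¹ * ∫ w, wt w * (f (T z w)).re ∂(vB n) := by
  have h4 : ∫ w, (wt w • f (T z w)).re ∂(vB n) = (∫ w, wt w • f (T z w) ∂(vB n)).re :=
    integral_re (integrable_right f z)
  rw [Rc_apply, ← Complex.ofReal_inv, Complex.re_ofReal_mul, ← h4]
  simp only [Complex.smul_re, smul_eq_mul]

lemma integrable_re (f : C(CB n, ℂ)) (z : CB n) :
    Integrable (fun w => wt w * (f (T z w)).re) (vB n) := by
  refine (integrable_right f z).re.congr (Filter.Eventually.of_forall fun w => ?_)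
  show RCLike.re (wt w • f (T z w)) = _
  simp

lemma norm_Rc_le (f h : C(CB n, ℂ)) (a b : ℝ) (H : ∀ z, ‖f z‖ ≤ a + b * (h z).re) (z : CB n) :
    ‖Rc f z‖ ≤ a + b * (Rc h z).re := by
  have hc := cw_pos (n := n)
  rw [Rc_re, Rc_apply, norm_mul, norm_inv, Complex.norm_real, Real.norm_eq_abs, abs_of_pos hc,
    inv_mul_le_iff₀ hc]
  have h1 : ‖∫ w, wt w • f (T z w) ∂(vB n)‖ ≤ ∫ w, (wt w * a + b * (wt w * (h (T z w)).re)) ∂(vB n) := by
    refine norm_integral_le_of_norm_le
      ((integrable_wt.mul_const a).add ((integrable_re h z).const_mul b))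
      (Filter.Eventually.of_forall fun w => ?_)
    rw [norm_smul, Real.norm_eq_abs, abs_of_nonneg (wt_nonneg w)]
    have := mul_le_mul_of_nonneg_left (H (T z w)) (wt_nonneg w)
    linarith
  refine h1.trans (le_of_eq ?_)
  rw [integral_add (integrable_wt.mul_const a) ((integrable_re h z).const_mul b),
    integral_mul_const, integral_const_mul]
  have h5 : (∫ w, wt w ∂(vB n)) = cw n := rfl
  rw [h5]
  field_simp

/-- the function `1-|z|²` -/
noncomputable def h0 (n : ℕ) [NeZero n] : C(CB n, ℂ) :=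
  ⟨fun z => ((wt z : ℝ) : ℂ), Complex.continuous_ofReal.comp continuous_wt⟩

/-- real parts of the iterates -/
noncomputable def vv (m : ℕ) (z : CB n) : ℝ := ((Rc^[m]) (h0 n) z).re

lemma vv_zero (z : CB n) : vv 0 z = wt z := by
  simp [vv, h0]

lemma vv_succ (m : ℕ) (z : CB n) :
    vv (m + 1) z = (cw n)⁻¹ * ∫ w, wt w * vv m (T z w) ∂(vB n) := by
  rw [vv, Function.iterate_succ_apply', Rc_re]
  rfl

lemma integrable_vv (m : ℕ) (z : CB n) : Integrable (fun w => wt w * vv m (T z w)) (vB n) :=
  integrable_re ((Rc^[m]) (h0 n)) z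

lemma vv_nonneg (m : ℕ) (z : CB n) : 0 ≤ vv m z := by
  induction m generalizing z with
  | zero => rw [vv_zero]; exact wt_nonneg z
  | succ m ih =>
    rw [vv_succ]
    exact mul_nonneg (inv_nonneg.2 cw_pos.le)
      (integral_nonneg fun w => mul_nonneg (wt_nonneg w) (ih _))

lemma vv_anti (m : ℕ) (z : CB n) : vv (m + 1) z ≤ vv m z := by
  have hc := cw_pos (n := n)
  induction m generalizing z with
  | zero =>
    rw [vv_succ, vv_zero, inv_mul_le_iff₀ hc]
    simp only [vv_zero]
    exact R_wt_le z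
  | succ m ih =>
    rw [vv_succ (m + 1) z, vv_succ m z]
    refine mul_le_mul_of_nonneg_left ?_ (inv_nonneg.2 hc.le)
    exact integral_mono (integrable_vv _ z) (integrable_vv _ z)
      fun w => mul_le_mul_of_nonneg_left (ih _) (wt_nonneg w)

lemma vv_le_wt (m : ℕ) (z : CB n) : vv m z ≤ wt z := by
  induction m with
  | zero => rw [vv_zero]
  | succ m ih => exact (vv_anti m z).trans ih

/-- suprema of the iterates -/
noncomputable def NN (n : ℕ) [NeZero n] (m : ℕ) : ℝ := ⨆ z : CB n, vv m z

lemma bdd_vv (m : ℕ) : BddAbove (Set.range (vv m : CB n → ℝ)) := by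
  refine ⟨1, ?_⟩
  rintro x ⟨z, rfl⟩
  exact (vv_le_wt m z).trans (wt_le_one z)

lemma vv_le_NN (m : ℕ) (z : CB n) : vv m z ≤ NN n m := le_ciSup (bdd_vv m) z

lemma NN_nonneg (m : ℕ) : 0 ≤ NN n m := (vv_nonneg m (cen n)).trans (vv_le_NN m _)

lemma NN_le_one (m : ℕ) : NN n m ≤ 1 := by
  have : Nonempty (CB n) := ⟨cen n⟩
  exact ciSup_le fun z => (vv_le_wt m z).trans (wt_le_one z)

lemma NN_anti (m : ℕ) : NN n (m + 1) ≤ NN n m := by
  have : Nonempty (CB n) := ⟨cen n⟩
  exact ciSup_le fun z => (vv_anti m z).trans (vv_le_NN m z)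

lemma wt_T_le {z w : CB n} (_hw : nsq w.1 < 1) (h : (ip w.1 z.1).re ≤ 0) : wt (T z w) ≤ wt w := by
  have hne : ip w.1 z.1 ≠ 1 := by
    intro h1
    rw [h1] at h
    norm_num at h
  have h1 : wt (T z w) = wt z * wt w / ‖1 - ip w.1 z.1‖ ^ 2 := mob_nsq z.2 hne
  have h2 : 1 ≤ ‖1 - ip w.1 z.1‖ := by
    have h3 := Complex.re_le_norm (1 - ip w.1 z.1)
    simp only [Complex.sub_re, Complex.one_re] at h3
    linarith
  have h3 : 1 ≤ ‖1 - ip w.1 z.1‖ ^ 2 := one_le_pow₀ h2
  rw [h1]
  refine (div_le_self (mul_nonneg (wt_nonneg z) (wt_nonneg w)) h3).trans ?_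
  calc wt z * wt w ≤ 1 * wt w := mul_le_mul_of_nonneg_right (wt_le_one z) (wt_nonneg w)
    _ = wt w := one_mul _

/-- the reflected point -/
lemma act_pi_val (w : CB n) : (act (phase n Real.pi) w).1 = fun i => -1 * w.1 i := by
  rw [act_phase_val]
  simp [Complex.exp_pi_mul_I]

lemma vv_sym (m : ℕ) (z : CB n) :
    ∫ w, wt w * vv m (T z (act (phase n Real.pi) w)) ∂(vB n) =
      ∫ w, wt w * vv m (T z w) ∂(vB n) := by
  have h1 := int_act (phase n Real.pi) (fun w => ((wt w * vv m (T z w) : ℝ) : ℂ))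
  simp only [wt_act] at h1
  have h2 : ∫ w, ((wt w * vv m (T z (act (phase n Real.pi) w)) : ℝ) : ℂ) ∂(vB n) =
      ((∫ w, wt w * vv m (T z (act (phase n Real.pi) w)) ∂(vB n) : ℝ) : ℂ) := integral_ofReal
  have h3 : ∫ w, ((wt w * vv m (T z w) : ℝ) : ℂ) ∂(vB n) =
      ((∫ w, wt w * vv m (T z w) ∂(vB n) : ℝ) : ℂ) := integral_ofReal
  rw [h2, h3] at h1
  exact Complex.ofReal_injective h1

lemma integrable_vv' (m : ℕ) (z : CB n) :
    Integrable (fun w => wt w * vv m (T z (act (phase n Real.pi) w))) (vB n) := by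
  have h := (mp_act (n := n) (phase n Real.pi)).integrable_comp_of_integrable (integrable_vv m z)
  simp only [Function.comp_def, wt_act] at h
  exact h

lemma pair_le (m : ℕ) (z w : CB n) :
    wt w * vv m (T z w) + wt w * vv m (T z (act (phase n Real.pi) w)) ≤
      wt w * (2 * NN n m) - wt w * max (NN n m - wt w) 0 := by
  by_cases hw : nsq w.1 < 1
  · have key : ∀ x : CB n, nsq x.1 < 1 → wt x = wt w → (ip x.1 z.1).re ≤ 0 →
        vv m (T z x) ≤ NN n m - max (NN n m - wt w) 0 := by
      intro x hx hxw hre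
      have h1 := (vv_le_wt m (T z x)).trans (wt_T_le hx hre)
      rw [hxw] at h1
      have h2 := vv_le_NN m (T z x)
      rcases le_total (NN n m - wt w) 0 with h | h
      · rw [max_eq_right h]; linarith
      · rw [max_eq_left h]; linarith
    have h3 : vv m (T z w) + vv m (T z (act (phase n Real.pi) w)) ≤
        2 * NN n m - max (NN n m - wt w) 0 := by
      rcases le_total (ip w.1 z.1).re 0 with h | h
      · have h1 := key w hw rfl h
        have h2 := vv_le_NN m (T z (act (phase n Real.pi) w))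
        linarith
      · have h1 := key (act (phase n Real.pi) w) (by rw [nsq_act]; exact hw) (wt_act _ _) (by
          rw [act_pi_val, ip_smul_left']
          simp only [neg_mul, one_mul, Complex.neg_re]
          linarith)
        have h2 := vv_le_NN m (T z w)
        linarith
    have h4 := mul_le_mul_of_nonneg_left h3 (wt_nonneg w)
    linarith
  · have hw1 : nsq w.1 = 1 := le_antisymm w.2 (not_lt.1 hw)
    rw [wt_zero hw1]
    simp

/-- the loss in one step -/
noncomputable def dd (n : ℕ) [NeZero n] (N : ℝ) : ℝ := ∫ w, wt w * max (N - wt w) 0 ∂(vB n)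

lemma continuous_dd (N : ℝ) : Continuous fun w : CB n => wt w * max (N - wt w) 0 :=
  continuous_wt.mul ((continuous_const.sub continuous_wt).max continuous_const)

lemma integrable_dd (N : ℝ) : Integrable (fun w : CB n => wt w * max (N - wt w) 0) (vB n) :=
  (continuous_dd N).integrable_of_hasCompactSupport (HasCompactSupport.of_compactSpace _)

lemma dd_mono {N M : ℝ} (h : N ≤ M) : dd n N ≤ dd n M :=
  integral_mono (integrable_dd N) (integrable_dd M) fun w =>
    mul_le_mul_of_nonneg_left (max_le_max (by linarith) le_rfl) (wt_nonneg w)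

lemma dd_pos {N : ℝ} (h : 0 < N) (h1 : N ≤ 1) : 0 < dd n N := by
  rw [dd, integral_pos_iff_support_of_nonneg
    (fun w => mul_nonneg (wt_nonneg w) (le_max_right _ _)) (integrable_dd N)]
  set O : Set (Fin n → ℂ) := {w | nsq w < 1} ∩ {w | 1 - N < nsq w} with hO
  have hOo : IsOpen O := isOpen_ball.inter (isOpen_lt continuous_const continuous_nsq)
  have hOn : O.Nonempty := by
    refine ⟨te n (Real.sqrt (1 - N / 2)), ?_, ?_⟩
    · show nsq _ < 1
      rw [nsq_te, Real.sq_sqrt (by linarith)]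
      linarith
    · show 1 - N < nsq _
      rw [nsq_te, Real.sq_sqrt (by linarith)]
      linarith
  have hsub : Subtype.val ⁻¹' O ⊆ Function.support fun w : CB n => wt w * max (N - wt w) 0 := by
    rintro w ⟨hw1, hw2⟩
    have hw1' : nsq w.1 < 1 := hw1
    have hw2' : 1 - N < nsq w.1 := hw2
    have a1 : 0 < wt w := by unfold wt; linarith
    have a2 : 0 < N - wt w := by unfold wt; linarith
    exact (mul_pos a1 (lt_max_of_lt_left a2)).ne'
  refine lt_of_lt_of_le ?_ (measure_mono hsub)
  rw [vB, me_val.comap_apply]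
  have h2 : Subtype.val '' (Subtype.val ⁻¹' O : Set (CB n)) = O := by
    ext w
    constructor
    · rintro ⟨x, hx, rfl⟩
      exact hx
    · intro hw
      exact ⟨⟨w, (show nsq w < 1 from hw.1).le⟩, hw, rfl⟩
  rw [h2]
  exact hOo.measure_pos _ hOn

lemma NN_step (m : ℕ) : NN n (m + 1) ≤ NN n m - (2 * cw n)⁻¹ * dd n (NN n m) := by
  have : Nonempty (CB n) := ⟨cen n⟩
  have hc := cw_pos (n := n)
  refine ciSup_le fun z => ?_
  have h1 : ∫ w, wt w * vv m (T z w) ∂(vB n) + ∫ w, wt w * vv m (T z w) ∂(vB n) ≤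
      cw n * (2 * NN n m) - dd n (NN n m) := by
    nth_rewrite 2 [← vv_sym m z]
    rw [← integral_add (integrable_vv m z) (integrable_vv' m z)]
    have hA : Integrable (fun w : CB n => wt w * vv m (T z w) +
        wt w * vv m (T z (act (phase n Real.pi) w))) (vB n) :=
      (integrable_vv m z).add (integrable_vv' m z)
    have hB : Integrable (fun w : CB n => wt w * (2 * NN n m)) (vB n) :=
      integrable_wt.mul_const _
    have hC : Integrable (fun w : CB n => wt w * (2 * NN n m) -
        wt w * max (NN n m - wt w) 0) (vB n) := hB.sub (integrable_dd _)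
    refine (integral_mono hA hC fun w => pair_le m z w).trans (le_of_eq ?_)
    rw [integral_sub hB (integrable_dd _), integral_mul_const]
    rfl
  rw [vv_succ, inv_mul_le_iff₀ hc]
  have h2 : cw n * (NN n m - (2 * cw n)⁻¹ * dd n (NN n m)) =
      (cw n * (2 * NN n m) - dd n (NN n m)) / 2 := by
    field_simp
  rw [h2]
  linarith

lemma NN_tendsto : Filter.Tendsto (fun m : ℕ => NN n m) Filter.atTop (nhds 0) := by
  have hanti : Antitone (fun m : ℕ => NN n m) := antitone_nat_of_succ_le NN_anti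
  have hbdd : BddBelow (Set.range fun m : ℕ => NN n m) := ⟨0, by
    rintro x ⟨m, rfl⟩
    exact NN_nonneg m⟩
  have hlim := tendsto_atTop_ciInf hanti hbdd
  set N : ℝ := ⨅ m, NN n m with hN
  have hN0 : 0 ≤ N := le_ciInf fun m => NN_nonneg m
  have hNle : ∀ m, N ≤ NN n m := fun m => ciInf_le hbdd m
  rcases hN0.eq_or_lt with h | h
  · rw [← h] at hlim
    exact hlim
  · exfalso
    have hc := cw_pos (n := n)
    have hd := dd_pos (n := n) h ((hNle 0).trans (NN_le_one 0))
    set δ : ℝ := (2 * cw n)⁻¹ * dd n N with hδ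
    have hδ0 : 0 < δ := by positivity
    have hstep : ∀ m, NN n (m + 1) ≤ NN n m - δ := by
      intro m
      have h1 := NN_step (n := n) m
      have h2 : δ ≤ (2 * cw n)⁻¹ * dd n (NN n m) :=
        mul_le_mul_of_nonneg_left (dd_mono (hNle m)) (by positivity)
      linarith
    have h3 : N ≤ N - δ := by
      have h4 : Filter.Tendsto (fun m : ℕ => NN n (m + 1)) Filter.atTop (nhds N) :=
        hlim.comp (Filter.tendsto_add_atTop_nat 1)
      have h5 : Filter.Tendsto (fun m : ℕ => NN n m - δ) Filter.atTop (nhds (N - δ)) :=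
        hlim.sub_const δ
      exact le_of_tendsto_of_tendsto' h4 h5 hstep
    linarith

/-- the iterates of `R` tend to zero on functions vanishing on the sphere -/
theorem Rc_iter_tendsto (g : C(CB n, ℂ)) (hg : ∀ z : CB n, nsq z.1 = 1 → g z = 0) :
    Filter.Tendsto (fun m : ℕ => (Rc^[m]) g) Filter.atTop (nhds 0) := by
  have hbound : ∀ ε : ℝ, 0 < ε → ∃ C : ℝ, 0 ≤ C ∧ ∀ z : CB n, ‖g z‖ ≤ ε + C * wt z := by
    intro ε hε
    set K : Set (CB n) := {z | ε ≤ ‖g z‖} with hK
    have hKc : IsCompact K := (isClosed_le continuous_const g.continuous.norm).isCompact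
    rcases K.eq_empty_or_nonempty with h | h
    · refine ⟨0, le_rfl, fun z => ?_⟩
      have : z ∉ K := by rw [h]; exact Set.notMem_empty z
      have h2 : ‖g z‖ < ε := not_le.1 this
      linarith
    · obtain ⟨z0, hz0, hmin⟩ := hKc.exists_isMinOn h continuous_wt.continuousOn
      have hpos : 0 < wt z0 := by
        rcases (wt_nonneg z0).eq_or_lt with h1 | h1
        · exfalso
          have h2 : nsq z0.1 = 1 := by unfold wt at h1; linarith
          have h3 : ε ≤ ‖g z0‖ := hz0
          rw [hg z0 h2, norm_zero] at h3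
          linarith
        · exact h1
      refine ⟨‖g‖ / wt z0, by positivity, fun z => ?_⟩
      by_cases hz : z ∈ K
      · have h1 : wt z0 ≤ wt z := hmin hz
        have h2 : ‖g‖ ≤ ‖g‖ / wt z0 * wt z := by
          rw [div_mul_eq_mul_div, le_div_iff₀ hpos]
          exact mul_le_mul_of_nonneg_left h1 (norm_nonneg _)
        have h3 := bdd g z
        linarith
      · have h2 : ‖g z‖ < ε := not_le.1 hz
        have h3 : 0 ≤ ‖g‖ / wt z0 * wt z := mul_nonneg (by positivity) (wt_nonneg z)
        linarith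
  rw [Metric.tendsto_atTop]
  intro ε hε
  obtain ⟨C, hC0, hC⟩ := hbound (ε / 2) (by linarith)
  have hiter : ∀ (m : ℕ) (z : CB n), ‖(Rc^[m]) g z‖ ≤ ε / 2 + C * vv m z := by
    intro m
    induction m with
    | zero =>
      intro z
      rw [vv_zero]
      exact hC z
    | succ m ih =>
      intro z
      rw [Function.iterate_succ_apply', vv, Function.iterate_succ_apply']
      exact norm_Rc_le _ _ _ _ ih z
  have h1 : Filter.Tendsto (fun m : ℕ => C * NN n m) Filter.atTop (nhds 0) := by
    simpa using (NN_tendsto (n := n)).const_mul C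
  obtain ⟨M, hM⟩ := (Metric.tendsto_atTop.1 h1) (ε / 2) (by linarith)
  refine ⟨M, fun m hm => ?_⟩
  rw [dist_zero_right]
  have h2 := hM m hm
  rw [Real.dist_eq, sub_zero] at h2
  have h3 := le_abs_self (C * NN n m)
  refine lt_of_le_of_lt ((ContinuousMap.norm_le _ (C := ε / 2 + C * NN n m)
    (add_nonneg (by linarith) (mul_nonneg hC0 (NN_nonneg m)))).2 fun z => ?_) (by linarith)
  exact (hiter m z).trans (add_le_add le_rfl (mul_le_mul_of_nonneg_left (vv_le_NN m z) hC0))

end Pool.Agent.Ball
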