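import Pool.Agent.Helper76.BallJ

set_option autoImplicit false
set_option linter.unusedSectionVars false
open MeasureTheory

/-! Module K for MP_a59212_an: the pluriharmonic kernels. -/

namespace Pool.Agent.Ball

open Filter Topology Metric

variable {n : ℕ} [NeZero n]

open ComplexConjugate

lemma Om_expand (a w : Fin n → ℂ) (i : Fin n) :
    Om a w i = ∑ k, ((if k = i then (sq a : ℂ) else 0) + a i / (1 + (sq a : ℂ)) * conj (a k)) * w k := by
  simp only [Om, ip, add_mul, Finset.sum_add_distrib, ite_mul, zero_mul, Finset.sum_ite_eq',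
    Finset.mem_univ, if_true]
  congr 1
  rw [Finset.sum_div, Finset.sum_mul]
  apply Finset.sum_congr rfl
  intro k _
  ring

/-- if `W` is a closed Moebius invariant subspace containing the ball algebra, its conjugates and
all `z_i conj z_j`, then it contains every `|1-⟨z,a⟩|^{-2}` -/
theorem kernel_two_mem (W : Submodule ℂ C(CB n, ℂ))
    (h1 : MemF W (fun _ => 1))
    (hp : ∀ (a : CB n), nsq a.1 < 1 → ∀ i, MemF W (fun z => z.1 i / (1 - ip z.1 a.1)))
    (hp' : ∀ (a : CB n), nsq a.1 < 1 → ∀ i, MemF W (fun z => conj (z.1 i) / (1 - ip a.1 z.1)))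
    (hzz : ∀ i j, MemF W (fun z => z.1 i * conj (z.1 j)))
    (hT : ∀ (a : CB n), nsq a.1 < 1 → ∀ f, MemF W f → MemF W (fun z => f (T a z)))
    (a : CB n) (ha : nsq a.1 < 1) :
    MemF W (fun z => 1 / ((1 - ip z.1 a.1) * (1 - ip a.1 z.1))) := by
  have hA : (1 : ℂ) - (nsq a.1 : ℂ) ≠ 0 := by
    have : (0 : ℝ) < 1 - nsq a.1 := by linarith
    exact_mod_cast this.ne'
  -- products of components of `Om a (T a z)`
  have hvv : ∀ i j, MemF W (fun z => Om a.1 (T a z).1 i * conj (Om a.1 (T a z).1 j)) := by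
    intro i j
    have h3 : MemF W (fun w : CB n => Om a.1 w.1 i * conj (Om a.1 w.1 j)) := by
      have h4 : MemF W (fun w : CB n => ∑ k, ∑ l,
          (((if k = i then (sq a.1 : ℂ) else 0) + a.1 i / (1 + (sq a.1 : ℂ)) * conj (a.1 k)) *
          conj ((if l = j then (sq a.1 : ℂ) else 0) + a.1 j / (1 + (sq a.1 : ℂ)) * conj (a.1 l))) *
          (w.1 k * conj (w.1 l))) :=
        MemF.sum Finset.univ fun k _ => MemF.sum Finset.univ fun l _ => (hzz k l).smul _
      apply h4.congr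
      intro w
      rw [Om_expand, Om_expand, map_sum, Finset.sum_mul_sum]
      apply Finset.sum_congr rfl
      intro k _
      apply Finset.sum_congr rfl
      intro l _
      rw [map_mul]
      ring
    exact hT a ha _ h3
  -- products `p_i conj p_j`
  have hpp : ∀ i j, MemF W (fun z => (z.1 i / (1 - ip z.1 a.1)) * (conj (z.1 j) / (1 - ip a.1 z.1))) := by
    intro i j
    have h6 : MemF W (fun z : CB n => ((1 - (nsq a.1 : ℂ))⁻¹) ^ 2 *
        ((Om a.1 (T a z).1 i * conj (Om a.1 (T a z).1 j) - (a.1 i * conj (a.1 j)) * 1) +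
        ((1 - (nsq a.1 : ℂ)) * conj (a.1 j)) * (z.1 i / (1 - ip z.1 a.1)) +
        ((1 - (nsq a.1 : ℂ)) * a.1 i) * (conj (z.1 j) / (1 - ip a.1 z.1)))) :=
      ((((hvv i j).sub (h1.smul _)).add ((hp a ha i).smul _)).add ((hp' a ha j).smul _)).smul _
    apply h6.congr
    intro z
    have h7 : ∀ i, Om a.1 (T a z).1 i = a.1 i - (1 - (nsq a.1 : ℂ)) / (1 - ip z.1 a.1) * z.1 i :=
      fun i => congrFun (Om_mob ha.le (ip_ne_one z.2 ha)) i
    have h9 := one_sub_ip_ne z.2 ha
    have h9' : 1 - ip a.1 z.1 ≠ 0 := one_sub_ip_ne' ha z.2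
    rw [h7, h7]
    simp only [map_sub, map_mul, map_div₀, map_one, Complex.conj_ofReal, conj_ip]
    field_simp
    ring
  have h2 : MemF W (fun z : CB n => ((1 + ∑ i, conj (a.1 i) * (z.1 i / (1 - ip z.1 a.1))) +
      ∑ i, a.1 i * (conj (z.1 i) / (1 - ip a.1 z.1))) +
      ∑ i, ∑ j, (conj (a.1 i) * a.1 j) *
        ((z.1 i / (1 - ip z.1 a.1)) * (conj (z.1 j) / (1 - ip a.1 z.1)))) :=
    ((h1.add (MemF.sum Finset.univ fun i _ => (hp a ha i).smul _)).add
      (MemF.sum Finset.univ fun i _ => (hp' a ha i).smul _)).add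
      (MemF.sum Finset.univ fun i _ => MemF.sum Finset.univ fun j _ => (hpp i j).smul _)
  apply h2.congr
  intro z
  have h9 := one_sub_ip_ne z.2 ha
  have h9' : 1 - ip a.1 z.1 ≠ 0 := one_sub_ip_ne' ha z.2
  have h3 : ∑ i, conj (a.1 i) * (z.1 i / (1 - ip z.1 a.1)) = ip z.1 a.1 / (1 - ip z.1 a.1) := by
    rw [ip, Finset.sum_div]
    apply Finset.sum_congr rfl
    intro i _
    ring
  have h4 : ∑ i, a.1 i * (conj (z.1 i) / (1 - ip a.1 z.1)) = ip a.1 z.1 / (1 - ip a.1 z.1) := by
    rw [ip, Finset.sum_div]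
    apply Finset.sum_congr rfl
    intro i _
    ring
  have h5 : ∑ i, ∑ j, (conj (a.1 i) * a.1 j) *
        ((z.1 i / (1 - ip z.1 a.1)) * (conj (z.1 j) / (1 - ip a.1 z.1))) =
      (ip z.1 a.1 / (1 - ip z.1 a.1)) * (ip a.1 z.1 / (1 - ip a.1 z.1)) := by
    rw [← h3, ← h4, Finset.sum_mul_sum]
    apply Finset.sum_congr rfl
    intro i _
    apply Finset.sum_congr rfl
    intro j _
    ring
  rw [h3, h4, h5]
  field_simp
  ring

lemma ip_smul_right (l : ℂ) (z w : Fin n → ℂ) : ip z (conj l • w) = l * ip z w := by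
  simp only [ip, Pi.smul_apply, smul_eq_mul, map_mul, Complex.conj_conj, Finset.mul_sum]
  apply Finset.sum_congr rfl
  intro i _
  ring

lemma ip_smul_left (l : ℂ) (z w : Fin n → ℂ) : ip (l • z) w = l * ip z w := by
  simp only [ip, Pi.smul_apply, smul_eq_mul, Finset.mul_sum, mul_assoc]

/-- if `W` is a closed Moebius invariant subspace containing the ball algebra, its conjugates and
all `z_i conj z_j`, then it contains every `|1-⟨z,b⟩|^{-2s}` -/
theorem kernels_mem (W : Submodule ℂ C(CB n, ℂ)) (hW : IsClosed (W : Set C(CB n, ℂ)))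
    (h1 : MemF W (fun _ => 1))
    (hp : ∀ (a : CB n), nsq a.1 < 1 → ∀ i, MemF W (fun z => z.1 i / (1 - ip z.1 a.1)))
    (_hq : ∀ (a : CB n), nsq a.1 < 1 → MemF W (fun z => 1 / (1 - ip z.1 a.1)))
    (hp' : ∀ (a : CB n), nsq a.1 < 1 → ∀ i, MemF W (fun z => conj (z.1 i) / (1 - ip a.1 z.1)))
    (_hq' : ∀ (a : CB n), nsq a.1 < 1 → MemF W (fun z => 1 / (1 - ip a.1 z.1)))
    (hzz : ∀ i j, MemF W (fun z => z.1 i * conj (z.1 j)))
    (hT : ∀ (a : CB n), nsq a.1 < 1 → ∀ f, MemF W f → MemF W (fun z => f (T a z)))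
    (b : CB n) (hb : nsq b.1 < 1) (s : ℕ) :
    MemF W (fun z => 1 / ((1 - ip z.1 b.1) ^ s * (1 - ip b.1 z.1) ^ s)) := by
  have h2 := pow_kernel_mem_plh W hW (fun z : CB n => ip z.1 b.1)
    (continuous_ip_comp continuous_subtype_val continuous_const) (fun z => norm_ip_lt_one z.2 hb)
    (fun l hl => by
      have hl' : ‖conj l‖ ≤ 1 := by rw [RCLike.norm_conj]; exact hl
      have h3 : nsq (conj l • b.1) < 1 := by
        have h4 : nsq (conj l • b.1) = ‖conj l‖ ^ 2 * nsq b.1 := by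
          simp only [nsq, Pi.smul_apply, smul_eq_mul, norm_mul, mul_pow, Finset.mul_sum]
        rw [h4]
        have := nsq_nonneg b.1
        have h5 : ‖conj l‖ ^ 2 ≤ 1 := by nlinarith [norm_nonneg (conj l)]
        calc ‖conj l‖ ^ 2 * nsq b.1 ≤ 1 * nsq b.1 := mul_le_mul_of_nonneg_right h5 this
          _ < 1 := by rw [one_mul]; exact hb
      have h6 := kernel_two_mem W h1 hp hp' hzz hT ⟨conj l • b.1, h3.le⟩ h3
      apply h6.congr
      intro z
      show 1 / ((1 - ip z.1 (conj l • b.1)) * (1 - ip (conj l • b.1) z.1)) = _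
      rw [ip_smul_right, ip_smul_left, ← conj_ip z.1 b.1]) s
  apply h2.congr
  intro z
  rw [conj_ip]

/-- `Y` contains every `P h`, if it contains the `P` of every kernel -/
theorem all_mem_of (hR : ∀ f : C(CB n, ℂ), Rc (Pc f) = Pc f)
    (Y : Submodule ℂ C(CB n, ℂ)) (hY : IsClosed (Y : Set C(CB n, ℂ)))
    (hk : ∀ (b : CB n), nsq b.1 < 1 → ∀ g : C(CB n, ℂ),
      (∀ z : CB n, g z = 1 / ((1 - ip z.1 b.1) ^ (n + 2) * (1 - ip b.1 z.1) ^ (n + 2))) → Pc g ∈ Y)
    (h : C(CB n, ℂ)) : Pc h ∈ Y := by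
  set W : Submodule ℂ C(CB n, ℂ) := Y.comap (Pc : C(CB n, ℂ) →L[ℂ] C(CB n, ℂ)).toLinearMap with hWdef
  have hW : IsClosed (W : Set C(CB n, ℂ)) := hY.preimage Pc.continuous
  have hmemW : ∀ g, g ∈ W ↔ Pc g ∈ Y := fun g => Iff.rfl
  have hker : ∀ (b : CB n), nsq b.1 < 1 →
      MemF W (fun z => 1 / ((1 - ip z.1 b.1) ^ (n + 2) * (1 - ip b.1 z.1) ^ (n + 2))) := by
    intro b hb
    have hc : Continuous fun z : CB n =>
        1 / ((1 - ip z.1 b.1) ^ (n + 2) * (1 - ip b.1 z.1) ^ (n + 2)) := by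
      apply Continuous.div continuous_const
      · exact ((continuous_const.sub (continuous_ip_comp continuous_subtype_val
          continuous_const)).pow _).mul ((continuous_const.sub (continuous_ip_comp
          continuous_const continuous_subtype_val)).pow _)
      · intro z
        exact mul_ne_zero (pow_ne_zero _ (one_sub_ip_ne z.2 hb)) (pow_ne_zero _
          (one_sub_ip_ne' hb z.2))
    exact ⟨⟨_, hc⟩, hk b hb ⟨_, hc⟩ (fun z => rfl), fun z => rfl⟩
  have hdil : ∀ (r : ℝ) (hr0 : 0 ≤ r) (hr : r < 1), ∀ g : C(CB n, ℂ),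
      (∀ z, g z = Pc h (dil r (by rw [abs_of_nonneg hr0]; exact hr.le) z)) → Pc g ∈ Y := by
    intro r hr0 hr g hg
    have hr' : |r| ≤ 1 := by rw [abs_of_nonneg hr0]; exact hr.le
    have hlt : ∀ w : CB n, nsq (dil r hr' w).1 < 1 := fun w =>
      nsq_smul_lt (by rw [Complex.norm_real, Real.norm_of_nonneg hr0]; exact hr) w.2
    have hdc : Continuous (dil r hr' : CB n → CB n) := by
      apply Continuous.subtype_mk
      fun_prop
    have h2 : MemF W (fun z : CB n => ((cw n : ℂ)⁻¹ * ((1 - r ^ 2 : ℝ) : ℂ) ^ (n + 2)) *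
        ∫ w, Pc h w * ((wt w : ℝ) : ℂ) *
        (1 / ((1 - ip z.1 (dil r hr' w).1) ^ (n + 2) * (1 - ip (dil r hr' w).1 z.1) ^ (n + 2)))
        ∂(vB n)) := by
      apply MemF.smul
      apply MemF.integral (vB n) hW (fun w z => Pc h w * ((wt w : ℝ) : ℂ) *
        (1 / ((1 - ip z.1 (dil r hr' w).1) ^ (n + 2) * (1 - ip (dil r hr' w).1 z.1) ^ (n + 2))))
      · apply Continuous.mul
        · exact ((Pc h).continuous.comp continuous_fst).mul
            (Complex.continuous_ofReal.comp (continuous_wt.comp continuous_fst))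
        · apply Continuous.div continuous_const
          · exact ((continuous_const.sub (continuous_ip_comp (continuous_subtype_val.comp
              continuous_snd) (continuous_subtype_val.comp (hdc.comp continuous_fst)))).pow _).mul
              ((continuous_const.sub (continuous_ip_comp (continuous_subtype_val.comp
              (hdc.comp continuous_fst)) (continuous_subtype_val.comp continuous_snd))).pow _)
          · intro p
            exact mul_ne_zero (pow_ne_zero _ (one_sub_ip_ne p.2.2 (hlt p.1)))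
              (pow_ne_zero _ (one_sub_ip_ne' (hlt p.1) p.2.2))
      · intro w
        exact (hker (dil r hr' w) (hlt w)).smul _
    obtain ⟨k, hkW, hkz⟩ := h2
    have h3 : ∀ z : CB n, nsq z.1 = 1 → g z = k z := by
      intro z hz1
      rw [hg z, hkz z, poisson_rep_of h (hR h) (dil r hr' z) (hlt z)]
      have h4 : nsq (dil r hr' z).1 = r ^ 2 := by
        have h5 : nsq ((r : ℂ) • z.1) = ‖(r : ℂ)‖ ^ 2 * nsq z.1 := by
          simp only [nsq, Pi.smul_apply, smul_eq_mul, norm_mul, mul_pow, Finset.mul_sum]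
        show nsq ((r : ℂ) • z.1) = r ^ 2
        rw [h5, Complex.norm_real, hz1, mul_one, Real.norm_eq_abs, sq_abs]
      rw [h4]
      congr 2
      funext w
      have h6 : ip z.1 (dil r hr' w).1 = ip (dil r hr' z).1 w.1 := by
        show ip z.1 ((r : ℂ) • w.1) = ip ((r : ℂ) • z.1) w.1
        rw [ip_smul_right_real, ip_smul_left_real]
      have h7 : ip (dil r hr' w).1 z.1 = ip w.1 (dil r hr' z).1 := by
        show ip ((r : ℂ) • w.1) z.1 = ip w.1 ((r : ℂ) • z.1)
        rw [ip_smul_right_real, ip_smul_left_real]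
      rw [h6, h7]
      ring
    rw [Pc_congr h3]
    exact (hmemW k).1 hkW
  -- the limit
  have hidem : Pc (Pc h) = Pc h := Pc_congr fun z hz => Pc_sphere h hz
  have hlim : Pc h ∈ closure (Y : Set C(CB n, ℂ)) := by
    rw [Metric.mem_closure_iff]
    intro ε hε
    have huc := CompactSpace.uniformContinuous_of_continuous (Pc h).continuous
    rw [Metric.uniformContinuous_iff] at huc
    obtain ⟨δ, hδ, hδf⟩ := huc (ε / 2) (by positivity)
    obtain ⟨r, hr0, hr1, hrδ⟩ : ∃ r : ℝ, 0 ≤ r ∧ r < 1 ∧ 1 - r < δ := by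
      refine ⟨max 0 (1 - δ / 2), le_max_left _ _, ?_, ?_⟩
      · apply max_lt one_pos
        linarith
      · have := le_max_right 0 (1 - δ / 2)
        linarith
    have hr' : |r| ≤ 1 := by rw [abs_of_nonneg hr0]; exact hr1.le
    have hdc : Continuous (dil r hr' : CB n → CB n) := by
      apply Continuous.subtype_mk
      fun_prop
    let g : C(CB n, ℂ) := ⟨fun z => Pc h (dil r hr' z), (Pc h).continuous.comp hdc⟩
    refine ⟨Pc g, hdil r hr0 hr1 g (fun z => rfl), ?_⟩
    have h1 : ‖Pc h - g‖ ≤ ε / 2 := by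
      refine (ContinuousMap.norm_le _ (by positivity)).2 fun z => ?_
      show ‖Pc h z - Pc h (dil r hr' z)‖ ≤ ε / 2
      rw [← dist_eq_norm]
      apply le_of_lt
      apply hδf
      rw [dist_comm, Subtype.dist_eq, dist_eq_norm]
      have h3 : (dil r hr' z).1 - z.1 = ((r - 1 : ℝ) : ℂ) • z.1 := by
        show (r : ℂ) • z.1 - z.1 = _
        rw [Complex.ofReal_sub, Complex.ofReal_one, sub_smul, one_smul]
      rw [h3, norm_smul, Complex.norm_real, Real.norm_eq_abs, abs_sub_comm, abs_of_pos (by linarith)]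
      have h4 : ‖z.1‖ ≤ 1 := by
        refine (pi_norm_le_iff_of_nonneg zero_le_one).2 fun i => ?_
        have h5 : ‖z.1 i‖ ^ 2 ≤ ∑ i, ‖z.1 i‖ ^ 2 :=
          Finset.single_le_sum (f := fun i => ‖z.1 i‖ ^ 2) (fun i _ => sq_nonneg _)
            (Finset.mem_univ i)
        have h6 := z.2
        nlinarith [norm_nonneg (z.1 i)]
      calc (1 - r) * ‖z.1‖ ≤ (1 - r) * 1 := mul_le_mul_of_nonneg_left h4 (by linarith)
        _ < δ := by rw [mul_one]; exact hrδ
    have h2 : Pc h - Pc g = Pc (Pc h - g) := by rw [map_sub, hidem]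
    rw [dist_eq_norm, h2]
    have h3 : ‖Pc (Pc h - g)‖ ≤ ‖Pc h - g‖ :=
      (ContinuousMap.norm_le _ (norm_nonneg _)).2 fun z => norm_Pf_le (Pc h - g) z
    linarith
  rwa [hY.closure_eq] at hlim

end Pool.Agent.Ball
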