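import Pool.Agent.Helper76.Ball8
import Pool.Agent.Helper76.BallF
import Pool.Agent.Helper76.BallG
import Pool.Agent.Helper76.BallK

set_option autoImplicit false
set_option linter.unusedSectionVars false
open MeasureTheory

/-! Typed components of an invariant subspace. -/

namespace Pool.Agent.Ball

variable {n : ℕ} [NeZero n]

open ComplexConjugate

/-- closed Moebius invariant subspaces of `C(closed ball)` -/
structure InvY (Y : Submodule ℂ C(CB n, ℂ)) : Prop where
  closed : IsClosed (Y : Set C(CB n, ℂ))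
  mobI : ∀ (a : CB n), nsq a.1 < 1 → ∀ f, MemF Y f → MemF Y (fun z => f (T a z))
  actI : ∀ (U : UG n) f, MemF Y f → MemF Y (fun z => f (act U z))

lemma tendsto_Rc_iter (f : C(CB n, ℂ)) :
    Filter.Tendsto (fun m : ℕ => (Rc^[m]) f) Filter.atTop (nhds (Pc f)) := by
  have h1 : ∀ m : ℕ, (Rc^[m]) (Pc f) = Pc f := by
    intro m
    induction m with
    | zero => rfl
    | succ m ih => rw [Function.iterate_succ_apply', ih, Rc_Pc]
  have h2 : ∀ (m : ℕ) (f g : C(CB n, ℂ)), (Rc^[m]) (f + g) = (Rc^[m]) f + (Rc^[m]) g := by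
    intro m
    induction m with
    | zero => intro f g; rfl
    | succ m ih =>
      intro f g
      rw [Function.iterate_succ_apply', ih, map_add, Function.iterate_succ_apply',
        Function.iterate_succ_apply']
  have h3 : ∀ m : ℕ, (Rc^[m]) f = (Rc^[m]) (f - Pc f) + Pc f := by
    intro m
    have : f = (f - Pc f) + Pc f := by abel
    conv_lhs => rw [this]
    rw [h2, h1]
  have h4 := Rc_iter_tendsto (f - Pc f) (fun z hz => by
    rw [ContinuousMap.sub_apply, Pc_sphere f hz, sub_self])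
  have h5 := h4.add_const (Pc f)
  rw [zero_add] at h5
  exact h5.congr fun m => (h3 m).symm

section types

variable {Y : Submodule ℂ C(CB n, ℂ)}

lemma wt_smul_mem (hY : InvY Y) {f : C(CB n, ℂ)} (hf : f ∈ Y) (a : CB n) (ω : ℝ)
    (hω : nsq a.1 = 1 → ω = 0) : MemF Y (fun z => ω • f (T a z)) := by
  by_cases ha : nsq a.1 < 1
  · exact ((hY.mobI a ha f (MemF.of_mem hf)).smul (ω : ℂ)).congr fun z => by
      rw [Complex.real_smul]
  · have h1 : nsq a.1 = 1 := le_antisymm a.2 (not_lt.1 ha)
    rw [hω h1]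
    exact MemF.zero.congr fun z => by simp

/-- type (1,0): `R` preserves `Y` -/
lemma typed10_step (hY : InvY Y) {F : Fin n → C(CB n, ℂ)} (hF : Cov10 F) (hm : ∀ i, F i ∈ Y)
    (i : Fin n) : Rc (F i) ∈ Y := by
  have h1 : MemF Y (fun z => L10 F z i) := by
    refine MemF.integral (vB n) hY.closed (fun a z => L10k F i a z) (continuous_L10k F i) ?_
    intro a
    have h : MemF Y (fun z => ∑ k, OmM a.1 i k * (wt a • F k (T a z))) :=
      MemF.sum _ fun k _ => (wt_smul_mem hY (hm k) a (wt a) wt_zero).smul _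
    refine h.congr fun z => ?_
    rw [L10k, Om_sum, Finset.smul_sum]
    refine Finset.sum_congr rfl fun k _ => ?_
    simp only [Complex.real_smul]
    ring
  have hn : ((n : ℂ) + 2) ≠ 0 := by
    have : (0 : ℝ) < (n : ℝ) + 2 := by positivity
    exact_mod_cast this.ne'
  refine MemF.mem ((h1.smul ((cw n : ℂ)⁻¹ * (-(((n : ℂ) + 2) / 2)))).congr fun z => ?_)
  rw [left10 hF]
  show _ = (cw n : ℂ)⁻¹ * R0 (F i) z
  field_simp

lemma cov10_Rc {F : Fin n → C(CB n, ℂ)} (hF : Cov10 F) : Cov10 (fun i => Rc (F i)) := by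
  intro U z
  funext i
  have h := congrFun (R0_cov hF U z) i
  rw [mv_apply] at h
  rw [mv_apply]
  show (cw n : ℂ)⁻¹ * R0 (F i) (act U z) = ∑ k, U.1 i k * ((cw n : ℂ)⁻¹ * R0 (F k) z)
  rw [h, Finset.mul_sum]
  exact Finset.sum_congr rfl fun k _ => by ring

lemma typed10 (hY : InvY Y) {F : Fin n → C(CB n, ℂ)} (hF : Cov10 F) (hm : ∀ i, F i ∈ Y)
    (i : Fin n) : Pc (F i) ∈ Y := by
  have h : ∀ m : ℕ, Cov10 (fun i => (Rc^[m]) (F i)) ∧ ∀ i, (Rc^[m]) (F i) ∈ Y := by
    intro m
    induction m with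
    | zero => exact ⟨hF, hm⟩
    | succ m ih =>
      simp only [Function.iterate_succ_apply']
      exact ⟨cov10_Rc ih.1, typed10_step hY ih.1 ih.2⟩
  exact hY.closed.mem_of_tendsto (tendsto_Rc_iter (F i))
    (Filter.Eventually.of_forall fun m => (h m).2 i)

/-- type (1,1): `R` preserves `Y` -/
lemma typed11_step (hY : InvY Y) {M : Fin n → Fin n → C(CB n, ℂ)} (hM : Cov11 M)
    (htr : ∀ z, (mat M z).trace = 0) (hm : ∀ i j, M i j ∈ Y) (i j : Fin n) : Rc (M i j) ∈ Y := by
  have h1 : MemF Y (fun z => L11 M z i j) := by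
    refine MemF.integral (vB n) hY.closed (fun a z => L11k M a z i j) (continuous_L11k M i j) ?_
    intro a
    have h : MemF Y (fun z => ∑ l, ∑ k, (OmM a.1 i k * LamM a.1 l j) *
        (sq a.1 • M k l (T a z))) :=
      MemF.sum _ fun l _ => MemF.sum _ fun k _ =>
        (wt_smul_mem hY (hm k l) a (sq a.1) (fun h => by simp [sq, h])).smul _
    exact h.congr fun z => (L11k_apply M a z i j).symm
  have hn : ((n : ℂ) + 2) ≠ 0 := by
    have : (0 : ℝ) < (n : ℝ) + 2 := by positivity
    exact_mod_cast this.ne'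
  refine MemF.mem ((h1.smul ((cw n : ℂ)⁻¹ * ((((n : ℂ) + 2) / 2)))).congr fun z => ?_)
  rw [left11 hM htr]
  show _ = (cw n : ℂ)⁻¹ * R0 (M i j) z
  field_simp

lemma cov11_Rc {M : Fin n → Fin n → C(CB n, ℂ)} (hM : Cov11 M) :
    Cov11 (fun i j => Rc (M i j)) := by
  intro U z
  have h := R11_cov hM U z
  have h2 : ∀ w, mat (fun i j => Rc (M i j)) w = (cw n : ℂ)⁻¹ • R11 M w := fun w => rfl
  rw [h2, h2, h, Matrix.mul_smul, Matrix.smul_mul]

lemma trace_Rc {M : Fin n → Fin n → C(CB n, ℂ)} (htr : ∀ z, (mat M z).trace = 0) (z : CB n) :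
    (mat (fun i j => Rc (M i j)) z).trace = 0 := by
  have h2 : mat (fun i j => Rc (M i j)) z = (cw n : ℂ)⁻¹ • R11 M z := rfl
  rw [h2, Matrix.trace_smul, R11_trace htr, smul_zero]

lemma typed11 (hY : InvY Y) {M : Fin n → Fin n → C(CB n, ℂ)} (hM : Cov11 M)
    (htr : ∀ z, (mat M z).trace = 0) (hm : ∀ i j, M i j ∈ Y) (i j : Fin n) : Pc (M i j) ∈ Y := by
  have h : ∀ m : ℕ, Cov11 (fun i j => (Rc^[m]) (M i j)) ∧
      (∀ z, (mat (fun i j => (Rc^[m]) (M i j)) z).trace = 0) ∧ ∀ i j, (Rc^[m]) (M i j) ∈ Y := by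
    intro m
    induction m with
    | zero => exact ⟨hM, htr, hm⟩
    | succ m ih =>
      simp only [Function.iterate_succ_apply']
      exact ⟨cov11_Rc ih.1, trace_Rc ih.2.1, typed11_step hY ih.1 ih.2.1 ih.2.2⟩
  exact hY.closed.mem_of_tendsto (tendsto_Rc_iter (M i j))
    (Filter.Eventually.of_forall fun m => (h m).2.2 i j)

/-- type (0,0): radial functions -/
def Cov00 (f : C(CB n, ℂ)) : Prop := ∀ (U : UG n) (z : CB n), f (act U z) = f z

lemma cov00_eq {f : C(CB n, ℂ)} (hf : Cov00 f) {z w : CB n} (h : nsq z.1 = nsq w.1) :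
    f z = f w := by
  obtain ⟨U, hU⟩ := exists_unitary z.1
  obtain ⟨V, hV⟩ := exists_unitary w.1
  have h1 : z = act (U * V⁻¹) w := by
    apply Subtype.ext
    show z.1 = mv (U * V⁻¹).1 w.1
    rw [← hV, mv, mv, Matrix.mulVec_mulVec]
    have e : (U * V⁻¹).1 * V.1 = U.1 := congrArg Subtype.val (inv_mul_cancel_right U V)
    rw [e, ← h]
    exact hU.symm
  rw [h1, hf]

lemma typed00_step (hY : InvY Y) {f : C(CB n, ℂ)} (hc : Cov00 f) (hf : f ∈ Y) : Rc f ∈ Y := by
  have h1 : MemF Y (fun z => ∫ a, wt a • f (T a z) ∂(vB n)) :=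
    MemF.integral (vB n) hY.closed (fun a z => wt a • f (T a z)) (continuous_left f)
      fun a => wt_smul_mem hY hf a (wt a) wt_zero
  refine MemF.mem ((h1.smul ((cw n : ℂ)⁻¹)).congr fun z => ?_)
  rw [Rc_apply]
  congr 2
  funext a
  by_cases ha : nsq a.1 < 1
  · have h2 : f (T a z) = f (T z a) :=
      cov00_eq hc (nsq_mob_comm ha.le z.2 (ip_ne_one z.2 ha))
    rw [h2]
  · have h1 : nsq a.1 = 1 := le_antisymm a.2 (not_lt.1 ha)
    rw [wt_zero h1, zero_smul, zero_smul]

lemma cov00_Rc {f : C(CB n, ℂ)} (hc : Cov00 f) : Cov00 (Rc f) := by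
  intro U z
  rw [Rc_apply, Rc_apply, ← int_act U]
  congr 2
  funext w
  rw [wt_act, T_act, hc]

lemma typed00 (hY : InvY Y) {f : C(CB n, ℂ)} (hc : Cov00 f) (hf : f ∈ Y) : Pc f ∈ Y := by
  have h : ∀ m : ℕ, Cov00 ((Rc^[m]) f) ∧ (Rc^[m]) f ∈ Y := by
    intro m
    induction m with
    | zero => exact ⟨hc, hf⟩
    | succ m ih =>
      simp only [Function.iterate_succ_apply']
      exact ⟨cov00_Rc ih.1, typed00_step hY ih.1 ih.2⟩
  exact hY.closed.mem_of_tendsto (tendsto_Rc_iter f)
    (Filter.Eventually.of_forall fun m => (h m).2)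

end types

/-! ### averages over the unitary group -/

lemma continuous_avgk (k : C(UG n, ℂ)) (f : C(CB n, ℂ)) :
    Continuous fun p : UG n × CB n => k p.1 * f (act p.1⁻¹ p.2) := by
  refine (k.continuous.comp continuous_fst).mul (f.continuous.comp ?_)
  exact continuous_act_comp (continuous_inv.comp continuous_fst) continuous_snd

/-- `z ↦ ∫ k(U) f(U⁻¹ z) dU` -/
noncomputable def avg (k : C(UG n, ℂ)) (f : C(CB n, ℂ)) : C(CB n, ℂ) :=
  ⟨fun z => ∫ U, k U * f (act U⁻¹ z) ∂(hU n), by
    have hb : ∀ (z : CB n) (U : UG n), ‖k U * f (act U⁻¹ z)‖ ≤ ‖k‖ * ‖f‖ := fun z U => by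
      rw [norm_mul]
      exact mul_le_mul (k.norm_coe_le_norm U) (f.norm_coe_le_norm _) (norm_nonneg _)
        (norm_nonneg _)
    rw [continuous_iff_continuousAt]
    intro z0
    refine continuousAt_of_dominated (bound := fun _ => ‖k‖ * ‖f‖)
      (Filter.Eventually.of_forall fun z => ?_)
      (Filter.Eventually.of_forall fun z => Filter.Eventually.of_forall fun U => hb z U)
      (integrable_const _) (Filter.Eventually.of_forall fun U => ?_)
    · exact ((continuous_avgk k f).comp
        (by fun_prop : Continuous fun U : UG n => (U, z))).aestronglyMeasurable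
    · exact ((continuous_avgk k f).comp
        (by fun_prop : Continuous fun z : CB n => (U, z))).continuousAt⟩

lemma avg_apply (k : C(UG n, ℂ)) (f : C(CB n, ℂ)) (z : CB n) :
    avg k f z = ∫ U, k U * f (act U⁻¹ z) ∂(hU n) := rfl

lemma avg_mem {Y : Submodule ℂ C(CB n, ℂ)} (hY : InvY Y) (k : C(UG n, ℂ)) {f : C(CB n, ℂ)}
    (hf : f ∈ Y) : avg k f ∈ Y := by
  refine MemF.mem ?_
  exact MemF.integral (hU n) hY.closed (fun U z => k U * f (act U⁻¹ z)) (continuous_avgk k f)
    fun U => (hY.actI U⁻¹ f (MemF.of_mem hf)).smul (k U)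

lemma Pc_avg (k : C(UG n, ℂ)) (f : C(CB n, ℂ)) : Pc (avg k f) = avg k (Pc f) := by
  ext z
  by_cases hz : nsq z.1 = 1
  · rw [Pc_sphere _ hz, avg_apply, avg_apply]
    congr 1
    funext U
    rw [Pc_sphere f (by rw [nsq_act, hz])]
  · have hz' : nsq z.1 < 1 := lt_of_le_of_ne z.2 hz
    rw [Pc_apply]
    simp only [avg_apply]
    have hc : Continuous fun p : UG n × UG n => k p.2 * f (act p.2⁻¹ (T z (col p.1))) := by
      refine (k.continuous.comp continuous_snd).mul (f.continuous.comp ?_)
      exact continuous_act_comp (continuous_inv.comp continuous_snd)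
        ((TC z hz').continuous.comp (continuous_col.comp continuous_fst))
    rw [integral_integral_swap_of_hasCompactSupport
      (f := fun V U => k U * f (act U⁻¹ (T z (col V)))) hc (HasCompactSupport.of_compactSpace _)]
    congr 1
    funext U
    rw [integral_const_mul, ← Pc_act, Pc_apply]
    rfl

lemma avg_slice (k : C(UG n, ℂ)) (f : C(CB n, ℂ)) (z : CB n) :
    Integrable (fun U : UG n => k U * f (act U⁻¹ z)) (hU n) := by
  have hs : Continuous fun U : UG n => (U, z) := continuous_id.prodMk continuous_const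
  have h4 := Continuous.comp (continuous_avgk k f) hs
  simp only [Function.comp_def] at h4
  exact integrable_hU h4

/-- weight of type (1,0) -/
noncomputable def k10 (i : Fin n) : C(UG n, ℂ) :=
  ⟨fun U => (col U).1 i, (continuous_apply i).comp (continuous_subtype_val.comp continuous_col)⟩

/-- weight of type (1,1) -/
noncomputable def k11 (i j : Fin n) : C(UG n, ℂ) :=
  ⟨fun U => (col U).1 i * conj ((col U).1 j) - if i = j then 1 / (n : ℂ) else 0, by
    have h : ∀ i : Fin n, Continuous fun U : UG n => (col U).1 i := fun i =>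
      (continuous_apply i).comp (continuous_subtype_val.comp continuous_col)
    exact ((h i).mul (Complex.continuous_conj.comp (h j))).sub continuous_const⟩

/-- weight of type (0,0) -/
noncomputable def k00 (n : ℕ) : C(UG n, ℂ) := ⟨fun _ => 1, continuous_const⟩

lemma cov10_avg (f : C(CB n, ℂ)) : Cov10 (fun i => avg (k10 i) f) := by
  intro V z
  funext i
  rw [mv_apply]
  simp only [avg_apply]
  rw [← int_left V]
  have h : ∀ U : UG n, k10 i (V * U) * f (act (V * U)⁻¹ (act V z)) =
      ∑ j, V.1 i j * (k10 j U * f (act U⁻¹ z)) := by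
    intro U
    have h1 : act (V * U)⁻¹ (act V z) = act U⁻¹ z := by
      rw [mul_inv_rev, act_mul, act_inv_act]
    have h2 : k10 i (V * U) = ∑ j, V.1 i j * k10 j U := by
      show (col (V * U)).1 i = _
      rw [col_mul, act_val, mv_apply]
      rfl
    rw [h1, h2, Finset.sum_mul]
    exact Finset.sum_congr rfl fun j _ => by ring
  simp only [h]
  rw [integral_finsetSum]
  · exact Finset.sum_congr rfl fun j _ => integral_const_mul _ _
  · intro j _
    exact (avg_slice (k10 j) f z).const_mul _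

lemma cov11_avg (f : C(CB n, ℂ)) : Cov11 (fun i j => avg (k11 i j) f) := by
  intro V z
  have hV : V.1 * star V.1 = 1 := Matrix.mem_unitaryGroup_iff.1 V.2
  ext i j
  rw [conj_apply]
  simp only [mat, Matrix.of_apply, avg_apply]
  rw [← int_left V]
  have h : ∀ U : UG n, k11 i j (V * U) * f (act (V * U)⁻¹ (act V z)) =
      ∑ l, ∑ k, (V.1 i k * (star V.1) l j) * (k11 k l U * f (act U⁻¹ z)) := by
    intro U
    have h1 : act (V * U)⁻¹ (act V z) = act U⁻¹ z := by
      rw [mul_inv_rev, act_mul, act_inv_act]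
    have h2 : k11 i j (V * U) = ∑ l, ∑ k, (V.1 i k * (star V.1) l j) * k11 k l U := by
      have e1 : (Matrix.of fun k l => k11 k l U : Matrix (Fin n) (Fin n) ℂ) =
          Matrix.vecMulVec (col U).1 (star (col U).1) - (1 / (n : ℂ)) • 1 := by
        ext k l
        simp only [Matrix.of_apply, Matrix.sub_apply, Matrix.vecMulVec_apply, Pi.star_apply,
          Matrix.smul_apply, Matrix.one_apply, smul_eq_mul, mul_ite, mul_one, mul_zero]
        rfl
      have e2 : (Matrix.of fun k l => k11 k l (V * U) : Matrix (Fin n) (Fin n) ℂ) =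
          V.1 * (Matrix.of fun k l => k11 k l U) * star V.1 := by
        rw [e1, Matrix.mul_sub, Matrix.sub_mul, Matrix.mul_smul, Matrix.mul_one, Matrix.smul_mul,
          hV, Matrix.mul_vecMulVec, Matrix.vecMulVec_mul]
        ext k l
        simp only [Matrix.of_apply, Matrix.sub_apply, Matrix.vecMulVec_apply,
          Matrix.smul_apply, Matrix.one_apply, smul_eq_mul, mul_ite, mul_one, mul_zero]
        have e3 : Matrix.vecMul (star (col U).1) (star V.1) = star (mv V.1 (col U).1) := by
          rw [mv, Matrix.star_mulVec, Matrix.star_eq_conjTranspose]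
        rw [e3]
        show (col (V * U)).1 k * conj ((col (V * U)).1 l) - _ = _
        rw [col_mul]
        rfl
      have e4 := congrFun (congrFun e2 i) j
      rw [conj_apply] at e4
      exact e4
    rw [h1, h2, Finset.sum_mul]
    refine Finset.sum_congr rfl fun l _ => ?_
    rw [Finset.sum_mul]
    exact Finset.sum_congr rfl fun k _ => by ring
  simp only [h]
  have hint : ∀ k l, Integrable (fun U => k11 k l U * f (act U⁻¹ z)) (hU n) :=
    fun k l => avg_slice (k11 k l) f z
  rw [integral_finsetSum]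
  · refine Finset.sum_congr rfl fun l _ => ?_
    rw [integral_finsetSum]
    · exact Finset.sum_congr rfl fun k _ => integral_const_mul _ _
    · exact fun k _ => (hint k l).const_mul _
  · exact fun l _ => integrable_finsetSum _ fun k _ => (hint k l).const_mul _

lemma trace_avg (f : C(CB n, ℂ)) (z : CB n) :
    (mat (fun i j => avg (k11 i j) f) z).trace = 0 := by
  have hn0 : (n : ℂ) ≠ 0 := by exact_mod_cast NeZero.ne n
  simp only [Matrix.trace, Matrix.diag, mat, Matrix.of_apply, avg_apply]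
  have hint : ∀ k l, Integrable (fun U => k11 k l U * f (act U⁻¹ z)) (hU n) :=
    fun k l => avg_slice (k11 k l) f z
  rw [← integral_finsetSum _ fun i _ => hint i i]
  have h : ∀ U : UG n, ∑ i, k11 i i U * f (act U⁻¹ z) = 0 := by
    intro U
    rw [← Finset.sum_mul]
    have h1 : ∑ i, k11 i i U = 0 := by
      have h2 : ∀ i, k11 i i U = (col U).1 i * conj ((col U).1 i) - 1 / (n : ℂ) := fun i => by
        show (col U).1 i * conj ((col U).1 i) - (if i = i then 1 / (n : ℂ) else 0) = _
        rw [if_pos rfl]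
      simp only [h2, Finset.sum_sub_distrib, Finset.sum_const, Finset.card_univ, Fintype.card_fin,
        nsmul_eq_mul]
      have h3 : ∑ i, (col U).1 i * conj ((col U).1 i) = 1 := by
        have := ip_self (col U).1
        rw [nsq_col] at this
        simpa [ip] using this
      rw [h3]
      field_simp
      ring
    rw [h1, zero_mul]
  simp only [h]
  simp

lemma cov00_avg (f : C(CB n, ℂ)) : Cov00 (avg (k00 n) f) := by
  intro V z
  rw [avg_apply, avg_apply, ← int_left V]
  congr 1
  funext U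
  have h1 : act (V * U)⁻¹ (act V z) = act U⁻¹ z := by
    rw [mul_inv_rev, act_mul, act_inv_act]
  rw [h1]
  rfl

end Pool.Agent.Ball
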