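import Pool.Agent.Helper76.Ball2

set_option autoImplicit false
open MeasureTheory

/-! Module E for MP_a59212_an: power kernels in a closed subspace of `C(X)`. -/

namespace Pool.Agent.Ball

open Filter Topology

section

variable {X : Type*} [TopologicalSpace X] [CompactSpace X]

theorem norm_lt_one_of {x : X → ℂ} (hx : Continuous x) (hx1 : ∀ z, ‖x z‖ < 1) :
    ‖(⟨x, hx⟩ : C(X, ℂ))‖ < 1 := by
  rw [ContinuousMap.norm_lt_iff _ zero_lt_one]
  exact hx1

/-- the resolvent -/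
theorem inverse_tendsto (ξ : C(X, ℂ)) :
    Tendsto (fun t : ℝ => Ring.inverse (1 - (t : ℂ) • ξ)) (𝓝[>] 0) (𝓝 1) := by
  have h1 : Tendsto (fun t : ℝ => (1 : C(X, ℂ)) - (t : ℂ) • ξ) (𝓝[>] 0) (𝓝 ((1 : (C(X, ℂ))ˣ) : C(X, ℂ))) := by
    have h2 : Continuous (fun t : ℝ => (1 : C(X, ℂ)) - (t : ℂ) • ξ) := by
      apply Continuous.sub continuous_const
      exact (Complex.continuous_ofReal).smul continuous_const
    have h3 := h2.tendsto 0
    simp only [Complex.ofReal_zero, zero_smul, sub_zero] at h3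
    exact h3.mono_left nhdsWithin_le_nhds
  have h4 := (NormedRing.inverse_continuousAt (1 : (C(X, ℂ))ˣ)).tendsto.comp h1
  simpa [Function.comp_def] using h4

omit [CompactSpace X] in
/-- if a member of `Y` is an inverse of a unit -/
theorem inverse_eq {u g : C(X, ℂ)} (h : u * g = 1) : Ring.inverse u = g := by
  have hu : IsUnit u := IsUnit.of_mul_eq_one g h
  have h2 := Ring.inverse_mul_cancel u hu
  calc Ring.inverse u = Ring.inverse u * (u * g) := by rw [h, mul_one]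
    _ = (Ring.inverse u * u) * g := by ring
    _ = g := by rw [h2, one_mul]

theorem closure_alg_le (Y : Submodule ℂ C(X, ℂ)) (hY : IsClosed (Y : Set C(X, ℂ)))
    (A : Subalgebra ℂ C(X, ℂ)) (hA : ∀ f ∈ A, f ∈ Y) : ∀ f ∈ A.topologicalClosure, f ∈ Y := by
  intro f hf
  have h1 : f ∈ closure (A : Set C(X, ℂ)) := hf
  exact closure_minimal (fun g hg => hA g hg) hY h1

theorem geom_mem (A : Subalgebra ℂ C(X, ℂ)) (ξ : C(X, ℂ)) (hξ : ξ ∈ A) (h1 : ‖ξ‖ < 1) :
    ∃ g ∈ A.topologicalClosure, (1 - ξ) * g = 1 := by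
  refine ⟨∑' i, ξ ^ i, ?_, mul_neg_geom_series ξ h1⟩
  have hs : Summable (fun i => ξ ^ i) := summable_geometric_of_norm_lt_one h1
  apply mem_closure_of_tendsto hs.hasSum.tendsto_sum_nat
  apply Filter.Eventually.of_forall
  intro n
  exact A.sum_mem (fun i _ => A.pow_mem hξ i)

theorem pow_kernel_mem_hol (Y : Submodule ℂ C(X, ℂ))
    (hY : IsClosed (Y : Set C(X, ℂ))) (x : X → ℂ) (hx : Continuous x) (hx1 : ∀ z, ‖x z‖ < 1)
    (h : ∀ t : ℝ, 0 ≤ t → t ≤ 1 → MemF Y (fun z => 1 / (1 - t * x z))) (s : ℕ) :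
    MemF Y (fun z => 1 / (1 - x z) ^ s) := by
  set ξ : C(X, ℂ) := ⟨x, hx⟩ with hξ
  have hn : ‖ξ‖ < 1 := norm_lt_one_of hx hx1
  have hne : ∀ (t : ℝ), 0 ≤ t → t ≤ 1 → ∀ z, 1 - (t : ℂ) * x z ≠ 0 := by
    intro t ht0 ht1 z h0
    have h2 : (t : ℂ) * x z = 1 := (sub_eq_zero.1 h0).symm
    have h3 : ‖(t : ℂ) * x z‖ < 1 := by
      rw [norm_mul, Complex.norm_real, Real.norm_of_nonneg ht0]
      calc t * ‖x z‖ ≤ 1 * ‖x z‖ := mul_le_mul_of_nonneg_right ht1 (norm_nonneg _)
        _ < 1 := by rw [one_mul]; exact hx1 z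
    rw [h2, norm_one] at h3
    exact lt_irrefl _ h3
  have hF : ∀ t : ℝ, 0 ≤ t → t ≤ 1 → Ring.inverse (1 - (t : ℂ) • ξ) ∈ Y ∧
      (1 - (t : ℂ) • ξ) * Ring.inverse (1 - (t : ℂ) • ξ) = 1 := by
    intro t ht0 ht1
    obtain ⟨g, hg, hgz⟩ := h t ht0 ht1
    have h2 : (1 - (t : ℂ) • ξ) * g = 1 := by
      ext z
      simp only [ContinuousMap.mul_apply, ContinuousMap.sub_apply, ContinuousMap.one_apply,
        ContinuousMap.smul_apply, smul_eq_mul, hgz]
      exact mul_one_div_cancel (hne t ht0 ht1 z)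
    rw [inverse_eq h2]
    exact ⟨hg, h2⟩
  have hpow : ∀ k : ℕ, (∀ t : ℝ, 0 < t → t ≤ 1 → ξ ^ k * Ring.inverse (1 - (t : ℂ) • ξ) ∈ Y) ∧
      ξ ^ k ∈ Y := by
    intro k
    induction k with
    | zero =>
      constructor
      · intro t ht0 ht1
        rw [pow_zero, one_mul]
        exact (hF t ht0.le ht1).1
      · have := (hF 0 le_rfl zero_le_one).1
        simpa using this
    | succ k ih =>
      have hstep : ∀ t : ℝ, 0 < t → t ≤ 1 →
          ξ ^ (k + 1) * Ring.inverse (1 - (t : ℂ) • ξ) ∈ Y := by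
        intro t ht0 ht1
        have h2 := (hF t ht0.le ht1).2
        have h3 : ξ ^ (k + 1) * Ring.inverse (1 - (t : ℂ) • ξ) =
            (t : ℂ)⁻¹ • (ξ ^ k * Ring.inverse (1 - (t : ℂ) • ξ) - ξ ^ k) := by
          have ht : (t : ℂ) ≠ 0 := by exact_mod_cast ht0.ne'
          rw [eq_inv_smul_iff₀ ht]
          have h4 : ξ ^ k * Ring.inverse (1 - (t : ℂ) • ξ) - ξ ^ k =
              ξ ^ k * Ring.inverse (1 - (t : ℂ) • ξ) -
                ξ ^ k * ((1 - (t : ℂ) • ξ) * Ring.inverse (1 - (t : ℂ) • ξ)) := by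
            rw [h2, mul_one]
          rw [h4, sub_mul, one_mul, smul_mul_assoc, mul_sub, sub_sub_cancel, mul_smul_comm,
            pow_succ]
          ring_nf
        rw [h3]
        exact Y.smul_mem _ (Y.sub_mem (ih.1 t ht0 ht1) ih.2)
      refine ⟨hstep, ?_⟩
      have hlim : Tendsto (fun t : ℝ => ξ ^ (k + 1) * Ring.inverse (1 - (t : ℂ) • ξ)) (𝓝[>] 0)
          (𝓝 (ξ ^ (k + 1) * 1)) := (inverse_tendsto ξ).const_mul _
      rw [mul_one] at hlim
      refine hY.mem_of_tendsto hlim ?_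
      filter_upwards [Ioc_mem_nhdsGT (zero_lt_one (α := ℝ))] with t ht
      exact hstep t ht.1 ht.2
  set A := Algebra.adjoin ℂ {ξ} with hA
  have hAY : ∀ f ∈ A, f ∈ Y := by
    intro f hf
    rw [hA, Algebra.adjoin_singleton_eq_range_aeval] at hf
    obtain ⟨p, rfl⟩ := hf
    show Polynomial.aeval ξ p ∈ Y
    rw [Polynomial.aeval_eq_sum_range]
    exact Y.sum_mem (fun i _ => Y.smul_mem _ (hpow i).2)
  obtain ⟨g, hg, hg1⟩ := geom_mem A ξ (Algebra.self_mem_adjoin_singleton ℂ ξ) hn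
  refine ⟨g ^ s, closure_alg_le Y hY A hAY _ (Subalgebra.pow_mem _ hg s), ?_⟩
  intro z
  have h2 : (1 - x z) * g z = 1 := by
    have h5 : (1 - ξ z) * g z = 1 := by
      have := congrArg (fun f : C(X, ℂ) => f z) hg1
      simpa using this
    exact h5
  have h3 : 1 - x z ≠ 0 := left_ne_zero_of_mul_eq_one h2
  rw [ContinuousMap.pow_apply, eq_div_iff (pow_ne_zero _ h3), ← mul_pow, mul_comm, h2, one_pow]

/-- continuity of the product resolvent at `0` -/
theorem inverse_tendsto2 (a b : C(X, ℂ)) :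
    Tendsto (fun t : ℝ => Ring.inverse ((1 - (t : ℂ) • a) * (1 - (t : ℂ) • b))) (𝓝[>] 0) (𝓝 1) := by
  have h1 : Tendsto (fun t : ℝ => ((1 : C(X, ℂ)) - (t : ℂ) • a) * (1 - (t : ℂ) • b)) (𝓝[>] 0)
      (𝓝 ((1 : (C(X, ℂ))ˣ) : C(X, ℂ))) := by
    have h2 : Continuous (fun t : ℝ => ((1 : C(X, ℂ)) - (t : ℂ) • a) * (1 - (t : ℂ) • b)) := by
      apply Continuous.mul
      · apply Continuous.sub continuous_const
        exact (Complex.continuous_ofReal).smul continuous_const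
      · apply Continuous.sub continuous_const
        exact (Complex.continuous_ofReal).smul continuous_const
    have h3 := h2.tendsto 0
    simp only [Complex.ofReal_zero, zero_smul, sub_zero, mul_one] at h3
    exact h3.mono_left nhdsWithin_le_nhds
  have h4 := (NormedRing.inverse_continuousAt (1 : (C(X, ℂ))ˣ)).tendsto.comp h1
  simpa [Function.comp_def] using h4

omit [CompactSpace X] in
/-- the complete homogeneous sums `∑_{i<n} a^i b^(n-1-i)` -/
theorem hsum_rec (a b : C(X, ℂ)) (n : ℕ) :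
    (∑ i ∈ Finset.range (n + 2), a ^ i * b ^ (n + 2 - 1 - i)) =
      (a + b) * (∑ i ∈ Finset.range (n + 1), a ^ i * b ^ (n + 1 - 1 - i)) -
        a * b * (∑ i ∈ Finset.range n, a ^ i * b ^ (n - 1 - i)) := by
  have h1 := geom_sum₂_succ_eq a b (n := n)
  have h2 := geom_sum₂_succ_eq a b (n := n + 1)
  simp only [Nat.add_sub_cancel] at h1 h2 ⊢
  rw [show n + 2 - 1 = n + 1 from rfl, h2, h1]
  ring

theorem hsum_mem (Y : Submodule ℂ C(X, ℂ)) (hY : IsClosed (Y : Set C(X, ℂ))) (a b : C(X, ℂ))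
    (hF : ∀ t : ℝ, 0 ≤ t → t ≤ 1 →
      Ring.inverse ((1 - (t : ℂ) • a) * (1 - (t : ℂ) • b)) ∈ Y ∧
      ((1 - (t : ℂ) • a) * (1 - (t : ℂ) • b)) *
        Ring.inverse ((1 - (t : ℂ) • a) * (1 - (t : ℂ) • b)) = 1) (n : ℕ) :
    (∑ i ∈ Finset.range (n + 1), a ^ i * b ^ (n - i)) ∈ Y := by
  set S : ℕ → C(X, ℂ) := fun n => ∑ i ∈ Finset.range n, a ^ i * b ^ (n - 1 - i) with hS
  have hrec : ∀ n, S (n + 2) = (a + b) * S (n + 1) - a * b * S n := fun n => hsum_rec a b n
  have hS0 : S 0 = 0 := by simp [hS]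
  have hS1 : S 1 = 1 := by simp [hS]
  have key : ∀ k : ℕ, (∀ t : ℝ, 0 < t → t ≤ 1 →
      Ring.inverse ((1 - (t : ℂ) • a) * (1 - (t : ℂ) • b)) *
        (S (k + 1) - (t : ℂ) • (a * b * S k)) ∈ Y) ∧ S (k + 1) ∈ Y := by
    intro k
    induction k with
    | zero =>
      constructor
      · intro t ht0 ht1
        rw [hS0, hS1, mul_zero, smul_zero, sub_zero, mul_one]
        exact (hF t ht0.le ht1).1
      · have := (hF 0 le_rfl zero_le_one).1
        rw [hS1]
        simpa using this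
    | succ k ih =>
      have hstep : ∀ t : ℝ, 0 < t → t ≤ 1 →
          Ring.inverse ((1 - (t : ℂ) • a) * (1 - (t : ℂ) • b)) *
            (S (k + 1 + 1) - (t : ℂ) • (a * b * S (k + 1))) ∈ Y := by
        intro t ht0 ht1
        have h2 := (hF t ht0.le ht1).2
        set I := Ring.inverse ((1 - (t : ℂ) • a) * (1 - (t : ℂ) • b)) with hI
        have h3 : I * (S (k + 1 + 1) - (t : ℂ) • (a * b * S (k + 1))) =
            (t : ℂ)⁻¹ • (I * (S (k + 1) - (t : ℂ) • (a * b * S k)) - S (k + 1)) := by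
          have ht : (t : ℂ) ≠ 0 := by exact_mod_cast ht0.ne'
          rw [eq_inv_smul_iff₀ ht]
          have h4 : S (k + 1) = S (k + 1) * (((1 - (t : ℂ) • a) * (1 - (t : ℂ) • b)) * I) := by
            rw [h2, mul_one]
          have h5 : I * (S (k + 1) - (t : ℂ) • (a * b * S k)) - S (k + 1) =
              I * (S (k + 1) - (t : ℂ) • (a * b * S k)) -
                S (k + 1) * (((1 - (t : ℂ) • a) * (1 - (t : ℂ) • b)) * I) := by
            rw [← h4]
          rw [h5, hrec]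
          simp only [Algebra.smul_def]
          ring
        rw [h3]
        exact Y.smul_mem _ (Y.sub_mem (ih.1 t ht0 ht1) ih.2)
      refine ⟨hstep, ?_⟩
      have hlim : Tendsto (fun t : ℝ => Ring.inverse ((1 - (t : ℂ) • a) * (1 - (t : ℂ) • b)) *
            (S (k + 1 + 1) - (t : ℂ) • (a * b * S (k + 1)))) (𝓝[>] 0)
          (𝓝 (1 * (S (k + 1 + 1) - (0 : ℂ) • (a * b * S (k + 1))))) := by
        apply Tendsto.mul (inverse_tendsto2 a b)
        apply Tendsto.sub tendsto_const_nhds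
        apply Tendsto.smul _ tendsto_const_nhds
        have h6 := (Complex.continuous_ofReal.tendsto 0).mono_left
          (nhdsWithin_le_nhds (a := (0 : ℝ)) (s := Set.Ioi 0))
        simpa using h6
      rw [one_mul, zero_smul, sub_zero] at hlim
      refine hY.mem_of_tendsto hlim ?_
      filter_upwards [Ioc_mem_nhdsGT (zero_lt_one (α := ℝ))] with t ht
      exact hstep t ht.1 ht.2
  exact (key n).2

theorem circle_infinite : Set.Infinite {w : ℂ | ‖w‖ = 1} := by
  have h1 : IsPreconnected (Metric.sphere (0 : ℂ) 1) := by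
    apply isPreconnected_sphere
    rw [Complex.rank_real_complex]
    norm_num
  have h2 : (Metric.sphere (0 : ℂ) 1).Nontrivial := by
    refine ⟨1, by simp, -1, by simp, ?_⟩
    intro h
    have := congrArg Complex.re h
    norm_num at this
  have h3 := h1.infinite_of_nontrivial h2
  have h4 : {w : ℂ | ‖w‖ = 1} = Metric.sphere (0 : ℂ) 1 := by
    ext w
    simp
  rw [h4]
  exact h3

/-- isolating the coefficients -/
theorem coeff_mem {V : Type*} [AddCommGroup V] [Module ℂ V] (Y : Submodule ℂ V) (n : ℕ)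
    (v : ℕ → V) (h : ∀ w : ℂ, ‖w‖ = 1 → (∑ i ∈ Finset.range n, (w ^ 2) ^ i • v i) ∈ Y)
    (i : ℕ) (hi : i < n) : v i ∈ Y := by
  rw [← Submodule.Quotient.mk_eq_zero, ← Module.forall_dual_apply_eq_zero_iff ℂ]
  intro φ
  set p : Polynomial ℂ := ∑ j ∈ Finset.range n,
    Polynomial.C (φ (Submodule.Quotient.mk (v j))) * Polynomial.X ^ (2 * j) with hp
  have hroot : p = 0 := by
    apply Polynomial.eq_zero_of_infinite_isRoot
    apply circle_infinite.mono
    intro w hw
    have h1 := h w hw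
    rw [← Submodule.Quotient.mk_eq_zero] at h1
    have h2 := congrArg φ h1
    rw [← Submodule.mkQ_apply, map_sum, map_sum, map_zero] at h2
    show Polynomial.eval w p = 0
    rw [hp, Polynomial.eval_finsetSum, ← h2]
    apply Finset.sum_congr rfl
    intro j _
    rw [Polynomial.eval_mul, Polynomial.eval_C, Polynomial.eval_pow, Polynomial.eval_X,
      map_smul, map_smul, smul_eq_mul, mul_comm, pow_mul, Submodule.mkQ_apply]
  have h3 : p.coeff (2 * i) = φ (Submodule.Quotient.mk (v i)) := by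
    rw [hp, Polynomial.finsetSum_coeff, Finset.sum_eq_single i]
    · rw [Polynomial.coeff_C_mul_X_pow, if_pos rfl]
    · intro j _ hj
      rw [Polynomial.coeff_C_mul_X_pow, if_neg]
      omega
    · intro h4
      exact absurd (Finset.mem_range.2 hi) h4
  rw [← h3, hroot, Polynomial.coeff_zero]

theorem pow_kernel_mem_plh (Y : Submodule ℂ C(X, ℂ))
    (hY : IsClosed (Y : Set C(X, ℂ))) (x : X → ℂ) (hx : Continuous x) (hx1 : ∀ z, ‖x z‖ < 1)
    (h : ∀ l : ℂ, ‖l‖ ≤ 1 → MemF Y (fun z => 1 / ((1 - l * x z) * (1 - starRingEnd ℂ l * starRingEnd ℂ (x z)))))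
    (s : ℕ) :
    MemF Y (fun z => 1 / ((1 - x z) ^ s * (1 - starRingEnd ℂ (x z)) ^ s)) := by
  set ξ : C(X, ℂ) := ⟨x, hx⟩ with hξ
  set η : C(X, ℂ) := ⟨fun z => starRingEnd ℂ (x z), Complex.continuous_conj.comp hx⟩ with hη
  have hn : ‖ξ‖ < 1 := norm_lt_one_of hx hx1
  have hn' : ‖η‖ < 1 := norm_lt_one_of _ (fun z => by rw [RCLike.norm_conj]; exact hx1 z)
  have hne : ∀ (l : ℂ), ‖l‖ ≤ 1 → ∀ z, 1 - l * x z ≠ 0 := by
    intro l hl z h0
    have h2 : l * x z = 1 := (sub_eq_zero.1 h0).symm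
    have h3 : ‖l * x z‖ < 1 := by
      rw [norm_mul]
      calc ‖l‖ * ‖x z‖ ≤ 1 * ‖x z‖ := mul_le_mul_of_nonneg_right hl (norm_nonneg _)
        _ < 1 := by rw [one_mul]; exact hx1 z
    rw [h2, norm_one] at h3
    exact lt_irrefl _ h3
  have hne' : ∀ (l : ℂ), ‖l‖ ≤ 1 → ∀ z, 1 - starRingEnd ℂ l * starRingEnd ℂ (x z) ≠ 0 := by
    intro l hl z h0
    apply hne l hl z
    have := congrArg (starRingEnd ℂ) h0
    simpa using this
  have hF : ∀ w : ℂ, ‖w‖ = 1 → ∀ t : ℝ, 0 ≤ t → t ≤ 1 →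
      Ring.inverse ((1 - (t : ℂ) • (w • ξ)) * (1 - (t : ℂ) • (starRingEnd ℂ w • η))) ∈ Y ∧
      ((1 - (t : ℂ) • (w • ξ)) * (1 - (t : ℂ) • (starRingEnd ℂ w • η))) *
        Ring.inverse ((1 - (t : ℂ) • (w • ξ)) * (1 - (t : ℂ) • (starRingEnd ℂ w • η))) = 1 := by
    intro w hw t ht0 ht1
    have hl : ‖(t : ℂ) * w‖ ≤ 1 := by
      rw [norm_mul, hw, mul_one, Complex.norm_real, Real.norm_of_nonneg ht0]
      exact ht1
    obtain ⟨g, hg, hgz⟩ := h ((t : ℂ) * w) hl
    have h2 : ((1 - (t : ℂ) • (w • ξ)) * (1 - (t : ℂ) • (starRingEnd ℂ w • η))) * g = 1 := by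
      ext z
      have h3 := hne _ hl z
      have h4 := hne' _ hl z
      have h5 : ((1 - (t : ℂ) • (w • ξ)) * (1 - (t : ℂ) • (starRingEnd ℂ w • η))) z =
          (1 - t * w * x z) * (1 - starRingEnd ℂ (t * w) * starRingEnd ℂ (x z)) := by
        simp only [ContinuousMap.mul_apply, ContinuousMap.sub_apply, ContinuousMap.one_apply,
          ContinuousMap.smul_apply, smul_eq_mul, map_mul, Complex.conj_ofReal, mul_assoc]
        rfl
      rw [ContinuousMap.mul_apply, h5, hgz, ContinuousMap.one_apply]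
      exact mul_one_div_cancel (mul_ne_zero h3 h4)
    rw [inverse_eq h2]
    exact ⟨hg, h2⟩
  have hmono : ∀ n i : ℕ, i < n + 1 → ξ ^ i * η ^ (n - i) ∈ Y := by
    intro n i hi
    refine coeff_mem Y (n + 1) (fun i => ξ ^ i * η ^ (n - i)) ?_ i hi
    intro w hw
    have h1 := hsum_mem Y hY (w • ξ) (starRingEnd ℂ w • η) (hF w hw) n
    have h2 := Y.smul_mem (w ^ n) h1
    rw [Finset.smul_sum] at h2
    have h3 : w * starRingEnd ℂ w = 1 := by
      rw [Complex.mul_conj, Complex.normSq_eq_norm_sq, hw]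
      norm_num
    have h4 : ∀ j ∈ Finset.range (n + 1), (w ^ 2) ^ j • (ξ ^ j * η ^ (n - j)) =
        w ^ n • ((w • ξ) ^ j * (starRingEnd ℂ w • η) ^ (n - j)) := by
      intro j hj
      have hj' : j ≤ n := Nat.lt_succ_iff.1 (Finset.mem_range.1 hj)
      rw [smul_pow, smul_pow, smul_mul_smul_comm, smul_smul]
      congr 1
      have h5 : w ^ n = w ^ j * w ^ (n - j) := by rw [← pow_add, Nat.add_sub_cancel' hj']
      rw [h5]
      calc (w ^ 2) ^ j = w ^ j * w ^ j * (w * starRingEnd ℂ w) ^ (n - j) := by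
            rw [h3, one_pow, mul_one, ← pow_mul, two_mul, pow_add]
        _ = _ := by rw [mul_pow]; ring
    rw [Finset.sum_congr rfl h4]
    exact h2
  set A := Algebra.adjoin ℂ {ξ, η} with hA
  have hAY : ∀ f ∈ A, f ∈ Y := by
    intro f hf
    have h1 : f ∈ Subalgebra.toSubmodule (Algebra.adjoin ℂ {ξ, η}) := hf
    rw [Algebra.adjoin_eq_span] at h1
    have h2 : Submodule.span ℂ (Submonoid.closure {ξ, η} : Set C(X, ℂ)) ≤ Y := by
      rw [Submodule.span_le]
      intro g hg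
      obtain ⟨i, j, hij⟩ := (Submonoid.mem_closure_pair _ _ _).1 hg
      rw [← hij]
      have := hmono (i + j) i (by omega)
      rwa [Nat.add_sub_cancel_left] at this
    exact h2 h1
  obtain ⟨g, hg, hg1⟩ := geom_mem A ξ (Algebra.subset_adjoin (by simp)) hn
  obtain ⟨g', hg', hg1'⟩ := geom_mem A η (Algebra.subset_adjoin (by simp)) hn'
  refine ⟨g ^ s * g' ^ s, closure_alg_le Y hY A hAY _
    (Subalgebra.mul_mem _ (Subalgebra.pow_mem _ hg s) (Subalgebra.pow_mem _ hg' s)), ?_⟩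
  intro z
  have h2 : (1 - x z) * g z = 1 := by
    have h5 : (1 - ξ z) * g z = 1 := by
      have := congrArg (fun f : C(X, ℂ) => f z) hg1
      simpa using this
    exact h5
  have h2' : (1 - starRingEnd ℂ (x z)) * g' z = 1 := by
    have h5 : (1 - η z) * g' z = 1 := by
      have := congrArg (fun f : C(X, ℂ) => f z) hg1'
      simpa using this
    exact h5
  have h3 : 1 - x z ≠ 0 := left_ne_zero_of_mul_eq_one h2
  have h3' : 1 - starRingEnd ℂ (x z) ≠ 0 := left_ne_zero_of_mul_eq_one h2'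
  rw [ContinuousMap.mul_apply, ContinuousMap.pow_apply, ContinuousMap.pow_apply,
    eq_div_iff (mul_ne_zero (pow_ne_zero _ h3) (pow_ne_zero _ h3'))]
  calc g z ^ s * g' z ^ s * ((1 - x z) ^ s * (1 - starRingEnd ℂ (x z)) ^ s) =
      ((1 - x z) * g z) ^ s * ((1 - starRingEnd ℂ (x z)) * g' z) ^ s := by
        rw [mul_pow, mul_pow]; ring
    _ = 1 := by rw [h2, h2', one_pow, one_mul]

end

end Pool.Agent.Ball
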