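import Mathlib

set_option autoImplicit false
open MeasureTheory

/-! Definitions for the statement of `MP_a59212_an.InvariantSubspaces`. -/

namespace Pool.Agent.BallInv

/-- the open unit ball `B` of `ℂⁿ` -/
def openBall (n : ℕ) : Set (Fin n → ℂ) := {z | ∑ i, ‖z i‖ ^ 2 < 1}

/-- the closed unit ball of `ℂⁿ` -/
abbrev ClosedBall (n : ℕ) := {z : Fin n → ℂ // ∑ i, ‖z i‖ ^ 2 ≤ 1}

/-- the unit sphere `S` -/
abbrev Sphere (n : ℕ) := {z : Fin n → ℂ // ∑ i, ‖z i‖ ^ 2 = 1}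

/-- `φ` is (on `B`) a biholomorphic self-map of `B` -/
def IsAut {n : ℕ} (φ : (Fin n → ℂ) → (Fin n → ℂ)) : Prop :=
  DifferentiableOn ℂ φ (openBall n) ∧ Set.MapsTo φ (openBall n) (openBall n) ∧
    ∃ ψ : (Fin n → ℂ) → (Fin n → ℂ),
      DifferentiableOn ℂ ψ (openBall n) ∧ Set.MapsTo ψ (openBall n) (openBall n) ∧
      (∀ z ∈ openBall n, ψ (φ z) = z) ∧ ∀ z ∈ openBall n, φ (ψ z) = z

/-- `Y` is invariant under all automorphisms of `B`: if `g ∈ C(closed ball)` equals `f ∘ φ` on `B`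
with `f ∈ Y` and `φ ∈ Aut(B)`, then `g ∈ Y` -/
def MInvariant {n : ℕ} (Y : Submodule ℂ C(ClosedBall n, ℂ)) : Prop :=
  ∀ φ : (Fin n → ℂ) → (Fin n → ℂ), IsAut φ → ∀ f ∈ Y, ∀ g : C(ClosedBall n, ℂ),
    (∀ z w : ClosedBall n, z.1 ∈ openBall n → w.1 = φ z.1 → g z = f w) → g ∈ Y

/-- `σ` is a probability measure on the sphere, invariant under the unitary group -/
def IsSigma {n : ℕ} (σ : Measure (Sphere n)) : Prop :=
  IsProbabilityMeasure σ ∧ ∀ U : Matrix.unitaryGroup (Fin n) ℂ, ∀ A : Set (Sphere n),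
    MeasurableSet A → σ {ζ | ∃ η ∈ A, η.1 = U.1.mulVec ζ.1} = σ A

/-- the invariant Poisson kernel `(1-|z|²)ⁿ / |1-⟨z,ζ⟩|²ⁿ` -/
noncomputable def poissonKernel {n : ℕ} (z ζ : Fin n → ℂ) : ℝ :=
  (1 - ∑ i, ‖z i‖ ^ 2) ^ n / ‖1 - ∑ i, z i * starRingEnd ℂ (ζ i)‖ ^ (2 * n)

/-- `h = P[f]`: the Poisson integral of `f` in `B`, and `f` on `S` -/
def IsPoisson {n : ℕ} (σ : Measure (Sphere n)) (f : C(Sphere n, ℂ)) (h : C(ClosedBall n, ℂ)) :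
    Prop :=
  (∀ z : ClosedBall n, z.1 ∈ openBall n → h z = ∫ ζ, (poissonKernel z.1 ζ.1 : ℂ) * f ζ ∂σ) ∧
    ∀ (z : ClosedBall n) (ζ : Sphere n), z.1 = ζ.1 → h z = f ζ

/-- `P[X]` -/
def PX {n : ℕ} (σ : Measure (Sphere n)) (X : Set C(Sphere n, ℂ)) : Set C(ClosedBall n, ℂ) :=
  {h | ∃ f ∈ X, IsPoisson σ f h}

/-- `A(S)`: restrictions to `S` of functions continuous on the closed ball, holomorphic in `B` -/
def AS (n : ℕ) : Set C(Sphere n, ℂ) :=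
  {f | ∃ F : C(ClosedBall n, ℂ),
    (∃ G : (Fin n → ℂ) → ℂ, DifferentiableOn ℂ G (openBall n) ∧
      ∀ z : ClosedBall n, z.1 ∈ openBall n → F z = G z.1) ∧
    ∀ (z : ClosedBall n) (ζ : Sphere n), z.1 = ζ.1 → F z = f ζ}

/-- the complex conjugates of the members of `A(S)` -/
def ASbar (n : ℕ) : Set C(Sphere n, ℂ) := {f | star f ∈ AS n}

/-- `plh(S)`: the uniform closure of `A(S)` plus its conjugate -/
def plhS (n : ℕ) : Set C(Sphere n, ℂ) := closure {f | ∃ g ∈ AS n, ∃ h ∈ ASbar n, f = g + h}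

/-- the six spaces `X`: zero, the constants, `A(S)`, its conjugate, `plh(S)`, `C(S)` -/
def six (n : ℕ) : Set (Set C(Sphere n, ℂ)) :=
  {{f | f = 0}, {f | ∃ c : ℂ, ∀ ζ, f ζ = c}, AS n, ASbar n, plhS n, Set.univ}

/-- `C₀(B)` -/
def IsC0 {n : ℕ} (f : C(ClosedBall n, ℂ)) : Prop :=
  ∀ z : ClosedBall n, ∑ i, ‖z.1 i‖ ^ 2 = 1 → f z = 0

end Pool.Agent.BallInv
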