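import Pool.Agent.Helper76.BallP3
import Pool.Agent.Helper76.BallInvDefs

set_option autoImplicit false
set_option linter.unusedSectionVars false
open MeasureTheory Filter Topology

/-! Proof of `MP_a59212_an.InvariantSubspaces`. -/

namespace Pool.Agent.BallInv

section proofs

open Ball

variable {n : ℕ} [NeZero n]

/-- inclusion of the sphere -/
def incl (n : ℕ) : C(Sphere n, ClosedBall n) :=
  ⟨fun ζ => ⟨ζ.1, ζ.2.le⟩, Continuous.subtype_mk continuous_subtype_val _⟩

instance : CompactSpace (Sphere n) := by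
  have hc : IsCompact {z : Fin n → ℂ | ∑ i, ‖z i‖ ^ 2 ≤ 1} :=
    isCompact_iff_compactSpace.2 CB.compactSpace
  have h2 : IsCompact {z : Fin n → ℂ | ∑ i, ‖z i‖ ^ 2 = 1} :=
    hc.of_isClosed_subset (isClosed_eq (continuous_nsq (n := n)) continuous_const)
      fun z hz => le_of_eq hz
  exact isCompact_iff_compactSpace.1 h2

lemma incl_emb : IsClosedEmbedding (incl n) := by
  refine (incl n).continuous.isClosedEmbedding ?_
  intro a b h
  exact Subtype.ext (congrArg (fun x : ClosedBall n => x.1) h)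

/-- restriction to the sphere -/
noncomputable def res (F : C(CB n, ℂ)) : C(Sphere n, ℂ) := F.comp (incl n)

lemma res_apply (F : C(CB n, ℂ)) (ζ : Sphere n) : res F ζ = F ⟨ζ.1, ζ.2.le⟩ := rfl

lemma exists_ext (f : C(Sphere n, ℂ)) : ∃ F : C(CB n, ℂ), res F = f := by
  obtain ⟨F, hF⟩ := ContinuousMap.exists_extension (incl_emb (n := n)) f
  exact ⟨F, hF⟩

/-- the first column on the sphere -/
noncomputable def colS (U : UG n) : Sphere n := ⟨(col U).1, nsq_col U⟩

lemma continuous_colS : Continuous (colS : UG n → Sphere n) :=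
  Continuous.subtype_mk (continuous_subtype_val.comp continuous_col) _

/-- rotation of the sphere -/
noncomputable def actS (U : UG n) (ζ : Sphere n) : Sphere n :=
  ⟨mv U.1 ζ.1, by
    have := nsq_mv U ζ.1
    have h2 := ζ.2
    unfold nsq at this
    rw [this, h2]⟩

lemma continuous_actS : Continuous fun p : UG n × Sphere n => actS p.1 p.2 := by
  have h : Continuous fun p : UG n × Sphere n => act p.1 (incl n p.2) :=
    continuous_act_comp continuous_fst ((incl n).continuous.comp continuous_snd)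
  exact Continuous.subtype_mk (continuous_subtype_val.comp h) _

lemma actS_colS (U V : UG n) : actS U (colS V) = colS (U * V) :=
  Subtype.ext (congrArg (fun x : CB n => x.1) (col_mul U V)).symm

lemma exists_colS (ζ : Sphere n) : ∃ V : UG n, ζ = colS V := by
  obtain ⟨V, hV⟩ := exists_act_sphere (z := incl n ζ) ζ.2
  exact ⟨V, Subtype.ext (congrArg (fun x : CB n => x.1) hV)⟩

lemma map_actS {σ : Measure (Sphere n)} (hσ : IsSigma σ) (U : UG n) : σ.map (actS U) = σ := by
  have hc : Continuous (actS U) := continuous_actS.comp (continuous_const.prodMk continuous_id)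
  ext A hA
  rw [Measure.map_apply hc.measurable hA, ← hσ.2 U A hA]
  congr 1
  ext ζ
  constructor
  · intro h
    exact ⟨actS U ζ, h, rfl⟩
  · rintro ⟨η, hη, h⟩
    have : η = actS U ζ := Subtype.ext h
    rw [this] at hη
    exact hη

/-- integrals against `σ` are averages over the unitary group -/
lemma int_sigma {σ : Measure (Sphere n)} (hσ : IsSigma σ) (φ : Sphere n → ℂ)
    (hφ : Continuous φ) : ∫ ζ, φ ζ ∂σ = ∫ U, φ (colS U) ∂(hU n) := by
  have := hσ.1
  have h1 : ∀ U : UG n, ∫ ζ, φ (actS U ζ) ∂σ = ∫ ζ, φ ζ ∂σ := by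
    intro U
    have hc : Continuous (actS U) := continuous_actS.comp (continuous_const.prodMk continuous_id)
    conv_rhs => rw [← map_actS hσ U]
    rw [integral_map hc.measurable.aemeasurable hφ.aestronglyMeasurable]
  have h2 : ∫ U, (∫ ζ, φ (actS U ζ) ∂σ) ∂(hU n) = ∫ ζ, φ ζ ∂σ := by
    simp only [h1]
    simp
  rw [← h2, integral_integral_swap_of_hasCompactSupport (f := fun U ζ => φ (actS U ζ))
    (hφ.comp continuous_actS) (HasCompactSupport.of_compactSpace _)]
  have h3 : ∀ ζ : Sphere n, ∫ U, φ (actS U ζ) ∂(hU n) = ∫ U, φ (colS U) ∂(hU n) := by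
    intro ζ
    obtain ⟨V, rfl⟩ := exists_colS ζ
    simp only [actS_colS]
    exact int_right V (fun U => φ (colS U))
  simp only [h3]
  simp

lemma exists_sigma : ∃ σ : Measure (Sphere n), IsSigma σ := by
  refine ⟨(hU n).map colS, ?_, fun U A hA => ?_⟩
  · exact Measure.isProbabilityMeasure_map continuous_colS.measurable.aemeasurable
  · have hc : Continuous (actS U : Sphere n → Sphere n) :=
      continuous_actS.comp (continuous_const.prodMk continuous_id)
    have h1 : {ζ : Sphere n | ∃ η ∈ A, η.1 = U.1.mulVec ζ.1} = actS U ⁻¹' A := by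
      ext ζ
      constructor
      · rintro ⟨η, hη, h⟩
        have : η = actS U ζ := Subtype.ext h
        rw [this] at hη
        exact hη
      · intro h
        exact ⟨actS U ζ, h, rfl⟩
    rw [h1, ← Measure.map_apply hc.measurable hA,
      Measure.map_map hc.measurable continuous_colS.measurable]
    have h2 : (actS U : Sphere n → Sphere n) ∘ colS = colS ∘ fun V => U * V := by
      funext V
      exact actS_colS U V
    rw [h2, ← Measure.map_map continuous_colS.measurable (measurable_const_mul U),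
      map_mul_left_eq_self]

lemma kernel_eq (z : CB n) (hz : nsq z.1 < 1) (U : UG n) :
    kz z (col U) ^ n = poissonKernel z.1 (colS U).1 := by
  have h1 : ‖1 - ip (col U).1 z.1‖ = ‖1 - ip z.1 (col U).1‖ := by
    rw [← conj_ip z.1 (col U).1]
    have : (1 - starRingEnd ℂ (ip z.1 (col U).1)) = starRingEnd ℂ (1 - ip z.1 (col U).1) := by simp
    rw [this, RCLike.norm_conj]
  rw [kz, h1, div_pow, ← pow_mul]
  rfl

lemma continuous_kernel (z : CB n) (hz : nsq z.1 < 1) :
    Continuous fun ζ : Sphere n => poissonKernel z.1 ζ.1 := by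
  refine continuous_const.div ?_ fun ζ => ?_
  · refine (continuous_norm.comp (continuous_const.sub ?_)).pow _
    exact continuous_ip_comp continuous_const continuous_subtype_val
  · exact pow_ne_zero _ (norm_ne_zero_iff.2 (one_sub_ip_ne' hz (le_of_eq ζ.2)))

/-- `P[F|_S]` is `Pc F` -/
lemma isPoisson_Pc {σ : Measure (Sphere n)} (hσ : IsSigma σ) (F : C(CB n, ℂ)) :
    IsPoisson σ (res F) (Pc F) := by
  refine ⟨fun z hz => ?_, fun z ζ h => ?_⟩
  · have hz' : nsq z.1 < 1 := hz
    rw [Pc_kernel F z hz', int_sigma hσ (fun ζ => (poissonKernel z.1 ζ.1 : ℂ) * res F ζ)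
      ((Complex.continuous_ofReal.comp (continuous_kernel z hz')).mul (res F).continuous)]
    congr 1
    funext U
    rw [kernel_eq z hz']
    rfl
  · have hz : nsq z.1 = 1 := by
      rw [h]
      exact ζ.2
    rw [Pc_sphere F hz, res_apply]
    congr 1
    exact Subtype.ext h

lemma isPoisson_unique {σ : Measure (Sphere n)} {f : C(Sphere n, ℂ)} {h k : C(CB n, ℂ)}
    (h1 : IsPoisson σ f h) (h2 : IsPoisson σ f k) : h = k := by
  ext z
  by_cases hz : nsq z.1 = 1
  · rw [h1.2 z ⟨z.1, hz⟩ rfl, h2.2 z ⟨z.1, hz⟩ rfl]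
  · have hz' : z.1 ∈ openBall n := lt_of_le_of_ne z.2 hz
    rw [h1.1 z hz', h2.1 z hz']

lemma eq_Pc {σ : Measure (Sphere n)} (hσ : IsSigma σ) {f : C(Sphere n, ℂ)} {h : C(CB n, ℂ)}
    (h1 : IsPoisson σ f h) {F : C(CB n, ℂ)} (hF : res F = f) : h = Pc F := by
  have h2 := isPoisson_Pc hσ F
  rw [hF] at h2
  exact isPoisson_unique h1 h2

lemma res_Pc (F : C(CB n, ℂ)) : res (Pc F) = res F := by
  ext ζ
  rw [res_apply, res_apply]
  exact Pc_sphere F ζ.2

lemma res_eq_of {F : C(CB n, ℂ)} {f : C(Sphere n, ℂ)}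
    (h : ∀ (z : ClosedBall n) (ζ : Sphere n), z.1 = ζ.1 → F z = f ζ) : res F = f := by
  ext ζ
  exact h ⟨ζ.1, ζ.2.le⟩ ζ rfl

lemma of_res_eq {F : C(CB n, ℂ)} {f : C(Sphere n, ℂ)} (h : res F = f)
    (z : ClosedBall n) (ζ : Sphere n) (hz : z.1 = ζ.1) : F z = f ζ := by
  rw [← h, res_apply]
  congr 1
  exact Subtype.ext hz

/-- membership in `A(S)` -/
lemma mem_AS {f : C(Sphere n, ℂ)} : f ∈ AS n ↔ ∃ F : C(CB n, ℂ), holo F ∧ res F = f := by
  constructor
  · rintro ⟨F, ⟨G, hG, hGF⟩, hf⟩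
    exact ⟨F, ⟨G, hG, fun x hx => hGF x hx⟩, res_eq_of hf⟩
  · rintro ⟨F, ⟨G, hG, hGF⟩, hf⟩
    exact ⟨F, ⟨G, hG, fun x hx => hGF x hx⟩, of_res_eq hf⟩

lemma res_star (F : C(CB n, ℂ)) : res (star F) = star (res F) := rfl

lemma mem_ASbar {f : C(Sphere n, ℂ)} :
    f ∈ ASbar n ↔ ∃ F : C(CB n, ℂ), holo (star F) ∧ res F = f := by
  constructor
  · intro h
    obtain ⟨F, hF, hf⟩ := mem_AS.1 h
    refine ⟨star F, by rw [star_star]; exact hF, ?_⟩
    rw [res_star, hf, star_star]
  · rintro ⟨F, hF, hf⟩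
    refine mem_AS.2 ⟨star F, hF, ?_⟩
    rw [res_star, hf]

lemma holo_add {f g : C(CB n, ℂ)} (hf : holo f) (hg : holo g) : holo (f + g) := by
  obtain ⟨F, hF, hFf⟩ := hf
  obtain ⟨G, hG, hGg⟩ := hg
  exact ⟨fun z => F z + G z, hF.add hG, fun x hx => by
    show f x + g x = _
    rw [hFf x hx, hGg x hx]⟩

lemma holo_smul (c : ℂ) {f : C(CB n, ℂ)} (hf : holo f) : holo (c • f) := by
  obtain ⟨F, hF, hFf⟩ := hf
  exact ⟨fun z => c * F z, hF.const_mul c, fun x hx => by
    show c * f x = _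
    rw [hFf x hx]⟩

/-- the sum `A + conj A` in `C(S)` as a submodule -/
def Msum (n : ℕ) [NeZero n] : Submodule ℂ C(Sphere n, ℂ) where
  carrier := {f | ∃ g ∈ AS n, ∃ h ∈ ASbar n, f = g + h}
  add_mem' := by
    rintro a b ⟨g, hg, h, hh, rfl⟩ ⟨g', hg', h', hh', rfl⟩
    obtain ⟨F, hF, rfl⟩ := mem_AS.1 hg
    obtain ⟨F', hF', rfl⟩ := mem_AS.1 hg'
    obtain ⟨H, hH, rfl⟩ := mem_ASbar.1 hh
    obtain ⟨H', hH', rfl⟩ := mem_ASbar.1 hh'
    refine ⟨res (F + F'), mem_AS.2 ⟨_, holo_add hF hF', rfl⟩, res (H + H'),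
      mem_ASbar.2 ⟨_, by rw [star_add]; exact holo_add hH hH', rfl⟩, ?_⟩
    ext ζ
    show F _ + H _ + (F' _ + H' _) = F _ + F' _ + (H _ + H' _)
    ring
  zero_mem' := by
    have h0 : holo (0 : C(CB n, ℂ)) := holo_const 0
    refine ⟨res 0, mem_AS.2 ⟨0, h0, rfl⟩, res 0, mem_ASbar.2 ⟨0, by rw [star_zero]; exact h0, rfl⟩,
      ?_⟩
    ext ζ
    show (0 : ℂ) = 0 + 0
    ring
  smul_mem' := by
    rintro c a ⟨g, hg, h, hh, rfl⟩
    obtain ⟨F, hF, rfl⟩ := mem_AS.1 hg
    obtain ⟨H, hH, rfl⟩ := mem_ASbar.1 hh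
    refine ⟨res (c • F), mem_AS.2 ⟨_, holo_smul c hF, rfl⟩, res (c • H),
      mem_ASbar.2 ⟨_, by rw [star_smul]; exact holo_smul _ hH, rfl⟩, ?_⟩
    ext ζ
    show c * (F _ + H _) = c * F _ + c * H _
    ring

/-- restriction as a continuous linear map -/
noncomputable def resL (n : ℕ) [NeZero n] : C(CB n, ℂ) →L[ℂ] C(Sphere n, ℂ) :=
  LinearMap.mkContinuous
    { toFun := res
      map_add' := fun _ _ => rfl
      map_smul' := fun _ _ => rfl } 1 fun F => by
    rw [one_mul, ContinuousMap.norm_le _ (norm_nonneg _)]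
    intro ζ
    exact F.norm_coe_le_norm _

lemma resL_apply (F : C(CB n, ℂ)) : resL n F = res F := rfl

lemma norm_Pc_le_res (F : C(CB n, ℂ)) : ‖Pc F‖ ≤ ‖res F‖ := by
  rw [ContinuousMap.norm_le _ (norm_nonneg _)]
  intro z
  have hb : ∀ w : CB n, nsq w.1 = 1 → ‖F w‖ ≤ ‖res F‖ := fun w hw =>
    (res F).norm_coe_le_norm ⟨w.1, hw⟩
  by_cases hz : nsq z.1 = 1
  · rw [Pc_sphere F hz]
    exact hb z hz
  · have hz' : nsq z.1 < 1 := lt_of_le_of_ne z.2 hz
    rw [Pc_apply]
    refine (norm_integral_le_of_norm_le_const (C := ‖res F‖)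
      (Filter.Eventually.of_forall fun U => hb _ (mob_sphere hz' (nsq_col U)))).trans ?_
    simp

/-- the hypothesis in the form of the library -/
lemma invY_of {Y : Submodule ℂ C(CB n, ℂ)} (hYc : IsClosed (Y : Set C(CB n, ℂ)))
    (hYinv : MInvariant Y) : InvY Y := by
  refine ⟨hYc, ?_, ?_⟩
  · rintro a ha f ⟨g, hg, hgf⟩
    refine ⟨g.comp (TC a ha), ?_, fun z => hgf _⟩
    refine hYinv (mob a.1) ⟨diffOn_mob ha, fun z hz => mob_mem_open ha hz, mob a.1,
      diffOn_mob ha, fun z hz => mob_mem_open ha hz, ?_, ?_⟩ g hg _ ?_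
    · intro z hz
      have hz' : nsq z < 1 := hz
      exact mob_mob ha (ip_ne_one hz'.le ha)
    · intro z hz
      have hz' : nsq z < 1 := hz
      exact mob_mob ha (ip_ne_one hz'.le ha)
    · intro z w _ hw
      show g (T a z) = g w
      congr 1
      exact Subtype.ext hw.symm
  · rintro U f ⟨g, hg, hgf⟩
    refine ⟨g.comp (actC U), ?_, fun z => hgf _⟩
    have hd : ∀ V : UG n, Differentiable ℂ (mv V.1) := fun V =>
      (LinearMap.toContinuousLinearMap (Matrix.toLin' V.1)).differentiable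
    have hn : ∀ (V : UG n), Set.MapsTo (mv V.1) (openBall n) (openBall n) := by
      intro V z hz
      show nsq (mv V.1 z) < 1
      rw [nsq_mv]
      exact hz
    refine hYinv (mv U.1) ⟨(hd U).differentiableOn, hn U, mv U⁻¹.1, (hd U⁻¹).differentiableOn,
      hn U⁻¹, ?_, ?_⟩ g hg _ ?_
    · intro z _
      show U⁻¹.1.mulVec (U.1.mulVec z) = z
      rw [Matrix.mulVec_mulVec]
      have e : U⁻¹.1 * U.1 = 1 := congrArg Subtype.val (inv_mul_cancel U)
      rw [e, Matrix.one_mulVec]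
    · intro z _
      show U.1.mulVec (U⁻¹.1.mulVec z) = z
      rw [Matrix.mulVec_mulVec]
      have e : U.1 * U⁻¹.1 = 1 := congrArg Subtype.val (mul_inv_cancel U)
      rw [e, Matrix.one_mulVec]
    · intro z w _ hw
      show g (act U z) = g w
      congr 1
      exact Subtype.ext hw.symm

/-- the common end of the six cases -/
lemma finish {σ : Measure (Sphere n)} (hσ : IsSigma σ) {Y : Submodule ℂ C(CB n, ℂ)}
    {X : Set C(Sphere n, ℂ)} (h1 : ∀ F : C(CB n, ℂ), res F ∈ X → Pc F ∈ Y)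
    (h2 : ∀ h ∈ Y, res h ∈ X) :
    (∀ h : C(ClosedBall n, ℂ), h ∈ Y ↔ ∃ g ∈ Y, ∃ k ∈ PX σ X, IsC0 g ∧ h = g + k) ∧
      ∀ k ∈ PX σ X, IsC0 k → k = 0 := by
  have hPX : ∀ k ∈ PX σ X, k ∈ Y := by
    rintro k ⟨f, hf, hk⟩
    obtain ⟨F, hF⟩ := exists_ext f
    rw [eq_Pc hσ hk hF]
    exact h1 F (by rw [hF]; exact hf)
  refine ⟨fun h => ⟨fun hh => ?_, ?_⟩, ?_⟩
  · refine ⟨h - Pc h, Y.sub_mem hh (h1 h (h2 h hh)), Pc h, ⟨res h, h2 h hh, isPoisson_Pc hσ h⟩,
      fun z hz => ?_, (sub_add_cancel _ _).symm⟩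
    have hz' : nsq z.1 = 1 := hz
    rw [ContinuousMap.sub_apply, Pc_sphere h hz', sub_self]
  · rintro ⟨g, hg, k, hk, _, rfl⟩
    exact Y.add_mem hg (hPX k hk)
  · rintro k ⟨f, hf, hk⟩ hk0
    have h3 : res k = 0 := by
      ext ζ
      exact hk0 ⟨ζ.1, ζ.2.le⟩ ζ.2
    have h4 : res k = f := res_eq_of hk.2
    have h5 : k = Pc 0 := eq_Pc hσ hk (F := 0) (by rw [← h4, h3]; rfl)
    rw [h5, map_zero]

end proofs

/-- Closed automorphism-invariant subspaces of `C(closed ball)`. Rotation-invariant probability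
measures `σ` on `S` exist; for any of them each `f ∈ C(S)` has exactly one Poisson integral
`P[f] ∈ C(closed ball)`, and every closed `Aut(B)`-invariant subspace `Y` of `C(closed ball)` is
the direct sum of `Y ∩ C₀(B)` and `P[X]` for one of the six spaces `X`. -/
theorem main (n : ℕ) (hn : 0 < n) :
    (∃ σ : Measure (Sphere n), IsSigma σ) ∧
    ∀ σ : Measure (Sphere n), IsSigma σ →
      (∀ f : C(Sphere n, ℂ), ∃! h : C(ClosedBall n, ℂ), IsPoisson σ f h) ∧
      ∀ Y : Submodule ℂ C(ClosedBall n, ℂ), IsClosed (Y : Set C(ClosedBall n, ℂ)) →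
        MInvariant Y →
        ∃ X ∈ six n,
          (∀ h : C(ClosedBall n, ℂ), h ∈ Y ↔ ∃ g ∈ Y, ∃ k ∈ PX σ X, IsC0 g ∧ h = g + k) ∧
          ∀ k ∈ PX σ X, IsC0 k → k = 0 := by
  have : NeZero n := ⟨hn.ne'⟩
  refine ⟨exists_sigma, fun σ hσ => ⟨fun f => ?_, fun Y hYc hYinv => ?_⟩⟩
  · obtain ⟨F, hF⟩ := exists_ext f
    refine ⟨Ball.Pc F, ?_, fun h hh => eq_Pc hσ hh hF⟩
    have := isPoisson_Pc hσ F
    rwa [hF] at this
  have hY := invY_of hYc hYinv
  rcases Ball.classify hY with h | h | h | h | h | h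
  · refine ⟨_, Or.inl rfl, finish hσ (fun F hF => ?_) fun k hk => ?_⟩
    · have h1 : Ball.Pc F = 0 := by
        have h2 : Ball.Pc F = Ball.Pc 0 := Ball.Pc_congr fun z hz => by
          have h3 : res F = 0 := hF
          have h4 := congrArg (fun f : C(Sphere n, ℂ) => f ⟨z.1, hz⟩) h3
          exact h4
        rw [h2, map_zero]
      rw [h1]
      exact Y.zero_mem
    · show res k = 0
      rw [← res_Pc, h k hk]
      rfl
  · refine ⟨_, Or.inr (Or.inl rfl), finish hσ (fun F hF => ?_) fun k hk => ?_⟩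
    · obtain ⟨c, hc⟩ := hF
      have h2 : Ball.Pc F = c • 1 := by
        have h3 : Ball.Pc F = Ball.Pc (c • 1) := Ball.Pc_congr fun z hz => by
          have h4 := hc ⟨z.1, hz⟩
          have h5 : F z = c := h4
          rw [h5]
          simp
        rw [h3, map_smul, Ball.Pc_one]
      rw [h2]
      exact Y.smul_mem c h.1
    · obtain ⟨c, hc⟩ := h.2 k hk
      refine ⟨c, fun ζ => ?_⟩
      rw [← res_Pc, res_apply]
      exact hc _
  · refine ⟨_, Or.inr (Or.inr (Or.inl rfl)), finish hσ (fun F hF => ?_) fun k hk => ?_⟩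
    · obtain ⟨G, hG, hGF⟩ := mem_AS.1 hF
      have h2 : Ball.Pc F = Ball.Pc G := Ball.Pc_congr fun z hz =>
        congrArg (fun f : C(Sphere n, ℂ) => f ⟨z.1, hz⟩) hGF.symm
      rw [h2, Ball.holo_Pc G hG]
      exact h.1 G hG
    · exact mem_AS.2 ⟨Ball.Pc k, h.2 k hk, res_Pc k⟩
  · refine ⟨_, Or.inr (Or.inr (Or.inr (Or.inl rfl))), finish hσ (fun F hF => ?_) fun k hk => ?_⟩
    · obtain ⟨G, hG, hGF⟩ := mem_ASbar.1 hF
      have h2 : Ball.Pc F = Ball.Pc G := Ball.Pc_congr fun z hz =>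
        congrArg (fun f : C(Sphere n, ℂ) => f ⟨z.1, hz⟩) hGF.symm
      have h3 : Ball.Pc G = G := by
        have h4 := Ball.holo_Pc (star G) hG
        rw [Ball.Pc_star] at h4
        exact star_injective h4
      rw [h2, h3]
      exact h.1 G hG
    · exact mem_ASbar.2 ⟨Ball.Pc k, h.2 k hk, res_Pc k⟩
  · refine ⟨_, Or.inr (Or.inr (Or.inr (Or.inr (Or.inl rfl)))),
      finish hσ (fun F hF => ?_) fun k hk => ?_⟩
    · -- limits
      have h1 : Ball.Pc F ∈ closure (Y : Set C(Ball.CB n, ℂ)) := by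
        rw [Metric.mem_closure_iff]
        intro ε hε
        obtain ⟨g, hg, hgd⟩ := Metric.mem_closure_iff.1 hF ε hε
        obtain ⟨a, ha, b, hb, rfl⟩ := hg
        obtain ⟨A, hA, rfl⟩ := mem_AS.1 ha
        obtain ⟨B, hB, rfl⟩ := mem_ASbar.1 hb
        refine ⟨A + B, ?_, ?_⟩
        · obtain ⟨A', hA1, hA2⟩ := hA
          obtain ⟨B', hB1, hB2⟩ := hB
          refine h.1 _ ⟨A', B', hA1, hB1, fun x hx => ?_⟩
          have e1 : starRingEnd ℂ (B x) = B' x.1 := hB2 x hx
          show A x + B x = _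
          rw [hA2 x hx, ← e1, Complex.conj_conj]
        · have hPA : Ball.Pc A = A := Ball.holo_Pc A hA
          have hPB : Ball.Pc B = B := by
            have h4 := Ball.holo_Pc (star B) hB
            rw [Ball.Pc_star] at h4
            exact star_injective h4
          have e2 : Ball.Pc F - (A + B) = Ball.Pc (F - (A + B)) := by
            rw [map_sub, map_add, hPA, hPB]
          rw [dist_eq_norm, e2]
          refine lt_of_le_of_lt (norm_Pc_le_res _) ?_
          have e3 : res (F - (A + B)) = res F - (res A + res B) := rfl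
          rw [e3, ← dist_eq_norm]
          exact hgd
      rwa [hYc.closure_eq] at h1
    · have hW : IsClosed (((Msum n).topologicalClosure.comap (resL n).toLinearMap :
          Submodule ℂ C(Ball.CB n, ℂ)) : Set C(Ball.CB n, ℂ)) := by
        have := (Msum n).isClosed_topologicalClosure.preimage (resL n).continuous
        exact this
      have h2 := Ball.plh_mem hW (fun f hf => ?_) (fun f hf => ?_) (Ball.Pc k) (h.2 k hk)
      · have h3 : res (Ball.Pc k) ∈ (Msum n).topologicalClosure := h2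
        rw [res_Pc] at h3
        exact h3
      · refine (Msum n).le_topologicalClosure ?_
        refine ⟨res f, mem_AS.2 ⟨f, hf, rfl⟩, 0, mem_ASbar.2 ⟨0, ?_, rfl⟩, ?_⟩
        · rw [star_zero]
          exact Ball.holo_const 0
        · rw [add_zero]
          rfl
      · refine (Msum n).le_topologicalClosure ?_
        refine ⟨0, mem_AS.2 ⟨0, Ball.holo_const 0, rfl⟩, res f, mem_ASbar.2 ⟨f, hf, rfl⟩, ?_⟩
        rw [zero_add]
        rfl
  · exact ⟨_, Or.inr (Or.inr (Or.inr (Or.inr (Or.inr rfl)))),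
      finish hσ (fun F _ => h F) fun k _ => trivial⟩

end Pool.Agent.BallInv
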