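import Pool.Agent.Helper76.Ball6
import Pool.Agent.Helper76.BallE

set_option autoImplicit false
set_option linter.unusedSectionVars false
open MeasureTheory

/-! Module J for MP_a59212_an: holomorphic functions in `C(CB n, ℂ)`. -/

namespace Pool.Agent.Ball

open Filter Topology Metric

variable {n : ℕ} [NeZero n]

open ComplexConjugate

/-- `f` in `C(closed ball)` is holomorphic inside -/
def holo (f : C(CB n, ℂ)) : Prop := ∃ F : (Fin n → ℂ) → ℂ,
  DifferentiableOn ℂ F {z : Fin n → ℂ | ∑ i, ‖z i‖ ^ 2 < 1} ∧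
  ∀ x : CB n, ∑ i, ‖x.1 i‖ ^ 2 < 1 → f x = F x.1

lemma nsq_smul_le {l : ℂ} (hl : ‖l‖ ≤ 1) {z : Fin n → ℂ} (hz : nsq z ≤ 1) : nsq (l • z) ≤ 1 := by
  have h1 : nsq (l • z) = ‖l‖ ^ 2 * nsq z := by
    simp only [nsq, Pi.smul_apply, smul_eq_mul, norm_mul, mul_pow, Finset.mul_sum]
  rw [h1]
  have h2 : ‖l‖ ^ 2 ≤ 1 := by nlinarith [norm_nonneg l]
  have h3 := nsq_nonneg z
  nlinarith

lemma nsq_smul_lt {l : ℂ} (hl : ‖l‖ < 1) {z : Fin n → ℂ} (hz : nsq z ≤ 1) : nsq (l • z) < 1 := by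
  have h1 : nsq (l • z) = ‖l‖ ^ 2 * nsq z := by
    simp only [nsq, Pi.smul_apply, smul_eq_mul, norm_mul, mul_pow, Finset.mul_sum]
  rw [h1]
  have h2 : ‖l‖ ^ 2 < 1 := by nlinarith [norm_nonneg l]
  have h3 := nsq_nonneg z
  nlinarith [sq_nonneg ‖l‖]

/-- extension by zero -/
noncomputable def ext0 (f : CB n → ℂ) (z : Fin n → ℂ) : ℂ := by
  classical
  exact if h : ∑ i, ‖z i‖ ^ 2 ≤ 1 then f ⟨z, h⟩ else 0

lemma ext0_val (f : CB n → ℂ) (z : CB n) : ext0 f z.1 = f z := by
  unfold ext0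
  rw [dif_pos z.2]

lemma holo_circle (f : C(CB n, ℂ)) (hf : holo f) (ζ : CB n) :
    ∫ θ in (0 : ℝ)..2 * Real.pi, f (act (phase n θ) ζ) = (2 * Real.pi : ℝ) • f (cen n) := by
  obtain ⟨F, hF, hFf⟩ := hf
  have h1 : DiffContOnCl ℂ (fun l : ℂ => ext0 f (l • ζ.1)) (ball 0 |(1 : ℝ)|) := by
    rw [abs_one]
    constructor
    · have h2 : DifferentiableOn ℂ (fun l : ℂ => F (l • ζ.1)) (ball 0 1) := by
        apply hF.comp (t := {z : Fin n → ℂ | ∑ i, ‖z i‖ ^ 2 < 1})
        · exact (differentiable_id.smul_const ζ.1).differentiableOn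
        · intro l hl
          exact nsq_smul_lt (by simpa using hl) ζ.2
      apply h2.congr
      intro l hl
      have h3 : nsq (l • ζ.1) < 1 := nsq_smul_lt (by simpa using hl) ζ.2
      exact (ext0_val f ⟨l • ζ.1, h3.le⟩).trans (hFf ⟨l • ζ.1, h3.le⟩ h3)
    · rw [closure_ball _ one_ne_zero, continuousOn_iff_continuous_domRestrict]
      have h2 : Continuous fun l : closedBall (0 : ℂ) 1 =>
          f ⟨l.1 • ζ.1, nsq_smul_le (mem_closedBall_zero_iff.1 l.2) ζ.2⟩ := by
        apply f.continuous.comp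
        apply Continuous.subtype_mk
        fun_prop
      refine h2.congr ?_
      intro l
      exact (ext0_val f ⟨l.1 • ζ.1, nsq_smul_le (mem_closedBall_zero_iff.1 l.2) ζ.2⟩).symm
  have h2 := h1.circleAverage
  rw [Real.circleAverage_def] at h2
  have h3 : ∀ θ : ℝ, ext0 f (circleMap 0 1 θ • ζ.1) = f (act (phase n θ) ζ) := by
    intro θ
    have h4 : (act (phase n θ) ζ).1 = circleMap 0 1 θ • ζ.1 := by
      rw [act_val, phase_mv]
      funext i
      simp [circleMap]
    rw [← h4, ext0_val]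
  simp only [h3, zero_smul] at h2
  have h5 : ext0 f 0 = f (cen n) := ext0_val f (cen n)
  rw [h5] at h2
  rw [← h2, smul_smul, mul_inv_cancel₀ (by positivity), one_smul]

/-- mean value property over orbits -/
theorem holo_avg_act (f : C(CB n, ℂ)) (hf : holo f) (w : CB n) :
    ∫ U, f (act U w) ∂(hU n) = f (cen n) := by
  have h1 : ∀ θ : ℝ, ∫ U, f (act (phase n θ) (act U w)) ∂(hU n) = ∫ U, f (act U w) ∂(hU n) := by
    intro θ
    have := int_left (phase n θ) (fun U => f (act U w))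
    simp only [act_mul] at this
    exact this
  have h2 : ∫ θ in (0 : ℝ)..2 * Real.pi, (∫ U, f (act (phase n θ) (act U w)) ∂(hU n)) =
      (2 * Real.pi : ℝ) • ∫ U, f (act U w) ∂(hU n) := by
    simp only [h1]
    rw [intervalIntegral.integral_const, sub_zero]
  have hcont : Continuous fun p : ℝ × UG n => f (act (phase n p.1) (act p.2 w)) := by
    apply f.continuous.comp
    apply Continuous.subtype_mk
    have h4 : ∀ p : ℝ × UG n, mv (phase n p.1).1 (act p.2 w).1 =
        fun i => Complex.exp (p.1 * Complex.I) * (act p.2 w).1 i := fun p => phase_mv p.1 _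
    simp only [h4]
    apply continuous_pi
    intro i
    apply Continuous.mul
    · fun_prop
    · exact (continuous_apply i).comp (continuous_subtype_val.comp
        (continuous_act_comp continuous_snd continuous_const))
  have h3 : ∫ θ in (0 : ℝ)..2 * Real.pi, (∫ U, f (act (phase n θ) (act U w)) ∂(hU n)) =
      ∫ U, (∫ θ in (0 : ℝ)..2 * Real.pi, f (act (phase n θ) (act U w))) ∂(hU n) := by
    simp only [intervalIntegral.integral_of_le (show (0 : ℝ) ≤ 2 * Real.pi by positivity)]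
    apply integral_integral_swap
    exact Integrable.of_bound hcont.aestronglyMeasurable ‖f‖
      (Filter.Eventually.of_forall fun _ => bdd f _)
  rw [h3] at h2
  simp only [holo_circle f hf] at h2
  rw [integral_const, probReal_univ, one_smul] at h2
  have h5 : (2 * Real.pi : ℝ) ≠ 0 := by positivity
  exact (smul_right_injective ℂ h5 h2).symm

/-- mean value property over spheres -/
theorem holo_avg (f : C(CB n, ℂ)) (hf : holo f) : ∫ U, f (col U) ∂(hU n) = f (cen n) :=
  holo_avg_act f hf (e1c n)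

/-- weighted mean -/
theorem holo_wt (f : C(CB n, ℂ)) (hf : holo f) :
    ∫ w, f w * ((wt w : ℝ) : ℂ) ∂(vB n) = cw n * f (cen n) := by
  rw [int_average (fun w => f w * ((wt w : ℝ) : ℂ))
    (f.continuous.mul (Complex.continuous_ofReal.comp continuous_wt))]
  simp only [wt_act, integral_mul_const]
  simp only [holo_avg_act f hf]
  rw [integral_const_mul, mul_comm, cw, integral_complex_ofReal]

lemma holo_comp_T (f : C(CB n, ℂ)) (hf : holo f) (z : CB n) (hz : nsq z.1 < 1) :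
    holo (f.comp (TC z hz)) := by
  obtain ⟨F, hF, hFf⟩ := hf
  refine ⟨fun w => F (mob z.1 w), ?_, ?_⟩
  · apply hF.comp (t := {z : Fin n → ℂ | ∑ i, ‖z i‖ ^ 2 < 1})
    · intro w hw
      exact (hasFDerivAt_mob (ip_ne_one (le_of_lt hw) hz)).differentiableAt.differentiableWithinAt
    · intro w hw
      exact mob_mem_open hz hw
  · intro x hx
    exact hFf (T z x) (mob_mem_open hz hx)

/-- hence `P f = f` -/
theorem holo_Pc (f : C(CB n, ℂ)) (hf : holo f) : Pc f = f := by
  ext z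
  by_cases hz : nsq z.1 = 1
  · exact Pc_sphere f hz
  · have hz' : nsq z.1 < 1 := lt_of_le_of_ne z.2 hz
    have h1 := holo_avg (f.comp (TC z hz')) (holo_comp_T f hf z hz')
    rw [Pc_apply]
    have h2 : (f.comp (TC z hz')) (cen n) = f z := by
      show f (T z (cen n)) = f z
      exact congrArg f (T_zero z)
    rw [h2] at h1
    exact h1

/-- the twisted function `w ↦ f(φ_z(w)) (1-⟨w,z⟩)^{-s}` -/
noncomputable def twist (f : C(CB n, ℂ)) (z : CB n) (hz : nsq z.1 < 1) (s : ℕ) : C(CB n, ℂ) :=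
  ⟨fun w => f (T z w) / (1 - ip w.1 z.1) ^ s, by
    apply Continuous.div
    · exact f.continuous.comp (TC z hz).continuous
    · exact (continuous_const.sub (continuous_ip_comp continuous_subtype_val continuous_const)).pow s
    · intro w
      exact pow_ne_zero _ (one_sub_ip_ne w.2 hz)⟩

lemma twist_apply (f : C(CB n, ℂ)) (z : CB n) (hz : nsq z.1 < 1) (s : ℕ) (w : CB n) :
    twist f z hz s w = f (T z w) / (1 - ip w.1 z.1) ^ s := rfl

lemma ip_diff (z : Fin n → ℂ) : Differentiable ℂ (fun w : Fin n → ℂ => ip w z) := by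
  unfold ip
  fun_prop

lemma holo_twist (f : C(CB n, ℂ)) (hf : holo f) (z : CB n) (hz : nsq z.1 < 1) (s : ℕ) :
    holo (twist f z hz s) := by
  obtain ⟨F, hF, hFf⟩ := hf
  refine ⟨fun w => F (mob z.1 w) / (1 - ip w z.1) ^ s, ?_, ?_⟩
  · simp only [div_eq_mul_inv]
    apply DifferentiableOn.mul
    · apply hF.comp (t := {z : Fin n → ℂ | ∑ i, ‖z i‖ ^ 2 < 1})
      · intro w hw
        exact (hasFDerivAt_mob (ip_ne_one (le_of_lt hw) hz)).differentiableAt.differentiableWithinAt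
      · intro w hw
        exact mob_mem_open hz hw
    · apply DifferentiableOn.inv
      · exact (((differentiable_const 1).sub (ip_diff z.1)).pow s).differentiableOn
      · intro w hw
        exact pow_ne_zero _ (one_sub_ip_ne (le_of_lt hw) hz)
  · intro x hx
    rw [twist_apply]
    congr 1
    exact hFf (T z x) (mob_mem_open hz hx)

/-- Bergman-type reproducing formula, s = n+2 -/
theorem bergman (f : C(CB n, ℂ)) (hf : holo f) (z : CB n) (hz : nsq z.1 < 1) :
    ∫ w, f w * ((wt w : ℝ) : ℂ) / (1 - ip z.1 w.1) ^ (n + 2) ∂(vB n) = cw n * f z := by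
  have hz0 : ((1 - nsq z.1 : ℝ) : ℂ) ^ (n + 2) ≠ 0 := by
    apply pow_ne_zero
    have : (0 : ℝ) < 1 - nsq z.1 := by linarith
    exact_mod_cast this.ne'
  have h1 := change_var z.1 hz (fun w => ext0 f w * (1 - ip w z.1) ^ (n + 2))
  have h2 : ∫ w in {w : Fin n → ℂ | nsq w < 1}, (fun w => ext0 f w * (1 - ip w z.1) ^ (n + 2)) (mob z.1 w) *
      ((1 - nsq w : ℝ) : ℂ) = ((1 - nsq z.1 : ℝ) : ℂ) ^ (n + 2) *
      ∫ w in {w : Fin n → ℂ | nsq w < 1}, (ext0 f (mob z.1 w) / (1 - ip w z.1) ^ (n + 2)) *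
        ((1 - nsq w : ℝ) : ℂ) := by
    rw [← integral_const_mul]
    refine setIntegral_congr_fun measurableSet_ball fun w hw => ?_
    have hw' : nsq w < 1 := hw
    have h3 := one_sub_ip_mob hz.le (ip_ne_one hw'.le hz)
    simp only
    rw [h3, div_pow]
    push_cast
    ring
  have h4 : ∫ w in {w : Fin n → ℂ | nsq w < 1},
      (fun w => ext0 f w * (1 - ip w z.1) ^ (n + 2)) w * ((1 - nsq w : ℝ) : ℂ) *
      (((1 - nsq z.1 : ℝ) : ℂ) ^ (n + 2) / ((1 - ip w z.1) ^ (n + 2) * (1 - ip z.1 w) ^ (n + 2))) =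
      ((1 - nsq z.1 : ℝ) : ℂ) ^ (n + 2) * ∫ w in {w : Fin n → ℂ | nsq w < 1},
        (ext0 f w / (1 - ip z.1 w) ^ (n + 2)) * ((1 - nsq w : ℝ) : ℂ) := by
    rw [← integral_const_mul]
    refine setIntegral_congr_fun measurableSet_ball fun w hw => ?_
    have hw' : nsq w < 1 := hw
    have h5 : (1 - ip w z.1) ^ (n + 2) ≠ 0 := pow_ne_zero _ (one_sub_ip_ne hw'.le hz)
    have h6 : (1 - ip z.1 w) ^ (n + 2) ≠ 0 := pow_ne_zero _ (one_sub_ip_ne hz.le hw')
    simp only
    field_simp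
  rw [h2, h4] at h1
  have h7 := mul_left_cancel₀ hz0 h1
  rw [← integral_vB_wt (fun w => ext0 f (mob z.1 w) / (1 - ip w z.1) ^ (n + 2)),
    ← integral_vB_wt (fun w => ext0 f w / (1 - ip z.1 w) ^ (n + 2))] at h7
  have h8 := holo_wt (twist f z hz (n + 2)) (holo_twist f hf z hz (n + 2))
  have h9 : twist f z hz (n + 2) (cen n) = f z := by
    rw [twist_apply]
    have : T z (cen n) = z := T_zero z
    rw [this]
    show f z / (1 - ip 0 z.1) ^ (n + 2) = f z
    rw [ip_zero_left, sub_zero, one_pow, div_one]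
  rw [h9] at h8
  rw [← h8]
  have h10 : ∀ w : CB n, ext0 f (mob z.1 w.1) / (1 - ip w.1 z.1) ^ (n + 2) * ((1 - nsq w.1 : ℝ) : ℂ) =
      twist f z hz (n + 2) w * ((wt w : ℝ) : ℂ) := by
    intro w
    rw [twist_apply]
    have : ext0 f (mob z.1 w.1) = f (T z w) := ext0_val f (T z w)
    rw [this]
    rfl
  simp only [h10] at h7
  rw [h7]
  congr 1
  funext w
  rw [ext0_val]
  show f w * ((wt w : ℝ) : ℂ) / (1 - ip z.1 w.1) ^ (n + 2) =
    f w / (1 - ip z.1 w.1) ^ (n + 2) * ((wt w : ℝ) : ℂ)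
  ring

/-- Poisson-type reproducing formula, s = n+2, from `R P = P` -/
theorem poisson_rep_of (f : C(CB n, ℂ)) (hR : Rc (Pc f) = Pc f) (z : CB n) (hz : nsq z.1 < 1) :
    Pc f z = (cw n : ℂ)⁻¹ * ((1 - nsq z.1 : ℝ) : ℂ) ^ (n + 2) *
      ∫ w, Pc f w * ((wt w : ℝ) : ℂ) /
        ((1 - ip z.1 w.1) ^ (n + 2) * (1 - ip w.1 z.1) ^ (n + 2)) ∂(vB n) := by
  have h1 := change_var z.1 hz (fun w => ext0 (Pc f) w)
  have h4 : ∫ w in {w : Fin n → ℂ | nsq w < 1}, (fun w => ext0 (Pc f) w) w * ((1 - nsq w : ℝ) : ℂ) *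
      (((1 - nsq z.1 : ℝ) : ℂ) ^ (n + 2) / ((1 - ip w z.1) ^ (n + 2) * (1 - ip z.1 w) ^ (n + 2))) =
      ((1 - nsq z.1 : ℝ) : ℂ) ^ (n + 2) * ∫ w in {w : Fin n → ℂ | nsq w < 1},
        (ext0 (Pc f) w / ((1 - ip z.1 w) ^ (n + 2) * (1 - ip w z.1) ^ (n + 2))) *
          ((1 - nsq w : ℝ) : ℂ) := by
    rw [← integral_const_mul]
    refine setIntegral_congr_fun measurableSet_ball fun w hw => ?_
    simp only
    ring
  rw [h4] at h1
  rw [← integral_vB_wt (fun w => (fun w => ext0 (Pc f) w) (mob z.1 w)),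
    ← integral_vB_wt (fun w => ext0 (Pc f) w / ((1 - ip z.1 w) ^ (n + 2) * (1 - ip w z.1) ^ (n + 2)))]
    at h1
  have h5 : ∫ w : CB n, (fun w => ext0 (Pc f) w) (mob z.1 w.1) * ((1 - nsq w.1 : ℝ) : ℂ) ∂(vB n) =
      ∫ w, wt w • (Pc f) (T z w) ∂(vB n) := by
    congr 1
    funext w
    have h6 : ext0 (Pc f) (mob z.1 w.1) = Pc f (T z w) := ext0_val (Pc f) (T z w)
    show ext0 (Pc f) (mob z.1 w.1) * ((1 - nsq w.1 : ℝ) : ℂ) = wt w • (Pc f) (T z w)
    rw [h6, Complex.real_smul, mul_comm]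
    rfl
  have h7 : Pc f z = (cw n : ℂ)⁻¹ * ∫ w, wt w • (Pc f) (T z w) ∂(vB n) := by
    rw [← Rc_apply, hR]
  rw [h7, ← h5, h1, ← mul_assoc]
  congr 2
  funext w
  rw [ext0_val]
  show Pc f w / ((1 - ip z.1 w.1) ^ (n + 2) * (1 - ip w.1 z.1) ^ (n + 2)) * ((wt w : ℝ) : ℂ) = _
  ring

/-! ### the ball algebra in a closed Moebius invariant subspace -/

/-- dilation -/
noncomputable def dil (r : ℝ) (hr : |r| ≤ 1) (w : CB n) : CB n :=
  ⟨(r : ℂ) • w.1, nsq_smul_le (by rw [Complex.norm_real]; exact hr) w.2⟩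

lemma ip_smul_right_real (r : ℝ) (z w : Fin n → ℂ) : ip z ((r : ℂ) • w) = r * ip z w := by
  simp only [ip, Pi.smul_apply, smul_eq_mul, map_mul, Complex.conj_ofReal, Finset.mul_sum]
  apply Finset.sum_congr rfl
  intro i _
  ring

lemma ip_smul_left_real (r : ℝ) (z w : Fin n → ℂ) : ip ((r : ℂ) • z) w = r * ip z w := by
  simp only [ip, Pi.smul_apply, smul_eq_mul, Finset.mul_sum, mul_assoc]

/-- if all powers kernels are in `Y` then the ball algebra is in `Y` -/
theorem holo_mem (Y : Submodule ℂ C(CB n, ℂ)) (hY : IsClosed (Y : Set C(CB n, ℂ)))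
    (h1 : MemF Y (fun _ => 1)) (hz : ∀ i, MemF Y (fun z => z.1 i))
    (hT : ∀ (a : CB n), nsq a.1 < 1 → ∀ f, MemF Y f → MemF Y (fun z => f (T a z)))
    (f : C(CB n, ℂ)) (hf : holo f) : f ∈ Y := by
  -- coordinates of `z / (1-⟨z,a⟩)`
  have hq : ∀ (a : CB n), nsq a.1 < 1 → ∀ i, MemF Y (fun z => z.1 i / (1 - ip z.1 a.1)) := by
    intro a ha i
    have hA : (1 : ℂ) - (nsq a.1 : ℂ) ≠ 0 := by
      have : (0 : ℝ) < 1 - nsq a.1 := by linarith
      exact_mod_cast this.ne'
    -- `Om a (T a z) i`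
    have h2 : MemF Y (fun z => Om a.1 (T a z).1 i) := by
      have h3 : MemF Y (fun w : CB n => Om a.1 w.1 i) := by
        have h4 : MemF Y (fun w : CB n => (sq a.1 : ℂ) * w.1 i +
            (a.1 i / (1 + (sq a.1 : ℂ))) * ∑ j, conj (a.1 j) * w.1 j) :=
          ((hz i).smul _).add ((MemF.sum Finset.univ fun j _ => (hz j).smul _).smul _)
        apply h4.congr
        intro w
        simp only [Om, ip]
        have h5 : ∑ j, conj (a.1 j) * w.1 j = ∑ j, w.1 j * conj (a.1 j) :=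
          Finset.sum_congr rfl fun j _ => mul_comm _ _
        rw [h5]
        ring
      exact hT a ha _ h3
    have h6 : MemF Y (fun z : CB n => (1 - (nsq a.1 : ℂ))⁻¹ * (a.1 i * 1 - Om a.1 (T a z).1 i)) :=
      ((h1.smul _).sub h2).smul _
    apply h6.congr
    intro z
    have h7 := congrFun (Om_mob ha.le (ip_ne_one z.2 ha)) i
    have h8 : Om a.1 (T a z).1 i = a.1 i - (1 - (nsq a.1 : ℂ)) / (1 - ip z.1 a.1) * z.1 i := h7
    have h9 := one_sub_ip_ne z.2 ha
    rw [h8]
    field_simp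
    ring
  -- the kernels `1 / (1-⟨z,a⟩)`
  have hk : ∀ (a : CB n), nsq a.1 < 1 → MemF Y (fun z => 1 / (1 - ip z.1 a.1)) := by
    intro a ha
    have h2 : MemF Y (fun z : CB n => 1 + ∑ i, conj (a.1 i) * (z.1 i / (1 - ip z.1 a.1))) :=
      h1.add (MemF.sum Finset.univ fun i _ => (hq a ha i).smul _)
    apply h2.congr
    intro z
    have h9 := one_sub_ip_ne z.2 ha
    have h3 : ∑ i, conj (a.1 i) * (z.1 i / (1 - ip z.1 a.1)) = ip z.1 a.1 / (1 - ip z.1 a.1) := by
      rw [ip, Finset.sum_div]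
      apply Finset.sum_congr rfl
      intro i _
      ring
    rw [h3]
    field_simp
    ring
  -- their powers
  have hks : ∀ (a : CB n), nsq a.1 < 1 → MemF Y (fun z => 1 / (1 - ip z.1 a.1) ^ (n + 2)) := by
    intro a ha
    apply pow_kernel_mem_hol Y hY (fun z => ip z.1 a.1)
      (continuous_ip_comp continuous_subtype_val continuous_const) (fun z => norm_ip_lt_one z.2 ha)
    intro t ht0 ht1
    have ht : |t| ≤ 1 := by rw [abs_of_nonneg ht0]; exact ht1
    have h2 := hk (dil t ht a) (by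
      have h3 : nsq ((t : ℂ) • a.1) ≤ nsq a.1 := by
        have h4 : nsq ((t : ℂ) • a.1) = ‖(t : ℂ)‖ ^ 2 * nsq a.1 := by
          simp only [nsq, Pi.smul_apply, smul_eq_mul, norm_mul, mul_pow, Finset.mul_sum]
        rw [h4, Complex.norm_real, Real.norm_of_nonneg ht0]
        have := nsq_nonneg a.1
        have h5 : t ^ 2 ≤ 1 := by nlinarith
        calc t ^ 2 * nsq a.1 ≤ 1 * nsq a.1 := mul_le_mul_of_nonneg_right h5 this
          _ = nsq a.1 := one_mul _
      exact lt_of_le_of_lt h3 ha)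
    apply h2.congr
    intro z
    show 1 / (1 - ip z.1 ((t : ℂ) • a.1)) = _
    rw [ip_smul_right_real]
  -- dilations
  have hdil : ∀ (r : ℝ) (hr0 : 0 ≤ r) (hr : r < 1), MemF Y (fun z => f (dil r (by
      rw [abs_of_nonneg hr0]; exact hr.le) z)) := by
    intro r hr0 hr
    have hr' : |r| ≤ 1 := by rw [abs_of_nonneg hr0]; exact hr.le
    have hlt : ∀ w : CB n, nsq (dil r hr' w).1 < 1 := fun w =>
      nsq_smul_lt (by rw [Complex.norm_real, Real.norm_of_nonneg hr0]; exact hr) w.2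
    have hc := cw_pos (n := n)
    have hcc : (cw n : ℂ) ≠ 0 := by exact_mod_cast hc.ne'
    have hdc : Continuous (dil r hr' : CB n → CB n) := by
      apply Continuous.subtype_mk
      fun_prop
    have h2 : MemF Y (fun z : CB n => (cw n : ℂ)⁻¹ * ∫ w, f w * ((wt w : ℝ) : ℂ) *
        (1 / (1 - ip z.1 (dil r hr' w).1) ^ (n + 2)) ∂(vB n)) := by
      apply MemF.smul
      apply MemF.integral (vB n) hY (fun w z => f w * ((wt w : ℝ) : ℂ) *
        (1 / (1 - ip z.1 (dil r hr' w).1) ^ (n + 2)))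
      · apply Continuous.mul
        · exact (f.continuous.comp continuous_fst).mul
            (Complex.continuous_ofReal.comp (continuous_wt.comp continuous_fst))
        · apply Continuous.div continuous_const
          · exact (continuous_const.sub (continuous_ip_comp (continuous_subtype_val.comp
              continuous_snd) (continuous_subtype_val.comp (hdc.comp continuous_fst)))).pow _
          · intro p
            exact pow_ne_zero _ (one_sub_ip_ne p.2.2 (hlt p.1))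
      · intro w
        exact (hks (dil r hr' w) (hlt w)).smul _
    apply h2.congr
    intro z
    have h3 := bergman f hf (dil r hr' z) (hlt z)
    have h4 : ∀ w : CB n, f w * ((wt w : ℝ) : ℂ) * (1 / (1 - ip z.1 (dil r hr' w).1) ^ (n + 2)) =
        f w * ((wt w : ℝ) : ℂ) / (1 - ip (dil r hr' z).1 w.1) ^ (n + 2) := by
      intro w
      have h5 : ip z.1 (dil r hr' w).1 = ip (dil r hr' z).1 w.1 := by
        show ip z.1 ((r : ℂ) • w.1) = ip ((r : ℂ) • z.1) w.1
        rw [ip_smul_right_real, ip_smul_left_real]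
      rw [h5]
      ring
    simp only [h4]
    rw [h3, ← mul_assoc, inv_mul_cancel₀ hcc, one_mul]
  -- the limit
  have hlim : MemF Y f := by
    apply MemF.of_approx hY
    intro ε hε
    have huc := CompactSpace.uniformContinuous_of_continuous f.continuous
    rw [Metric.uniformContinuous_iff] at huc
    obtain ⟨δ, hδ, hδf⟩ := huc ε hε
    obtain ⟨r, hr0, hr1, hrδ⟩ : ∃ r : ℝ, 0 ≤ r ∧ r < 1 ∧ 1 - r < δ := by
      refine ⟨max 0 (1 - δ / 2), le_max_left _ _, ?_, ?_⟩
      · apply max_lt one_pos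
        linarith
      · have := le_max_right 0 (1 - δ / 2)
        linarith
    refine ⟨_, hdil r hr0 hr1, ?_⟩
    intro z
    rw [← dist_eq_norm]
    apply le_of_lt
    apply hδf
    rw [Subtype.dist_eq, dist_eq_norm]
    have h3 : (dil r (by rw [abs_of_nonneg hr0]; exact hr1.le) z).1 - z.1 = ((r - 1 : ℝ) : ℂ) • z.1 := by
      show (r : ℂ) • z.1 - z.1 = _
      rw [Complex.ofReal_sub, Complex.ofReal_one, sub_smul, one_smul]
    rw [h3, norm_smul, Complex.norm_real, Real.norm_eq_abs, abs_sub_comm, abs_of_pos (by linarith)]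
    have h4 : ‖z.1‖ ≤ 1 := by
      refine (pi_norm_le_iff_of_nonneg zero_le_one).2 fun i => ?_
      have h5 : ‖z.1 i‖ ^ 2 ≤ ∑ i, ‖z.1 i‖ ^ 2 :=
        Finset.single_le_sum (f := fun i => ‖z.1 i‖ ^ 2) (fun i _ => sq_nonneg _) (Finset.mem_univ i)
      have h6 := z.2
      nlinarith [norm_nonneg (z.1 i)]
    calc (1 - r) * ‖z.1‖ ≤ (1 - r) * 1 := mul_le_mul_of_nonneg_left h4 (by linarith)
      _ < δ := by rw [mul_one]; exact hrδ
  exact MemF.mem hlim

end Pool.Agent.Ball
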