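import Pool.Agent.Helper76.Ball12

set_option autoImplicit false
set_option linter.unusedSectionVars false
open MeasureTheory Filter Topology Set

/-! The weights `(1-|w|²)^(s-1)`, `0 < s < 1`, on the ball: finite mass, which tends to infinity
as `s → 0`. -/

namespace Pool.Agent.Ball

variable {n : ℕ} [NeZero n]

/-- coordinates to the Euclidean space -/
noncomputable def toE (n : ℕ) : (Fin n → ℂ) ≃L[ℝ] EuclideanSpace ℂ (Fin n) :=
  (PiLp.continuousLinearEquiv 2 ℝ (fun _ : Fin n => ℂ)).symm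

lemma norm_toE (w : Fin n → ℂ) : ‖toE n w‖ ^ 2 = nsq w := by
  rw [EuclideanSpace.norm_sq_eq]
  rfl

/-- Lebesgue measure carried to the Euclidean space -/
noncomputable def muE (n : ℕ) : Measure (EuclideanSpace ℂ (Fin n)) :=
  (volume : Measure (Fin n → ℂ)).map (toE n)

instance : (muE n).IsAddHaarMeasure := (toE n).isAddHaarMeasure_map volume

lemma me_toE : MeasurableEmbedding (toE n) := (toE n).toHomeomorph.measurableEmbedding

instance : Nontrivial (EuclideanSpace ℂ (Fin n)) := by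
  refine ⟨⟨0, toE n (te n 1), fun h => ?_⟩⟩
  have h1 := norm_toE (te n 1)
  rw [← h, nsq_te] at h1
  simp at h1

/-- the one-dimensional profile -/
noncomputable def prof (s : ℝ) : ℝ → ℝ := (Iic (1 : ℝ)).indicator fun y => (1 - y ^ 2) ^ (s - 1)

lemma prof_toE (s : ℝ) (w : Fin n → ℂ) :
    prof s ‖toE n w‖ = ({w : Fin n → ℂ | ∑ i, ‖w i‖ ^ 2 ≤ 1}).indicator
      (fun w => (1 - nsq w) ^ (s - 1)) w := by
  have h : ‖toE n w‖ ≤ 1 ↔ ∑ i, ‖w i‖ ^ 2 ≤ 1 := by
    rw [← sq_le_one_iff₀ (norm_nonneg _), norm_toE]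
    rfl
  unfold prof
  by_cases h1 : ‖toE n w‖ ≤ 1
  · rw [indicator_of_mem (show ‖toE n w‖ ∈ Iic (1 : ℝ) from h1),
      indicator_of_mem (show w ∈ {w : Fin n → ℂ | ∑ i, ‖w i‖ ^ 2 ≤ 1} from h.1 h1), norm_toE]
  · rw [indicator_of_notMem (show ‖toE n w‖ ∉ Iic (1 : ℝ) from h1),
      indicator_of_notMem (show w ∉ {w : Fin n → ℂ | ∑ i, ‖w i‖ ^ 2 ≤ 1} from fun h2 => h1 (h.2 h2))]

lemma intervalIntegrable_one_sub {s : ℝ} (hs : 0 < s) (a b : ℝ) :
    IntervalIntegrable (fun y : ℝ => (1 - y) ^ (s - 1)) volume a b := by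
  have h := (intervalIntegral.intervalIntegrable_rpow' (a := 1 - a) (b := 1 - b)
    (r := s - 1) (by linarith)).comp_sub_left 1
  simpa using h

lemma prof_integrable {s : ℝ} (hs : 0 < s) (hs1 : s < 1) (d : ℕ) :
    IntegrableOn (fun y : ℝ => y ^ d • prof s y) (Ioi 0) := by
  have h1 : IntegrableOn (fun y : ℝ => (1 - y) ^ (s - 1)) (Ioc 0 1) :=
    (intervalIntegrable_iff_integrableOn_Ioc_of_le zero_le_one).1 (intervalIntegrable_one_sub hs 0 1)
  have h2 : IntegrableOn (fun y : ℝ => y ^ d • prof s y) (Ioc 0 1) := by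
    refine Integrable.mono' h1 ?_ ?_
    · refine Measurable.aestronglyMeasurable ?_
      refine (measurable_id.pow_const d).smul ?_
      exact Measurable.indicator (((measurable_const.sub (measurable_id.pow_const 2))).pow_const _)
        measurableSet_Iic
    · refine (ae_restrict_iff' measurableSet_Ioc).2 (Eventually.of_forall fun y hy => ?_)
      have hy1 : y ∈ Iic (1 : ℝ) := hy.2
      rw [prof, indicator_of_mem hy1, smul_eq_mul, norm_mul, norm_pow, Real.norm_of_nonneg hy.1.le]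
      have h3 : 0 ≤ 1 - y ^ 2 := by nlinarith [hy.1, hy.2]
      rw [Real.norm_of_nonneg (Real.rpow_nonneg h3 _)]
      have h4 : (1 - y ^ 2) ^ (s - 1) ≤ (1 - y) ^ (s - 1) := by
        rcases eq_or_lt_of_le hy.2 with h5 | h5
        · rw [h5]
          norm_num
        · exact Real.rpow_le_rpow_of_nonpos (by linarith) (by nlinarith [hy.1]) (by linarith)
      have h5 : y ^ d ≤ 1 := pow_le_one₀ hy.1.le hy.2
      calc y ^ d * (1 - y ^ 2) ^ (s - 1) ≤ 1 * (1 - y) ^ (s - 1) :=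
            mul_le_mul h5 h4 (Real.rpow_nonneg h3 _) zero_le_one
        _ = (1 - y) ^ (s - 1) := one_mul _
  have h3 : (Ioi (0 : ℝ)) = Ioc 0 1 ∪ Ioi 1 := (Ioc_union_Ioi_eq_Ioi zero_le_one).symm
  rw [h3]
  refine h2.union ?_
  refine (integrableOn_congr_fun (f := fun _ => (0 : ℝ)) (fun y hy => ?_) measurableSet_Ioi).1
    integrableOn_zero
  have hy1 : y ∉ Iic (1 : ℝ) := fun h => not_le.2 (show (1 : ℝ) < y from hy) h
  simp only
  rw [prof, indicator_of_notMem hy1, smul_zero]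

/-- the weight `(1-|w|²)^(s-1)` -/
noncomputable def gs (s : ℝ) (w : CB n) : ℝ := wt w ^ (s - 1)

lemma gs_nonneg (s : ℝ) (w : CB n) : 0 ≤ gs s w := Real.rpow_nonneg (wt_nonneg w) _

lemma gs_act (s : ℝ) (U : UG n) (w : CB n) : gs s (act U w) = gs s w := by
  rw [gs, wt_act]; rfl

lemma measurable_gs (s : ℝ) : Measurable (gs s : CB n → ℝ) :=
  continuous_wt.measurable.pow_const _

lemma integrable_gs {s : ℝ} (hs : 0 < s) (hs1 : s < 1) : Integrable (gs s) (vB n) := by
  have h1 := (integrable_fun_norm_addHaar (muE n) (f := prof s)).2 (prof_integrable hs hs1 _)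
  rw [muE, me_toE.integrable_map_iff] at h1
  have h2 : (fun x : EuclideanSpace ℂ (Fin n) => prof s ‖x‖) ∘ (toE n) =
      ({w : Fin n → ℂ | ∑ i, ‖w i‖ ^ 2 ≤ 1}).indicator (fun w => (1 - nsq w) ^ (s - 1)) := by
    funext w
    exact prof_toE s w
  rw [h2, integrable_indicator_iff measurableSet_closedBall,
    integrableOn_iff_comap_subtypeVal measurableSet_closedBall] at h1
  exact h1

/-- total mass -/
noncomputable def Ma (n : ℕ) (s : ℝ) : ℝ := ∫ w, gs s w ∂(vB n)

lemma Ma_eq (s : ℝ) : Ma n s = Module.finrank ℝ (EuclideanSpace ℂ (Fin n)) •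
    (muE n).real (Metric.ball 0 1) • ∫ y in Ioi (0 : ℝ),
      y ^ (Module.finrank ℝ (EuclideanSpace ℂ (Fin n)) - 1) • prof s y := by
  rw [← integral_fun_norm_addHaar (muE n) (prof s), muE, me_toE.integral_map]
  have h2 : (fun w : Fin n → ℂ => prof s ‖toE n w‖) =
      ({w : Fin n → ℂ | ∑ i, ‖w i‖ ^ 2 ≤ 1}).indicator (fun w => (1 - nsq w) ^ (s - 1)) := by
    funext w
    exact prof_toE s w
  rw [h2, integral_indicator measurableSet_closedBall]
  exact integral_subtype_comap measurableSet_closedBall (fun w => (1 - nsq w) ^ (s - 1))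

lemma prof_lower {s : ℝ} (hs : 0 < s) (hs1 : s < 1) (d : ℕ) :
    (1 / 2) ^ d * (1 / 4) * (1 / s) ≤ ∫ y in Ioi (0 : ℝ), y ^ d • prof s y := by
  have h0 : ∀ y ∈ Ioi (0 : ℝ), 0 ≤ y ^ d • prof s y := by
    intro y hy
    have hy' : (0 : ℝ) < y := hy
    refine mul_nonneg (pow_nonneg hy'.le _) ?_
    by_cases h : y ≤ 1
    · rw [prof, indicator_of_mem (show y ∈ Iic (1 : ℝ) from h)]
      exact Real.rpow_nonneg (by nlinarith) _
    · rw [prof, indicator_of_notMem (show y ∉ Iic (1 : ℝ) from h)]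
  have hi := prof_integrable hs hs1 d
  have h1 : ∫ y in Ioc (1 / 2 : ℝ) 1, y ^ d • prof s y ≤ ∫ y in Ioi (0 : ℝ), y ^ d • prof s y := by
    refine setIntegral_mono_set hi ?_ ?_
    · exact (ae_restrict_iff' measurableSet_Ioi).2 (Eventually.of_forall h0)
    · refine HasSubset.Subset.eventuallyLE fun y hy => ?_
      have : (1 / 2 : ℝ) < y := hy.1
      show (0 : ℝ) < y
      linarith
  have h2 : ∫ y in Ioc (1 / 2 : ℝ) 1, (1 / 2) ^ d * (1 / 2) * (1 - y) ^ (s - 1) ≤
      ∫ y in Ioc (1 / 2 : ℝ) 1, y ^ d • prof s y := by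
    refine setIntegral_mono_on ?_ (hi.mono_set fun y hy => ?_) measurableSet_Ioc fun y hy => ?_
    · exact ((intervalIntegrable_iff_integrableOn_Ioc_of_le (by norm_num)).1
        (intervalIntegrable_one_sub hs (1 / 2) 1)).const_mul _
    · have : (1 / 2 : ℝ) < y := hy.1
      show (0 : ℝ) < y
      linarith
    · have hy1 : (1 / 2 : ℝ) < y := hy.1
      have hy2 : y ≤ 1 := hy.2
      rw [prof, indicator_of_mem (show y ∈ Iic (1 : ℝ) from hy2), smul_eq_mul, mul_assoc]
      have h3 : (1 / 2 : ℝ) ^ d ≤ y ^ d := pow_le_pow_left₀ (by norm_num) hy1.le d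
      refine mul_le_mul h3 ?_ ?_ (by positivity)
      · rcases eq_or_lt_of_le hy2 with h5 | h5
        · rw [h5]
          have : s - 1 ≠ 0 := by linarith
          norm_num [Real.zero_rpow this]
        · have h6 : (2 * (1 - y)) ^ (s - 1) ≤ (1 - y ^ 2) ^ (s - 1) :=
            Real.rpow_le_rpow_of_nonpos (by nlinarith) (by nlinarith) (by linarith)
          rw [Real.mul_rpow (by norm_num) (by linarith)] at h6
          have h7 : (1 / 2 : ℝ) ≤ 2 ^ (s - 1) := by
            have h8 : (2 : ℝ) ^ (-1 : ℝ) ≤ 2 ^ (s - 1) :=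
              Real.rpow_le_rpow_of_exponent_le (by norm_num) (by linarith)
            rw [Real.rpow_neg_one] at h8
            linarith
          have h9 : 0 ≤ (1 - y) ^ (s - 1) := Real.rpow_nonneg (by linarith) _
          nlinarith
      · exact mul_nonneg (by norm_num) (Real.rpow_nonneg (by linarith) _)
  have h3 : ∫ y in Ioc (1 / 2 : ℝ) 1, (1 / 2) ^ d * (1 / 2) * (1 - y) ^ (s - 1) =
      (1 / 2) ^ d * (1 / 2) * ((1 / 2) ^ s / s) := by
    rw [integral_const_mul, ← intervalIntegral.integral_of_le (by norm_num)]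
    congr 1
    have h4 := intervalIntegral.integral_comp_sub_left (a := (1 / 2 : ℝ)) (b := 1)
      (fun y : ℝ => y ^ (s - 1)) 1
    rw [h4, integral_rpow (Or.inl (by linarith))]
    have h5 : s - 1 + 1 = s := by ring
    rw [h5, sub_self, Real.zero_rpow hs.ne', sub_zero]
    norm_num
  have h4 : (1 / 2 : ℝ) ≤ (1 / 2) ^ s := by
    have h5 := Real.rpow_le_rpow_of_exponent_ge (x := (1 / 2 : ℝ)) (by norm_num) (by norm_num) hs1.le
    rw [Real.rpow_one] at h5
    exact h5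
  calc (1 / 2 : ℝ) ^ d * (1 / 4) * (1 / s) = (1 / 2) ^ d * (1 / 2) * ((1 / 2) / s) := by ring
    _ ≤ (1 / 2) ^ d * (1 / 2) * ((1 / 2) ^ s / s) := by gcongr
    _ ≤ _ := by rw [← h3]; exact h2.trans h1

/-- the mass is at least a constant over `s` -/
lemma Ma_lower : ∃ C : ℝ, 0 < C ∧ ∀ s : ℝ, 0 < s → s < 1 → C / s ≤ Ma n s := by
  set D := Module.finrank ℝ (EuclideanSpace ℂ (Fin n)) with hD
  have hDpos : 0 < D := Module.finrank_pos
  have hb : 0 < (muE n).real (Metric.ball 0 1) := by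
    refine ENNReal.toReal_pos (Metric.measure_ball_pos _ _ zero_lt_one).ne' ?_
    exact measure_ball_lt_top.ne
  refine ⟨D * ((muE n).real (Metric.ball 0 1) * ((1 / 2) ^ (D - 1) * (1 / 4))), by positivity,
    fun s hs hs1 => ?_⟩
  rw [Ma_eq, ← hD, nsmul_eq_mul, smul_eq_mul]
  have h := prof_lower hs hs1 (D - 1)
  calc D * ((muE n).real (Metric.ball 0 1) * ((1 / 2) ^ (D - 1) * (1 / 4))) / s =
        D * ((muE n).real (Metric.ball 0 1) * ((1 / 2) ^ (D - 1) * (1 / 4) * (1 / s))) := by ring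
    _ ≤ _ := by gcongr

lemma Ma_pos {s : ℝ} (hs : 0 < s) (hs1 : s < 1) : 0 < Ma n s := by
  obtain ⟨C, hC, h⟩ := Ma_lower (n := n)
  exact lt_of_lt_of_le (div_pos hC hs) (h s hs hs1)

lemma tendsto_Ma_inv : Tendsto (fun s => (Ma n s)⁻¹) (𝓝[>] 0) (𝓝 0) := by
  obtain ⟨C, hC, h⟩ := Ma_lower (n := n)
  have h1 : Tendsto (fun s : ℝ => s / C) (𝓝[>] 0) (𝓝 0) := by
    have h2 : Tendsto (fun s : ℝ => s / C) (𝓝 0) (𝓝 (0 / C)) :=
      tendsto_id.div_const C
    rw [zero_div] at h2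
    exact h2.mono_left nhdsWithin_le_nhds
  refine squeeze_zero' ?_ ?_ h1
  · filter_upwards [Ioo_mem_nhdsGT (zero_lt_one : (0 : ℝ) < 1)] with s hs
    exact inv_nonneg.2 (Ma_pos hs.1 hs.2).le
  · filter_upwards [Ioo_mem_nhdsGT (zero_lt_one : (0 : ℝ) < 1)] with s hs
    have h3 := h s hs.1 hs.2
    rw [← inv_div]
    exact inv_anti₀ (div_pos hC hs.1) h3

end Pool.Agent.Ball
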