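import Pool.Agent.Helper76.BallP1

set_option autoImplicit false
set_option linter.unusedSectionVars false
open MeasureTheory Filter Topology Set

/-! The Poisson kernel form of `P`. -/

namespace Pool.Agent.Ball

variable {n : ℕ} [NeZero n]

/-- averages against an invariant integrable weight -/
lemma avg_gs {s : ℝ} (hs : 0 < s) (hs1 : s < 1) (F : C(CB n, ℂ)) :
    ∫ w, F w * (gs s w : ℂ) ∂(vB n) =
      ∫ w, (∫ U, F (act U w) ∂(hU n)) * (gs s w : ℂ) ∂(vB n) := by
  have h1 : ∀ U : UG n, ∫ w, F (act U w) * (gs s w : ℂ) ∂(vB n) =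
      ∫ w, F w * (gs s w : ℂ) ∂(vB n) := by
    intro U
    rw [← int_act U (fun w => F w * (gs s w : ℂ))]
    simp only [gs_act]
  have h2 : ∫ U, (∫ w, F (act U w) * (gs s w : ℂ) ∂(vB n)) ∂(hU n) =
      ∫ w, F w * (gs s w : ℂ) ∂(vB n) := by
    simp only [h1]
    simp
  rw [← h2, integral_integral_swap]
  · congr 1
    funext w
    rw [integral_mul_const]
  · have hb : Integrable (fun p : UG n × CB n => ‖F‖ * gs s p.2) ((hU n).prod (vB n)) :=
      ((integrable_gs hs hs1).const_mul ‖F‖).comp_snd (hU n)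
    refine Integrable.mono' hb ?_ (Eventually.of_forall fun p => ?_)
    · refine Measurable.aestronglyMeasurable ?_
      exact (F.continuous.comp continuous_act).measurable.mul
        (Complex.measurable_ofReal.comp ((measurable_gs s).comp measurable_snd))
    · show ‖F (act p.1 p.2) * (gs s p.2 : ℂ)‖ ≤ ‖F‖ * gs s p.2
      rw [norm_mul, Complex.norm_real, Real.norm_of_nonneg (gs_nonneg s p.2)]
      exact mul_le_mul_of_nonneg_right (bdd F _) (gs_nonneg s p.2)

lemma continuous_avg (F : C(CB n, ℂ)) : Continuous fun w => ∫ U, F (act U w) ∂(hU n) := by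
  rw [continuous_iff_continuousAt]
  intro w0
  refine continuousAt_of_dominated (bound := fun _ => ‖F‖)
    (Eventually.of_forall fun w => ?_) (Eventually.of_forall fun w => Eventually.of_forall fun U =>
      bdd F _) (integrable_const _) (Eventually.of_forall fun U => ?_)
  · exact (F.continuous.comp (continuous_act_comp continuous_id continuous_const)).aestronglyMeasurable
  · exact (F.continuous.comp (continuous_act_comp continuous_const continuous_id)).continuousAt

/-- the weighted averages tend to the mean over the sphere -/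
lemma tendsto_mean (F : C(CB n, ℂ)) :
    Tendsto (fun s : ℝ => ((Ma n s)⁻¹ : ℂ) * ∫ w, F w * (gs s w : ℂ) ∂(vB n)) (𝓝[>] 0)
      (𝓝 (∫ U, F (col U) ∂(hU n))) := by
  set c := ∫ U, F (col U) ∂(hU n) with hc
  set G : CB n → ℂ := fun w => (∫ U, F (act U w) ∂(hU n)) - c with hG
  have hGc : Continuous G := (continuous_avg F).sub continuous_const
  have hG0 : ∀ w : CB n, nsq w.1 = 1 → G w = 0 := fun w hw => by
    simp only [hG]
    rw [avg_sphere F hw, sub_self]
  obtain ⟨B, hB0, hB⟩ : ∃ B : ℝ, 0 ≤ B ∧ ∀ w, ‖G w‖ ≤ B := by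
    refine ⟨‖(⟨G, hGc⟩ : C(CB n, ℂ))‖, norm_nonneg _, fun w => ?_⟩
    exact (⟨G, hGc⟩ : C(CB n, ℂ)).norm_coe_le_norm w
  rw [Metric.tendsto_nhds]
  intro ε hε
  -- the region where G is not small keeps away from the sphere
  obtain ⟨δ, hδ, hδ1, hδG⟩ : ∃ δ : ℝ, 0 < δ ∧ δ ≤ 1 ∧ ∀ w : CB n, wt w < δ → ‖G w‖ ≤ ε / 2 := by
    have hK : IsCompact {w : CB n | ε / 2 ≤ ‖G w‖} :=
      (isClosed_le continuous_const hGc.norm).isCompact
    rcases ({w : CB n | ε / 2 ≤ ‖G w‖}).eq_empty_or_nonempty with h | h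
    · refine ⟨1, one_pos, le_rfl, fun w _ => ?_⟩
      by_contra h1
      have : w ∈ {w : CB n | ε / 2 ≤ ‖G w‖} := (not_le.1 h1).le
      rw [h] at this
      exact this
    · obtain ⟨w0, hw0, hmin⟩ := hK.exists_isMinOn h continuous_wt.continuousOn
      have hpos : 0 < wt w0 := by
        rcases eq_or_lt_of_le (wt_nonneg w0) with h1 | h1
        · exfalso
          have h2 : nsq w0.1 = 1 := by
            unfold wt at h1
            linarith
          have h3 : ε / 2 ≤ ‖G w0‖ := hw0
          rw [hG0 w0 h2, norm_zero] at h3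
          linarith
        · exact h1
      refine ⟨min (wt w0) 1, lt_min hpos one_pos, min_le_right _ _, fun w hw => ?_⟩
      by_contra h1
      have h2 : w ∈ {w : CB n | ε / 2 ≤ ‖G w‖} := (not_le.1 h1).le
      have h3 : wt w0 ≤ wt w := hmin h2
      exact absurd (lt_of_lt_of_le hw (min_le_left _ _)) (not_lt.2 h3)
  have hV : 0 ≤ (vB n).real univ := measureReal_nonneg
  have h1 : Tendsto (fun s => (Ma n s)⁻¹ * (B / δ * (vB n).real univ)) (𝓝[>] 0) (𝓝 0) := by
    have := (tendsto_Ma_inv (n := n)).mul_const (B / δ * (vB n).real univ)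
    rwa [zero_mul] at this
  have h2 := (tendsto_order.1 h1).2 (ε / 2) (by positivity)
  filter_upwards [h2, Ioo_mem_nhdsGT (zero_lt_one : (0 : ℝ) < 1)] with s hs2 hs
  have hM := Ma_pos (n := n) hs.1 hs.2
  have hMc : (Ma n s : ℂ) ≠ 0 := by exact_mod_cast hM.ne'
  have hMi : ∫ w, (gs s w : ℂ) ∂(vB n) = (Ma n s : ℂ) := by
    rw [Ma]
    exact integral_ofReal
  have hgi : Integrable (fun w : CB n => (gs s w : ℂ)) (vB n) := (integrable_gs hs.1 hs.2).ofReal
  have hAi : Integrable (fun w : CB n => (∫ U, F (act U w) ∂(hU n)) * (gs s w : ℂ)) (vB n) :=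
    hgi.bdd_mul (c := ‖(⟨_, continuous_avg F⟩ : C(CB n, ℂ))‖)
      (continuous_avg F).aestronglyMeasurable
      (Eventually.of_forall fun w => (⟨_, continuous_avg F⟩ : C(CB n, ℂ)).norm_coe_le_norm w)
  have h3 : ((Ma n s)⁻¹ : ℂ) * (∫ w, F w * (gs s w : ℂ) ∂(vB n)) - c =
      ((Ma n s)⁻¹ : ℂ) * ∫ w, G w * (gs s w : ℂ) ∂(vB n) := by
    have h4 : ∫ w, G w * (gs s w : ℂ) ∂(vB n) =
        (∫ w, F w * (gs s w : ℂ) ∂(vB n)) - c * (Ma n s : ℂ) := by
      rw [avg_gs hs.1 hs.2 F, ← hMi, ← integral_const_mul, ← integral_sub hAi (hgi.const_mul c)]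
      congr 1
      funext w
      simp only [hG]
      ring
    rw [h4]
    field_simp
  rw [dist_eq_norm, h3, norm_mul, norm_inv, Complex.norm_real, Real.norm_of_nonneg hM.le]
  have h5 : ‖∫ w, G w * (gs s w : ℂ) ∂(vB n)‖ ≤ ε / 2 * Ma n s + B / δ * (vB n).real univ := by
    have h6 : ∫ w, (ε / 2 * gs s w + B / δ) ∂(vB n) =
        ε / 2 * Ma n s + B / δ * (vB n).real univ := by
      rw [integral_add ((integrable_gs hs.1 hs.2).const_mul _) (integrable_const _),
        integral_const_mul, integral_const, smul_eq_mul]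
      rw [Ma]
      ring
    rw [← h6]
    refine norm_integral_le_of_norm_le (((integrable_gs hs.1 hs.2).const_mul _).add
      (integrable_const _)) (Eventually.of_forall fun w => ?_)
    rw [norm_mul, Complex.norm_real, Real.norm_of_nonneg (gs_nonneg s w)]
    by_cases h7 : wt w < δ
    · have h8 := mul_le_mul_of_nonneg_right (hδG w h7) (gs_nonneg s w)
      have h9 : 0 ≤ B / δ := by positivity
      linarith
    · have h8 : gs s w ≤ 1 / δ := by
        have h9 : gs s w ≤ δ ^ (s - 1) :=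
          Real.rpow_le_rpow_of_nonpos hδ (not_lt.1 h7) (by linarith [hs.2])
        have h10 : δ ^ (s - 1) ≤ δ ^ (-1 : ℝ) :=
          Real.rpow_le_rpow_of_exponent_ge hδ hδ1 (by linarith [hs.1])
        rw [Real.rpow_neg_one] at h10
        rw [one_div]
        exact h9.trans h10
      have h9 : ‖G w‖ * gs s w ≤ B * (1 / δ) := mul_le_mul (hB w) h8 (gs_nonneg s w) hB0
      have h10 : 0 ≤ ε / 2 * gs s w := mul_nonneg (by positivity) (gs_nonneg s w)
      have h11 : B * (1 / δ) = B / δ := by ring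
      linarith
  calc (Ma n s)⁻¹ * ‖∫ w, G w * (gs s w : ℂ) ∂(vB n)‖
      ≤ (Ma n s)⁻¹ * (ε / 2 * Ma n s + B / δ * (vB n).real univ) :=
        mul_le_mul_of_nonneg_left h5 (inv_nonneg.2 hM.le)
    _ = ε / 2 + (Ma n s)⁻¹ * (B / δ * (vB n).real univ) := by field_simp
    _ < ε := by linarith

/-- the base of the Poisson kernel -/
noncomputable def kz (z : CB n) (w : CB n) : ℝ := (1 - nsq z.1) / ‖1 - ip w.1 z.1‖ ^ 2

end Pool.Agent.Ball
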