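import Pool.Agent.Helper76.BallP2

set_option autoImplicit false
set_option linter.unusedSectionVars false
open MeasureTheory Filter Topology Set

/-! The Poisson kernel form of `P`, second part. -/

namespace Pool.Agent.Ball

variable {n : ℕ} [NeZero n]

lemma norm_one_sub_pos {z : CB n} (hz : nsq z.1 < 1) (w : CB n) : 0 < ‖1 - ip w.1 z.1‖ :=
  norm_pos_iff.2 (one_sub_ip_ne w.2 hz)

lemma kz_pos {z : CB n} (hz : nsq z.1 < 1) (w : CB n) : 0 < kz z w :=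
  div_pos (by linarith) (pow_pos (norm_one_sub_pos hz w) 2)

lemma continuous_kz {z : CB n} (hz : nsq z.1 < 1) : Continuous (kz z) := by
  refine continuous_const.div ?_ fun w => (pow_pos (norm_one_sub_pos hz w) 2).ne'
  exact (continuous_norm.comp (continuous_const.sub
    (continuous_ip_comp continuous_subtype_val continuous_const))).pow 2

/-- the integrand transformed -/
lemma gs_change {z : CB n} (hz : nsq z.1 < 1) {s : ℝ} (hs1 : s < 1) (w : CB n) :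
    ((1 - nsq z.1) * (1 - nsq (mob z.1 w.1)) / ‖1 - ip (mob z.1 w.1) z.1‖ ^ 2) ^ (s - 2) *
      (1 - nsq w.1) = gs s w := by
  by_cases hw : nsq w.1 = 1
  · rw [gs, wt_zero hw, hw, sub_self, mul_zero, Real.zero_rpow (by linarith)]
  · have hw' : nsq w.1 < 1 := lt_of_le_of_ne w.2 hw
    have h1 : ip w.1 z.1 ≠ 1 := ip_ne_one w.2 hz
    have h2 : ip (mob z.1 w.1) z.1 ≠ 1 := ip_ne_one (mob_mem hz.le w.2) hz
    have h3 := mob_nsq hz.le h2
    rw [mob_mob hz h1] at h3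
    rw [← h3]
    have h4 : 0 < wt w := by unfold wt; linarith
    have h5 : s - 1 = (s - 2) + 1 := by ring
    rw [gs, h5, Real.rpow_add_one h4.ne']
    rfl

lemma kz_change {z : CB n} (hz : nsq z.1 < 1) {s : ℝ} (hs1 : s < 1) (w : CB n) :
    ((1 - nsq z.1) * (1 - nsq w.1) / ‖1 - ip w.1 z.1‖ ^ 2) ^ (s - 2) *
      ((1 - nsq z.1) ^ (n + 2) / (‖1 - ip w.1 z.1‖ ^ 2) ^ (n + 2)) * (1 - nsq w.1) =
      kz z w ^ ((n : ℝ) + s) * gs s w := by
  have hk := kz_pos hz w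
  have h1 : (1 - nsq z.1) * (1 - nsq w.1) / ‖1 - ip w.1 z.1‖ ^ 2 = kz z w * wt w := by
    unfold kz wt
    ring
  have h2 : (1 - nsq z.1) ^ (n + 2) / (‖1 - ip w.1 z.1‖ ^ 2) ^ (n + 2) = kz z w ^ (n + 2) := by
    rw [kz, div_pow]
  rw [h1, h2, Real.mul_rpow hk.le (wt_nonneg w)]
  have h3 : kz z w ^ (s - 2) * kz z w ^ (n + 2) = kz z w ^ ((n : ℝ) + s) := by
    rw [← Real.rpow_natCast, ← Real.rpow_add hk]
    congr 1
    push_cast
    ring
  have h4 : wt w ^ (s - 2) * (1 - nsq w.1) = gs s w := by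
    by_cases hw : wt w = 0
    · have : 1 - nsq w.1 = 0 := hw
      rw [gs, hw, this, mul_zero, Real.zero_rpow (by linarith)]
    · have h5 : s - 1 = (s - 2) + 1 := by ring
      rw [gs, h5, Real.rpow_add_one hw]
      rfl
  calc kz z w ^ (s - 2) * wt w ^ (s - 2) * kz z w ^ (n + 2) * (1 - nsq w.1)
      = (kz z w ^ (s - 2) * kz z w ^ (n + 2)) * (wt w ^ (s - 2) * (1 - nsq w.1)) := by ring
    _ = _ := by rw [h3, h4]

/-- the reproducing formula with weight `(1-|w|²)^(s-1)` -/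
lemma kernel_id (f : C(CB n, ℂ)) (z : CB n) (hz : nsq z.1 < 1) {s : ℝ} (hs : 0 < s) (hs1 : s < 1) :
    Pc f z * (Ma n s : ℂ) =
      ∫ w, (Pc f w * ((kz z w ^ ((n : ℝ) + s) : ℝ) : ℂ)) * (gs s w : ℂ) ∂(vB n) := by
  have hMi : ∫ w, (gs s w : ℂ) ∂(vB n) = (Ma n s : ℂ) := by
    rw [Ma]
    exact integral_ofReal
  have h1 : Pc f z * (Ma n s : ℂ) = ∫ w, Pc f (T z w) * (gs s w : ℂ) ∂(vB n) := by
    have h2 : ∀ w, Pc f (T z w) = Pc (f.comp (TC z hz)) w := fun w => (Pc_T f z hz w).symm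
    simp only [h2]
    rw [avg_gs hs hs1]
    simp only [avg_Pc]
    rw [integral_const_mul, hMi, Pc_T]
    have h3 : T z (cen n) = z := T_zero z
    rw [h3]
  rw [h1]
  have h4 := cv_CB z hz (fun u => ext0 (Pc f) u *
    ((((1 - nsq z.1) * (1 - nsq u) / ‖1 - ip u z.1‖ ^ 2) ^ (s - 2) : ℝ) : ℂ))
  have h5 : ∀ w : CB n, Pc f (T z w) * (gs s w : ℂ) =
      (fun u => ext0 (Pc f) u *
        ((((1 - nsq z.1) * (1 - nsq u) / ‖1 - ip u z.1‖ ^ 2) ^ (s - 2) : ℝ) : ℂ)) (mob z.1 w.1) *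
        ((1 - nsq w.1 : ℝ) : ℂ) := by
    intro w
    have h6 : ext0 (Pc f) (mob z.1 w.1) = Pc f (T z w) := ext0_val (Pc f) (T z w)
    simp only [h6]
    rw [← gs_change hz hs1 w]
    push_cast
    ring
  simp only [h5]
  rw [h4, ← integral_const_mul]
  congr 1
  funext w
  have h7 : (1 - ip w.1 z.1) ^ (n + 2) * (1 - ip z.1 w.1) ^ (n + 2) =
      (((‖1 - ip w.1 z.1‖ ^ 2) ^ (n + 2) : ℝ) : ℂ) := by
    have h2 : (1 - ip w.1 z.1) * (1 - ip z.1 w.1) = ((‖1 - ip w.1 z.1‖ ^ 2 : ℝ) : ℂ) := by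
      rw [← conj_ip w.1 z.1]
      have : (1 - starRingEnd ℂ (ip w.1 z.1)) = starRingEnd ℂ (1 - ip w.1 z.1) := by simp
      rw [this, Complex.mul_conj, Complex.normSq_eq_norm_sq]
    rw [← mul_pow, h2]
    push_cast
    ring
  have h8 := kz_change hz hs1 w
  have h9 := congrArg (fun x : ℝ => (x : ℂ)) h8
  rw [ext0_val, h7]
  calc ((1 - nsq z.1 : ℝ) : ℂ) ^ (n + 2) * (Pc f w *
        ((((1 - nsq z.1) * (1 - nsq w.1) / ‖1 - ip w.1 z.1‖ ^ 2) ^ (s - 2) : ℝ) : ℂ) /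
        (((‖1 - ip w.1 z.1‖ ^ 2) ^ (n + 2) : ℝ) : ℂ) * ((1 - nsq w.1 : ℝ) : ℂ))
      = Pc f w * ((((1 - nsq z.1) * (1 - nsq w.1) / ‖1 - ip w.1 z.1‖ ^ 2) ^ (s - 2) *
      ((1 - nsq z.1) ^ (n + 2) / (‖1 - ip w.1 z.1‖ ^ 2) ^ (n + 2)) * (1 - nsq w.1) : ℝ) : ℂ) := by
        push_cast
        ring
    _ = _ := by
        rw [h9]
        push_cast
        ring

/-- `w ↦ kz z w ^ (n+s)` as a continuous function -/
noncomputable def KS (z : CB n) (hz : nsq z.1 < 1) (s : ℝ) : C(CB n, ℂ) :=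
  ⟨fun w => ((kz z w ^ ((n : ℝ) + s) : ℝ) : ℂ), Complex.continuous_ofReal.comp
    ((continuous_kz hz).rpow_const fun w => Or.inl (kz_pos hz w).ne')⟩

lemma tendsto_KS (z : CB n) (hz : nsq z.1 < 1) :
    Tendsto (fun s => ‖KS z hz s - KS z hz 0‖) (𝓝[>] 0) (𝓝 0) := by
  have h : Continuous (fun s : ℝ => KS z hz s) := by
    refine ContinuousMap.continuous_of_continuous_uncurry _ ?_
    refine Complex.continuous_ofReal.comp ?_
    refine Continuous.rpow ((continuous_kz hz).comp continuous_snd)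
      (continuous_const.add continuous_fst) fun p => Or.inl (kz_pos hz p.2).ne'
  have h1 : Tendsto (fun s => ‖KS z hz s - KS z hz 0‖) (𝓝 0) (𝓝 ‖KS z hz 0 - KS z hz 0‖) :=
    ((h.sub continuous_const).norm).tendsto 0
  rw [sub_self, norm_zero] at h1
  exact h1.mono_left nhdsWithin_le_nhds

/-- the Poisson kernel form -/
theorem Pc_kernel (f : C(CB n, ℂ)) (z : CB n) (hz : nsq z.1 < 1) :
    Pc f z = ∫ U, ((kz z (col U) ^ n : ℝ) : ℂ) * f (col U) ∂(hU n) := by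
  have h1 := tendsto_mean (Pc f * KS z hz 0)
  have h2 : Tendsto (fun s : ℝ => ((Ma n s)⁻¹ : ℂ) *
      ∫ w, (Pc f * (KS z hz s - KS z hz 0)) w * (gs s w : ℂ) ∂(vB n)) (𝓝[>] 0) (𝓝 0) := by
    have h3 := (tendsto_KS z hz).const_mul ‖Pc f‖
    rw [mul_zero] at h3
    refine squeeze_zero_norm' ?_ h3
    filter_upwards [Ioo_mem_nhdsGT (zero_lt_one : (0 : ℝ) < 1)] with s hs
    have hM := Ma_pos (n := n) hs.1 hs.2
    rw [norm_mul, norm_inv, Complex.norm_real, Real.norm_of_nonneg hM.le]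
    have h4 : ‖∫ w, (Pc f * (KS z hz s - KS z hz 0)) w * (gs s w : ℂ) ∂(vB n)‖ ≤
        ‖Pc f‖ * ‖KS z hz s - KS z hz 0‖ * Ma n s := by
      rw [Ma, ← integral_const_mul]
      refine norm_integral_le_of_norm_le ((integrable_gs hs.1 hs.2).const_mul _)
        (Eventually.of_forall fun w => ?_)
      rw [norm_mul, Complex.norm_real, Real.norm_of_nonneg (gs_nonneg s w)]
      refine mul_le_mul_of_nonneg_right ?_ (gs_nonneg s w)
      exact (bdd _ w).trans (norm_mul_le _ _)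
    calc (Ma n s)⁻¹ * ‖∫ w, (Pc f * (KS z hz s - KS z hz 0)) w * (gs s w : ℂ) ∂(vB n)‖
        ≤ (Ma n s)⁻¹ * (‖Pc f‖ * ‖KS z hz s - KS z hz 0‖ * Ma n s) :=
          mul_le_mul_of_nonneg_left h4 (inv_nonneg.2 hM.le)
      _ = ‖Pc f‖ * ‖KS z hz s - KS z hz 0‖ := by field_simp
  have h3 := h1.add h2
  rw [add_zero] at h3
  have h4 : (fun s : ℝ => ((Ma n s)⁻¹ : ℂ) * (∫ w, (Pc f * KS z hz 0) w * (gs s w : ℂ) ∂(vB n)) +
      ((Ma n s)⁻¹ : ℂ) * ∫ w, (Pc f * (KS z hz s - KS z hz 0)) w * (gs s w : ℂ) ∂(vB n))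
      =ᶠ[𝓝[>] 0] fun _ => Pc f z := by
    filter_upwards [Ioo_mem_nhdsGT (zero_lt_one : (0 : ℝ) < 1)] with s hs
    have hM := Ma_pos (n := n) hs.1 hs.2
    have hMc : (Ma n s : ℂ) ≠ 0 := by exact_mod_cast hM.ne'
    have hgi : Integrable (fun w : CB n => (gs s w : ℂ)) (vB n) := (integrable_gs hs.1 hs.2).ofReal
    have hi : ∀ F : C(CB n, ℂ), Integrable (fun w => F w * (gs s w : ℂ)) (vB n) := fun F =>
      hgi.bdd_mul (c := ‖F‖) F.continuous.aestronglyMeasurable (Eventually.of_forall fun w => bdd F w)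
    rw [← mul_add, ← integral_add (hi _) (hi _)]
    have h5 : ∀ w, (Pc f * KS z hz 0) w * (gs s w : ℂ) +
        (Pc f * (KS z hz s - KS z hz 0)) w * (gs s w : ℂ) =
        (Pc f w * ((kz z w ^ ((n : ℝ) + s) : ℝ) : ℂ)) * (gs s w : ℂ) := by
      intro w
      show Pc f w * KS z hz 0 w * (gs s w : ℂ) +
        Pc f w * (KS z hz s w - KS z hz 0 w) * (gs s w : ℂ) =
        (Pc f w * (KS z hz s w)) * (gs s w : ℂ)
      ring
    simp only [h5]
    rw [← kernel_id f z hz hs.1 hs.2]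
    field_simp
  have h5 : Tendsto (fun _ : ℝ => Pc f z) (𝓝[>] 0)
      (𝓝 (∫ U, (Pc f * KS z hz 0) (col U) ∂(hU n))) := h3.congr' h4
  have h6 := tendsto_nhds_unique h5 tendsto_const_nhds
  rw [← h6]
  congr 1
  funext U
  show Pc f (col U) * ((kz z (col U) ^ ((n : ℝ) + 0) : ℝ) : ℂ) = _
  rw [Pc_sphere f (nsq_col U), add_zero, Real.rpow_natCast, mul_comm]

end Pool.Agent.Ball
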