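import Mathlib

open Cardinal Set

universe u v

namespace Pool.Agent.Helper76.Elastic

noncomputable section

section ClosingOff

variable {J : Type u} (Φ : Finset J → Set J)

/-- One step of the closing-off process. -/
def step (S : Set J) : Set J := S ∪ ⋃ (F : {F : Finset J // (F : Set J) ⊆ S}), Φ F.1

/-- Closure of a set under a set-valued function of its finite subsets. -/
def cl (S : Set J) : Set J := ⋃ n : ℕ, (step Φ)^[n] S

lemma step_mono : Monotone (step Φ) := by
  intro S T h x hx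
  rcases hx with hx | hx
  · exact Or.inl (h hx)
  · right
    obtain ⟨F, hF⟩ := mem_iUnion.mp hx
    exact mem_iUnion.mpr ⟨⟨F.1, F.2.trans h⟩, hF⟩

lemma subset_step (S : Set J) : S ⊆ step Φ S := subset_union_left

lemma iter_mono (S : Set J) : Monotone fun n : ℕ => (step Φ)^[n] S := by
  apply monotone_nat_of_le_succ
  intro n
  rw [Function.iterate_succ_apply']
  exact subset_step Φ _

lemma cl_mono : Monotone (cl Φ) := by
  intro S T h
  apply iUnion_mono
  intro n
  exact (step_mono Φ).iterate n h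

lemma subset_cl (S : Set J) : S ⊆ cl Φ S := fun x hx => mem_iUnion.mpr ⟨0, hx⟩

lemma cl_closed (S : Set J) (F : Finset J) (hF : (F : Set J) ⊆ cl Φ S) : Φ F ⊆ cl Φ S := by
  have h1 : ∀ j ∈ F, ∃ n : ℕ, j ∈ (step Φ)^[n] S := fun j hj => mem_iUnion.mp (hF hj)
  choose! n hn using h1
  have h2 : (F : Set J) ⊆ (step Φ)^[F.sup n] S := by
    intro j hj
    exact iter_mono Φ S (Finset.le_sup hj) (hn j hj)
  intro x hx
  refine mem_iUnion.mpr ⟨F.sup n + 1, ?_⟩
  rw [Function.iterate_succ_apply']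
  exact Or.inr (mem_iUnion.mpr ⟨⟨F, h2⟩, hx⟩)

lemma card_finsets_le {κ : Cardinal.{u}} (hκ : ℵ₀ ≤ κ) {S : Set J} (hS : #S ≤ κ) :
    #{F : Finset J // (F : Set J) ⊆ S} ≤ κ := by
  have h1 : #{F : Finset J // (F : Set J) ⊆ S} ≤ #(List S) := by
    refine mk_le_of_injective (f := fun F => F.1.toList.attach.map
      (fun x => ⟨x.1, F.2 (by simpa using x.2)⟩)) ?_
    intro F G hFG
    apply Subtype.ext
    have h2 := congrArg (List.map (Subtype.val : S → J)) hFG
    simp only [List.map_map] at h2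
    have h3 : ∀ H : {F : Finset J // (F : Set J) ⊆ S},
        List.map ((Subtype.val : S → J) ∘ (fun x : {x // x ∈ H.1.toList} =>
          (⟨x.1, H.2 (by simpa using x.2)⟩ : S))) H.1.toList.attach = H.1.toList := by
      intro H
      conv_rhs => rw [← List.attach_map_subtype_val H.1.toList]
      rfl
    rw [h3, h3] at h2
    classical
    rw [← Finset.toList_toFinset F.1, h2, Finset.toList_toFinset]
  refine h1.trans ((mk_list_le_max _).trans (max_le hκ hS))

lemma card_step_le {κ : Cardinal.{u}} (hκ : ℵ₀ ≤ κ) (hΦ : ∀ F, (Φ F).Countable) {S : Set J}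
    (hS : #S ≤ κ) : #(step Φ S) ≤ κ := by
  refine (mk_union_le _ _).trans (add_le_of_le hκ hS ?_)
  refine (mk_iUnion_le _).trans (mul_le_of_le hκ (card_finsets_le hκ hS) ?_)
  refine ciSup_le' fun F => ?_
  exact (le_aleph0_iff_set_countable.mpr (hΦ F.1)).trans hκ

lemma card_cl_le {κ : Cardinal.{u}} (hκ : ℵ₀ ≤ κ) (hΦ : ∀ F, (Φ F).Countable) {S : Set J}
    (hS : #S ≤ κ) : #(cl Φ S) ≤ κ := by
  have h1 : ∀ n : ℕ, #((step Φ)^[n] S : Set J) ≤ κ := by
    intro n
    induction n with
    | zero => simpa using hS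
    | succ n ih =>
      rw [Function.iterate_succ_apply']
      exact card_step_le Φ hκ hΦ ih
  have h2 : #(cl Φ S) ≤ Cardinal.lift.{u} #ℕ * ⨆ n : ℕ, Cardinal.lift.{0} #((step Φ)^[n] S : Set J) := by
    have := mk_iUnion_le_lift (fun n : ℕ => (step Φ)^[n] S)
    simpa [cl] using this
  refine h2.trans (mul_le_of_le hκ ?_ ?_)
  · simpa using hκ
  · refine ciSup_le' fun n => ?_
    simpa using h1 n

end ClosingOff

end

end Pool.Agent.Helper76.Elastic
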