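import Mathlib

open Cardinal Set

universe u v

namespace Pool.Agent.Helper76.Elastic

noncomputable section

section FA

variable {𝕜 : Type} [RCLike 𝕜]

/-- A functional dominated by a seminorm of the form `‖S ·‖` factors through `S`. -/
lemma exists_factor {E Z : Type*} [AddCommGroup E] [Module 𝕜 E] [NormedAddCommGroup Z]
    [NormedSpace 𝕜 Z] (S : E →ₗ[𝕜] Z) (f : E →ₗ[𝕜] 𝕜) (C : ℝ) (hC : 0 ≤ C)
    (h : ∀ v, ‖f v‖ ≤ C * ‖S v‖) : ∃ g : Z →L[𝕜] 𝕜, (∀ v, g (S v) = f v) ∧ ‖g‖ ≤ C := by
  have hker : LinearMap.ker S ≤ LinearMap.ker f := by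
    intro v hv
    rw [LinearMap.mem_ker] at hv ⊢
    have := h v
    rw [hv, norm_zero, mul_zero] at this
    exact norm_le_zero_iff.mp this
  let f₀ : LinearMap.range S →ₗ[𝕜] 𝕜 :=
    ((LinearMap.ker S).liftQ f hker).comp (S.quotKerEquivRange.symm : _ →ₗ[𝕜] _)
  have hf₀ : ∀ v, f₀ ⟨S v, LinearMap.mem_range_self S v⟩ = f v := by
    intro v
    simp only [f₀, LinearMap.comp_apply, LinearEquiv.coe_coe]
    rw [LinearMap.quotKerEquivRange_symm_apply_image]
    rfl
  have hb : ∀ x : LinearMap.range S, ‖f₀ x‖ ≤ C * ‖x‖ := by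
    rintro ⟨_, v, rfl⟩
    rw [hf₀]
    exact h v
  obtain ⟨g, hg, hgn⟩ := exists_extension_norm_eq (LinearMap.range S) (f₀.mkContinuous C hb)
  refine ⟨g, fun v => ?_, ?_⟩
  · have := hg ⟨S v, LinearMap.mem_range_self S v⟩
    simp only at this
    rw [this]
    exact hf₀ v
  · rw [hgn]
    exact LinearMap.mkContinuous_norm_le _ hC hb

/-- An isometric linear map defined through a dense image extends. -/
lemma exists_isometry {E Z X : Type*} [AddCommGroup E] [Module 𝕜 E] [NormedAddCommGroup Z]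
    [NormedSpace 𝕜 Z] [NormedAddCommGroup X] [NormedSpace 𝕜 X] [CompleteSpace X]
    (S : E →ₗ[𝕜] Z) (hS : DenseRange S) (Θ : E →ₗ[𝕜] X) (h : ∀ v, ‖Θ v‖ = ‖S v‖) :
    ∃ T : Z →ₗᵢ[𝕜] X, ∀ v, T (S v) = Θ v := by
  have hker : LinearMap.ker S ≤ LinearMap.ker Θ := by
    intro v hv
    rw [LinearMap.mem_ker] at hv ⊢
    have := h v
    rw [hv, norm_zero] at this
    exact norm_eq_zero.mp this
  let T₀ : LinearMap.range S →ₗ[𝕜] X :=
    ((LinearMap.ker S).liftQ Θ hker).comp (S.quotKerEquivRange.symm : _ →ₗ[𝕜] _)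
  have hT₀ : ∀ v, T₀ ⟨S v, LinearMap.mem_range_self S v⟩ = Θ v := by
    intro v
    simp only [T₀, LinearMap.comp_apply, LinearEquiv.coe_coe]
    rw [LinearMap.quotKerEquivRange_symm_apply_image]
    rfl
  have hn : ∀ x : LinearMap.range S, ‖T₀ x‖ = ‖x‖ := by
    rintro ⟨_, v, rfl⟩
    rw [hT₀]
    exact h v
  let T₁ : LinearMap.range S →L[𝕜] X := T₀.mkContinuous 1 (fun x => by rw [hn, one_mul])
  have hd : DenseRange (LinearMap.range S).subtypeL := by
    have : Set.range (LinearMap.range S).subtypeL = Set.range S := by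
      ext x; simp
    rw [DenseRange, this]
    exact hS
  have hu : IsUniformInducing (LinearMap.range S).subtypeL :=
    (LinearMap.range S).subtypeₗᵢ.isometry.isUniformInducing
  let T : Z →L[𝕜] X := T₁.extend (LinearMap.range S).subtypeL
  have hT : ∀ x : LinearMap.range S, T x = T₁ x := fun x =>
    ContinuousLinearMap.extend_eq T₁ hd hu x
  have hTn : ∀ z : Z, ‖T z‖ = ‖z‖ := by
    intro z
    refine hd.induction_on (p := fun z => ‖T z‖ = ‖z‖) z ?_ ?_
    · exact isClosed_eq (T.continuous.norm) continuous_norm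
    · intro x
      have h1 : T ((LinearMap.range S).subtypeL x) = T₁ x := hT x
      rw [h1]
      exact hn x
  refine ⟨⟨T.toLinearMap, hTn⟩, fun v => ?_⟩
  have h1 := hT ⟨S v, LinearMap.mem_range_self S v⟩
  exact h1.trans (hT₀ v)

open scoped Classical in
/-- For a family on which every functional is countably supported there is a countable-valued
closing-off function `Φ` such that the coordinate projection onto any `Φ`-closed set of indices is
contractive. -/
lemma exists_closing {J Z : Type*} [NormedAddCommGroup Z] [NormedSpace 𝕜 Z] (m : J → Z)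
    (hm : ∀ f : Z →L[𝕜] 𝕜, {j | f (m j) ≠ 0}.Countable) :
    ∃ Φ : Finset J → Set J, (∀ F, (Φ F).Countable) ∧
      ∀ N : Set J, (∀ F : Finset J, (F : Set J) ⊆ N → Φ F ⊆ N) → ∀ v : J →₀ 𝕜,
        ‖Finsupp.linearCombination 𝕜 m (v.filter (· ∈ N))‖ ≤
          ‖Finsupp.linearCombination 𝕜 m v‖ := by
  have hfun : ∀ z : Z, ∃ g : Z →L[𝕜] 𝕜, ‖g‖ ≤ 1 ∧ g z = ‖z‖ := fun z =>
    exists_dual_vector'' 𝕜 z
  choose g hg1 hg2 using hfun
  have hsep : ∀ F : Finset J, ∃ d : Set (Submodule.span 𝕜 (m '' F)), d.Countable ∧ Dense d := by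
    intro F
    have : FiniteDimensional 𝕜 (Submodule.span 𝕜 (m '' (F : Set J))) :=
      FiniteDimensional.span_of_finite 𝕜 (F.finite_toSet.image m)
    have : ProperSpace (Submodule.span 𝕜 (m '' (F : Set J))) := FiniteDimensional.proper 𝕜 _
    exact TopologicalSpace.exists_countable_dense _
  choose d hd1 hd2 using hsep
  refine ⟨fun F => ⋃ x ∈ d F, {j | g (x : Z) (m j) ≠ 0}, fun F => ?_, ?_⟩
  · exact (hd1 F).biUnion fun x _ => hm _
  · intro N hN v
    set x := Finsupp.linearCombination 𝕜 m (v.filter (· ∈ N)) with hx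
    set y := Finsupp.linearCombination 𝕜 m v with hy
    set F := (v.filter (· ∈ N)).support with hF
    have hFN : (F : Set J) ⊆ N := by
      intro j hj
      have : j ∈ F := hj
      rw [hF, Finsupp.support_filter, Finset.mem_filter] at this
      exact this.2
    have hxF : x ∈ Submodule.span 𝕜 (m '' (F : Set J)) := by
      rw [hx, Finsupp.linearCombination_apply, Finsupp.sum]
      exact Submodule.sum_mem _ fun j hj => Submodule.smul_mem _ _
        (Submodule.subset_span ⟨j, hj, rfl⟩)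
    have key : ∀ e ∈ d F, ‖x‖ ≤ ‖y‖ + 2 * ‖x - (e : Z)‖ := by
      intro e he
      have hxy : g (e : Z) x = g (e : Z) y := by
        have h1 : y = x + Finsupp.linearCombination 𝕜 m (v.filter (fun j => ¬ (j ∈ N))) := by
          rw [hx, hy, ← map_add, Finsupp.filter_add_filter_not]
        rw [h1, map_add, left_eq_add, Finsupp.linearCombination_apply, Finsupp.sum, map_sum]
        refine Finset.sum_eq_zero fun j hj => ?_
        rw [Finsupp.support_filter, Finset.mem_filter] at hj
        rw [map_smul]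
        by_contra hne
        have hne' : g (e : Z) (m j) ≠ 0 := fun h0 => hne (by rw [h0, smul_zero])
        exact hj.2 (hN F hFN (mem_iUnion₂.mpr ⟨e, he, hne'⟩))
      have h2 : ‖g (e : Z) y‖ ≤ ‖y‖ := by
        refine ((g (e : Z)).le_opNorm y).trans ?_
        nlinarith [hg1 (e : Z), norm_nonneg y]
      have h3 : ‖(e : Z)‖ ≤ ‖g (e : Z) x‖ + ‖x - (e : Z)‖ := by
        have h4 : (g (e : Z) (e : Z)) = g (e : Z) x - g (e : Z) (x - (e : Z)) := by
          rw [map_sub]; ring
        have h5 : ‖(e : Z)‖ = ‖g (e : Z) (e : Z)‖ := by rw [hg2]; simp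
        rw [h5, h4]
        refine (norm_sub_le _ _).trans ?_
        have := (g (e : Z)).le_opNorm (x - (e : Z))
        have h6 : ‖g (e : Z)‖ * ‖x - (e : Z)‖ ≤ ‖x - (e : Z)‖ := by
          nlinarith [hg1 (e : Z), norm_nonneg (x - (e : Z))]
        linarith
      have h7 : ‖x‖ ≤ ‖(e : Z)‖ + ‖x - (e : Z)‖ := by
        have : x = (e : Z) + (x - (e : Z)) := by abel
        calc ‖x‖ = ‖(e : Z) + (x - (e : Z))‖ := by rw [← this]
          _ ≤ _ := norm_add_le _ _
      rw [hxy] at h3
      linarith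
    refine le_of_forall_pos_le_add fun ε hε => ?_
    have hden := hd2 F
    rw [Metric.dense_iff] at hden
    obtain ⟨e, he1, he2⟩ := hden ⟨x, hxF⟩ (ε / 2) (half_pos hε)
    have h8 := key e he2
    have h9 : ‖x - (e : Z)‖ < ε / 2 := by
      rw [Metric.mem_ball, dist_comm, dist_eq_norm] at he1
      exact he1
    linarith

end FA

end

end Pool.Agent.Helper76.Elastic
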