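import Mathlib

open Cardinal Set

universe u v

namespace Pool.Agent.Helper76.Elastic

noncomputable section

section Tree

open scoped Classical

variable (𝕜 : Type) [RCLike 𝕜] (B : ℕ → Type u)

/-- The finitely supported scalar functions on `Σ n, B n`. -/
abbrev V : Type u := (Σ n, B n) →₀ 𝕜

/-- The coordinate projection onto the levels `≤ n`. -/
def P (n : ℕ) : V 𝕜 B →ₗ[𝕜] V 𝕜 B where
  toFun v := v.filter (fun i => i.1 ≤ n)
  map_add' _ _ := Finsupp.filter_add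
  map_smul' _ _ := Finsupp.filter_smul

lemma P_apply (n : ℕ) (v : V 𝕜 B) (i : Σ n, B n) : P 𝕜 B n v i = if i.1 ≤ n then v i else 0 :=
  Finsupp.filter_apply _ _ _

lemma P_P (n m : ℕ) (v : V 𝕜 B) : P 𝕜 B n (P 𝕜 B m v) = P 𝕜 B (min n m) v := by
  ext i
  simp only [P_apply, le_min_iff]
  by_cases h1 : i.1 ≤ n <;> by_cases h2 : i.1 ≤ m <;> simp [h1, h2]

lemma P_comp (n m : ℕ) : (P 𝕜 B n).comp (P 𝕜 B m) = P 𝕜 B (min n m) :=
  LinearMap.ext fun v => P_P 𝕜 B n m v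

lemma P_single (i : Σ n, B n) (c : 𝕜) {n : ℕ} (h : i.1 ≤ n) :
    P 𝕜 B n (Finsupp.single i c) = Finsupp.single i c := by
  ext j
  rw [P_apply]
  by_cases hj : j = i
  · subst hj; simp [h]
  · rw [Finsupp.single_eq_of_ne hj]; simp

lemma exists_P_eq (v : V 𝕜 B) : ∃ n, ∀ m, n ≤ m → P 𝕜 B m v = v := by
  refine ⟨v.support.sup (fun i => i.1), fun m hm => ?_⟩
  ext i
  rw [P_apply]
  by_cases hi : v i = 0
  · simp [hi]
  · have : i ∈ v.support := Finsupp.mem_support_iff.mpr hi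
    have h2 : i.1 ≤ v.support.sup (fun i => i.1) :=
      Finset.le_sup (f := fun i : (Σ n, B n) => i.1) this
    rw [if_pos (h2.trans hm)]

/-- The seminorms occurring as labels of the tree: the coordinate projections are contractive and
every bounded functional is countably supported. -/
structure IsNode (p : Seminorm 𝕜 (V 𝕜 B)) : Prop where
  proj_le : ∀ n v, p (P 𝕜 B n v) ≤ p v
  countable : ∀ f : V 𝕜 B →ₗ[𝕜] 𝕜, (∃ C, 0 ≤ C ∧ ∀ v, ‖f v‖ ≤ C * p v) →
    {i | f (Finsupp.single i 1) ≠ 0}.Countable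

variable {𝕜 B}

lemma IsNode.rest {p : Seminorm 𝕜 (V 𝕜 B)} (hp : IsNode 𝕜 B p) (n : ℕ) :
    IsNode 𝕜 B (p.comp (P 𝕜 B n)) := by
  constructor
  · intro m v
    simp only [Seminorm.comp_apply]
    rw [P_P, min_comm, ← P_P]
    exact hp.proj_le m _
  · rintro f ⟨C, hC, hf⟩
    refine hp.countable f ⟨C, hC, fun v => (hf v).trans ?_⟩
    exact mul_le_mul_of_nonneg_left (hp.proj_le n v) hC

lemma comp_comp_P (p : Seminorm 𝕜 (V 𝕜 B)) (n : ℕ) :
    (p.comp (P 𝕜 B n)).comp (P 𝕜 B n) = p.comp (P 𝕜 B n) := by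
  ext v
  simp only [Seminorm.comp_apply, P_P, min_self]

variable (𝕜 B)

/-- The index set: pairs of a node of the tree at level `i.1` and an index `i`. -/
structure J : Type u where
  /-- the node -/
  p : Seminorm 𝕜 (V 𝕜 B)
  /-- the index -/
  i : Σ n, B n
  node : IsNode 𝕜 B p
  comp_eq : p.comp (P 𝕜 B i.1) = p

/-- The vector space underlying the universal space. -/
abbrev W : Type u := J 𝕜 B →₀ 𝕜

/-- Restriction of a vector of `W` to the branch of the tree described by the seminorm `p`. -/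
def R (p : Seminorm 𝕜 (V 𝕜 B)) : W 𝕜 B →ₗ[𝕜] V 𝕜 B :=
  Finsupp.linearCombination 𝕜 fun j : J 𝕜 B =>
    if j.p = p.comp (P 𝕜 B j.i.1) then Finsupp.single j.i (1 : 𝕜) else 0

variable {𝕜 B}

lemma R_single (p : Seminorm 𝕜 (V 𝕜 B)) (j : J 𝕜 B) :
    R 𝕜 B p (Finsupp.single j 1) =
      if j.p = p.comp (P 𝕜 B j.i.1) then Finsupp.single j.i (1 : 𝕜) else 0 := by
  simp [R]

lemma apply_branch_le (p : Seminorm 𝕜 (V 𝕜 B)) (j : J 𝕜 B) :
    p (if j.p = p.comp (P 𝕜 B j.i.1) then Finsupp.single j.i (1 : 𝕜) else 0) ≤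
      j.p (Finsupp.single j.i 1) := by
  split_ifs with h
  · conv_rhs => rw [h]
    rw [Seminorm.comp_apply, P_single _ _ _ _ le_rfl]
  · rw [map_zero]; exact apply_nonneg _ _

lemma apply_R_le (p : Seminorm 𝕜 (V 𝕜 B)) (w : W 𝕜 B) :
    p (R 𝕜 B p w) ≤ ∑ j ∈ w.support, ‖w j‖ * j.p (Finsupp.single j.i 1) := by
  rw [R, Finsupp.linearCombination_apply, Finsupp.sum]
  refine (Finset.le_sum_of_subadditive p (map_zero p).le (map_add_le_add p) _ _).trans
    (Finset.sum_le_sum fun j _ => ?_)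
  rw [map_smul_eq_mul]
  exact mul_le_mul_of_nonneg_left (apply_branch_le p j) (norm_nonneg _)

instance : Nonempty {p : Seminorm 𝕜 (V 𝕜 B) // IsNode 𝕜 B p} := by
  refine ⟨⟨0, fun n v => le_rfl, ?_⟩⟩
  rintro f ⟨C, -, hf⟩
  have : {i | f (Finsupp.single i 1) ≠ 0} = ∅ := by
    ext i
    simp only [mem_ofPred_eq, mem_empty_iff_false, iff_false, not_not]
    have := hf (Finsupp.single i 1)
    simpa using this
  rw [this]
  exact countable_empty

lemma bdd (w : W 𝕜 B) : BddAbove (range fun p : {p : Seminorm 𝕜 (V 𝕜 B) // IsNode 𝕜 B p} =>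
    p.1 (R 𝕜 B p.1 w)) := by
  refine ⟨∑ j ∈ w.support, ‖w j‖ * j.p (Finsupp.single j.i 1), ?_⟩
  rintro _ ⟨p, rfl⟩
  exact apply_R_le p.1 w

variable (𝕜 B)

/-- The seminorm of the universal space. -/
def q : Seminorm 𝕜 (W 𝕜 B) :=
  Seminorm.of (fun w => ⨆ p : {p : Seminorm 𝕜 (V 𝕜 B) // IsNode 𝕜 B p}, p.1 (R 𝕜 B p.1 w))
    (by
      intro w w'
      refine ciSup_le fun p => ?_
      rw [map_add]
      refine (map_add_le_add p.1 _ _).trans ?_
      exact add_le_add (le_ciSup (bdd w) p) (le_ciSup (bdd w') p))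
    (by
      intro c w
      rw [Real.mul_iSup_of_nonneg (norm_nonneg c)]
      congr 1
      funext p
      rw [map_smul, map_smul_eq_mul])

variable {𝕜 B}

lemma q_apply (w : W 𝕜 B) :
    q 𝕜 B w = ⨆ p : {p : Seminorm 𝕜 (V 𝕜 B) // IsNode 𝕜 B p}, p.1 (R 𝕜 B p.1 w) := rfl

lemma le_q {p : Seminorm 𝕜 (V 𝕜 B)} (hp : IsNode 𝕜 B p) (w : W 𝕜 B) :
    p (R 𝕜 B p w) ≤ q 𝕜 B w := le_ciSup (bdd w) ⟨p, hp⟩

lemma q_le {w : W 𝕜 B} {C : ℝ} (h : ∀ p : Seminorm 𝕜 (V 𝕜 B), IsNode 𝕜 B p → p (R 𝕜 B p w) ≤ C) :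
    q 𝕜 B w ≤ C := ciSup_le fun p => h p.1 p.2

lemma q_single (j : J 𝕜 B) :
    q 𝕜 B (Finsupp.single j 1) ≤ j.p (Finsupp.single j.i 1) := by
  refine q_le fun p _ => ?_
  rw [R_single]
  exact apply_branch_le p j

/-- The index of `J` lying over `i` on the branch `p`. -/
def jOf {p : Seminorm 𝕜 (V 𝕜 B)} (hp : IsNode 𝕜 B p) (i : Σ n, B n) : J 𝕜 B :=
  ⟨p.comp (P 𝕜 B i.1), i, hp.rest i.1, comp_comp_P p i.1⟩

/-- The embedding of the branch `p` into `W`. -/
def E {p : Seminorm 𝕜 (V 𝕜 B)} (hp : IsNode 𝕜 B p) : V 𝕜 B →ₗ[𝕜] W 𝕜 B :=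
  Finsupp.linearCombination 𝕜 fun i => Finsupp.single (jOf hp i) (1 : 𝕜)

lemma E_single {p : Seminorm 𝕜 (V 𝕜 B)} (hp : IsNode 𝕜 B p) (i : Σ n, B n) :
    E hp (Finsupp.single i 1) = Finsupp.single (jOf hp i) 1 := by
  simp [E]

lemma R_E {p p' : Seminorm 𝕜 (V 𝕜 B)} (hp : IsNode 𝕜 B p) (v : V 𝕜 B) :
    R 𝕜 B p' (E hp v) = v.filter (fun i => p.comp (P 𝕜 B i.1) = p'.comp (P 𝕜 B i.1)) := by
  have h : (R 𝕜 B p').comp (E hp) =
      { toFun := fun v : V 𝕜 B => v.filter (fun i => p.comp (P 𝕜 B i.1) = p'.comp (P 𝕜 B i.1))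
        map_add' := fun _ _ => Finsupp.filter_add
        map_smul' := fun _ _ => Finsupp.filter_smul } := by
    refine Finsupp.lhom_ext' fun i => LinearMap.ext_ring ?_
    simp only [LinearMap.comp_apply, Finsupp.lsingle_apply, LinearMap.coe_mk, AddHom.coe_mk]
    rw [E_single, R_single]
    by_cases h1 : p.comp (P 𝕜 B i.1) = p'.comp (P 𝕜 B i.1)
    · rw [if_pos (show (jOf hp i).p = p'.comp (P 𝕜 B (jOf hp i).i.1) from h1)]
      exact (Finsupp.filter_single_of_pos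
        (fun i : (Σ n, B n) => p.comp (P 𝕜 B i.1) = p'.comp (P 𝕜 B i.1)) h1).symm
    · rw [if_neg (show ¬ (jOf hp i).p = p'.comp (P 𝕜 B (jOf hp i).i.1) from h1)]
      exact (Finsupp.filter_single_of_neg
        (fun i : (Σ n, B n) => p.comp (P 𝕜 B i.1) = p'.comp (P 𝕜 B i.1)) h1).symm
  exact LinearMap.congr_fun h v

lemma q_E {p : Seminorm 𝕜 (V 𝕜 B)} (hp : IsNode 𝕜 B p) (v : V 𝕜 B) : q 𝕜 B (E hp v) = p v := by
  apply le_antisymm
  · refine q_le fun p' hp' => ?_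
    rw [R_E hp v]
    obtain ⟨K, hK⟩ := exists_P_eq 𝕜 B v
    -- the levels at which the two branches agree
    have hdown : ∀ k l, l ≤ k → p.comp (P 𝕜 B k) = p'.comp (P 𝕜 B k) →
        p.comp (P 𝕜 B l) = p'.comp (P 𝕜 B l) := by
      intro k l hlk h
      have h1 := congrArg (fun s : Seminorm 𝕜 (V 𝕜 B) => s.comp (P 𝕜 B l)) h
      ext v
      have h2 := congrArg (fun s : Seminorm 𝕜 (V 𝕜 B) => s v) h1
      simpa only [Seminorm.comp_apply, P_P, min_eq_right hlk] using h2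
    set D : Finset ℕ := (Finset.range (K + 1)).filter
      (fun k => p.comp (P 𝕜 B k) = p'.comp (P 𝕜 B k)) with hD
    have hvK : ∀ i, v i ≠ 0 → i.1 ≤ K := by
      intro i hi
      by_contra hcon
      have h1 := congrArg (fun w : V 𝕜 B => w i) (hK K le_rfl)
      simp only [P_apply, if_neg hcon] at h1
      exact hi h1.symm
    by_cases hne : D.Nonempty
    · set m := D.max' hne with hm
      have hmD : m ∈ D := D.max'_mem hne
      have hmeq : p.comp (P 𝕜 B m) = p'.comp (P 𝕜 B m) := (Finset.mem_filter.mp hmD).2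
      have hfil : v.filter (fun i => p.comp (P 𝕜 B i.1) = p'.comp (P 𝕜 B i.1)) = P 𝕜 B m v := by
        ext i
        rw [P_apply, Finsupp.filter_apply]
        by_cases hi : v i = 0
        · simp [hi]
        · have hiK := hvK i hi
          by_cases him : i.1 ≤ m
          · rw [if_pos him, if_pos (hdown m i.1 him hmeq)]
          · rw [if_neg him, if_neg]
            intro hcon
            exact him (D.le_max' _ (Finset.mem_filter.mpr
              ⟨Finset.mem_range.mpr (Nat.lt_succ_of_le hiK), hcon⟩))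
      rw [hfil]
      have h1 := congrArg (fun s : Seminorm 𝕜 (V 𝕜 B) => s v) hmeq
      simp only [Seminorm.comp_apply] at h1
      rw [← h1]
      exact hp.proj_le m v
    · have hfil : v.filter (fun i => p.comp (P 𝕜 B i.1) = p'.comp (P 𝕜 B i.1)) = 0 := by
        ext i
        rw [Finsupp.filter_apply]
        by_cases hi : v i = 0
        · simp [hi]
        · rw [if_neg, Finsupp.zero_apply]
          intro hcon
          exact hne ⟨i.1, Finset.mem_filter.mpr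
            ⟨Finset.mem_range.mpr (Nat.lt_succ_of_le (hvK i hi)), hcon⟩⟩
      rw [hfil, map_zero]
      exact apply_nonneg _ _
  · have h := le_q hp (E hp v)
    rwa [R_E, Finsupp.filter_eq_self_iff _ _ |>.mpr (fun _ _ => rfl)] at h

end Tree

end

end Pool.Agent.Helper76.Elastic
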