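import Mathlib
import Pool.Agent.Helper76.Elastic1
import Pool.Agent.Helper76.Elastic2
import Pool.Agent.Helper76.Elastic3

open Cardinal Set

universe u v

namespace Pool.Agent.Helper76.Elastic

noncomputable section

section Universal

open scoped Classical

variable {𝕜 : Type} [RCLike 𝕜] {B : ℕ → Type u}

/-- A family with countably supported functionals, indexed compatibly with the levels, embeds in
the universal seminormed space. -/
theorem exists_embed {J' Z : Type*} [NormedAddCommGroup Z] [NormedSpace 𝕜 Z] (m : J' → Z)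
    (hm : ∀ f : Z →L[𝕜] 𝕜, {j | f (m j) ≠ 0}.Countable) (ι : J' → Σ n, B n)
    (hι : Function.Injective ι)
    (hproj : ∀ (n : ℕ) (w : J' →₀ 𝕜),
      ‖Finsupp.linearCombination 𝕜 m (w.filter (fun j => (ι j).1 ≤ n))‖ ≤
        ‖Finsupp.linearCombination 𝕜 m w‖) :
    ∃ Θ : (J' →₀ 𝕜) →ₗ[𝕜] W 𝕜 B,
      ∀ w, q 𝕜 B (Θ w) = ‖Finsupp.linearCombination 𝕜 m w‖ := by
  let S : V 𝕜 B →ₗ[𝕜] Z :=
    (Finsupp.linearCombination 𝕜 m).comp (Finsupp.lcomapDomain ι hι)
  let p : Seminorm 𝕜 (V 𝕜 B) := (normSeminorm 𝕜 Z).comp S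
  have hp_apply : ∀ v, p v = ‖S v‖ := fun v => rfl
  have hp : IsNode 𝕜 B p := by
    constructor
    · intro n v
      rw [hp_apply, hp_apply]
      have : Finsupp.lcomapDomain (R := 𝕜) ι hι (P 𝕜 B n v) =
          (Finsupp.lcomapDomain (R := 𝕜) ι hι v).filter (fun j => (ι j).1 ≤ n) := by
        ext j
        rw [Finsupp.lcomapDomain_apply, Finsupp.comapDomain_apply, P_apply, Finsupp.filter_apply,
          Finsupp.lcomapDomain_apply, Finsupp.comapDomain_apply]
      simp only [S, LinearMap.comp_apply]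
      rw [this]
      exact hproj n _
    · rintro f ⟨C, hC, hf⟩
      obtain ⟨g, hg, -⟩ := exists_factor S f C hC (fun v => by simpa [hp_apply] using hf v)
      refine ((hm g).image ι).mono ?_
      intro i hi
      have hi' : f (Finsupp.single i 1) ≠ 0 := hi
      rw [← hg] at hi'
      by_cases h : ∃ j, ι j = i
      · obtain ⟨j, rfl⟩ := h
        refine ⟨j, ?_, rfl⟩
        have : S (Finsupp.single (ι j) 1) = m j := by
          simp only [S, LinearMap.comp_apply, Finsupp.lcomapDomain_apply]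
          rw [Finsupp.comapDomain_single]
          simp
        rwa [this] at hi'
      · exfalso
        apply hi'
        have : S (Finsupp.single i 1) = 0 := by
          simp only [S, LinearMap.comp_apply]
          have h0 : Finsupp.lcomapDomain (R := 𝕜) ι hι (Finsupp.single i (1 : 𝕜)) = 0 := by
            ext j
            rw [Finsupp.lcomapDomain_apply, Finsupp.comapDomain_apply]
            rw [Finsupp.single_eq_of_ne (fun hj => h ⟨j, hj⟩)]
            rfl
          rw [h0, map_zero]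
        rw [this, map_zero]
  refine ⟨(E hp).comp (Finsupp.lmapDomain 𝕜 𝕜 ι), fun w => ?_⟩
  rw [LinearMap.comp_apply, q_E, hp_apply]
  have h1 : Finsupp.lcomapDomain (R := 𝕜) ι hι (Finsupp.mapDomain ι w) = w :=
    Finsupp.leftInverse_lcomapDomain_mapDomain (R := 𝕜) (M := 𝕜) ι hι w
  simp only [S, LinearMap.comp_apply, Finsupp.lmapDomain_apply]
  rw [h1]

/-- Assigning levels: a type exhausted by an increasing sequence of small sets embeds in
`Σ n, B n` so that the sets of elements of level `≤ n` are closed under `Φ`. -/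
theorem exists_levels {J' : Type u} (Φ : Finset J' → Set J') (hΦ : ∀ F, (Φ F).Countable)
    (L : ℕ → Set J') (hL : Monotone L) (hcov : ∀ j, ∃ n, j ∈ L n)
    (hB : ∀ n, ℵ₀ ≤ #(B n)) (hcard : ∀ n, #(L n) ≤ #(B n)) :
    ∃ ι : J' → Σ n, B n, Function.Injective ι ∧
      ∀ (n : ℕ) (F : Finset J'), (F : Set J') ⊆ {j | (ι j).1 ≤ n} → Φ F ⊆ {j | (ι j).1 ≤ n} := by
  have hmem : ∀ j, ∃ n, j ∈ cl Φ (L n) := fun j => by
    obtain ⟨n, hn⟩ := hcov j
    exact ⟨n, subset_cl Φ _ hn⟩
  let lev : J' → ℕ := fun j => Nat.find (hmem j)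
  have hlev : ∀ j n, lev j ≤ n ↔ j ∈ cl Φ (L n) := by
    intro j n
    constructor
    · intro h
      exact cl_mono Φ (hL h) (Nat.find_spec (hmem j))
    · intro h
      exact Nat.find_min' (hmem j) h
  have hinj : ∀ n, ∃ g : cl Φ (L n) → B n, Function.Injective g := by
    intro n
    have := card_cl_le Φ (hB n) hΦ (hcard n)
    exact ⟨(Cardinal.le_def _ _ |>.mp this).some, (Cardinal.le_def _ _ |>.mp this).some.injective⟩
  choose g hg using hinj
  refine ⟨fun j => ⟨lev j, g (lev j) ⟨j, (hlev j _).mp le_rfl⟩⟩, ?_, ?_⟩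
  · intro j k hjk
    simp only [Sigma.mk.injEq] at hjk
    obtain ⟨h1, h2⟩ := hjk
    have h3 : ∀ (a b : ℕ) (hab : a = b) (ha : j ∈ cl Φ (L a)) (hb : k ∈ cl Φ (L b)),
        HEq (g a ⟨j, ha⟩) (g b ⟨k, hb⟩) → j = k := by
      rintro a _ rfl ha hb h
      have := hg a (eq_of_heq h)
      exact congrArg Subtype.val this
    exact h3 _ _ h1 _ _ h2
  · intro n F hF
    have : {j : J' | lev j ≤ n} = cl Φ (L n) := by
      ext j; exact hlev j n
    change (F : Set J') ⊆ {j : J' | lev j ≤ n} at hF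
    change Φ F ⊆ {j : J' | lev j ≤ n}
    rw [this] at hF ⊢
    exact cl_closed Φ _ F hF

end Universal

end

end Pool.Agent.Helper76.Elastic
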