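import Mathlib
import Pool.Agent.Helper76.Elastic4

open Cardinal Set

universe u v

namespace Pool.Agent.Helper76.Elastic

noncomputable section

section Support

open scoped Classical

variable {𝕜 : Type} [RCLike 𝕜] {B : ℕ → Type u}

/-- Only countably many nodes of a given level are seen by a bounded functional. -/
lemma countable_level (g : W 𝕜 B →ₗ[𝕜] 𝕜) (C : ℝ) (hg : ∀ w, ‖g w‖ ≤ C * q 𝕜 B w)
    (k : ℕ) : {p' : Seminorm 𝕜 (V 𝕜 B) | ∃ j : J 𝕜 B, j.p = p' ∧ j.i.1 = k ∧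
      g (Finsupp.single j 1) ≠ 0}.Countable := by
  set T := {p' : Seminorm 𝕜 (V 𝕜 B) | ∃ j : J 𝕜 B, j.p = p' ∧ j.i.1 = k ∧
      g (Finsupp.single j 1) ≠ 0} with hT
  choose jj h1 h2 h3 using fun p : T => p.2
  set d : T → ℝ := fun p => p.1 (Finsupp.single (jj p).i 1) with hd
  have hC0 : ∀ p : T, 0 < ‖g (Finsupp.single (jj p) 1)‖ := fun p => norm_pos_iff.mpr (h3 p)
  have hdle : ∀ p : T, ‖g (Finsupp.single (jj p) 1)‖ ≤ C * q 𝕜 B (Finsupp.single (jj p) 1) :=
    fun p => hg _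
  have hq : ∀ p : T, q 𝕜 B (Finsupp.single (jj p) 1) ≤ d p := fun p => by
    have := q_single (jj p)
    rwa [h1 p] at this
  have hqnn : ∀ w, 0 ≤ q 𝕜 B w := fun w => apply_nonneg _ _
  have hd0 : ∀ p, 0 < d p := by
    intro p
    rcases (apply_nonneg p.1 (Finsupp.single (jj p).i 1)).lt_or_eq with h | h
    · exact h
    · exfalso
      have h4 : q 𝕜 B (Finsupp.single (jj p) 1) = 0 :=
        le_antisymm ((hq p).trans h.symm.le) (hqnn _)
      have h5 := hdle p
      rw [h4, mul_zero] at h5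
      exact absurd (hC0 p) (not_lt.mpr h5)
  set z : T → 𝕜 := fun p => g (Finsupp.single (jj p) 1) with hz
  set c : T → 𝕜 := fun p => ((‖z p‖ : ℝ) : 𝕜) / z p / ((d p : ℝ) : 𝕜) with hc
  have hcn : ∀ p, ‖c p‖ = 1 / d p := by
    intro p
    have h4 : ‖z p‖ ≠ 0 := (hC0 p).ne'
    simp only [hc, norm_div, RCLike.norm_ofReal, abs_norm, abs_of_pos (hd0 p)]
    rw [div_self h4]
  have hcz : ∀ p, c p * z p = ((‖z p‖ / d p : ℝ) : 𝕜) := by
    intro p
    have h4 : z p ≠ 0 := h3 p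
    have h5 : ((d p : ℝ) : 𝕜) ≠ 0 := by
      rw [Ne, RCLike.ofReal_eq_zero]; exact (hd0 p).ne'
    simp only [hc]
    push_cast
    field_simp
  have hsum : ∀ F : Finset T, ∑ p ∈ F, ‖z p‖ / d p ≤ |C| := by
    intro F
    set w : W 𝕜 B := ∑ p ∈ F, c p • Finsupp.single (jj p) (1 : 𝕜) with hw
    have hgw : g w = ((∑ p ∈ F, ‖z p‖ / d p : ℝ) : 𝕜) := by
      rw [hw, map_sum]
      push_cast
      refine Finset.sum_congr rfl fun p _ => ?_
      rw [map_smul, smul_eq_mul]
      have := hcz p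
      push_cast at this
      exact this
    have hqw : q 𝕜 B w ≤ 1 := by
      refine q_le fun r hr => ?_
      have h6 : r (R 𝕜 B r w) ≤ ∑ p ∈ F, (if p.1 = r.comp (P 𝕜 B k) then (1 : ℝ) else 0) := by
        rw [hw, map_sum]
        refine (Finset.le_sum_of_subadditive r (map_zero r).le (map_add_le_add r) _ _).trans
          (Finset.sum_le_sum fun p _ => ?_)
        rw [map_smul, map_smul_eq_mul, hcn, R_single, h1, h2]
        split_ifs with h
        · have h7 : r (Finsupp.single (jj p).i 1) = d p := by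
            have h8 : d p = r.comp (P 𝕜 B k) (Finsupp.single (jj p).i 1) := by
              rw [← h]
            rw [h8, Seminorm.comp_apply, P_single _ _ _ _ (h2 p).le]
          rw [h7, one_div, inv_mul_cancel₀ (hd0 p).ne']
        · rw [map_zero, mul_zero]
      refine h6.trans ?_
      rw [Finset.sum_boole]
      have : (F.filter (fun p : T => p.1 = r.comp (P 𝕜 B k))).card ≤ 1 := by
        rw [Finset.card_le_one]
        intro a ha b hb
        rw [Finset.mem_filter] at ha hb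
        exact Subtype.ext (ha.2.trans hb.2.symm)
      exact_mod_cast this
    have h9 : ‖g w‖ = ∑ p ∈ F, ‖z p‖ / d p := by
      rw [hgw, RCLike.norm_ofReal, abs_of_nonneg]
      exact Finset.sum_nonneg fun p _ => div_nonneg (norm_nonneg _) (hd0 p).le
    rw [← h9]
    refine (hg w).trans ?_
    calc C * q 𝕜 B w ≤ |C| * q 𝕜 B w := mul_le_mul_of_nonneg_right (le_abs_self C) (hqnn w)
      _ ≤ |C| * 1 := mul_le_mul_of_nonneg_left hqw (abs_nonneg C)
      _ = |C| := mul_one _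
  have hs : Summable fun p : T => ‖z p‖ / d p :=
    summable_of_sum_le (fun p => div_nonneg (norm_nonneg _) (hd0 p).le) hsum
  have hcs := hs.countable_support
  have hsup : Function.support (fun p : T => ‖z p‖ / d p) = Set.univ := by
    ext p
    simp only [Function.mem_support, mem_univ, iff_true]
    exact (div_pos (hC0 p) (hd0 p)).ne'
  rw [hsup, countable_univ_iff] at hcs
  exact hcs

/-- A bounded functional on the universal seminormed space is countably supported. -/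
theorem countable_support_W (g : W 𝕜 B →ₗ[𝕜] 𝕜) (C : ℝ) (hC : 0 ≤ C)
    (hg : ∀ w, ‖g w‖ ≤ C * q 𝕜 B w) :
    {j : J 𝕜 B | g (Finsupp.single j 1) ≠ 0}.Countable := by
  have h1 : {j : J 𝕜 B | g (Finsupp.single j 1) ≠ 0} ⊆ ⋃ k : ℕ,
      ⋃ p' ∈ {p' : Seminorm 𝕜 (V 𝕜 B) | ∃ j : J 𝕜 B, j.p = p' ∧ j.i.1 = k ∧
        g (Finsupp.single j 1) ≠ 0},
        {j : J 𝕜 B | j.p = p' ∧ j.i.1 = k ∧ g (Finsupp.single j 1) ≠ 0} := by
    intro j hj
    refine mem_iUnion.mpr ⟨j.i.1, mem_iUnion₂.mpr ⟨j.p, ⟨j, rfl, rfl, hj⟩, rfl, rfl, hj⟩⟩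
  refine (countable_iUnion fun k => (countable_level g C hg k).biUnion ?_).mono h1
  rintro p' ⟨j₀, hj₀, -, -⟩
  have hp' : IsNode 𝕜 B p' := hj₀ ▸ j₀.node
  have h2 : {i | (g.comp (E hp')) (Finsupp.single i 1) ≠ 0}.Countable := by
    refine hp'.countable _ ⟨C, hC, fun v => ?_⟩
    rw [LinearMap.comp_apply, ← q_E hp' v]
    exact hg _
  refine (h2.image (jOf hp')).mono ?_
  rintro j ⟨hj1, hj2, hj3⟩
  have h3 : jOf hp' j.i = j := by
    rcases j with ⟨p, i, hp, hpi⟩
    simp only at hj1 hj2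
    subst hj1
    simp only [jOf, J.mk.injEq, and_true]
    exact hpi
  refine ⟨j.i, ?_, h3⟩
  simp only [mem_ofPred_eq, LinearMap.comp_apply]
  rw [E_single, h3]
  exact hj3

variable (𝕜 B)

/-- The space `W` with the seminorm `q`. -/
def WX : Type u := W 𝕜 B

instance : AddCommGroup (WX 𝕜 B) := inferInstanceAs (AddCommGroup (W 𝕜 B))

instance : Module 𝕜 (WX 𝕜 B) := inferInstanceAs (Module 𝕜 (W 𝕜 B))

instance : SeminormedAddCommGroup (WX 𝕜 B) :=
  (show AddGroupSeminorm (WX 𝕜 B) from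
    (q 𝕜 B).toAddGroupSeminorm).toSeminormedAddCommGroup

instance : NormedSpace 𝕜 (WX 𝕜 B) where
  norm_smul_le a b := (map_smul_eq_mul (q 𝕜 B) a b).le

/-- The universal Banach space. -/
abbrev X : Type u := UniformSpace.Completion (WX 𝕜 B)

/-- The canonical linear map from `W` to the universal Banach space. -/
def toX : W 𝕜 B →ₗ[𝕜] X 𝕜 B :=
  (UniformSpace.Completion.toComplL (𝕜 := 𝕜) (E := WX 𝕜 B)).toLinearMap

lemma norm_toX (w : W 𝕜 B) : ‖toX 𝕜 B w‖ = q 𝕜 B w :=
  UniformSpace.Completion.norm_coe (E := WX 𝕜 B) w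

lemma denseRange_toX : DenseRange (toX 𝕜 B) :=
  UniformSpace.Completion.denseRange_coe (α := WX 𝕜 B)

/-- The canonical family in the universal Banach space. -/
def mX (j : J 𝕜 B) : X 𝕜 B := toX 𝕜 B (Finsupp.single j 1)

lemma linearCombination_mX : Finsupp.linearCombination 𝕜 (mX 𝕜 B) = toX 𝕜 B := by
  refine Finsupp.lhom_ext' fun j => LinearMap.ext_ring ?_
  simp [mX]

lemma countable_support_X (f : X 𝕜 B →L[𝕜] 𝕜) : {j | f (mX 𝕜 B j) ≠ 0}.Countable := by
  refine countable_support_W ((f : X 𝕜 B →ₗ[𝕜] 𝕜).comp (toX 𝕜 B)) ‖f‖ (norm_nonneg _) ?_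
  intro w
  rw [← norm_toX]
  exact f.le_opNorm _

end Support

end

end Pool.Agent.Helper76.Elastic
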