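import Mathlib
import Pool.Agent.Helper76.Elastic5

open Cardinal Set

universe u v

namespace Pool.Agent.Helper76.Elastic

noncomputable section

section Card

open scoped Classical

variable (𝕜 : Type) [RCLike 𝕜] {B : ℕ → Type u}

lemma mk_rclike : #𝕜 = 𝔠 := by
  apply le_antisymm
  · have h1 : Function.Injective (fun z : 𝕜 => ((RCLike.re z : ℝ), (RCLike.im z : ℝ))) := by
      intro z w h
      simp only [Prod.mk.injEq] at h
      exact RCLike.ext h.1 h.2
    have h2 := mk_le_of_injective h1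
    rw [mk_prod, lift_id, mk_real, continuum_mul_self] at h2
    exact h2
  · have h1 : Function.Injective (fun x : ℝ => (x : 𝕜)) := RCLike.ofReal_injective
    have h2 := mk_le_of_injective h1
    rwa [mk_real] at h2

variable {𝕜}

lemma mono_B (hB : ∀ n, 2 ^ #(B n) ≤ #(B (n + 1))) : Monotone fun n => #(B n) := by
  apply monotone_nat_of_le_succ
  intro n
  exact (cantor _).le.trans (hB n)

/-- The set of indices of level at most `k` is small. -/
lemma mk_level_le (h0 : 𝔠 ≤ #(B 0)) (hB : ∀ n, 2 ^ #(B n) ≤ #(B (n + 1))) (k : ℕ) :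
    #{i : Σ n, B n // i.1 ≤ k} ≤ #(B k) := by
  have hm := mono_B hB
  have hc : 𝔠 ≤ #(B k) := h0.trans (hm (Nat.zero_le k))
  have hemb : ∀ l, l ≤ k → ∃ e : B l → B k, Function.Injective e := fun l hl => by
    have h1 : #(B l) ≤ #(B k) := hm hl
    rw [Cardinal.le_def] at h1
    exact ⟨h1.some, h1.some.injective⟩
  choose e he using hemb
  have h2 : Function.Injective (fun i : {i : Σ n, B n // i.1 ≤ k} =>
      ((⟨i.1.1⟩ : ULift.{u} ℕ), e i.1.1 i.2 i.1.2)) := by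
    rintro ⟨⟨a, x⟩, ha⟩ ⟨⟨b, y⟩, hb⟩ h
    simp only [Prod.mk.injEq, ULift.up.injEq] at h
    obtain ⟨h3, h4⟩ := h
    subst h3
    have := he a ha h4
    subst this
    rfl
  refine (mk_le_of_injective h2).trans ?_
  rw [mk_prod, lift_id, lift_id]
  refine mul_le_of_le (aleph0_le_continuum.trans hc) ?_ le_rfl
  rw [mk_uLift, mk_nat, lift_aleph0]
  exact aleph0_le_continuum.trans hc

lemma mk_fixed_le (h0 : 𝔠 ≤ #(B 0)) (hB : ∀ n, 2 ^ #(B n) ≤ #(B (n + 1))) (k : ℕ) :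
    #{v : V 𝕜 B // P 𝕜 B k v = v} ≤ #(B k) := by
  have hm := mono_B hB
  have hc : 𝔠 ≤ #(B k) := h0.trans (hm (Nat.zero_le k))
  have h1 : Function.Injective (fun v : {v : V 𝕜 B // P 𝕜 B k v = v} =>
      (v.1.subtypeDomain (fun i => i.1 ≤ k) : {i : Σ n, B n // i.1 ≤ k} →₀ 𝕜)) := by
    intro v w h
    apply Subtype.ext
    ext i
    by_cases hi : i.1 ≤ k
    · have := DFunLike.congr_fun h ⟨i, hi⟩
      simpa using this
    · rw [← v.2, ← w.2, P_apply, P_apply, if_neg hi, if_neg hi]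
  refine (mk_le_of_injective h1).trans ?_
  have : Nonempty (B 0) := by
    rw [← mk_ne_zero_iff]
    intro h
    rw [h] at h0
    exact absurd h0 (not_le.mpr continuum_pos)
  have : Nonempty {i : Σ n, B n // i.1 ≤ k} := ⟨⟨⟨0, Classical.arbitrary _⟩, Nat.zero_le k⟩⟩
  have : Infinite 𝕜 := by
    rw [← aleph0_le_mk_iff, mk_rclike]
    exact aleph0_le_continuum
  rw [mk_finsupp_lift_of_infinite']
  refine max_le ?_ ?_
  · rw [lift_id']
    simpa using mk_level_le h0 hB k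
  · rw [mk_rclike, lift_continuum]
    exact hc

lemma mk_nodes_le (h0 : 𝔠 ≤ #(B 0)) (hB : ∀ n, 2 ^ #(B n) ≤ #(B (n + 1))) (k : ℕ) :
    #{p : Seminorm 𝕜 (V 𝕜 B) // p.comp (P 𝕜 B k) = p} ≤ #(B (k + 1)) := by
  have hm := mono_B hB
  have hc : 𝔠 ≤ #(B k) := h0.trans (hm (Nat.zero_le k))
  have h1 : Function.Injective (fun (p : {p : Seminorm 𝕜 (V 𝕜 B) // p.comp (P 𝕜 B k) = p})
      (v : {v : V 𝕜 B // P 𝕜 B k v = v}) => p.1 v.1) := by
    intro p r h
    apply Subtype.ext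
    ext v
    have h2 : P 𝕜 B k (P 𝕜 B k v) = P 𝕜 B k v := by rw [P_P, min_self]
    have h3 := congrFun h ⟨P 𝕜 B k v, h2⟩
    simp only at h3
    rw [← p.2, ← r.2, Seminorm.comp_apply, Seminorm.comp_apply]
    exact h3
  refine (mk_le_of_injective h1).trans ?_
  rw [mk_arrow, mk_real, lift_continuum, lift_id']
  have h4 : (𝔠 : Cardinal.{u}) ^ #{v : V 𝕜 B // P 𝕜 B k v = v} ≤ 𝔠 ^ #(B k) :=
    power_le_power_left continuum_ne_zero (mk_fixed_le h0 hB k)
  refine (h4.trans ?_).trans (hB k)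
  rw [← two_power_aleph0, ← power_mul, aleph0_mul_eq (aleph0_le_continuum.trans hc)]

/-- The set of indices of `J` of level less than `n` is small. -/
lemma mk_J_level_le (h0 : 𝔠 ≤ #(B 0)) (hB : ∀ n, 2 ^ #(B n) ≤ #(B (n + 1))) (n : ℕ) :
    #{j : J 𝕜 B // j.i.1 < n} ≤ #(B n) := by
  have hm := mono_B hB
  cases n with
  | zero =>
    have : IsEmpty {j : J 𝕜 B // j.i.1 < 0} := ⟨fun j => absurd j.2 (Nat.not_lt_zero _)⟩
    rw [mk_eq_zero]
    exact zero_le
  | succ k =>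
    have hcomp : ∀ j : {j : J 𝕜 B // j.i.1 < k + 1}, j.1.p.comp (P 𝕜 B k) = j.1.p := by
      intro j
      have h1 := j.1.comp_eq
      have h2 : j.1.i.1 ≤ k := Nat.lt_succ_iff.mp j.2
      conv_lhs => rw [← h1]
      ext v
      rw [Seminorm.comp_apply, Seminorm.comp_apply, P_P, min_eq_left h2, ← Seminorm.comp_apply, h1]
    have h1 : Function.Injective (fun j : {j : J 𝕜 B // j.i.1 < k + 1} =>
        ((⟨j.1.p, hcomp j⟩ : {p : Seminorm 𝕜 (V 𝕜 B) // p.comp (P 𝕜 B k) = p}),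
          (⟨j.1.i, Nat.lt_succ_iff.mp j.2⟩ : {i : Σ n, B n // i.1 ≤ k}))) := by
      rintro ⟨⟨p, i, h1, h2⟩, h3⟩ ⟨⟨p', i', h1', h2'⟩, h3'⟩ h
      simp only [Prod.mk.injEq, Subtype.mk.injEq] at h
      obtain ⟨ha, hb⟩ := h
      subst ha
      subst hb
      rfl
    refine (mk_le_of_injective h1).trans ?_
    rw [mk_prod, lift_id, lift_id]
    refine mul_le_of_le (aleph0_le_continuum.trans (h0.trans (hm (Nat.zero_le _))))
      (mk_nodes_le h0 hB k) ?_
    exact (mk_level_le h0 hB k).trans (hm (Nat.le_succ k))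

/-- Every normed space linearly homeomorphic to the universal space embeds isometrically in it. -/
theorem exists_isometry_of_equiv (h0 : 𝔠 ≤ #(B 0)) (hB : ∀ n, 2 ^ #(B n) ≤ #(B (n + 1)))
    {Z : Type*} [NormedAddCommGroup Z] [NormedSpace 𝕜 Z] (e : X 𝕜 B ≃L[𝕜] Z) :
    Nonempty (Z →ₗᵢ[𝕜] X 𝕜 B) := by
  have hm := mono_B hB
  have hinf : ∀ n, ℵ₀ ≤ #(B n) := fun n =>
    aleph0_le_continuum.trans (h0.trans (hm (Nat.zero_le n)))
  set m : J 𝕜 B → Z := fun j => e (mX 𝕜 B j) with hmdef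
  have hmc : ∀ f : Z →L[𝕜] 𝕜, {j | f (m j) ≠ 0}.Countable := fun f =>
    countable_support_X 𝕜 B (f.comp (e : X 𝕜 B →L[𝕜] Z))
  have hLC : Finsupp.linearCombination 𝕜 m = (e : X 𝕜 B →ₗ[𝕜] Z).comp (toX 𝕜 B) := by
    refine Finsupp.lhom_ext' fun j => LinearMap.ext_ring ?_
    simp [m, mX]
  have hdense : DenseRange (Finsupp.linearCombination 𝕜 m) := by
    rw [hLC]
    exact e.surjective.denseRange.comp (denseRange_toX 𝕜 B) e.continuous
  obtain ⟨Φ, hΦ, hcl⟩ := exists_closing (𝕜 := 𝕜) m hmc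
  obtain ⟨ι, hι, hιcl⟩ := exists_levels (B := B) Φ hΦ (fun n => {j : J 𝕜 B | j.i.1 < n})
    (fun a b hab j hj => lt_of_lt_of_le hj hab) (fun j => ⟨j.i.1 + 1, Nat.lt_succ_self _⟩) hinf
    (fun n => mk_J_level_le h0 hB n)
  obtain ⟨Θ, hΘ⟩ := exists_embed (B := B) m hmc ι hι (fun n w => by
    have h1 : w.filter (fun j => (ι j).1 ≤ n) = @Finsupp.filter _ _ _
        (fun x => x ∈ {j | (ι j).1 ≤ n}) (fun a => Classical.propDecidable _) w := by
      ext j
      rw [Finsupp.filter_apply, Finsupp.filter_apply]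
      by_cases hj : (ι j).1 ≤ n
      · rw [if_pos hj, if_pos (show j ∈ {j | (ι j).1 ≤ n} from hj)]
      · rw [if_neg hj, if_neg (show j ∉ {j | (ι j).1 ≤ n} from hj)]
    rw [h1]
    exact hcl _ (hιcl n) w)
  obtain ⟨T, -⟩ := exists_isometry (Finsupp.linearCombination 𝕜 m) hdense
    ((toX 𝕜 B).comp Θ) (fun w => by rw [LinearMap.comp_apply, norm_toX, hΘ])
  exact ⟨T⟩

end Card

end

end Pool.Agent.Helper76.Elastic
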