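import Mathlib
import Pool.Agent.Helper76.Elastic6

open Cardinal Set Filter Topology

universe u v

namespace Pool.Agent.Helper76.Elastic

noncomputable section

section NoL1

open scoped Classical

variable {𝕜 : Type} [RCLike 𝕜]

/-- The functional `x ↦ ∑ γ ∈ A, x γ` on `ℓ¹(Γ)`. -/
def phi {Γ : Type*} (A : Finset Γ) : lp (fun _ : Γ => 𝕜) 1 →ₗ[𝕜] 𝕜 :=
  ∑ γ ∈ A, (lp.evalCLM 𝕜 (fun _ : Γ => 𝕜) 1 γ).toLinearMap

lemma phi_apply {Γ : Type*} (A : Finset Γ) (x : lp (fun _ : Γ => 𝕜) 1) :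
    phi A x = ∑ γ ∈ A, x γ := by
  simp [phi, LinearMap.sum_apply]
  rfl

lemma norm_phi_le {Γ : Type*} (A : Finset Γ) (x : lp (fun _ : Γ => 𝕜) 1) :
    ‖phi A x‖ ≤ ‖x‖ := by
  rw [phi_apply]
  refine (norm_sum_le _ _).trans ?_
  have := lp.sum_rpow_le_norm_rpow (p := 1) (by simp) x A
  simpa using this

lemma phi_single {Γ : Type*} (A : Finset Γ) (γ : Γ) :
    phi A (lp.single (E := fun _ : Γ => 𝕜) 1 γ (1 : 𝕜)) = if γ ∈ A then 1 else 0 := by
  rw [phi_apply]
  simp only [lp.single_apply]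
  by_cases h : γ ∈ A
  · rw [Finset.sum_eq_single γ]
    · simp [h]
    · intro b _ hb
      simp [hb]
    · intro h'; exact absurd h h'
  · rw [if_neg h]
    refine Finset.sum_eq_zero fun b hb => ?_
    have : b ≠ γ := fun hbγ => h (hbγ ▸ hb)
    simp [this]

/-- A normed space with a linearly dense family on which every functional is countably supported
does not contain `ℓ¹(Γ)` isomorphically for uncountable `Γ`. -/
theorem no_l1 {Γ : Type v} {J' : Type u} {Z : Type*} [Uncountable Γ] [NormedAddCommGroup Z]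
    [NormedSpace 𝕜 Z] (m : J' → Z) (hd : DenseRange (Finsupp.linearCombination 𝕜 m))
    (hc : ∀ f : Z →L[𝕜] 𝕜, {j | f (m j) ≠ 0}.Countable)
    (T : lp (fun _ : Γ => 𝕜) 1 →ₗ[𝕜] Z) (c : ℝ) (hc0 : 0 < c)
    (hT : ∀ x, c * ‖x‖ ≤ ‖T x‖) : False := by
  -- functionals extending `phi A`
  have h1 : ∀ A : Finset Γ, ∃ g : Z →L[𝕜] 𝕜, (∀ x, g (T x) = phi A x) ∧ ‖g‖ ≤ 1 / c := by
    intro A
    refine exists_factor T (phi A) (1 / c) (by positivity) fun x => ?_
    refine (norm_phi_le A x).trans ?_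
    rw [one_div, inv_mul_eq_div, le_div_iff₀ hc0, mul_comm]
    exact hT x
  choose g hg hgn using h1
  -- weak star limit
  let 𝒰 : Ultrafilter (Finset Γ) := Ultrafilter.of atTop
  have h𝒰 : (𝒰 : Filter (Finset Γ)) ≤ atTop := Ultrafilter.of_le _
  let G : Finset Γ → WeakDual 𝕜 Z := fun A => StrongDual.toWeakDual (g A)
  have hK := WeakDual.isCompact_closedBall (𝕜 := 𝕜) (0 : StrongDual 𝕜 Z) (1 / c)
  obtain ⟨g', hg'K, hg'⟩ := hK.ultrafilter_le_nhds (𝒰.map G) (by
    rw [Filter.le_principal_iff]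
    refine Ultrafilter.mem_map.mpr ?_
    have h2 : (Set.univ : Set (Finset Γ)) ⊆
        G ⁻¹' (WeakDual.toStrongDual ⁻¹' Metric.closedBall 0 (1 / c)) := fun A _ =>
      mem_closedBall_zero_iff.mpr (hgn A)
    exact Filter.mem_of_superset Filter.univ_mem h2)
  have hlim : ∀ z : Z, Tendsto (fun A => g A z) 𝒰 (𝓝 (g' z)) := by
    intro z
    have h2 : Tendsto G 𝒰 (𝓝 g') := hg'
    exact ((WeakDual.eval_continuous z).tendsto g').comp h2
  have hg'n : ‖WeakDual.toStrongDual g'‖ ≤ 1 / c := mem_closedBall_zero_iff.mp hg'K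
  set gi : Z →L[𝕜] 𝕜 := WeakDual.toStrongDual g' with hgi
  have hgi_apply : ∀ z, gi z = g' z := fun z => rfl
  have hg'single : ∀ γ : Γ, gi (T (lp.single (E := fun _ : Γ => 𝕜) 1 γ (1 : 𝕜))) = 1 := by
    intro γ
    have h2 := hlim (T (lp.single (E := fun _ : Γ => 𝕜) 1 γ (1 : 𝕜)))
    have h3 : (fun A => g A (T (lp.single (E := fun _ : Γ => 𝕜) 1 γ (1 : 𝕜)))) =ᶠ[𝒰]
        fun _ => (1 : 𝕜) := by
      have h4 : ∀ᶠ A : Finset Γ in atTop, γ ∈ A := by
        filter_upwards [eventually_ge_atTop {γ}] with A hA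
        exact hA (Finset.mem_singleton_self γ)
      filter_upwards [h𝒰 h4] with A hA
      rw [hg, phi_single, if_pos hA]
    have h5 := h2.congr' h3
    exact (tendsto_nhds_unique h5 tendsto_const_nhds)
  -- choice of good finite sets
  have hchoice : ∀ (F : Finset J') (n : ℕ), ∃ A : Finset Γ, ∀ j ∈ F,
      ‖g A (m j) - gi (m j)‖ < 1 / ((n : ℝ) + 1) := by
    intro F n
    have h2 : ∀ᶠ A in (𝒰 : Filter (Finset Γ)), ∀ j ∈ F,
        ‖g A (m j) - gi (m j)‖ < 1 / ((n : ℝ) + 1) := by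
      rw [Filter.eventually_all_finset]
      intro j _
      have h3 := hlim (m j)
      have h4 := (tendsto_iff_norm_sub_tendsto_zero.mp h3)
      exact h4.eventually (gt_mem_nhds (by positivity))
    exact h2.exists
  choose C hC using hchoice
  let Φ : Finset J' → Set J' := fun F => ⋃ n : ℕ, {j | g (C F n) (m j) ≠ 0}
  have hΦ : ∀ F, (Φ F).Countable := fun F => countable_iUnion fun n => hc _
  set S : Set J' := cl Φ {j | gi (m j) ≠ 0} with hS
  have hScard : #S ≤ ℵ₀ :=
    card_cl_le Φ le_rfl hΦ (le_aleph0_iff_set_countable.mpr (hc gi))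
  have hScount : S.Countable := le_aleph0_iff_set_countable.mp hScard
  -- the set of indices used
  have hused : (⋃ (F : {F : Finset J' // (F : Set J') ⊆ S}) , ⋃ n : ℕ,
      ((C F.1 n : Finset Γ) : Set Γ)).Countable := by
    have : Countable {F : Finset J' // (F : Set J') ⊆ S} := by
      rw [← mk_le_aleph0_iff]
      exact card_finsets_le le_rfl hScard
    exact countable_iUnion fun F => countable_iUnion fun n => (C F.1 n).countable_toSet
  obtain ⟨γ, hγ⟩ : ∃ γ : Γ, γ ∉ (⋃ (F : {F : Finset J' // (F : Set J') ⊆ S}) , ⋃ n : ℕ,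
      ((C F.1 n : Finset Γ) : Set Γ)) := by
    by_contra hcon
    push Not at hcon
    have : (Set.univ : Set Γ).Countable := hused.mono fun γ _ => hcon γ
    exact not_countable (countable_univ_iff.mp this)
  have hγ' : ∀ (F : Finset J') (_ : (F : Set J') ⊆ S) (n : ℕ), γ ∉ C F n := by
    intro F hF n hmem
    exact hγ (mem_iUnion.mpr ⟨⟨F, hF⟩, mem_iUnion.mpr ⟨n, hmem⟩⟩)
  set x : Z := T (lp.single (E := fun _ : Γ => 𝕜) 1 γ (1 : 𝕜)) with hx
  obtain ⟨y, hy, w, rfl⟩ := Metric.dense_iff.mp hd x (c / 4) (by positivity)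
  rw [Metric.mem_ball, dist_comm, dist_eq_norm] at hy
  set F : Finset J' := w.support.filter (· ∈ S) with hF
  have hFS : (F : Set J') ⊆ S := by
    intro j hj
    have : j ∈ F := hj
    rw [hF, Finset.mem_filter] at this
    exact this.2
  have hoff : ∀ (n : ℕ) (j : J'), j ∉ S → g (C F n) (m j) = 0 ∧ gi (m j) = 0 := by
    intro n j hj
    constructor
    · by_contra hne
      exact hj (cl_closed Φ _ F hFS (mem_iUnion.mpr ⟨n, hne⟩))
    · by_contra hne
      exact hj (subset_cl Φ _ hne)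
  have hmain : ∀ n : ℕ, (1 : ℝ) ≤ 1 / 2 + (∑ j ∈ w.support, ‖w j‖) * (1 / ((n : ℝ) + 1)) := by
    intro n
    have e1 : g (C F n) x = 0 := by
      rw [hx, hg, phi_single, if_neg (hγ' F hFS n)]
    have e2 : gi x = 1 := hg'single γ
    have e3 : ‖g (C F n) (x - Finsupp.linearCombination 𝕜 m w)‖ ≤ 1 / 4 := by
      refine ((g (C F n)).le_opNorm _).trans ?_
      calc ‖g (C F n)‖ * ‖x - Finsupp.linearCombination 𝕜 m w‖ ≤ (1 / c) * (c / 4) :=
            mul_le_mul (hgn _) hy.le (norm_nonneg _) (by positivity)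
        _ = 1 / 4 := by field_simp
    have e4 : ‖gi (x - Finsupp.linearCombination 𝕜 m w)‖ ≤ 1 / 4 := by
      refine (gi.le_opNorm _).trans ?_
      calc ‖gi‖ * ‖x - Finsupp.linearCombination 𝕜 m w‖ ≤ (1 / c) * (c / 4) :=
            mul_le_mul hg'n hy.le (norm_nonneg _) (by positivity)
        _ = 1 / 4 := by field_simp
    have e5 : ‖g (C F n) (Finsupp.linearCombination 𝕜 m w) -
        gi (Finsupp.linearCombination 𝕜 m w)‖ ≤
        (∑ j ∈ w.support, ‖w j‖) * (1 / ((n : ℝ) + 1)) := by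
      rw [Finsupp.linearCombination_apply, Finsupp.sum, map_sum, map_sum,
        ← Finset.sum_sub_distrib, Finset.sum_mul]
      refine (norm_sum_le _ _).trans (Finset.sum_le_sum fun j hj => ?_)
      rw [map_smul, map_smul, ← smul_sub, norm_smul]
      refine mul_le_mul_of_nonneg_left ?_ (norm_nonneg _)
      by_cases hjS : j ∈ S
      · exact (hC F n j (Finset.mem_filter.mpr ⟨hj, hjS⟩)).le
      · rw [(hoff n j hjS).1, (hoff n j hjS).2, sub_zero, norm_zero]
        positivity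
    have e6 : (1 : 𝕜) = gi (x - Finsupp.linearCombination 𝕜 m w) -
        g (C F n) (x - Finsupp.linearCombination 𝕜 m w) -
        (g (C F n) (Finsupp.linearCombination 𝕜 m w) -
        gi (Finsupp.linearCombination 𝕜 m w)) := by
      rw [map_sub, map_sub, e1, e2]; ring
    have e7 : (1 : ℝ) = ‖(1 : 𝕜)‖ := by simp
    refine (e7.trans (congrArg norm e6)).le.trans ?_
    refine (norm_sub_le _ _).trans ?_
    have := norm_sub_le (gi (x - Finsupp.linearCombination 𝕜 m w))
      (g (C F n) (x - Finsupp.linearCombination 𝕜 m w))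
    linarith
  have hlim2 : Tendsto (fun n : ℕ => (1 : ℝ) / 2 + (∑ j ∈ w.support, ‖w j‖) *
      (1 / ((n : ℝ) + 1))) atTop (𝓝 (1 / 2 + (∑ j ∈ w.support, ‖w j‖) * 0)) :=
    (tendsto_one_div_add_atTop_nhds_zero_nat.const_mul _).const_add _
  have := ge_of_tendsto' hlim2 hmain
  rw [mul_zero, add_zero] at this
  norm_num at this

end NoL1

end

end Pool.Agent.Helper76.Elastic
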