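import Pool.Agent.Helper76.TwoSepDefs
set_option autoImplicit false
open scoped ENNReal Topology

namespace Pool.Agent.TwoSep

section coreA

variable {T : Type*} [PartialOrder T]

/-- Two elements below a common one are comparable. -/
lemma coreA_comp (hT : ∀ t : T, IsChain (· ≤ ·) (Set.Iic t)) {u v w : T} (hu : u ≤ w)
    (hv : v ≤ w) : u ≤ v ∨ v ≤ u :=
  (hT w).total (Set.mem_Iic.2 hu) (Set.mem_Iic.2 hv)

lemma coreA_insert {s : T → ℝ} {S : Finset T} [DecidableEq T] (hS : Red s S) (a : T)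
    (hN : ∀ p ∈ S, ¬ p < a)
    (hP : ∀ v ∈ S, a < v → (∀ q ∈ S, ¬ (a < q ∧ q < v)) →
      s a ≠ s v ∨ ∃ w ∈ S, a < w ∧ ¬ w ≤ v ∧ ¬ v ≤ w) : Red s (insert a S) := by
  intro p hp v hv hpv hq
  rw [Finset.mem_insert] at hp hv
  have hq' : ∀ q ∈ S, ¬ (p < q ∧ q < v) := fun q hqS => hq q (Finset.mem_insert_of_mem hqS)
  have key : s p ≠ s v ∨ ∃ w ∈ S, p < w ∧ ¬ w ≤ v ∧ ¬ v ≤ w := by
    rcases hv with rfl | hv
    · rcases hp with rfl | hp
      · exact absurd hpv (lt_irrefl _)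
      · exact absurd hpv (hN p hp)
    · rcases hp with rfl | hp
      · exact hP v hv hpv hq'
      · exact hS p hp v hv hpv hq'
  rcases key with h | ⟨w, hw, h⟩
  · exact Or.inl h
  · exact Or.inr ⟨w, Finset.mem_insert_of_mem hw, h⟩

/-- `m` is a minimal element of `S`. -/
def IsMinIn (S : Finset T) (m : T) : Prop := m ∈ S ∧ ∀ q ∈ S, q ≤ m → q = m

lemma exists_isMinIn (S : Finset T) {v : T} (hv : v ∈ S) : ∃ m, IsMinIn S m ∧ m ≤ v := by
  obtain ⟨m, hm, hmin⟩ := S.exists_le_minimal hv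
  exact ⟨m, ⟨hmin.1, fun q hq hqm => le_antisymm hqm (hmin.2 hq hqm)⟩, hm⟩

variable (hT : ∀ t : T, IsChain (· ≤ ·) (Set.Iic t)) {s : T → ℝ} {K : Set T} {n : ℕ}
  (hmax : ∀ S : Finset T, (S : Set T) ⊆ K → Red s S → S.card ≤ n)

include hmax in
lemma coreA_no_insert {S : Finset T} (hS : Red s S) (hSK : (S : Set T) ⊆ K) (cS : S.card = n)
    (a : T) (haK : a ∈ K) (haS : a ∉ S) (hN : ∀ p ∈ S, ¬ p < a)
    (hP : ∀ v ∈ S, a < v → (∀ q ∈ S, ¬ (a < q ∧ q < v)) →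
      s a ≠ s v ∨ ∃ w ∈ S, a < w ∧ ¬ w ≤ v ∧ ¬ v ≤ w) : False := by
  classical
  have h1 := hmax (insert a S) (by
    intro x hx
    rw [Finset.coe_insert, Set.mem_insert_iff] at hx
    rcases hx with rfl | hx
    · exact haK
    · exact hSK hx) (coreA_insert hS a hN hP)
  rw [Finset.card_insert_of_notMem haS] at h1
  omega

include hT hmax in
/-- (i) -/
lemma coreA_one {S : Finset T} (hS : Red s S) (hSK : (S : Set T) ⊆ K) (cS : S.card = n)
    (a : T) (haK : a ∈ K) : ∃ m, IsMinIn S m ∧ (a ≤ m ∨ m ≤ a) := by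
  by_contra hcon
  push Not at hcon
  have hinc : ∀ v ∈ S, ¬ a ≤ v ∧ ¬ v ≤ a := by
    intro v hv
    obtain ⟨m, hm, hmv⟩ := exists_isMinIn S hv
    obtain ⟨h1, h2⟩ := hcon m hm
    refine ⟨fun h => ?_, fun h => h2 (hmv.trans h)⟩
    rcases coreA_comp hT h hmv with h3 | h3
    · exact h1 h3
    · exact h2 h3
  refine coreA_no_insert hmax hS hSK cS a haK (fun h => (hinc a h).1 le_rfl)
    (fun p hp h => (hinc p hp).2 h.le) (fun v hv h => absurd h.le (hinc v hv).1)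

include hT hmax in
/-- (ii) -/
lemma coreA_two {S : Finset T} (hS : Red s S) (hSK : (S : Set T) ⊆ K) (cS : S.card = n)
    (a : T) (haK : a ∈ K) {m m' : T} (hm : IsMinIn S m) (hm' : IsMinIn S m')
    (h : a ≤ m ∨ m ≤ a) (h' : a ≤ m' ∨ m' ≤ a) : m = m' := by
  by_contra hne
  have hnc : ¬ (m ≤ m' ∨ m' ≤ m) := by
    rintro (h1 | h1)
    · exact hne (hm'.2 m hm.1 h1)
    · exact hne (hm.2 m' hm'.1 h1).symm
  have ham : a ≤ m ∧ a ≤ m' := by
    rcases h with h | h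
    · rcases h' with h' | h'
      · exact ⟨h, h'⟩
      · exact absurd (Or.inr (h'.trans h)) hnc
    · rcases h' with h' | h'
      · exact absurd (Or.inl (h.trans h')) hnc
      · exact absurd (coreA_comp hT h h') hnc
  have h1 : a < m := lt_of_le_of_ne ham.1 (by rintro rfl; exact hnc (Or.inl ham.2))
  have h2 : a < m' := lt_of_le_of_ne ham.2 (by rintro rfl; exact hnc (Or.inr ham.1))
  refine coreA_no_insert hmax hS hSK cS a haK ?_ ?_ ?_
  · intro haS
    exact h1.ne (hm.2 a haS h1.le)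
  · intro p hp hpa
    exact (hpa.trans h1).ne (hm.2 p hp (hpa.trans h1).le)
  · intro v hv hav _
    by_cases hvm : v ≤ m ∨ m ≤ v
    · by_cases hvm' : v ≤ m' ∨ m' ≤ v
      · exfalso
        have hmv : m ≤ v := by
          rcases hvm with h3 | h3
          · exact (hm.2 v hv h3).ge
          · exact h3
        have hmv' : m' ≤ v := by
          rcases hvm' with h3 | h3
          · exact (hm'.2 v hv h3).ge
          · exact h3
        exact hnc (coreA_comp hT hmv hmv')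
      · rw [not_or] at hvm'
        exact Or.inr ⟨m', hm'.1, h2, hvm'.2, hvm'.1⟩
    · rw [not_or] at hvm
      exact Or.inr ⟨m, hm.1, h1, hvm.2, hvm.1⟩

include hT hmax in
lemma coreA_three_aux {S : Finset T} (hS : Red s S) (hSK : (S : Set T) ⊆ K) (cS : S.card = n)
    (a : T) (haK : a ∈ K) {m : T} (hm : IsMinIn S m) (h : a < m) : s a = s m := by
  by_contra hne
  refine coreA_no_insert hmax hS hSK cS a haK ?_ ?_ ?_
  · intro haS
    exact h.ne (hm.2 a haS h.le)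
  · intro p hp hpa
    exact (hpa.trans h).ne (hm.2 p hp (hpa.trans h).le)
  · intro v hv hav hq
    obtain ⟨m'', hm'', hmv⟩ := exists_isMinIn S hv
    have h1 : m = m'' := coreA_two hT hmax hS hSK cS a haK hm hm'' (Or.inl h.le)
      (coreA_comp hT hav.le hmv)
    subst h1
    rcases hmv.lt_or_eq with h2 | h2
    · exact absurd ⟨h, h2⟩ (hq m hm.1)
    · subst h2
      exact Or.inl hne

include hT hmax in
/-- (iii) -/
lemma coreA_three {S S' : Finset T} (hS : Red s S) (hSK : (S : Set T) ⊆ K) (cS : S.card = n)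
    (hS' : Red s S') (hSK' : (S' : Set T) ⊆ K) (cS' : S'.card = n)
    {a m : T} (ha : IsMinIn S a) (hm : IsMinIn S' m) (h : a ≤ m ∨ m ≤ a) : s a = s m := by
  rcases h with h | h
  · rcases h.lt_or_eq with h | h
    · exact coreA_three_aux hT hmax hS' hSK' cS' a (hSK ha.1) hm h
    · rw [h]
  · rcases h.lt_or_eq with h | h
    · exact (coreA_three_aux hT hmax hS hSK cS m (hSK' hm.1) ha h).symm
    · rw [h]

lemma red_congr {s s' : T → ℝ} {S : Finset T} (h : ∀ v ∈ S, s v = - s' v) (hS : Red s S) :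
    Red s' S := by
  intro p hp v hv hpv hq
  rcases hS p hp v hv hpv hq with h1 | h1
  · left
    intro h2
    apply h1
    rw [h p hp, h v hv, h2]
  · exact Or.inr h1

end coreA

/-- MODULE A -/
theorem core {T : Type*} [PartialOrder T] (hT : ∀ t : T, IsChain (· ≤ ·) (Set.Iic t))
    (n : ℕ) (hn : 1 ≤ n) (K₁ K₂ K₃ : Set T) (σ₁ σ₂ σ₃ : T → ℝ)
    (h1 : ∀ S : Finset T, (S : Set T) ⊆ K₁ → Red σ₁ S → S.card ≤ n)
    (h2 : ∀ S : Finset T, (S : Set T) ⊆ K₂ → Red σ₂ S → S.card ≤ n)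
    (h3 : ∀ S : Finset T, (S : Set T) ⊆ K₃ → Red σ₃ S → S.card ≤ n)
    (A B C : Finset T) (hA : Red σ₁ A) (hB : Red σ₁ B) (hC : Red σ₂ C)
    (cA : A.card = n) (cB : B.card = n) (cC : C.card = n)
    (hA1 : (A : Set T) ⊆ K₁) (hA2 : (A : Set T) ⊆ K₂) (hB1 : (B : Set T) ⊆ K₁) (hB3 : (B : Set T) ⊆ K₃)
    (hC2 : (C : Set T) ⊆ K₂) (hC3 : (C : Set T) ⊆ K₃)
    (sA : ∀ v ∈ A, σ₁ v = - σ₂ v ∧ σ₁ v ≠ 0) (sB : ∀ v ∈ B, σ₁ v = - σ₃ v ∧ σ₁ v ≠ 0)
    (sC : ∀ v ∈ C, σ₂ v = - σ₃ v ∧ σ₂ v ≠ 0) : False := by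
  have hA' : Red σ₂ A := red_congr (fun v hv => (sA v hv).1) hA
  have hB' : Red σ₃ B := red_congr (fun v hv => (sB v hv).1) hB
  have hC' : Red σ₃ C := red_congr (fun v hv => (sC v hv).1) hC
  obtain ⟨v, hv⟩ : A.Nonempty := Finset.card_pos.1 (by omega)
  obtain ⟨a, ha, -⟩ := exists_isMinIn A hv
  obtain ⟨b, hb, hab⟩ := coreA_one hT h1 hB hB1 cB a (hA1 ha.1)
  obtain ⟨c, hc, hac⟩ := coreA_one hT h2 hC hC2 cC a (hA2 ha.1)
  obtain ⟨c', hc', hbc⟩ := coreA_one hT h3 hC' hC3 cC b (hB3 hb.1)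
  have e1 : σ₁ a = σ₁ b := coreA_three hT h1 hA hA1 cA hB hB1 cB ha hb hab
  have e2 : σ₂ a = σ₂ c := coreA_three hT h2 hA' hA2 cA hC hC2 cC ha hc hac
  have e3 : σ₃ b = σ₃ c' := coreA_three hT h3 hB' hB3 cB hC' hC3 cC hb hc' hbc
  have hne : c ≠ c' := by
    rintro rfl
    have f1 := sA a ha.1
    have f2 := sB b hb.1
    have f3 := sC c hc.1
    apply f1.2
    have g1 : σ₂ c = - σ₁ a := by rw [← e2, f1.1, neg_neg]
    have g2 : σ₂ c = σ₁ a := by rw [f3.1, ← e3, e1, f2.1]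
    linarith
  rcases hab with hab | hab
  · refine hne (coreA_two hT h2 hC hC2 cC a (hA2 ha.1) hc hc' hac ?_)
    rcases hbc with h | h
    · exact Or.inl (hab.trans h)
    · exact coreA_comp hT hab h
  · refine hne (coreA_two hT h3 hC' hC3 cC b (hB3 hb.1) hc hc' ?_ hbc)
    rcases hac with h | h
    · exact Or.inl (hab.trans h)
    · exact coreA_comp hT hab h

end Pool.Agent.TwoSep
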