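import Pool.Agent.Helper76.TwoSepDefs
set_option autoImplicit false
open scoped ENNReal Topology

namespace Pool.Agent.TwoSep

section bddB

variable {T : Type*} [PartialOrder T]

/-- Elements of the (algebraic) span only depend on the membership in finitely many lower chains. -/
lemma span_finite_dep (y : lp (fun _ : T => ℝ) ∞)
    (hy : y ∈ Submodule.span ℝ {x : lp (fun _ : T => ℝ) ∞ | ∃ I : Set T, IsLowerSet I ∧
      IsChain (· ≤ ·) I ∧ ∀ t, x t = Set.indicator I (fun _ => (1 : ℝ)) t}) :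
    ∃ F : Finset (Set T), (∀ I ∈ F, IsLowerSet I ∧ IsChain (· ≤ ·) I) ∧
      (∀ t t' : T, (∀ I ∈ F, t ∈ I ↔ t' ∈ I) → y t = y t') ∧
      (∀ t, y t ≠ 0 → ∃ I ∈ F, t ∈ I) := by
  classical
  induction hy using Submodule.span_induction with
  | mem x hx =>
    obtain ⟨I, h1, h2, h3⟩ := hx
    refine ⟨{I}, ?_, ?_, ?_⟩
    · intro J hJ
      rw [Finset.mem_singleton] at hJ
      subst hJ
      exact ⟨h1, h2⟩
    · intro t t' h
      have h4 := h I (Finset.mem_singleton_self I)
      rw [h3, h3]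
      by_cases h5 : t ∈ I
      · rw [Set.indicator_of_mem h5, Set.indicator_of_mem (h4.1 h5)]
      · rw [Set.indicator_of_notMem h5, Set.indicator_of_notMem (fun h6 => h5 (h4.2 h6))]
    · intro t ht
      refine ⟨I, Finset.mem_singleton_self I, ?_⟩
      by_contra h5
      rw [h3, Set.indicator_of_notMem h5] at ht
      exact ht rfl
  | zero =>
    refine ⟨∅, by simp, fun t t' _ => rfl, fun t ht => absurd rfl ht⟩
  | add x y _ _ hx hy =>
    obtain ⟨F, f1, f2, f3⟩ := hx
    obtain ⟨G, g1, g2, g3⟩ := hy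
    refine ⟨F ∪ G, ?_, ?_, ?_⟩
    · intro I hI
      rcases Finset.mem_union.1 hI with h | h
      · exact f1 I h
      · exact g1 I h
    · intro t t' h
      have e1 := f2 t t' (fun I hI => h I (Finset.mem_union_left _ hI))
      have e2 := g2 t t' (fun I hI => h I (Finset.mem_union_right _ hI))
      change x t + y t = x t' + y t'
      rw [e1, e2]
    · intro t ht
      by_cases h1 : x t = 0
      · have h2 : y t ≠ 0 := by
          intro h2
          apply ht
          change x t + y t = 0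
          rw [h1, h2, add_zero]
        obtain ⟨I, hI, h3⟩ := g3 t h2
        exact ⟨I, Finset.mem_union_right _ hI, h3⟩
      · obtain ⟨I, hI, h3⟩ := f3 t h1
        exact ⟨I, Finset.mem_union_left _ hI, h3⟩
  | smul a x _ hx =>
    obtain ⟨F, f1, f2, f3⟩ := hx
    refine ⟨F, f1, ?_, ?_⟩
    · intro t t' h
      change a * x t = a * x t'
      rw [f2 t t' h]
    · intro t ht
      apply f3 t
      intro h1
      apply ht
      change a * x t = 0
      rw [h1, mul_zero]

end bddB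

/-- MODULE B -/
theorem bdd {T : Type*} [PartialOrder T] (x : lp (fun _ : T => ℝ) ∞) (hx : x ∈ pathSpan T) (δ : ℝ) (hδ : 0 < δ) :
    ∃ M : ℕ, ∀ (s : T → ℝ) (S : Finset T), Red s S →
      (∀ v ∈ S, (s v = 1 ∨ s v = -1) ∧ δ ≤ s v * x v) → S.card ≤ M := by
  classical
  have hx' : x ∈ closure ((Submodule.span ℝ {x : lp (fun _ : T => ℝ) ∞ | ∃ I : Set T,
      IsLowerSet I ∧ IsChain (· ≤ ·) I ∧ ∀ t, x t = Set.indicator I (fun _ => (1 : ℝ)) t} :
        Submodule ℝ (lp (fun _ : T => ℝ) ∞)) : Set (lp (fun _ : T => ℝ) ∞)) := hx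
  obtain ⟨y, hy, hxy⟩ := Metric.mem_closure_iff.1 hx' (δ / 2) (by linarith)
  obtain ⟨F, f1, f2, f3⟩ := span_finite_dep y hy
  refine ⟨2 ^ F.card, fun s S hS hv => ?_⟩
  have hclose : ∀ t, |x t - y t| < δ / 2 := by
    intro t
    have h1 : ‖(x - y) t‖ ≤ ‖x - y‖ := lp.norm_apply_le_norm (by simp) (x - y) t
    rw [dist_eq_norm] at hxy
    have h2 : (x - y) t = x t - y t := rfl
    rw [h2, Real.norm_eq_abs] at h1
    linarith
  have hpos : ∀ v ∈ S, 0 < s v * y v := by
    intro v hvS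
    obtain ⟨h1, h2⟩ := hv v hvS
    have h3 := abs_lt.1 (hclose v)
    rcases h1 with h1 | h1 <;> rw [h1] at h2 ⊢ <;> linarith
  have hne : ∀ v ∈ S, y v ≠ 0 := by
    intro v hvS h
    have := hpos v hvS
    rw [h, mul_zero] at this
    exact lt_irrefl _ this
  have key : ∀ v ∈ S, ∀ v' ∈ S, v < v' → (∀ I ∈ F, v ∈ I ↔ v' ∈ I) → False := by
    intro v hvS v' hvS' hlt hJ
    obtain ⟨v'', hv'', hmin⟩ := (S.filter (fun q => v < q ∧ q ≤ v')).exists_le_minimal
      (Finset.mem_filter.2 ⟨hvS', hlt, le_rfl⟩)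
    have hm := Finset.mem_filter.1 hmin.1
    have hJ2 : ∀ I ∈ F, v ∈ I ↔ v'' ∈ I := by
      intro I hI
      constructor
      · intro h
        exact (f1 I hI).1 hm.2.2 ((hJ I hI).1 h)
      · intro h
        exact (f1 I hI).1 hm.2.1.le h
    have hy2 : y v = y v'' := f2 v v'' hJ2
    have hs : s v = s v'' := by
      have h1 := hpos v hvS
      have h2 := hpos v'' hm.1
      rw [← hy2] at h2
      rcases (hv v hvS).1 with h3 | h3 <;> rcases (hv v'' hm.1).1 with h4 | h4 <;>
        rw [h3] at h1 ⊢ <;> rw [h4] at h2 ⊢ <;> linarith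
    rcases hS v hvS v'' hm.1 hm.2.1 (by
      rintro q hq ⟨h1, h2⟩
      have h3 : q ∈ S.filter (fun q => v < q ∧ q ≤ v') :=
        Finset.mem_filter.2 ⟨hq, h1, h2.le.trans hm.2.2⟩
      exact absurd (hmin.2 h3 h2.le) (not_le_of_gt h2)) with h | ⟨w, hw, h1, h2, h3⟩
    · exact h hs
    · obtain ⟨I, hI, hwI⟩ := f3 w (hne w hw)
      have h4 : v ∈ I := (f1 I hI).1 h1.le hwI
      have h5 : v'' ∈ I := (hJ2 I hI).1 h4
      rcases (f1 I hI).2.total hwI h5 with h6 | h6
      · exact h2 h6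
      · exact h3 h6
  rw [← Finset.card_powerset]
  apply Finset.card_le_card_of_injOn (fun v => F.filter (fun I => v ∈ I))
  · intro v _
    exact Finset.mem_powerset.2 (Finset.filter_subset _ _)
  · intro v hvS v' hvS' hJ
    have hJ' : ∀ I ∈ F, v ∈ I ↔ v' ∈ I := by
      intro I hI
      have h1 := Finset.ext_iff.1 hJ I
      simpa [hI] using h1
    by_contra hvv
    obtain ⟨I, hI, h1⟩ := f3 v (hne v hvS)
    rcases (f1 I hI).2.total h1 ((hJ' I hI).1 h1) with h2 | h2
    · exact key v hvS v' hvS' (lt_of_le_of_ne h2 hvv) hJ'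
    · exact key v' hvS' v hvS (lt_of_le_of_ne h2 (Ne.symm hvv)) (fun I hI => (hJ' I hI).symm)

end Pool.Agent.TwoSep
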