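import Pool.Agent.Helper76.TwoSepDefs
import Pool.Agent.Helper76.TwoSepA
import Pool.Agent.Helper76.TwoSepB
import Pool.Agent.Helper76.TwoSepC
set_option autoImplicit false
open scoped ENNReal Topology

namespace Pool.Agent.TwoSep

/-- index set of reduced signed sets of size at most `n+1` -/
def Idx (T : Type*) [PartialOrder T] (n : ℕ) : Type _ :=
  {P : (T → ℝ) × Finset T // Red P.1 P.2 ∧ (∀ v ∈ P.2, P.1 v = 1 ∨ P.1 v = -1) ∧ P.2.card ≤ n + 1}

/-- evaluation functional -/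
noncomputable def fn {T : Type*} [PartialOrder T] (s : T → ℝ) (S : Finset T) :
    lp (fun _ : T => ℝ) ∞ →ₗ[ℝ] ℝ where
  toFun x := ∑ v ∈ S, s v * x v
  map_add' x y := by
    simp [mul_add, Finset.sum_add_distrib]
  map_smul' c x := by
    simp only [lp.coeFn_smul, Pi.smul_apply, smul_eq_mul, RingHom.id_apply, Finset.mul_sum]
    refine Finset.sum_congr rfl fun v _ => by ring

lemma fn_apply {T : Type*} [PartialOrder T] (s : T → ℝ) (S : Finset T) (x : lp (fun _ : T => ℝ) ∞) :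
    fn s S x = ∑ v ∈ S, s v * x v := rfl

noncomputable def sq (T : Type*) [PartialOrder T] (n : ℕ) : Seminorm ℝ (lp (fun _ : T => ℝ) ∞) :=
  ⨆ i : Idx T n, (1 / ((n : ℝ) + 1)).toNNReal • (normSeminorm ℝ ℝ).comp (fn i.1.1 i.1.2)

lemma abs_coord {T : Type*} (x : lp (fun _ : T => ℝ) ∞) (v : T) : |x v| ≤ ‖x‖ := by
  have := lp.norm_apply_le_norm (p := ∞) (by simp) x v
  simpa using this

lemma one_term {T : Type*} [PartialOrder T] (n : ℕ) (i : Idx T n) (x : lp (fun _ : T => ℝ) ∞) :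
    ((1 / ((n : ℝ) + 1)).toNNReal • (normSeminorm ℝ ℝ).comp (fn i.1.1 i.1.2)) x =
      |∑ v ∈ i.1.2, i.1.1 v * x v| / (n + 1) := by
  have : (0 : ℝ) ≤ 1 / ((n : ℝ) + 1) := by positivity
  simp only [smul_apply, Seminorm.comp_apply, coe_normSeminorm, fn_apply, Real.norm_eq_abs, NNReal.smul_def,
    Real.coe_toNNReal _ this, smul_eq_mul]
  ring

lemma sum_le {T : Type*} [PartialOrder T] (s : T → ℝ) (S : Finset T) (hs : ∀ v ∈ S, s v = 1 ∨ s v = -1)
    (x : lp (fun _ : T => ℝ) ∞) : |∑ v ∈ S, s v * x v| ≤ S.card * ‖x‖ := by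
  calc |∑ v ∈ S, s v * x v| ≤ ∑ v ∈ S, |s v * x v| := Finset.abs_sum_le_sum_abs _ _
    _ ≤ ∑ v ∈ S, ‖x‖ := by
        refine Finset.sum_le_sum fun v hv => ?_
        have : |s v| = 1 := by rcases hs v hv with h | h <;> simp [h]
        rw [abs_mul, this, one_mul]
        exact abs_coord x v
    _ = S.card * ‖x‖ := by simp

lemma one_term_le {T : Type*} [PartialOrder T] (n : ℕ) (i : Idx T n) (x : lp (fun _ : T => ℝ) ∞) :
    |∑ v ∈ i.1.2, i.1.1 v * x v| / (n + 1) ≤ ‖x‖ := by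
  have hn : (0 : ℝ) < (n : ℝ) + 1 := by positivity
  rw [div_le_iff₀ hn]
  refine (sum_le i.1.1 i.1.2 i.2.2.1 x).trans ?_
  have : (i.1.2.card : ℝ) ≤ n + 1 := by exact_mod_cast i.2.2.2
  nlinarith [norm_nonneg x]

lemma bddR {T : Type*} [PartialOrder T] (n : ℕ) :
    BddAbove (Set.range fun i : Idx T n => (1 / ((n : ℝ) + 1)).toNNReal • (normSeminorm ℝ ℝ).comp (fn i.1.1 i.1.2)) := by
  rw [Seminorm.bddAbove_range_iff]
  intro x
  refine ⟨‖x‖, ?_⟩
  rintro _ ⟨i, rfl⟩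
  simp only
  rw [one_term]
  exact one_term_le n i x

lemma sq_apply {T : Type*} [PartialOrder T] (n : ℕ) (x : lp (fun _ : T => ℝ) ∞) :
    sq T n x = ⨆ i : Idx T n, |∑ v ∈ i.1.2, i.1.1 v * x v| / (n + 1) := by
  rw [sq, Seminorm.iSup_apply (bddR n)]
  refine iSup_congr fun i => one_term n i x

instance {T : Type*} [PartialOrder T] (n : ℕ) : Nonempty (Idx T n) :=
  ⟨⟨(fun _ => 1, ∅), by intro p hp; simp at hp, by simp, by simp⟩⟩

lemma sq_le {T : Type*} [PartialOrder T] (n : ℕ) (x : lp (fun _ : T => ℝ) ∞) : sq T n x ≤ ‖x‖ := by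
  rw [sq_apply]
  exact ciSup_le fun i => one_term_le n i x

lemma le_sq {T : Type*} [PartialOrder T] (n : ℕ) (x : lp (fun _ : T => ℝ) ∞) (s : T → ℝ) (S : Finset T)
    (h1 : Red s S) (h2 : ∀ v ∈ S, s v = 1 ∨ s v = -1) (h3 : S.card ≤ n + 1) :
    ∑ v ∈ S, s v * x v ≤ (n + 1) * sq T n x := by
  rw [sq_apply]
  have hn : (0 : ℝ) < (n : ℝ) + 1 := by positivity
  have := le_ciSup (f := fun i : Idx T n => |∑ v ∈ i.1.2, i.1.1 v * x v| / (n + 1))
    ⟨‖x‖, by rintro _ ⟨i, rfl⟩; exact one_term_le n i x⟩ (⟨(s, S), h1, h2, h3⟩ : Idx T n)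
  simp only at this
  rw [div_le_iff₀ hn] at this
  have h4 := le_abs_self (∑ v ∈ S, s v * x v)
  linarith

lemma sq_zero {T : Type*} [PartialOrder T] (x : lp (fun _ : T => ℝ) ∞) : sq T 0 x = ‖x‖ := by
  refine le_antisymm (sq_le 0 x) ?_
  refine lp.norm_le_of_forall_le ?_ ?_
  · exact apply_nonneg _ _
  intro v
  have hred : ∀ c : ℝ, Red (fun _ : T => c) ({v} : Finset T) := by
    intro c p hp w hw h
    simp only [Finset.mem_singleton] at hp hw
    subst hp; subst hw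
    exact absurd h (lt_irrefl _)
  have h1 := le_sq 0 x (fun _ => 1) {v} (hred 1) (by simp) (by simp)
  have h2 := le_sq 0 x (fun _ => -1) {v} (hred (-1)) (by simp) (by simp)
  simp only [Finset.sum_singleton, CharP.cast_eq_zero, zero_add, one_mul, neg_mul] at h1 h2
  rw [Real.norm_eq_abs, abs_le]
  constructor <;> linarith

lemma Red.congr {T : Type*} [PartialOrder T] {s s' : T → ℝ} {S : Finset T} (h : Red s S) (hs : ∀ v ∈ S, s v = s' v) :
    Red s' S := by
  intro p hp v hv hpv hq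
  rw [← hs p hp, ← hs v hv]
  exact h p hp v hv hpv hq

lemma Red.neg {T : Type*} [PartialOrder T] {s : T → ℝ} {S : Finset T} (h : Red s S) : Red (fun v => - s v) S := by
  intro p hp v hv hpv hq
  rcases h p hp v hv hpv hq with h | h
  · left; simpa using h
  · right; exact h

lemma exists_of_lt_sq {T : Type*} [PartialOrder T] (n : ℕ) (x : lp (fun _ : T => ℝ) ∞) (r : ℝ) (hr : r < sq T n x) :
    ∃ (s : T → ℝ) (S : Finset T), Red s S ∧ (∀ v ∈ S, s v = 1 ∨ s v = -1) ∧ S.card ≤ n + 1 ∧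
      (n + 1) * r < ∑ v ∈ S, s v * x v := by
  rw [sq_apply] at hr
  obtain ⟨i, hi⟩ := exists_lt_of_lt_ciSup hr
  have hn : (0 : ℝ) < (n : ℝ) + 1 := by positivity
  rw [lt_div_iff₀ hn] at hi
  rcases le_total 0 (∑ v ∈ i.1.2, i.1.1 v * x v) with h | h
  · rw [abs_of_nonneg h] at hi
    exact ⟨i.1.1, i.1.2, i.2.1, i.2.2.1, i.2.2.2, by linarith⟩
  · rw [abs_of_nonpos h] at hi
    refine ⟨fun v => - i.1.1 v, i.1.2, i.2.1.neg, ?_, i.2.2.2, ?_⟩
    · intro v hv
      rcases i.2.2.1 v hv with h | h <;> simp [h]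
    · simp only [neg_mul, Finset.sum_neg_distrib]
      linarith

/-- if a sum over a set of at most `m` terms, each at most `a`, exceeds `m a - e` with `e ≤ a`, then the set has
exactly `m` elements and each term exceeds `a - e` -/
lemma terms_large {ι : Type*} (S : Finset ι) (f : ι → ℝ) (m : ℕ) (a e : ℝ) (hcard : S.card ≤ m)
    (hf : ∀ v ∈ S, f v ≤ a) (he : e ≤ a) (ha : 0 ≤ a) (hsum : m * a - e < ∑ v ∈ S, f v) :
    S.card = m ∧ ∀ v ∈ S, a - e < f v := by
  classical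
  constructor
  · by_contra hne
    have hlt : S.card + 1 ≤ m := by omega
    have h1 : ∑ v ∈ S, f v ≤ S.card * a := by
      have := Finset.sum_le_sum hf
      simpa using this
    have h2 : (S.card : ℝ) + 1 ≤ m := by exact_mod_cast hlt
    nlinarith
  · intro v hv
    have h1 : ∑ w ∈ S.erase v, f w ≤ (S.erase v).card * a := by
      have := Finset.sum_le_sum (f := f) (g := fun _ => a) (s := S.erase v) (fun w hw => hf w (Finset.mem_of_mem_erase hw))
      simpa using this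
    have h2 : ∑ w ∈ S, f w = f v + ∑ w ∈ S.erase v, f w := (Finset.add_sum_erase S f hv).symm
    have h3 : (S.erase v).card + 1 = S.card := Finset.card_erase_add_one hv
    have h4 : ((S.erase v).card : ℝ) + 1 ≤ m := by
      have : (S.erase v).card + 1 ≤ m := by omega
      exact_mod_cast this
    nlinarith

/-- data of a maximal pair -/
lemma pair {T : Type*} [PartialOrder T] (x y : lp (fun _ : T => ℝ) ∞) (N : ℕ) (lam ε : ℝ) (hlam : 0 < lam)
    (hε : 0 < ε) (hε2 : ε ≤ lam / 2) (hx : ‖x‖ = lam) (hy : ‖y‖ = lam) (h : sq T N (x - y) = 2 * lam) :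
    ∃ A : Finset T, A.card = N + 1 ∧ Red (fun v => ((SignType.sign (x v) : SignType) : ℝ)) A ∧
      (∀ v ∈ A, lam - ε ≤ |x v|) ∧ (∀ v ∈ A, lam - ε ≤ |y v|) ∧
      (∀ v ∈ A, ((SignType.sign (x v) : SignType) : ℝ) = - ((SignType.sign (y v) : SignType) : ℝ) ∧
        ((SignType.sign (x v) : SignType) : ℝ) ≠ 0) := by
  have hn : (0 : ℝ) < (N : ℝ) + 1 := by positivity
  obtain ⟨s, S, h1, h2, h3, h4⟩ := exists_of_lt_sq N (x - y) (2 * lam - ε / (N + 1)) (by
    rw [h]; have : 0 < ε / ((N : ℝ) + 1) := by positivity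
    linarith)
  have h5 : ((N : ℝ) + 1) * (2 * lam - ε / (N + 1)) = (((N + 1 : ℕ) : ℝ)) * (2 * lam) - ε := by
    push_cast
    field_simp
  rw [h5] at h4
  have hxv : ∀ v ∈ S, s v * x v ≤ lam := by
    intro v hv
    have := abs_coord x v
    rw [hx] at this
    rcases h2 v hv with h | h
    · rw [h, one_mul]; exact (le_abs_self _).trans this
    · rw [h]; have := neg_abs_le (x v); linarith
  have hyv : ∀ v ∈ S, - (s v * y v) ≤ lam := by
    intro v hv
    have := abs_coord y v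
    rw [hy] at this
    rcases h2 v hv with h | h
    · rw [h, one_mul]; have := neg_abs_le (y v); linarith
    · rw [h]; have := le_abs_self (y v); linarith
  obtain ⟨h6, h7⟩ := terms_large S (fun v => s v * (x - y : lp (fun _ : T => ℝ) ∞) v) (N + 1) (2 * lam) ε h3
    (by
      intro v hv
      have e1 : s v * (x - y : lp (fun _ : T => ℝ) ∞) v = s v * x v + - (s v * y v) := by
        simp only [lp.coeFn_sub, Pi.sub_apply]; ring
      rw [e1]
      have := hxv v hv; have := hyv v hv; linarith) (by linarith) (by linarith) h4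
  have h8 : ∀ v ∈ S, lam - ε < s v * x v ∧ lam - ε < - (s v * y v) := by
    intro v hv
    have e1 : s v * (x - y : lp (fun _ : T => ℝ) ∞) v = s v * x v + - (s v * y v) := by
      simp only [lp.coeFn_sub, Pi.sub_apply]; ring
    have := h7 v hv
    rw [e1] at this
    constructor
    · have := hyv v hv; linarith
    · have := hxv v hv; linarith
  have h9 : ∀ v ∈ S, s v = ((SignType.sign (x v) : SignType) : ℝ) ∧ s v = - ((SignType.sign (y v) : SignType) : ℝ) := by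
    intro v hv
    obtain ⟨ha, hb⟩ := h8 v hv
    rcases h2 v hv with h | h
    · rw [h] at ha hb ⊢
      have hx0 : 0 < x v := by linarith
      have hy0 : y v < 0 := by linarith
      simp [sign_pos hx0, sign_neg hy0]
    · rw [h] at ha hb ⊢
      have hx0 : x v < 0 := by linarith
      have hy0 : 0 < y v := by linarith
      simp [sign_neg hx0, sign_pos hy0]
  refine ⟨S, h6, h1.congr fun v hv => (h9 v hv).1, ?_, ?_, ?_⟩
  · intro v hv
    obtain ⟨ha, hb⟩ := h8 v hv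
    rcases h2 v hv with h | h
    · rw [h] at ha; have := le_abs_self (x v); linarith
    · rw [h] at ha; have := neg_le_abs (x v); linarith
  · intro v hv
    obtain ⟨ha, hb⟩ := h8 v hv
    rcases h2 v hv with h | h
    · rw [h] at hb; have := neg_le_abs (y v); linarith
    · rw [h] at hb; have := le_abs_self (y v); linarith
  · intro v hv
    obtain ⟨h10, h11⟩ := h9 v hv
    refine ⟨by rw [← h10, h11], ?_⟩
    rw [← h10]
    rcases h2 v hv with h | h <;> rw [h] <;> norm_num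

/-- maximality -/
lemma maxSet {T : Type*} [PartialOrder T] (x : lp (fun _ : T => ℝ) ∞) (lam ε : ℝ) (hlam : 0 < lam)
    (hε : 0 < ε) (hε2 : ε ≤ lam / 2) (M : ℕ)
    (hM : ∀ (s : T → ℝ) (S : Finset T), Red s S →
      (∀ v ∈ S, (s v = 1 ∨ s v = -1) ∧ lam / 2 ≤ s v * x v) → S.card ≤ M) (N : ℕ)
    (hN : ∀ k, N < k → k ≤ M → ε < lam - sq T k x) (S : Finset T)
    (hS : (S : Set T) ⊆ {v | lam - ε ≤ |x v|}) (hred : Red (fun v => ((SignType.sign (x v) : SignType) : ℝ)) S) :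
    S.card ≤ N + 1 := by
  by_contra hcon
  push Not at hcon
  obtain ⟨k, hk⟩ : ∃ k, S.card = k + 1 := ⟨S.card - 1, by omega⟩
  have hNk : N < k := by omega
  have hsgn : ∀ v ∈ S, (((SignType.sign (x v) : SignType) : ℝ) = 1 ∨ ((SignType.sign (x v) : SignType) : ℝ) = -1) ∧
      lam - ε ≤ ((SignType.sign (x v) : SignType) : ℝ) * x v := by
    intro v hv
    have h1 : lam - ε ≤ |x v| := hS hv
    have h2 : x v ≠ 0 := by
      intro h0; rw [h0, abs_zero] at h1; linarith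
    rcases lt_or_gt_of_ne h2 with h | h
    · simp only [sign_neg h]
      rw [abs_of_neg h] at h1
      refine ⟨by simp, by simpa using h1⟩
    · simp only [sign_pos h]
      rw [abs_of_pos h] at h1
      refine ⟨by simp, by simpa using h1⟩
  by_cases hkM : k ≤ M
  · have h1 := hN k hNk hkM
    have h2 := le_sq k x _ S hred (fun v hv => (hsgn v hv).1) hk.le
    have h3 : (S.card : ℝ) * (lam - ε) ≤ ∑ v ∈ S, ((SignType.sign (x v) : SignType) : ℝ) * x v := by
      have := Finset.card_nsmul_le_sum S (fun v => ((SignType.sign (x v) : SignType) : ℝ) * x v) (lam - ε)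
        (fun v hv => (hsgn v hv).2)
      rw [nsmul_eq_mul] at this
      exact this
    rw [hk] at h3
    push_cast at h3
    have h4 : (0 : ℝ) < (k : ℝ) + 1 := by positivity
    have h5 : ((k : ℝ) + 1) * (lam - ε) ≤ ((k : ℝ) + 1) * sq T k x := h3.trans h2
    have h6 := le_of_mul_le_mul_left h5 h4
    linarith
  · have h1 := hM _ S hred (fun v hv => ⟨(hsgn v hv).1, by have := (hsgn v hv).2; linarith⟩)
    omega

theorem main (T : Type*) [PartialOrder T] (hT : ∀ t : T, IsChain (· ≤ ·) (Set.Iic t)) :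
    ∃ p : Seminorm ℝ (pathSpan T), (∀ x, ‖x‖ ≤ 2 * p x) ∧ (∀ x, p x ≤ ‖x‖) ∧
      ¬ ∃ x y z : pathSpan T, p x = 1 ∧ p y = 1 ∧ p z = 1 ∧
        2 ≤ p (x - y) ∧ 2 ≤ p (y - z) ∧ 2 ≤ p (x - z) := by
  obtain ⟨p, hp1, hp2, hp3⟩ := convexNorm (X := pathSpan T) (fun n => (sq T n).comp (pathSpan T).subtype)
    (fun n x => by simpa using sq_le n (x : lp (fun _ : T => ℝ) ∞))
    (fun x => by simpa using sq_zero (x : lp (fun _ : T => ℝ) ∞))
  refine ⟨p, hp1, hp2, ?_⟩
  rintro ⟨x, y, z, hx, hy, hz, hxy, hyz, hxz⟩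
  have exy := hp3 x y hx hy hxy
  have eyz := hp3 y z hy hz hyz
  have exz := hp3 x z hx hz hxz
  simp only [Seminorm.comp_apply, Submodule.subtype_apply, Submodule.coe_sub] at exy eyz exz
  set X : lp (fun _ : T => ℝ) ∞ := (x : lp (fun _ : T => ℝ) ∞) with hXdef
  set Y : lp (fun _ : T => ℝ) ∞ := (y : lp (fun _ : T => ℝ) ∞) with hYdef
  set Z : lp (fun _ : T => ℝ) ∞ := (z : lp (fun _ : T => ℝ) ∞) with hZdef
  obtain ⟨lam, hlamdef⟩ : ∃ lam, lam = ‖X‖ := ⟨_, rfl⟩
  have hlam : 0 < lam := by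
    have h1 := hp2 x
    rw [hx] at h1
    have h2 : ‖x‖ = ‖X‖ := rfl
    rw [hlamdef, ← h2]
    linarith
  have hXl : ‖X‖ = lam := hlamdef.symm
  have hYl : ‖Y‖ = lam := by
    have := (exy 0).1
    rw [sq_zero, sq_zero] at this
    rw [← this, hXl]
  have hZl : ‖Z‖ = lam := by
    have := (exz 0).1
    rw [sq_zero, sq_zero] at this
    rw [← this, hXl]
  -- bounds
  obtain ⟨M₁, hM₁⟩ := bdd X x.2 (lam / 2) (by linarith)
  obtain ⟨M₂, hM₂⟩ := bdd Y y.2 (lam / 2) (by linarith)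
  obtain ⟨M₃, hM₃⟩ := bdd Z z.2 (lam / 2) (by linarith)
  obtain ⟨M, hMdef⟩ : ∃ M, M = max M₁ (max M₂ M₃) := ⟨_, rfl⟩
  have hMX : ∀ (s : T → ℝ) (S : Finset T), Red s S →
      (∀ v ∈ S, (s v = 1 ∨ s v = -1) ∧ lam / 2 ≤ s v * X v) → S.card ≤ M := fun s S h h' =>
    (hM₁ s S h h').trans (by rw [hMdef]; exact le_max_left _ _)
  have hMY : ∀ (s : T → ℝ) (S : Finset T), Red s S →
      (∀ v ∈ S, (s v = 1 ∨ s v = -1) ∧ lam / 2 ≤ s v * Y v) → S.card ≤ M := fun s S h h' =>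
    (hM₂ s S h h').trans (by rw [hMdef]; exact (le_max_left _ _).trans (le_max_right _ _))
  have hMZ : ∀ (s : T → ℝ) (S : Finset T), Red s S →
      (∀ v ∈ S, (s v = 1 ∨ s v = -1) ∧ lam / 2 ≤ s v * Z v) → S.card ≤ M := fun s S h h' =>
    (hM₃ s S h h').trans (by rw [hMdef]; exact (le_max_right _ _).trans (le_max_right _ _))
  classical
  let P : ℕ → Prop := fun n => sq T n X = lam
  have hP0 : P 0 := by
    show sq T 0 X = lam
    rw [sq_zero, hXl]
  obtain ⟨N, hN1, hN2⟩ : ∃ N, P N ∧ ∀ k, N < k → k ≤ M → ¬ P k := by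
    refine ⟨Nat.findGreatest P M, Nat.findGreatest_spec (Nat.zero_le M) hP0, fun k h1 h2 => ?_⟩
    exact Nat.findGreatest_is_greatest h1 h2
  have hlt : ∀ k, N < k → k ≤ M → 0 < lam - sq T k X := by
    intro k h1 h2
    have h3 := sq_le k X
    rw [hXl] at h3
    have h4 := hN2 k h1 h2
    have h5 : sq T k X < lam := lt_of_le_of_ne h3 h4
    linarith
  obtain ⟨ε, hε, hε2, hε3⟩ : ∃ ε : ℝ, 0 < ε ∧ ε ≤ lam / 2 ∧ ∀ k, N < k → k ≤ M → ε < lam - sq T k X := by
    have h1 : ∀ᶠ ε : ℝ in 𝓝[>] 0, ε ≤ lam / 2 :=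
      Filter.Eventually.filter_mono nhdsWithin_le_nhds
        ((continuous_id.tendsto (0 : ℝ)).eventually (Iic_mem_nhds (by simp only [id]; linarith)))
    have h2 : ∀ᶠ ε : ℝ in 𝓝[>] 0, ∀ k ∈ Finset.Ioc N M, ε < lam - sq T k X := by
      rw [Filter.eventually_all_finset]
      intro k hk
      rw [Finset.mem_Ioc] at hk
      exact Filter.Eventually.filter_mono nhdsWithin_le_nhds
        ((continuous_id.tendsto (0 : ℝ)).eventually (Iio_mem_nhds (by simp only [id]; exact hlt k hk.1 hk.2)))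
    have h3 : ∀ᶠ ε : ℝ in 𝓝[>] 0, 0 < ε := self_mem_nhdsWithin
    obtain ⟨ε, h4, h5, h6⟩ := (h1.and (h2.and h3)).exists
    exact ⟨ε, h6, h4, fun k h7 h8 => h5 k (by rw [Finset.mem_Ioc]; exact ⟨h7, h8⟩)⟩
  have hεY : ∀ k, N < k → k ≤ M → ε < lam - sq T k Y := fun k h1 h2 => by
    rw [← (exy k).1]; exact hε3 k h1 h2
  have hεZ : ∀ k, N < k → k ≤ M → ε < lam - sq T k Z := fun k h1 h2 => by
    rw [← (exz k).1]; exact hε3 k h1 h2
  have hN1' : sq T N X = lam := hN1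
  have hdxy : sq T N (X - Y) = 2 * lam := by
    rw [(exy N).2, ← (exy N).1, hN1']; ring
  have hdxz : sq T N (X - Z) = 2 * lam := by
    rw [(exz N).2, ← (exz N).1, hN1']; ring
  have hdyz : sq T N (Y - Z) = 2 * lam := by
    rw [(eyz N).2, ← (eyz N).1, ← (exy N).1, hN1']; ring
  obtain ⟨A, cA, rA, A1, A2, sA⟩ := pair X Y N lam ε hlam hε hε2 hXl hYl hdxy
  obtain ⟨B, cB, rB, B1, B3, sB⟩ := pair X Z N lam ε hlam hε hε2 hXl hZl hdxz
  obtain ⟨C, cC, rC, C2, C3, sC⟩ := pair Y Z N lam ε hlam hε hε2 hYl hZl hdyz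
  exact core hT (N + 1) (by omega) {v | lam - ε ≤ |X v|} {v | lam - ε ≤ |Y v|} {v | lam - ε ≤ |Z v|}
    (fun v => ((SignType.sign (X v) : SignType) : ℝ)) (fun v => ((SignType.sign (Y v) : SignType) : ℝ))
    (fun v => ((SignType.sign (Z v) : SignType) : ℝ))
    (fun S h1 h2 => maxSet X lam ε hlam hε hε2 M hMX N hε3 S h1 h2)
    (fun S h1 h2 => maxSet Y lam ε hlam hε hε2 M hMY N hεY S h1 h2)
    (fun S h1 h2 => maxSet Z lam ε hlam hε hε2 M hMZ N hεZ S h1 h2)
    A B C rA rB rC cA cB cC (fun v hv => A1 v hv) (fun v hv => A2 v hv) (fun v hv => B1 v hv) (fun v hv => B3 v hv)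
    (fun v hv => C2 v hv) (fun v hv => C3 v hv) sA sB sC

end Pool.Agent.TwoSep
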