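import Mathlib
set_option autoImplicit false
open scoped ENNReal

namespace Pool.Agent.TwoSep

/-- `S` is a finite reduced signed set: if `p` is the immediate predecessor of `v` inside `S`, then the signs
differ or `p` has another element of `S` above it which is incomparable to `v`. -/
def Red {T : Type*} [PartialOrder T] (s : T → ℝ) (S : Finset T) : Prop :=
  ∀ p ∈ S, ∀ v ∈ S, p < v → (∀ q ∈ S, ¬ (p < q ∧ q < v)) →
    s p ≠ s v ∨ ∃ w ∈ S, p < w ∧ ¬ w ≤ v ∧ ¬ v ≤ w

/-- the closed linear span, in the Banach space of bounded real functions on the partially ordered set `T`, of the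
indicator functions of those lower sets of `T` which are chains -/
noncomputable def pathSpan (T : Type*) [PartialOrder T] : Submodule ℝ (lp (fun _ : T => ℝ) ∞) :=
  (Submodule.span ℝ {x | ∃ I : Set T, IsLowerSet I ∧ IsChain (· ≤ ·) I ∧
    ∀ t, x t = Set.indicator I (fun _ => (1 : ℝ)) t}).topologicalClosure

end Pool.Agent.TwoSep
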