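import Mathlib
set_option autoImplicit false

namespace Pool.Agent.TwoSep

/-- some equivalent norm on `X` has no three unit vectors at pairwise distances at least `2` -/
def NoThree.{u} (X : Type u) [NormedAddCommGroup X] [NormedSpace ℝ X] : Prop :=
  ∃ (Y : Type u) (_ : NormedAddCommGroup Y) (_ : NormedSpace ℝ Y) (_ : X ≃L[ℝ] Y),
    ∀ x y z : Y, ‖x‖ = 1 → ‖y‖ = 1 → ‖z‖ = 1 → ¬ (2 ≤ ‖x - y‖ ∧ 2 ≤ ‖y - z‖ ∧ 2 ≤ ‖x - z‖)

/-- the span of the indicator functions of those lower sets of `T` which are chains -/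
def chainSpan.{u} (T : Type u) [PartialOrder T] : Submodule ℝ (T → ℝ) :=
  Submodule.span ℝ {g | ∃ I : Set T, IsLowerSet I ∧ IsChain (· ≤ ·) I ∧ g = Set.indicator I (fun _ => (1 : ℝ))}

/-- `X` is isomorphic to a space of bounded functions on `T` with the supremum norm, all of which are uniform limits of
functions in `chainSpan T` -/
def Embeds.{u, v} (X : Type v) [NormedAddCommGroup X] [NormedSpace ℝ X] (T : Type u) [PartialOrder T] : Prop :=
  ∃ (F : X →ₗ[ℝ] T → ℝ) (c C : ℝ), 0 < c ∧ (∀ x t, |F x t| ≤ C * ‖x‖) ∧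
    (∀ x, ∀ M : ℝ, 0 ≤ M → (∀ t, |F x t| ≤ M) → c * ‖x‖ ≤ M) ∧
    ∀ x, ∀ ε > 0, ∃ g ∈ chainSpan T, ∀ t, |F x t - g t| ≤ ε

/-- all the sets `{s | s ≤ t}` are chains -/
def TreeLike.{u} (T : Type u) [PartialOrder T] : Prop := ∀ t : T, IsChain (· ≤ ·) (Set.Iic t)

end Pool.Agent.TwoSep
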