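import Pool.Agent.Helper76.TwoSepDefs
set_option autoImplicit false
open scoped ENNReal Topology

namespace Pool.Agent.TwoSep

/-- A copy of a vector space, without its norm. -/
def Copy (X : Type*) : Type _ := X

instance (X : Type*) [NormedAddCommGroup X] : AddCommGroup (Copy X) :=
  inferInstanceAs (AddCommGroup X)

instance (X : Type*) [NormedAddCommGroup X] [NormedSpace ℝ X] : Module ℝ (Copy X) :=
  inferInstanceAs (Module ℝ X)

/-- MODULE E -/
theorem renorm.{u} {X : Type u} [NormedAddCommGroup X] [NormedSpace ℝ X] (p : Seminorm ℝ X) (c C : ℝ)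
    (hc : 0 < c) (h1 : ∀ x, c * ‖x‖ ≤ p x) (h2 : ∀ x, p x ≤ C * ‖x‖) :
    ∃ (Y : Type u) (_ : NormedAddCommGroup Y) (_ : NormedSpace ℝ Y) (e : X ≃L[ℝ] Y),
      ∀ x, ‖e x‖ = p x := by
  let q : Seminorm ℝ (Copy X) := p
  let g : AddGroupNorm (Copy X) :=
    { toFun := fun x => q x
      map_zero' := map_zero q
      add_le' := fun x y => map_add_le_add q x y
      neg' := fun x => map_neg_eq_map q x
      eq_zero_of_map_eq_zero' := by
        intro x hx
        have h3 := (h1 x).trans (le_of_eq hx)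
        have h4 := nonpos_of_mul_nonpos_right h3 hc
        exact norm_le_zero_iff.1 h4 }
  let i1 : NormedAddCommGroup (Copy X) := g.toNormedAddCommGroup
  have hnorm : ∀ x : Copy X, ‖x‖ = q x := fun _ => rfl
  let i2 : NormedSpace ℝ (Copy X) :=
    { norm_smul_le := fun a x => by
        rw [hnorm, hnorm]
        exact (map_smul_eq_mul q a x).le }
  let e0 : X ≃ₗ[ℝ] Copy X := LinearEquiv.refl ℝ X
  refine ⟨Copy X, i1, i2, e0.toContinuousLinearEquivOfBounds C c⁻¹ (fun x => h2 x) ?_,
    fun x => rfl⟩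
  intro x
  have h3 := h1 x
  rw [inv_mul_eq_div, le_div_iff₀ hc, mul_comm]
  exact h3

end Pool.Agent.TwoSep
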