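import Pool.Agent.Helper76.TwoSepDefs
set_option autoImplicit false
open scoped ENNReal Topology

namespace Pool.Agent.TwoSep

section

variable (T : Type*) [PartialOrder T]

/-- The span of the indicator functions of lower chains, as functions. -/
def fspan : Submodule ℝ (T → ℝ) :=
  Submodule.span ℝ {g | ∃ I : Set T, IsLowerSet I ∧ IsChain (· ≤ ·) I ∧
    g = Set.indicator I (fun _ => (1 : ℝ))}

variable {T}

theorem fspan_lift {g : T → ℝ} (hg : g ∈ fspan T) :
    ∃ x ∈ Submodule.span ℝ {x : lp (fun _ : T => ℝ) ∞ | ∃ I : Set T, IsLowerSet I ∧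
      IsChain (· ≤ ·) I ∧ ∀ t, x t = Set.indicator I (fun _ => (1 : ℝ)) t}, ∀ t, x t = g t := by
  induction hg using Submodule.span_induction with
  | mem g hg =>
    obtain ⟨I, h1, h2, rfl⟩ := hg
    have hmem : Memℓp (Set.indicator I (fun _ => (1 : ℝ))) ∞ := by
      apply memℓp_infty
      refine ⟨1, ?_⟩
      rintro _ ⟨t, rfl⟩
      by_cases ht : t ∈ I
      · simp [ht]
      · simp [ht]
    refine ⟨⟨_, hmem⟩, Submodule.subset_span ⟨I, h1, h2, fun t => rfl⟩, fun t => rfl⟩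
  | zero => exact ⟨0, Submodule.zero_mem _, fun t => rfl⟩
  | add g h _ _ ihg ihh =>
    obtain ⟨x, hx, hx'⟩ := ihg
    obtain ⟨y, hy, hy'⟩ := ihh
    refine ⟨x + y, Submodule.add_mem _ hx hy, fun t => ?_⟩
    rw [lp.coeFn_add, Pi.add_apply, Pi.add_apply, hx', hy']
  | smul a g _ ih =>
    obtain ⟨x, hx, hx'⟩ := ih
    refine ⟨a • x, Submodule.smul_mem _ a hx, fun t => ?_⟩
    rw [lp.coeFn_smul, Pi.smul_apply, Pi.smul_apply, hx']

theorem fspan_mul {g h : T → ℝ} (hg : g ∈ fspan T) (hh : h ∈ fspan T) : g * h ∈ fspan T := by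
  induction hg using Submodule.span_induction with
  | mem g hg =>
    obtain ⟨I, h1, h2, rfl⟩ := hg
    induction hh using Submodule.span_induction with
    | mem h hh =>
      obtain ⟨J, h3, h4, rfl⟩ := hh
      refine Submodule.subset_span ⟨I ∩ J, h1.inter h3, h2.mono Set.inter_subset_left, ?_⟩
      funext t
      by_cases ht : t ∈ I <;> by_cases ht' : t ∈ J <;> simp [ht, ht']
    | zero => rw [mul_zero]; exact Submodule.zero_mem _
    | add g h _ _ ihg ihh => rw [mul_add]; exact Submodule.add_mem _ ihg ihh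
    | smul a g _ ih => rw [mul_smul_comm]; exact Submodule.smul_mem _ a ih
  | zero => rw [zero_mul]; exact Submodule.zero_mem _
  | add g h _ _ ihg ihh => rw [add_mul]; exact Submodule.add_mem _ ihg ihh
  | smul a g _ ih => rw [smul_mul_assoc]; exact Submodule.smul_mem _ a ih

theorem fspan_indicator {V L : Set T} (hV : V.OrdConnected) (hL : IsLowerSet L)
    (hL' : IsChain (· ≤ ·) L) (hVL : V ⊆ L) :
    Set.indicator V (fun _ => (1 : ℝ)) ∈ fspan T := by
  set L1 : Set T := {t | ∃ u ∈ V, t ≤ u} with hL1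
  set L2 : Set T := L1 \ V with hL2
  have h1 : IsLowerSet L1 := by
    rintro a b hba ⟨u, hu, hau⟩
    exact ⟨u, hu, hba.trans hau⟩
  have h1' : L1 ⊆ L := by
    rintro a ⟨u, hu, hau⟩
    exact hL hau (hVL hu)
  have hVL1 : V ⊆ L1 := fun v hv => ⟨v, hv, le_rfl⟩
  have h2 : IsLowerSet L2 := by
    rintro a b hba ⟨ha, haV⟩
    refine ⟨h1 hba ha, ?_⟩
    intro hb
    obtain ⟨u, hu, hau⟩ := ha
    exact haV (hV.out hb hu ⟨hba, hau⟩)
  have h3 : Set.indicator V (fun _ => (1 : ℝ)) =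
      Set.indicator L1 (fun _ => (1 : ℝ)) - Set.indicator L2 (fun _ => (1 : ℝ)) := by
    funext t
    by_cases ht : t ∈ V
    · have h4 : t ∈ L1 := hVL1 ht
      have h5 : t ∉ L2 := fun h => h.2 ht
      simp [ht, h4, h5]
    · by_cases h4 : t ∈ L1
      · have h5 : t ∈ L2 := ⟨h4, ht⟩
        simp [ht, h4, h5]
      · have h5 : t ∉ L2 := fun h => h4 h.1
        simp [ht, h4, h5]
  rw [h3]
  exact Submodule.sub_mem _ (Submodule.subset_span ⟨L1, h1, hL'.mono h1', rfl⟩)
    (Submodule.subset_span ⟨L2, h2, hL'.mono (Set.sdiff_subset.trans h1'), rfl⟩)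

/-- Approximation on a finite union of convex sets. -/
theorem exists_approx {ι : Type*} (f : T → ℝ) (ε : ℝ) (V : ι → Set T) (a : ι → ℝ)
    (hV : ∀ i, Set.indicator (V i) (fun _ => (1 : ℝ)) ∈ fspan T)
    (hf : ∀ i, ∀ t ∈ V i, |f t - a i| ≤ ε) (s : Finset ι) :
    ∃ g ∈ fspan T, (∀ t, (∃ i ∈ s, t ∈ V i) → |f t - g t| ≤ ε) ∧
      ∀ t, (¬ ∃ i ∈ s, t ∈ V i) → g t = 0 := by
  classical
  induction s using Finset.induction_on with
  | empty =>
    refine ⟨0, Submodule.zero_mem _, ?_, fun t _ => rfl⟩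
    rintro t ⟨i, hi, _⟩
    simp at hi
  | insert i s hi ih =>
    obtain ⟨g, hg, hg1, hg2⟩ := ih
    set e : T → ℝ := Set.indicator (V i) (fun _ => (1 : ℝ)) with he
    refine ⟨a i • e + (g - e * g), ?_, ?_, ?_⟩
    · exact Submodule.add_mem _ (Submodule.smul_mem _ _ (hV i))
        (Submodule.sub_mem _ hg (fspan_mul (hV i) hg))
    · rintro t ⟨j, hj, hjt⟩
      by_cases ht : t ∈ V i
      · have h1 : e t = 1 := by simp [he, ht]
        have h2 : (a i • e + (g - e * g)) t = a i := by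
          simp [h1]
        rw [h2]
        exact hf i t ht
      · have h1 : e t = 0 := by simp [he, ht]
        have h2 : (a i • e + (g - e * g)) t = g t := by
          simp [h1]
        rw [h2]
        rw [Finset.mem_insert] at hj
        rcases hj with rfl | hj
        · exact absurd hjt ht
        · exact hg1 t ⟨j, hj, hjt⟩
    · intro t ht
      have h0 : t ∉ V i := fun h => ht ⟨i, Finset.mem_insert_self _ _, h⟩
      have h1 : e t = 0 := by simp [he, h0]
      have h2 : (a i • e + (g - e * g)) t = g t := by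
        simp [h1]
      rw [h2]
      apply hg2
      rintro ⟨j, hj, hjt⟩
      exact ht ⟨j, Finset.mem_insert_of_mem hj, hjt⟩

end

/-- MODULE F -/
theorem mem_pathSpan {T : Type*} [PartialOrder T] [TopologicalSpace T]
    (hV : ∀ t : T, ∀ U ∈ 𝓝 t, ∃ V ∈ 𝓝 t, V ⊆ U ∧ V.OrdConnected ∧
      ∃ L : Set T, IsLowerSet L ∧ IsChain (· ≤ ·) L ∧ V ⊆ L)
    (f : T → ℝ) (hf : Continuous f) (h0 : ∀ ε > 0, ∃ K : Set T, IsCompact K ∧ ∀ t ∉ K, |f t| < ε)
    (x : lp (fun _ : T => ℝ) ∞) (hx : ∀ t, x t = f t) : x ∈ pathSpan T := by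
  rw [pathSpan, ← SetLike.mem_coe, Submodule.topologicalClosure_coe, Metric.mem_closure_iff]
  intro ε hε
  obtain ⟨K, hK, hK'⟩ := h0 (ε / 2) (half_pos hε)
  have hU : ∀ t : T, {s | |f s - f t| < ε / 2} ∈ 𝓝 t := by
    intro t
    have h1 : Continuous fun s => |f s - f t| := (hf.sub continuous_const).abs
    apply (isOpen_lt h1 continuous_const).mem_nhds
    simp [hε]
  choose V hV1 hV2 hV3 L hL1 hL2 hL3 using fun t => hV t _ (hU t)
  obtain ⟨s, -, hs⟩ := hK.elim_nhds_subcover V (fun t _ => hV1 t)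
  obtain ⟨g, hg, hg1, hg2⟩ := exists_approx f (ε / 2) V f
    (fun t => fspan_indicator (hV3 t) (hL1 t) (hL2 t) (hL3 t))
    (fun t u hu => (hV2 t hu).le) s
  obtain ⟨y, hy, hy'⟩ := fspan_lift hg
  refine ⟨y, hy, ?_⟩
  rw [dist_eq_norm]
  refine lt_of_le_of_lt (lp.norm_le_of_forall_le (half_pos hε).le ?_) (half_lt_self hε)
  intro t
  rw [lp.coeFn_sub, Pi.sub_apply, hx, hy', Real.norm_eq_abs]
  by_cases ht : ∃ i ∈ s, t ∈ V i
  · exact hg1 t ht
  · rw [hg2 t ht, sub_zero]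
    apply (hK' t _).le
    intro htK
    obtain ⟨i, hi⟩ := Set.mem_iUnion.1 (hs htK)
    obtain ⟨hi1, hi2⟩ := Set.mem_iUnion.1 hi
    exact ht ⟨i, hi1, hi2⟩

end Pool.Agent.TwoSep
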