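import Pool.Agent.Helper76.TwoSepDefs
set_option autoImplicit false
open scoped ENNReal Topology

namespace Pool.Agent.TwoSep

/-- MODULE G -/
theorem lots_nhds {K : Type*} [LinearOrder K] [TopologicalSpace K] [OrderTopology K] (t : K)
    (U : Set K) (hU : U ∈ 𝓝 t) : ∃ V ∈ 𝓝 t, V ⊆ U ∧ V.OrdConnected ∧
      ∃ L : Set K, IsLowerSet L ∧ IsChain (· ≤ ·) L ∧ V ⊆ L := by
  obtain ⟨b, c, -, h2, h3⟩ := exists_Icc_mem_subset_of_mem_nhds hU
  exact ⟨Set.Icc b c, h2, h3, Set.ordConnected_Icc, Set.univ, isLowerSet_univ,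
    fun x _ y _ _ => le_total x y, Set.subset_univ _⟩

theorem tree_nhds {T : Type*} [PartialOrder T] [TopologicalSpace T] [T2Space T]
    (hT : ∀ t : T, IsChain (· ≤ ·) (Set.Iic t)) (hc : ∀ t : T, IsCompact (Set.Iic t))
    (ho : ∀ t : T, IsOpen (Set.Iic t)) (t : T) (U : Set T)
    (hU : U ∈ 𝓝 t) : ∃ V ∈ 𝓝 t, V ⊆ U ∧ V.OrdConnected ∧
      ∃ L : Set T, IsLowerSet L ∧ IsChain (· ≤ ·) L ∧ V ⊆ L := by
  obtain ⟨W, hWU, hW, htW⟩ := mem_nhds_iff.1 hU
  have hK : IsCompact (Set.Iic t \ W) := (hc t).diff hW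
  obtain ⟨s, hs1, hs2⟩ := hK.elim_nhds_subcover (fun v => Set.Iic v)
    (fun v _ => (ho v).mem_nhds Set.self_mem_Iic)
  by_cases hne : s.Nonempty
  · -- the largest element
    obtain ⟨m, hm, hmax⟩ := s.exists_maximal hne
    have hmax' : ∀ v ∈ s, v ≤ m := by
      intro v hv
      by_cases hvm : v = m
      · exact hvm.le
      · rcases hT t (hs1 v hv).1 (hs1 m hm).1 hvm with h | h
        · exact h
        · exact hmax hv h
    have hmt : m ≤ t := (hs1 m hm).1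
    have hmne : m ≠ t := by
      rintro rfl
      exact (hs1 m hm).2 htW
    have hclosed : IsClosed (Set.Iic m) := (hc m).isClosed
    refine ⟨Set.Iic t \ Set.Iic m, ?_, ?_, ?_, Set.Iic t, isLowerSet_Iic t, hT t,
      Set.sdiff_subset⟩
    · apply ((ho t).sdiff hclosed).mem_nhds
      refine ⟨Set.self_mem_Iic, ?_⟩
      intro h
      exact hmne (le_antisymm hmt h)
    · rintro v ⟨hv1, hv2⟩
      apply hWU
      by_contra hvW
      obtain ⟨i, hi⟩ := Set.mem_iUnion.1 (hs2 ⟨hv1, hvW⟩)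
      obtain ⟨hi1, hi2⟩ := Set.mem_iUnion.1 hi
      exact hv2 (le_trans hi2 (hmax' i hi1))
    · refine ⟨?_⟩
      rintro a ⟨_, ha2⟩ b ⟨hb1, _⟩ c ⟨hac, hcb⟩
      refine ⟨le_trans hcb hb1, ?_⟩
      intro hcm
      exact ha2 (le_trans hac hcm)
  · rw [Finset.not_nonempty_iff_eq_empty] at hne
    refine ⟨Set.Iic t, (ho t).mem_nhds Set.self_mem_Iic, ?_, Set.ordConnected_Iic, Set.Iic t,
      isLowerSet_Iic t, hT t, subset_rfl⟩
    intro v hv
    apply hWU
    by_contra hvW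
    have := hs2 ⟨hv, hvW⟩
    rw [hne] at this
    simp at this

end Pool.Agent.TwoSep
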