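import Pool.Agent.Helper76.TwoSepDefs
import Pool.Agent.Helper76.TwoSepDefs2
import Pool.Agent.Helper76.TwoSepD
import Pool.Agent.Helper76.TwoSepE
import Pool.Agent.Helper76.TwoSepF
import Pool.Agent.Helper76.TwoSepG
set_option autoImplicit false
open scoped ENNReal Topology ZeroAtInfty

namespace Pool.Agent.TwoSep

lemma noThree_of_embed.{u, v} (T : Type u) [PartialOrder T] (hT : ∀ t : T, IsChain (· ≤ ·) (Set.Iic t))
    (X : Type v) [NormedAddCommGroup X] [NormedSpace ℝ X] (j : X →L[ℝ] lp (fun _ : T => ℝ) ∞) (c : ℝ)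
    (hc : 0 < c) (h1 : ∀ x, c * ‖x‖ ≤ ‖j x‖) (h2 : ∀ x, j x ∈ pathSpan T) : NoThree X := by
  obtain ⟨p, hp1, hp2, hp3⟩ := main T hT
  let j' : X →ₗ[ℝ] pathSpan T := (j : X →ₗ[ℝ] lp (fun _ : T => ℝ) ∞).codRestrict (pathSpan T) h2
  have hj' : ∀ x, ‖j' x‖ = ‖j x‖ := fun x => rfl
  obtain ⟨Y, i1, i2, e, he⟩ := renorm (p.comp j') (c / 2) ‖j‖ (by positivity)
    (fun x => by
      have h3 := hp1 (j' x)
      have h4 := h1 x
      rw [hj'] at h3
      simp only [Seminorm.comp_apply]
      linarith)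
    (fun x => by
      have h3 := hp2 (j' x)
      rw [hj'] at h3
      simp only [Seminorm.comp_apply]
      exact h3.trans (j.le_opNorm x))
  refine ⟨Y, i1, i2, e, ?_⟩
  intro x y z hx hy hz h
  obtain ⟨x, rfl⟩ := e.surjective x
  obtain ⟨y, rfl⟩ := e.surjective y
  obtain ⟨z, rfl⟩ := e.surjective z
  rw [← map_sub e, ← map_sub e, ← map_sub e] at h
  simp only [he, Seminorm.comp_apply] at hx hy hz h
  rw [map_sub j', map_sub j', map_sub j'] at h
  exact hp3 ⟨j' x, j' y, j' z, hx, hy, hz, h⟩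

lemma noThree_of_fun.{u, v} (T : Type u) [PartialOrder T] (hT : ∀ t : T, IsChain (· ≤ ·) (Set.Iic t))
    (X : Type v) [NormedAddCommGroup X] [NormedSpace ℝ X] (F : X →ₗ[ℝ] (T → ℝ)) (c C : ℝ) (hc : 0 < c)
    (hF : ∀ f t, |F f t| ≤ C * ‖f‖) (hF' : ∀ f M, 0 ≤ M → (∀ t, |F f t| ≤ M) → c * ‖f‖ ≤ M)
    (hmem : ∀ f (x : lp (fun _ : T => ℝ) ∞), (∀ t, x t = F f t) → x ∈ pathSpan T) : NoThree X := by
  have hF2 : ∀ f t, |F f t| ≤ |C| * ‖f‖ := fun f t =>
    (hF f t).trans (mul_le_mul_of_nonneg_right (le_abs_self C) (norm_nonneg f))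
  have hbd : ∀ f : X, Memℓp (F f) ∞ := by
    intro f
    refine memℓp_infty ⟨|C| * ‖f‖, ?_⟩
    rintro _ ⟨t, rfl⟩
    exact hF2 f t
  let j0 : X →ₗ[ℝ] lp (fun _ : T => ℝ) ∞ :=
    { toFun := fun f => ⟨F f, hbd f⟩
      map_add' := by
        intro f g
        ext t
        simp only [map_add]
        rfl
      map_smul' := by
        intro c f
        ext t
        simp }
  have hj0 : ∀ f t, (j0 f : T → ℝ) t = F f t := fun f t => rfl
  let j : X →L[ℝ] lp (fun _ : T => ℝ) ∞ := j0.mkContinuous |C| (by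
    intro f
    exact lp.norm_le_of_forall_le (by positivity) (fun t => by rw [hj0]; exact hF2 f t))
  refine noThree_of_embed T hT X j c hc ?_ ?_
  · intro f
    refine hF' f _ (norm_nonneg _) ?_
    intro t
    have := lp.norm_apply_le_norm (p := ∞) (by simp) (j f) t
    exact this
  · intro f
    exact hmem f _ (fun t => rfl)

lemma mem_of_approx.{u} (T : Type u) [PartialOrder T] (x : lp (fun _ : T => ℝ) ∞) (f : T → ℝ) (hx : ∀ t, x t = f t)
    (h : ∀ ε > 0, ∃ g ∈ fspan T, ∀ t, |f t - g t| ≤ ε) : x ∈ pathSpan T := by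
  rw [pathSpan, ← SetLike.mem_coe, Submodule.topologicalClosure_coe, Metric.mem_closure_iff]
  intro ε hε
  obtain ⟨g, hg, hg1⟩ := h (ε / 2) (half_pos hε)
  obtain ⟨y, hy, hy'⟩ := fspan_lift hg
  refine ⟨y, hy, ?_⟩
  rw [dist_eq_norm]
  refine lt_of_le_of_lt (lp.norm_le_of_forall_le (half_pos hε).le ?_) (half_lt_self hε)
  intro t
  rw [lp.coeFn_sub, Pi.sub_apply, hx, hy', Real.norm_eq_abs]
  exact hg1 t

/-- Spaces of functions spanned by chains which are lower sets. -/
theorem chainLowerSets.{u, v} :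
    (∀ (T : Type u) [PartialOrder T], TreeLike T →
      ∀ (X : Type v) [NormedAddCommGroup X] [NormedSpace ℝ X], Embeds X T → NoThree X) ∧
    (∀ (T : Type u) [PartialOrder T] [TopologicalSpace T] [T2Space T], TreeLike T →
      (∀ t : T, IsCompact (Set.Iic t) ∧ IsOpen (Set.Iic t)) → NoThree C₀(T, ℝ)) ∧
    (∀ (K : Type u) [LinearOrder K] [TopologicalSpace K] [OrderTopology K] [CompactSpace K],
      NoThree C(K, ℝ)) := by
  refine ⟨fun T _ hT X _ _ h => ?_, ?_, ?_⟩
  · obtain ⟨F, c, C, hc, h1, h2, h3⟩ := h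
    exact noThree_of_fun T hT X F c C hc h1 h2 (fun f x hx => mem_of_approx T x (F f) hx (h3 f))
  · intro T _ _ _ hT hco
    have hc := fun t => (hco t).1
    have ho := fun t => (hco t).2
    refine noThree_of_fun T hT C₀(T, ℝ)
      { toFun := fun f => f, map_add' := fun f g => rfl, map_smul' := fun c f => rfl } 1 1 one_pos ?_ ?_ ?_
    · intro f t
      rw [one_mul]
      exact BoundedContinuousFunction.norm_coe_le_norm f.toBCF t
    · intro f C hC h
      rw [one_mul, ← ZeroAtInftyContinuousMap.norm_toBCF_eq_norm]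
      exact (BoundedContinuousFunction.norm_le hC).2 h
    · intro f x hx
      refine mem_pathSpan (fun t U hU => tree_nhds hT hc ho t U hU) f f.continuous ?_ x hx
      intro ε hε
      have h1 : ∀ᶠ t in Filter.cocompact T, |f t| < ε := by
        have h2 := (zero_at_infty f).eventually (Metric.ball_mem_nhds (0 : ℝ) hε)
        filter_upwards [h2] with t ht
        simpa [Real.dist_eq] using ht
      obtain ⟨K, hK, hK'⟩ := Filter.mem_cocompact.1 h1
      exact ⟨K, hK, fun t ht => hK' ht⟩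
  · intro K _ _ _ _
    refine noThree_of_fun K (fun t x _ y _ _ => le_total x y) C(K, ℝ)
      { toFun := fun f => f, map_add' := fun f g => rfl, map_smul' := fun c f => rfl } 1 1 one_pos ?_ ?_ ?_
    · intro f t
      rw [one_mul]
      exact f.norm_coe_le_norm t
    · intro f C hC h
      rw [one_mul]
      exact (ContinuousMap.norm_le f hC).2 h
    · intro f x hx
      refine mem_pathSpan (fun t U hU => lots_nhds t U hU) f f.continuous ?_ x hx
      intro ε hε
      exact ⟨Set.univ, isCompact_univ, fun t ht => absurd (Set.mem_univ t) ht⟩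

end Pool.Agent.TwoSep
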